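import Pool.Agent.W424.NC.TwoLow

/-!
The correlation length below the critical point, up to constants.
-/

set_option maxHeartbeats 1000000

namespace Pool.Agent.W424.NC

open H31K H974 Finset MeasureTheory Filter Topology

theorem edge_box (e : Edg) : ∃ N : ℕ, e ∈ boxE N := by
  obtain ⟨x, y, b⟩ := e
  refine ⟨x.natAbs + y.natAbs + 2, ?_⟩
  unfold boxE
  cases b
  · rw [mem_RE_false]; omega
  · rw [mem_RE_true]; omega

theorem reach_box {G : Set Edg} {u v : Vtx} (h : Reach G u v) :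
    ∃ N : ℕ, Reach (G ∩ ↑(boxE N)) u v := by
  induction h with
  | refl => exact ⟨0, Reach.refl _ _⟩
  | @tail v w _ hs ih =>
    obtain ⟨N, hN⟩ := ih
    obtain ⟨e, he, hcase⟩ := hs
    obtain ⟨M, hM⟩ := edge_box e
    refine ⟨max N M, ?_⟩
    have h1 : (G ∩ ↑(boxE N) : Set Edg) ⊆ G ∩ ↑(boxE (max N M)) :=
      Set.inter_subset_inter_right _ (by exact_mod_cast boxE_mono (le_max_left _ _))
    have h2 : e ∈ (↑(boxE (max N M)) : Set Edg) := by
      exact_mod_cast boxE_mono (le_max_right _ _) hM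
    exact (hN.mono h1).trans (Adj.reach ⟨e, ⟨he, h2⟩, hcase⟩)

theorem tau_tendsto (p : unitInterval) (x : Vtx) :
    Tendsto (fun N : ℕ => Pr (fun _ => (p:ℝ)) (boxE N) (TP x)) atTop (𝓝 (tau p x)) := by
  have h1 : (fun N : ℕ => Pr (fun _ => (p:ℝ)) (boxE N) (TP x)) =
      fun N : ℕ => (bondLaw p).real {ω | TP x (FF (boxE N) ω)} := by
    funext N
    exact (law_event p (boxE N) (TP x)).symm
  rw [h1]
  have hmono : Monotone
      (fun N : ℕ => {ω : sqLattice.edgeSet → Bool | TP x (FF (boxE N) ω)}) := by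
    intro N M hNM ω hω
    refine Reach.mono ?_ hω
    rw [FF_coe, FF_coe]
    exact Set.inter_subset_inter_right _ (by exact_mod_cast boxE_mono hNM)
  have hU : (⋃ N : ℕ, {ω : sqLattice.edgeSet → Bool | TP x (FF (boxE N) ω)}) =
      {ω | x ∈ cluster0 ω} := by
    ext ω
    simp only [Set.mem_iUnion, Set.mem_setOf_eq]
    constructor
    · rintro ⟨N, h⟩
      exact (open_reach ω _ _).mpr (Reach.mono (by rw [FF_coe]; exact Set.inter_subset_left) h)
    · intro h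
      obtain ⟨N, hN⟩ := reach_box (t10_reach h)
      exact ⟨N, by unfold TP; rw [FF_coe]; exact hN⟩
  have h2 := tendsto_measure_iUnion_atTop (μ := bondLaw p) hmono
  rw [hU] at h2
  exact (ENNReal.tendsto_toReal (measure_ne_top _ _)).comp h2

theorem tp_add {F : Finset Edg} {m n : ℤ} (h1 : TP (m, 0) F)
    (h2 : TP (n, 0) ((trl (-m) 0).mp F)) : TP (m + n, 0) F := by
  unfold TP at h1 h2 ⊢
  have h3 := (trl (- -m) (-0)).reach h2
  rw [← LSym.coe_mp, trl_trl, trl_ψ, trl_ψ] at h3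
  have e1 : (0:ℤ) + - -m = m := by ring
  have e2 : n + - -m = m + n := by ring
  have e3 : (0:ℤ) + -0 = 0 := by ring
  rw [e1, e2, e3] at h3
  exact h1.trans h3

theorem tau_super (p : unitInterval) (m n : ℕ) :
    tau p ((m:ℤ), 0) * tau p ((n:ℤ), 0) ≤ tau p ((m:ℤ) + n, 0) := by
  have ok := okq p.2.1 p.2.2
  have key : ∀ N : ℕ, Pr (fun _ => (p:ℝ)) (boxE N) (TP ((m:ℤ), 0)) *
      Pr (fun _ => (p:ℝ)) (boxE N) (TP ((n:ℤ), 0)) ≤ tau p ((m:ℤ) + n, 0) := by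
    intro N
    have s1 : boxE N ⊆ boxE (N + m) := boxE_mono (by omega)
    have hinc : ∀ (x : Vtx) (S : Finset Edg), IncrE S (TP x) := fun x S F G h _ hF =>
      Reach.mono (by exact_mod_cast h) hF
    have e1 : Pr (fun _ => (p:ℝ)) (boxE N) (TP ((m:ℤ), 0)) ≤
        Pr (fun _ => (p:ℝ)) (boxE (N + m)) (TP ((m:ℤ), 0)) :=
      Pr_mono_set ok s1 (hinc _ _)
    have e2 : Pr (fun _ => (p:ℝ)) (boxE N) (TP ((n:ℤ), 0)) ≤
        Pr (fun _ => (p:ℝ)) (boxE (N + m)) (fun F => TP ((n:ℤ), 0) ((trl (-(m:ℤ)) 0).mp F)) := by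
      rw [← LSym.pr]
      apply Pr_mono_set ok _ (hinc _ _)
      have h1 : boxE N = (trl (-(m:ℤ)) 0).mp (RE (m - N) (m + N) (-N) N) := by
        rw [trl_RE]; unfold boxE; congr 1 <;> ring
      rw [h1]
      apply LSym.mp_mono
      unfold boxE
      apply RE_subset <;> push_cast <;> omega
    have i1 := Pr_harris ok (S := boxE (N + m)) (A := TP ((m:ℤ), 0))
      (B := fun F => TP ((n:ℤ), 0) ((trl (-(m:ℤ)) 0).mp F)) (hinc _ _)
      (fun F G h _ hF => Reach.mono (by exact_mod_cast LSym.mp_mono _ h) hF)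
    have i2 : Pr (fun _ => (p:ℝ)) (boxE (N + m)) (fun F => TP ((m:ℤ), 0) F ∧
        TP ((n:ℤ), 0) ((trl (-(m:ℤ)) 0).mp F)) ≤
        Pr (fun _ => (p:ℝ)) (boxE (N + m)) (TP ((m:ℤ) + n, 0)) := by
      apply Pr_mono ok
      rintro F _ ⟨h1, h2⟩
      exact tp_add h1 h2
    calc _ ≤ Pr (fun _ => (p:ℝ)) (boxE (N + m)) (TP ((m:ℤ), 0)) *
        Pr (fun _ => (p:ℝ)) (boxE (N + m)) (fun F => TP ((n:ℤ), 0) ((trl (-(m:ℤ)) 0).mp F)) :=
          mul_le_mul e1 e2 (Pr_nonneg ok _ _) (Pr_nonneg ok _ _)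
      _ ≤ _ := i1
      _ ≤ _ := i2
      _ ≤ _ := tau_ge p _ _
  exact le_of_tendsto' ((tau_tendsto p _).mul (tau_tendsto p _)) key

theorem log_div_tendsto : Tendsto (fun n : ℕ => Real.log ((n:ℝ) + 1) / n) atTop (𝓝 0) := by
  have h1 := Real.tendsto_pow_log_div_mul_add_atTop 1 (-1) 1 one_ne_zero
  have h2 : Tendsto (fun n : ℕ => (n:ℝ) + 1) atTop atTop :=
    tendsto_atTop_add_const_right _ _ tendsto_natCast_atTop_atTop
  have h3 := h1.comp h2
  refine h3.congr (fun n => ?_)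
  simp only [Function.comp_apply, pow_one]
  congr 1
  ring

/-- The correlation length below the critical point. -/
theorem corr : ∃ c C : ℝ, 0 < c ∧ 0 < C ∧ ∀ p : unitInterval, (1/4 : ℝ) ≤ p → (p:ℝ) < 1/2 →
    ∃ ξ : ℝ, c * (1/2 - (p:ℝ))^(-(4/3) : ℝ) ≤ ξ ∧ ξ ≤ C * (1/2 - (p:ℝ))^(-(4/3) : ℝ) ∧
      Tendsto (fun n : ℕ => -Real.log (tau p ((n:ℤ), 0)) / n) atTop (𝓝 (1 / ξ)) := by
  obtain ⟨c1, C1, hc1, hC1, hup⟩ := tau_upper
  obtain ⟨c2, C2, hc2, hC2, hlow⟩ := tau_lower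
  refine ⟨1 / C2, 1 / c1, by positivity, by positivity, ?_⟩
  intro p hp hp1
  have hs0 : 0 < 1/2 - (p:ℝ) := by linarith
  obtain ⟨H, hH⟩ : ∃ H : ℝ, H = (1/2 - (p:ℝ))^(4/3 : ℝ) := ⟨_, rfl⟩
  have hH0 : 0 < H := by rw [hH]; positivity
  have hHi : (1/2 - (p:ℝ))^(-(4/3) : ℝ) = 1 / H := by
    rw [hH, Real.rpow_neg hs0.le]
    exact (one_div _).symm
  rw [hHi]
  have hnrm : ∀ n : ℕ, nrm ((n:ℤ), 0) = n := by
    intro n
    unfold nrm
    simp
  obtain ⟨u, hu⟩ : ∃ u : ℕ → ℝ, u = fun n : ℕ => -Real.log (tau p ((n:ℤ), 0)) := ⟨_, rfl⟩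
  have hun : ∀ n, u n = -Real.log (tau p ((n:ℤ), 0)) := fun n => by rw [hu]
  have hlow' : ∀ n : ℕ, c2 * ((n:ℝ) + 1)^(-(5/24) : ℝ) * Real.exp (-(C2 * (n * H))) ≤
      tau p ((n:ℤ), 0) := by
    intro n
    have := hlow p hp hp1.le ((n:ℤ), 0)
    rw [hnrm, ← hH] at this
    exact this
  have hup' : ∀ n : ℕ, tau p ((n:ℤ), 0) ≤ C1 * ((n:ℝ) + 1)^(-(5/24) : ℝ) *
      Real.exp (-(c1 * (n * H))) := by
    intro n
    have := hup p hp1.le ((n:ℤ), 0)
    rw [hnrm, ← hH] at this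
    exact this
  have hpos : ∀ n : ℕ, 0 < tau p ((n:ℤ), 0) := fun n =>
    lt_of_lt_of_le (by positivity) (hlow' n)
  have hsub : Subadditive u := by
    intro m n
    have h1 := tau_super p m n
    have h2 := Real.log_le_log (mul_pos (hpos m) (hpos n)) h1
    rw [Real.log_mul (hpos m).ne' (hpos n).ne'] at h2
    rw [hun, hun, hun]
    push_cast
    linarith
  have hnn : ∀ n : ℕ, 0 ≤ u n := by
    intro n
    rw [hun]
    have := Real.log_nonpos (hpos n).le (tau_le_one p ((n:ℤ), 0))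
    linarith
  have hbdd : BddBelow (Set.range fun n : ℕ => u n / n) := by
    refine ⟨0, ?_⟩
    rintro _ ⟨n, rfl⟩
    have := hnn n
    positivity
  have hlim := hsub.tendsto_lim hbdd
  obtain ⟨ℓ, hℓ⟩ : ∃ ℓ : ℝ, ℓ = hsub.lim := ⟨_, rfl⟩
  rw [← hℓ] at hlim
  -- lower bound for the limit
  have hinv : Tendsto (fun n : ℕ => ((n:ℝ))⁻¹) atTop (𝓝 0) := tendsto_inv_atTop_nhds_zero_nat
  have hl1 : c1 * H ≤ ℓ := by
    have h1 : Tendsto (fun n : ℕ => -Real.log C1 * ((n:ℝ))⁻¹ + c1 * H) atTop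
        (𝓝 (-Real.log C1 * 0 + c1 * H)) := (hinv.const_mul _).add_const _
    rw [mul_zero, zero_add] at h1
    refine le_of_tendsto_of_tendsto h1 hlim ?_
    filter_upwards [eventually_ge_atTop 1] with n hn
    have hn0 : (0:ℝ) < n := by exact_mod_cast hn
    have h2 : tau p ((n:ℤ), 0) ≤ C1 * Real.exp (-(c1 * (n * H))) := by
      refine (hup' n).trans ?_
      apply mul_le_mul_of_nonneg_right _ (Real.exp_pos _).le
      have h3 : ((n:ℝ) + 1)^(-(5/24) : ℝ) ≤ 1 :=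
        Real.rpow_le_one_of_one_le_of_nonpos (by linarith) (by norm_num)
      calc C1 * ((n:ℝ) + 1)^(-(5/24) : ℝ) ≤ C1 * 1 := mul_le_mul_of_nonneg_left h3 hC1.le
        _ = C1 := mul_one _
    have h4 := Real.log_le_log (hpos n) h2
    rw [Real.log_mul hC1.ne' (Real.exp_pos _).ne', Real.log_exp] at h4
    rw [hun, le_div_iff₀ hn0]
    have h5 : (-Real.log C1 * ((n:ℝ))⁻¹ + c1 * H) * n = -Real.log C1 + c1 * (n * H) := by
      field_simp
    rw [h5]
    linarith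
  have hl2 : ℓ ≤ C2 * H := by
    have h1 : Tendsto (fun n : ℕ => -Real.log c2 * ((n:ℝ))⁻¹ +
        5/24 * (Real.log ((n:ℝ) + 1) / n) + C2 * H) atTop
        (𝓝 (-Real.log c2 * 0 + 5/24 * 0 + C2 * H)) :=
      ((hinv.const_mul _).add (log_div_tendsto.const_mul _)).add_const _
    have e0 : -Real.log c2 * 0 + 5/24 * 0 + C2 * H = C2 * H := by ring
    rw [e0] at h1
    refine le_of_tendsto_of_tendsto hlim h1 ?_
    filter_upwards [eventually_ge_atTop 1] with n hn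
    have hn0 : (0:ℝ) < n := by exact_mod_cast hn
    have h4 := Real.log_le_log (by positivity) (hlow' n)
    rw [Real.log_mul (by positivity) (Real.exp_pos _).ne', Real.log_exp,
      Real.log_mul hc2.ne' (by positivity), Real.log_rpow (by linarith)] at h4
    rw [hun, div_le_iff₀ hn0]
    have h5 : (-Real.log c2 * ((n:ℝ))⁻¹ + 5/24 * (Real.log ((n:ℝ) + 1) / n) + C2 * H) * n =
        -Real.log c2 + 5/24 * Real.log ((n:ℝ) + 1) + C2 * (n * H) := by
      field_simp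
    rw [h5]
    linarith
  have hℓ0 : 0 < ℓ := lt_of_lt_of_le (by positivity) hl1
  refine ⟨1 / ℓ, ?_, ?_, ?_⟩
  · rw [div_mul_div_comm, one_mul]
    exact one_div_le_one_div_of_le hℓ0 hl2
  · rw [div_mul_div_comm, one_mul]
    exact one_div_le_one_div_of_le (by positivity) hl1
  · rw [one_div_one_div]
    refine hlim.congr (fun n => ?_)
    rw [hun]

end Pool.Agent.W424.NC
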