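import Pool.Agent.W424.NC.Stab
import Pool.Agent.H31R3.Kes.GLow

/-!
Lower bound for the mean cluster size below the critical point, up to constants.
-/

set_option maxHeartbeats 1000000

namespace Pool.Agent.W424.NC

open H31K H974 Finset

theorem sigma_lower : ∃ c : ℝ, 0 < c ∧ ∀ p : unitInterval, (p : ℝ) < 1/2 →
      ENNReal.ofReal (c * (1/2 - (p:ℝ))^(-(43/18 : ℝ))) ≤ sigma p := by
  obtain ⟨κ, b, hκ, hb, hst⟩ := armS
  obtain ⟨cc, Cc, hcc, hCc, harm⟩ := arm_crit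
  obtain ⟨C, hC⟩ : ∃ C : ℝ, C = 1 / cc := ⟨_, rfl⟩
  have hC0 : 0 < C := by rw [hC]; positivity
  have hD : 0 < κ^4 / (36 * C^2) * ((1/2 : ℝ)^(43/24 : ℝ) * b^(43/18 : ℝ)) := by positivity
  have hE : 0 < (b/4)^(43/18 : ℝ) := by positivity
  refine ⟨min (κ^4 / (36 * C^2) * ((1/2 : ℝ)^(43/24 : ℝ) * b^(43/18 : ℝ))) ((b/4)^(43/18 : ℝ)),
    lt_min hD hE, fun p hp => ?_⟩
  obtain ⟨s, hs⟩ : ∃ s : ℝ, s = 1/2 - (p:ℝ) := ⟨_, rfl⟩
  rw [← hs]
  have hs0 : 0 < s := by rw [hs]; linarith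
  have hsp : 0 < s^(-(43/18 : ℝ)) := Real.rpow_pos_of_pos hs0 _
  obtain ⟨x, hx⟩ : ∃ x : ℝ, x = (b/s)^(4/3 : ℝ) := ⟨_, rfl⟩
  have hbs0 : 0 < b/s := by positivity
  have hx0 : 0 < x := by rw [hx]; positivity
  have hxa : x^(3/4 : ℝ) = b/s := by
    rw [hx, ← Real.rpow_mul hbs0.le]
    norm_num
  by_cases hx4 : x < 4
  · -- small scale
    refine le_trans ?_ (sigma_ge_one p)
    rw [← ENNReal.ofReal_one]
    apply ENNReal.ofReal_le_ofReal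
    have h1 : b / s ≤ 4 := by
      rw [← hxa]
      calc x^(3/4 : ℝ) ≤ 4^(3/4 : ℝ) := Real.rpow_le_rpow hx0.le hx4.le (by norm_num)
        _ ≤ 4^(1:ℝ) := Real.rpow_le_rpow_of_exponent_le (by norm_num) (by norm_num)
        _ = 4 := Real.rpow_one _
    have h2 : b / 4 ≤ s := by
      rw [div_le_iff₀ hs0] at h1
      linarith
    have h3 : (b/4)^(43/18 : ℝ) ≤ s^(43/18 : ℝ) :=
      Real.rpow_le_rpow (by positivity) h2 (by norm_num)
    calc min (κ^4 / (36 * C^2) * ((1/2 : ℝ)^(43/24 : ℝ) * b^(43/18 : ℝ))) ((b/4)^(43/18 : ℝ)) *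
          s^(-(43/18 : ℝ)) ≤ s^(43/18 : ℝ) * s^(-(43/18 : ℝ)) :=
          mul_le_mul_of_nonneg_right ((min_le_right _ _).trans h3) hsp.le
      _ = 1 := by
          rw [← Real.rpow_add hs0]
          norm_num
  · push Not at hx4
    obtain ⟨r, hr, hr1, hr2, hr3⟩ : ∃ r : ℕ, 1 ≤ r ∧ ((4 * r : ℕ):ℝ) ≤ x ∧
        1/2 * x ≤ ((4 * r : ℕ):ℝ) ∧ 0 < r := by
      have h4 : 1 ≤ x/4 := by linarith
      refine ⟨⌊x/4⌋₊, Nat.le_floor (by exact_mod_cast h4), ?_, ?_, ?_⟩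
      · have := Nat.floor_le (show 0 ≤ x/4 by positivity)
        push_cast
        linarith
      · have h5 := Nat.lt_floor_add_one (x/4)
        have h6 : (1:ℝ) ≤ (⌊x/4⌋₊ : ℝ) := by
          have : 1 ≤ ⌊x/4⌋₊ := Nat.le_floor (by exact_mod_cast h4)
          exact_mod_cast this
        push_cast
        linarith
      · exact Nat.floor_pos.mpr h4
    have hn0 : (0:ℝ) < ((4 * r : ℕ):ℝ) := by exact_mod_cast (by omega : 0 < 4 * r)
    have hwin : |(p:ℝ) - 1/2| ≤ b * ((4 * r : ℕ):ℝ)^(-(3/4 : ℝ)) := by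
      rw [abs_sub_comm, abs_of_pos (by linarith), ← hs]
      rw [Real.rpow_neg hn0.le, ← div_eq_mul_inv, le_div_iff₀ (by positivity)]
      have h7 : ((4 * r : ℕ):ℝ)^(3/4 : ℝ) ≤ b/s := by
        rw [← hxa]
        exact Real.rpow_le_rpow hn0.le hr1 (by norm_num)
      rw [le_div_iff₀ hs0] at h7
      linarith
    obtain ⟨hW, -, hA⟩ := hst (4 * r) (by omega) p hwin
    have hb' : ((4 * r : ℕ):ℝ)^(-(5/48 : ℝ)) ≤ C * arm (1/2) (4 * r) := by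
      have h := (harm (4 * r) (by omega)).1
      rw [hC, one_div, ← div_eq_inv_mul, le_div_iff₀ hcc]
      linarith
    have hsum := gl_sum hr hW hA hC0 hb'
    refine le_trans (ENNReal.ofReal_le_ofReal ?_) (sigma_ge p (boxE (5 * r)) (boxV r))
    refine le_trans ?_ hsum
    have e0 : (2 - 2 * (5/48) : ℝ) = 43/24 := by norm_num
    rw [e0]
    have h8 : (1/2 * x)^(43/24 : ℝ) ≤ ((4 * r : ℕ):ℝ)^(43/24 : ℝ) :=
      Real.rpow_le_rpow (by positivity) hr2 (by norm_num)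
    have h9 : (1/2 * x)^(43/24 : ℝ) = (1/2 : ℝ)^(43/24 : ℝ) * (b^(43/18 : ℝ) * s^(-(43/18 : ℝ))) := by
      rw [Real.mul_rpow (by norm_num) hx0.le, hx, ← Real.rpow_mul hbs0.le]
      have e3 : (4/3 * (43/24) : ℝ) = 43/18 := by norm_num
      rw [e3, Real.div_rpow hb.le hs0.le, Real.rpow_neg hs0.le, div_eq_mul_inv (b^(43/18 : ℝ))]
    calc min (κ^4 / (36 * C^2) * ((1/2 : ℝ)^(43/24 : ℝ) * b^(43/18 : ℝ))) ((b/4)^(43/18 : ℝ)) *
          s^(-(43/18 : ℝ))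
        ≤ κ^4 / (36 * C^2) * ((1/2 : ℝ)^(43/24 : ℝ) * b^(43/18 : ℝ)) * s^(-(43/18 : ℝ)) :=
          mul_le_mul_of_nonneg_right (min_le_left _ _) hsp.le
      _ = κ^4 / (36 * C^2) * (1/2 * x)^(43/24 : ℝ) := by rw [h9]; ring
      _ ≤ κ^4 / (36 * C^2) * ((4 * r : ℕ):ℝ)^(43/24 : ℝ) :=
          mul_le_mul_of_nonneg_left h8 (by positivity)

end Pool.Agent.W424.NC
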