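import Pool.Agent.W424.NC.ArmUp

/-!
Upper bound for the two-point function, and the mean cluster size from above.
-/

set_option maxHeartbeats 1000000

namespace Pool.Agent.W424.NC

open H31K H974 Finset MeasureTheory

/-- The sup norm of a vertex. -/
def nrm (x : Vtx) : ℕ := max x.1.natAbs x.2.natAbs

theorem nrm_cases (x : Vtx) : (nrm x : ℤ) = |x.1| ∨ (nrm x : ℤ) = |x.2| := by
  unfold nrm
  rw [Int.abs_eq_natAbs, Int.abs_eq_natAbs]
  rcases max_choice x.1.natAbs x.2.natAbs with h | h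
  · left; rw [h]
  · right; rw [h]

theorem pr_arm_nblk {p : ℝ} {N M : ℕ} (hNM : N ≤ M - 1) (hM : 2 ≤ M)
    {S : Finset Edg} (hS : boxE (2 * M) ⊆ S) :
    Pr (fun _ => p) S (fun F => Arm N F ∧
      ¬ Blk ((M - 1 : ℕ) : ℤ) ((2 * M - 1 : ℕ) : ℤ) F) = arm p N *
      Pr (fun _ => p) (annE (M - 1) (2 * M - 1))
        (fun F => ¬ Blk ((M - 1 : ℕ) : ℤ) ((2 * M - 1 : ℕ) : ℤ) F) := by
  have s1 : boxE N ⊆ S := (boxE_mono (by omega)).trans hS
  have s2 : annE (M - 1) (2 * M - 1) ⊆ S := (annE_sub _ _).trans ((boxE_mono (by omega)).trans hS)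
  have hd : Disjoint (boxE N) (annE (M - 1) (2 * M - 1)) := by
    unfold annE
    apply Finset.disjoint_of_subset_left (boxE_mono hNM)
    exact Finset.disjoint_sdiff
  have h4 := Pr_indep (p := fun _ => p) s1 s2 hd (A := Arm N)
    (B := fun F => ¬ Blk ((M - 1 : ℕ) : ℤ) ((2 * M - 1 : ℕ) : ℤ) F)
    (fun F _ => Arm_local (Finset.Subset.refl _))
    (fun F _ => Blk_loc (by omega) (Finset.Subset.refl _) F)
  have h5 : Pr (fun _ => p) S (fun F => ¬ Blk ((M - 1 : ℕ) : ℤ) ((2 * M - 1 : ℕ) : ℤ) F) =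
      Pr (fun _ => p) (annE (M - 1) (2 * M - 1))
        (fun F => ¬ Blk ((M - 1 : ℕ) : ℤ) ((2 * M - 1 : ℕ) : ℤ) F) :=
    Pr_local s2 (fun F _ => Blk_loc (by omega) (Finset.Subset.refl _) F)
  rw [pr_Arm p s1, h5] at h4
  exact h4

theorem nblk_of_cluster {x : Vtx} {M : ℕ} (hM : 2 ≤ M)
    (hx : ((2 * M : ℕ) : ℤ) ≤ |x.1| ∨ ((2 * M : ℕ) : ℤ) ≤ |x.2|) {S : Finset Edg}
    (hS : boxE (2 * M) ⊆ S) {ω : sqLattice.edgeSet → Bool} (hω : x ∈ cluster0 ω) :
    ¬ Blk ((M - 1 : ℕ) : ℤ) ((2 * M - 1 : ℕ) : ℤ) (FF S ω) := by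
  have hreach := t10_reach hω
  have h1 : x.1 ≤ -((2 * M : ℕ) : ℤ) ∨ ((2 * M : ℕ) : ℤ) ≤ x.1 ∨ x.2 ≤ -((2 * M : ℕ) : ℤ) ∨
      ((2 * M : ℕ) : ℤ) ≤ x.2 := by
    rcases hx with h | h
    · rcases le_abs.mp h with h | h
      · exact Or.inr (Or.inl h)
      · exact Or.inl (by omega)
    · rcases le_abs.mp h with h | h
      · exact Or.inr (Or.inr (Or.inr h))
      · exact Or.inr (Or.inr (Or.inl (by omega)))
  obtain ⟨w, k1, k2, k3⟩ := first_exit (a := -((2 * M : ℕ) : ℤ)) (b := ((2 * M : ℕ) : ℤ))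
    (c := -((2 * M : ℕ) : ℤ)) (d := ((2 * M : ℕ) : ℤ)) (by unfold inR; simp only; omega) hreach h1
  have k4 : Reach (↑(FF S ω) : Set Edg) (0, 0) w := by
    refine k3.mono ?_
    rw [FF_coe]
    rintro e ⟨he1, he2⟩
    exact ⟨he1, hS he2⟩
  apply not_blk_of_arm (v := w) (by positivity) (by omega) k4
  push_cast at k2
  omega

/-- The two-point function beyond the correlation length. -/
theorem tau_far (p : unitInterval) {N : ℕ} (hN : 2 ≤ N) (he : eps (1 - (p:ℝ)) N ≤ 1/100)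
    {j : ℕ} (hj : 1 ≤ j) {x : Vtx} (hx : 3 * (2^j * N) ≤ nrm x) :
    tau p x ≤ (arm p N)^2 * (1/4)^(2^j) := by
  have h0 : (0:ℝ) ≤ p := p.2.1
  have h1 : (p:ℝ) ≤ 1 := p.2.2
  obtain ⟨M, hM⟩ : ∃ M : ℕ, M = 2^j * N := ⟨_, rfl⟩
  have hM2 : 2 * N ≤ M := by
    rw [hM]
    apply Nat.mul_le_mul_right
    calc 2 = 2^1 := rfl
      _ ≤ 2^j := Nat.pow_le_pow_right (by norm_num) hj
  have h3 := pr_nblk_pow h0 h1 hN he j (S := annE (2^j * N - 1) (2 * (2^j * N) - 1))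
    (Finset.Subset.refl _)
  rw [← hM] at h3 hx
  obtain ⟨x1, x2⟩ := x
  have hxc := nrm_cases (x1, x2)
  simp only at hxc
  obtain ⟨B, hB⟩ : ∃ B : Finset Edg, B = RE (x1 - N) (x1 + N) (x2 - N) (x2 + N) := ⟨_, rfl⟩
  obtain ⟨S, hS⟩ : ∃ S : Finset Edg, S = boxE (2 * M) ∪ B := ⟨_, rfl⟩
  have s1 : boxE (2 * M) ⊆ S := by rw [hS]; exact Finset.subset_union_left
  have s2 : B ⊆ S := by rw [hS]; exact Finset.subset_union_right
  have hd : Disjoint (boxE (2 * M)) B := by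
    rw [hB, Finset.disjoint_left]
    have hc : (3 * M : ℤ) ≤ |x1| ∨ (3 * M : ℤ) ≤ |x2| := by
      have : (3 * M : ℤ) ≤ nrm (x1, x2) := by exact_mod_cast hx
      rcases hxc with h | h
      · left; omega
      · right; omega
    have h1' : x1 ≤ -(3 * (M:ℤ)) ∨ 3 * (M:ℤ) ≤ x1 ∨ x2 ≤ -(3 * (M:ℤ)) ∨ 3 * (M:ℤ) ≤ x2 := by
      rcases hc with h | h
      · rcases le_abs.mp h with h | h
        · exact Or.inr (Or.inl h)
        · exact Or.inl (by omega)
      · rcases le_abs.mp h with h | h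
        · exact Or.inr (Or.inr (Or.inr h))
        · exact Or.inr (Or.inr (Or.inl (by omega)))
    unfold boxE
    rintro ⟨u, v, _ | _⟩ he1 he2
    · simp only [mem_RE_false] at he1 he2; push_cast at he1; omega
    · simp only [mem_RE_true] at he1 he2; push_cast at he1; omega
  have hAloc : ∀ F : Finset Edg, F ⊆ S → ((Arm N F ∧
      ¬ Blk ((M - 1 : ℕ) : ℤ) ((2 * M - 1 : ℕ) : ℤ) F) ↔ (Arm N (F ∩ boxE (2 * M)) ∧
      ¬ Blk ((M - 1 : ℕ) : ℤ) ((2 * M - 1 : ℕ) : ℤ) (F ∩ boxE (2 * M)))) := by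
    intro F _
    rw [← Arm_local (boxE_mono (show N ≤ 2 * M by omega)), ← Blk_loc (by omega)
      ((annE_sub _ _).trans (boxE_mono (by omega)))]
  have hBloc : ∀ F : Finset Edg, F ⊆ S → (Arm N ((trl (-x1) (-x2)).mp F) ↔
      Arm N ((trl (-x1) (-x2)).mp (F ∩ B))) := by
    intro F _
    rw [LSym.mp_inter]
    have e3 : (trl (-x1) (-x2)).mp B = boxE N := by
      rw [hB, trl_RE]; unfold boxE; congr 1 <;> ring
    rw [e3]
    exact Arm_local (Finset.Subset.refl _)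
  have h5 := Pr_indep (p := fun _ => (p:ℝ)) s1 s2 hd
    (A := fun F => Arm N F ∧ ¬ Blk ((M - 1 : ℕ) : ℤ) ((2 * M - 1 : ℕ) : ℤ) F)
    (B := fun F => Arm N ((trl (-x1) (-x2)).mp F)) hAloc hBloc
  have h6 := pr_arm_nblk (p := (p:ℝ)) (N := N) (M := M) (by omega) (by omega) s1
  have h7 := pr_shift_arm (p:ℝ) (x1 := x1) (x2 := x2) (n := N) (S := S) (by rw [← hB]; exact s2)
  rw [h6, h7] at h5
  have hbig : 2 * (N:ℤ) < |x1| ∨ 2 * (N:ℤ) < |x2| := by
    have : (3 * M : ℤ) ≤ nrm (x1, x2) := by exact_mod_cast hx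
    rcases hxc with h | h
    · left; omega
    · right; omega
  have hbig2 : ((2 * M : ℕ) : ℤ) ≤ |x1| ∨ ((2 * M : ℕ) : ℤ) ≤ |x2| := by
    have : (3 * M : ℤ) ≤ nrm (x1, x2) := by exact_mod_cast hx
    rcases hxc with h | h
    · left; push_cast; omega
    · right; push_cast; omega
  have h8 : tau p (x1, x2) ≤ (bondLaw p).real {ω | (fun F => (Arm N F ∧
      ¬ Blk ((M - 1 : ℕ) : ℤ) ((2 * M - 1 : ℕ) : ℤ) F) ∧
      Arm N ((trl (-x1) (-x2)).mp F)) (FF S ω)} := by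
    refine measureReal_mono (fun ω hω => ?_)
    have t1 := t10_sub hbig ((boxE_mono (show N ≤ 2 * M by omega)).trans s1)
      (by rw [← hB]; exact s2) hω
    have t2 := nblk_of_cluster (x := (x1, x2)) (M := M) (by omega) hbig2 s1 hω
    exact ⟨⟨t1.1, t2⟩, t1.2⟩
  rw [law_event p S (fun F => (Arm N F ∧
      ¬ Blk ((M - 1 : ℕ) : ℤ) ((2 * M - 1 : ℕ) : ℤ) F) ∧
      Arm N ((trl (-x1) (-x2)).mp F)), h5] at h8
  have ha := arm_nonneg h0 h1 N
  calc tau p (x1, x2) ≤ _ := h8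
    _ = (arm p N)^2 * Pr (fun _ => (p:ℝ)) (annE (M - 1) (2 * M - 1))
        (fun F => ¬ Blk ((M - 1 : ℕ) : ℤ) ((2 * M - 1 : ℕ) : ℤ) F) := by ring
    _ ≤ _ := mul_le_mul_of_nonneg_left h3 (by positivity)

/-- Power bound for the two-point function at and below the critical point. -/
theorem tau_near : ∃ C : ℝ, 1 ≤ C ∧ ∀ p : unitInterval, (p:ℝ) ≤ 1/2 → ∀ x : Vtx,
      tau p x ≤ C * ((nrm x : ℝ) + 1)^(-(5/24) : ℝ) := by
  obtain ⟨cc, C0, hcc, hC0, h⟩ := arm_crit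
  refine ⟨8 * C0^2 + 3, by nlinarith [sq_nonneg C0], ?_⟩
  intro p hp x
  obtain ⟨r, hr⟩ : ∃ r : ℕ, r = nrm x := ⟨_, rfl⟩
  rw [← hr]
  have hp0 : (0:ℝ) ≤ p := p.2.1
  have hr0 : (0:ℝ) < (r:ℝ) + 1 := by positivity
  by_cases h3 : r ≤ 2
  · have h4 : (1:ℝ)/3 ≤ ((r:ℝ) + 1)^(-(5/24) : ℝ) := by
      have h5 : (r:ℝ) + 1 ≤ 3 := by
        have : (r:ℝ) ≤ 2 := by exact_mod_cast h3
        linarith
      calc (1:ℝ)/3 = (3:ℝ)^(-1:ℝ) := by rw [Real.rpow_neg_one]; norm_num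
        _ ≤ (3:ℝ)^(-(5/24) : ℝ) :=
            Real.rpow_le_rpow_of_exponent_le (by norm_num) (by norm_num)
        _ ≤ ((r:ℝ) + 1)^(-(5/24) : ℝ) :=
            Real.rpow_le_rpow_of_nonpos hr0 h5 (by norm_num)
    have h6 := tau_le_one p x
    have h7 : 0 ≤ 8 * C0^2 * ((r:ℝ) + 1)^(-(5/24) : ℝ) := by positivity
    nlinarith
  · have h8 : 1 ≤ (r-1)/2 := by omega
    have h9 : r + 1 ≤ 8 * ((r-1)/2) := by omega
    have hxc := nrm_cases x
    rw [← hr] at hxc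
    have h10 : 2 * (((r-1)/2 : ℕ):ℤ) < |x.1| ∨ 2 * (((r-1)/2 : ℕ):ℤ) < |x.2| := by
      rcases hxc with h | h
      · left; omega
      · right; omega
    have h11 := tau_le_arm_sq p h10
    obtain ⟨m, hm⟩ : ∃ m : ℕ, m = (r-1)/2 := ⟨_, rfl⟩
    rw [← hm] at h8 h9 h11
    have hm0 : (0:ℝ) < m := by exact_mod_cast (by omega : 0 < m)
    have h12 : arm p m ≤ C0 * (m:ℝ)^(-(5/48) : ℝ) :=
      (arm_mono_param hp0 hp (by norm_num) m).trans (h m h8).2
    have h13 : (arm p m)^2 ≤ (C0 * (m:ℝ)^(-(5/48) : ℝ))^2 :=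
      pow_le_pow_left₀ (arm_nonneg hp0 (by linarith) m) h12 2
    have h14 : (C0 * (m:ℝ)^(-(5/48) : ℝ))^2 = C0^2 * (m:ℝ)^(-(5/24) : ℝ) := by
      rw [mul_pow, ← Real.rpow_natCast ((m:ℝ)^(-(5/48) : ℝ)), ← Real.rpow_mul hm0.le]
      norm_num
    have h15 : (m:ℝ)^(-(5/24) : ℝ) ≤ (((r:ℝ)+1)/8)^(-(5/24) : ℝ) := by
      apply Real.rpow_le_rpow_of_nonpos (by positivity) _ (by norm_num)
      have : ((r + 1 : ℕ):ℝ) ≤ ((8 * m : ℕ) : ℝ) := by exact_mod_cast h9
      push_cast at this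
      linarith
    have h16 : (((r:ℝ)+1)/8)^(-(5/24) : ℝ) ≤ 8 * ((r:ℝ)+1)^(-(5/24) : ℝ) := by
      rw [Real.div_rpow hr0.le (by norm_num)]
      rw [div_eq_mul_inv, mul_comm]
      apply mul_le_mul_of_nonneg_right _ (by positivity)
      rw [← Real.rpow_neg (by norm_num), neg_neg]
      calc (8:ℝ)^(5/24 : ℝ) ≤ (8:ℝ)^(1:ℝ) :=
            Real.rpow_le_rpow_of_exponent_le (by norm_num) (by norm_num)
        _ = 8 := Real.rpow_one _
    have h17 : 0 ≤ ((r:ℝ)+1)^(-(5/24) : ℝ) := by positivity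
    calc tau p x ≤ (arm p m)^2 := h11
      _ ≤ C0^2 * (m:ℝ)^(-(5/24) : ℝ) := h13.trans h14.le
      _ ≤ C0^2 * (8 * ((r:ℝ)+1)^(-(5/24) : ℝ)) :=
          mul_le_mul_of_nonneg_left (h15.trans h16) (by positivity)
      _ ≤ _ := by nlinarith

theorem mul_exp_le2 (y : ℝ) : y * Real.exp (-(y/6)) ≤ 12 * Real.exp (-(y/12)) := by
  have h1 : y / 12 ≤ Real.exp (y / 12) := by
    have := Real.add_one_le_exp (y / 12)
    linarith
  have h2 : Real.exp (-(y/6)) = Real.exp (-(y/12)) * Real.exp (-(y/12)) := by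
    rw [← Real.exp_add]; congr 1; ring
  have h3 : Real.exp (y/12) * Real.exp (-(y/12)) = 1 := by
    rw [← Real.exp_add]; simp
  have h4 : 0 < Real.exp (-(y/12)) := Real.exp_pos _
  rw [h2]
  have h5 : y * Real.exp (-(y/12)) ≤ 12 := by
    calc y * Real.exp (-(y/12)) = 12 * ((y/12) * Real.exp (-(y/12))) := by ring
      _ ≤ 12 * (Real.exp (y/12) * Real.exp (-(y/12))) := by
          apply mul_le_mul_of_nonneg_left _ (by norm_num)
          exact mul_le_mul_of_nonneg_right h1 h4.le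
      _ = 12 := by rw [h3]; ring
  calc y * (Real.exp (-(y/12)) * Real.exp (-(y/12))) =
        (y * Real.exp (-(y/12))) * Real.exp (-(y/12)) := by ring
    _ ≤ _ := mul_le_mul_of_nonneg_right h5 h4.le

/-- Upper bound for the two-point function at and below the critical point. -/
theorem tau_upper : ∃ c C : ℝ, 0 < c ∧ 0 < C ∧ ∀ p : unitInterval, (p:ℝ) ≤ 1/2 → ∀ x : Vtx,
    tau p x ≤ C * ((nrm x : ℝ) + 1)^(-(5/24) : ℝ) *
      Real.exp (-(c * (nrm x * (1/2 - (p:ℝ))^(4/3 : ℝ)))) := by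
  obtain ⟨E, hE, hfar⟩ := farN
  obtain ⟨cc, Cc, hcc, hCc, harm⟩ := arm_crit
  obtain ⟨C1, hC1, hnear⟩ := tau_near
  refine ⟨1 / (12 * E), 8 * C1 + 24 * Cc^2, by positivity, by positivity, ?_⟩
  intro p hp x
  have hp0 : (0:ℝ) ≤ p := p.2.1
  obtain ⟨r, hr⟩ : ∃ r : ℕ, r = nrm x := ⟨_, rfl⟩
  have hcr := hnear p hp x
  rw [← hr] at hcr ⊢
  have hr0 : (0:ℝ) ≤ r := Nat.cast_nonneg _
  have hr1 : (0:ℝ) < (r:ℝ) + 1 := by positivity
  have hpn : 0 < ((r:ℝ) + 1)^(-(5/24) : ℝ) := by positivity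
  rcases hp.eq_or_lt with heq | hlt
  · rw [heq, sub_self, Real.zero_rpow (by norm_num), mul_zero, mul_zero, neg_zero, Real.exp_zero,
      mul_one]
    have h1 : 0 < ((r:ℝ) + 1)^(-(5/24) : ℝ) * (7 * C1 + 24 * Cc^2) := by positivity
    nlinarith
  · obtain ⟨N, hN2, hNE, hN1, heps⟩ := hfar p hp0 hlt
    obtain ⟨t, ht⟩ : ∃ t : ℝ, t = (1/2 - (p:ℝ))^(4/3 : ℝ) := ⟨_, rfl⟩
    have ht0 : 0 < t := by rw [ht]; exact Real.rpow_pos_of_pos (by linarith) _
    rw [← ht] at hNE hN1 ⊢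
    have hNr : (0:ℝ) < N := by
      have : 0 < N := by omega
      exact_mod_cast this
    rcases le_or_gt r (12 * N) with hle | hgt
    · have h1 : Real.exp (-1) ≤ Real.exp (-(1 / (12 * E) * (r * t))) := by
        apply Real.exp_le_exp.mpr
        have h2 : (r:ℝ) * t ≤ 12 * E := by
          have : (r:ℝ) ≤ 12 * N := by exact_mod_cast hle
          calc (r:ℝ) * t ≤ (12 * N) * t := mul_le_mul_of_nonneg_right this ht0.le
            _ = 12 * (N * t) := by ring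
            _ ≤ 12 * E := by linarith
        have h3 : 1 / (12 * E) * (r * t) ≤ 1 / (12 * E) * (12 * E) :=
          mul_le_mul_of_nonneg_left h2 (by positivity)
        have h4 : 1 / (12 * E) * (12 * E) = 1 := by field_simp
        linarith
      have h5 : (1/8 : ℝ) ≤ Real.exp (-1) := by
        rw [Real.exp_neg, one_div]
        apply inv_anti₀ (Real.exp_pos _)
        have := Real.exp_one_lt_d9
        linarith
      calc tau p x ≤ C1 * ((r:ℝ) + 1)^(-(5/24) : ℝ) := hcr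
        _ = (8 * C1 * ((r:ℝ) + 1)^(-(5/24) : ℝ)) * (1/8) := by ring
        _ ≤ (8 * C1 * ((r:ℝ) + 1)^(-(5/24) : ℝ)) * Real.exp (-(1 / (12 * E) * (r * t))) :=
            mul_le_mul_of_nonneg_left (h5.trans h1) (by positivity)
        _ ≤ _ := by
            apply mul_le_mul_of_nonneg_right _ (Real.exp_pos _).le
            apply mul_le_mul_of_nonneg_right _ hpn.le
            have : 0 ≤ 24 * Cc^2 := by positivity
            linarith
    · obtain ⟨q, hq⟩ : ∃ q : ℕ, q = r / (3 * N) := ⟨_, rfl⟩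
      have hq2 : 2 ≤ q := by
        rw [hq, Nat.le_div_iff_mul_le (by omega)]
        omega
      obtain ⟨j, hj⟩ : ∃ j : ℕ, j = Nat.log 2 q := ⟨_, rfl⟩
      have hj1 : 1 ≤ j := by
        rw [hj]
        exact Nat.le_log_of_pow_le (by norm_num) (by omega)
      have hj2 : 2^j ≤ q := by rw [hj]; exact Nat.pow_log_le_self 2 (by omega)
      have hj3 : q < 2^(j+1) := by rw [hj]; exact Nat.lt_pow_succ_log_self (by norm_num) q
      have h3 : q * (3 * N) ≤ r := by rw [hq]; exact Nat.div_mul_le_self r (3*N)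
      have h4 : r < (q + 1) * (3 * N) := by
        have := Nat.lt_mul_div_succ r (show 0 < 3 * N by omega)
        rw [← hq] at this
        calc r < 3 * N * (q + 1) := this
          _ = (q + 1) * (3 * N) := by ring
      have h5 : 3 * (2^j * N) ≤ nrm x := by
        rw [← hr]
        calc 3 * (2^j * N) = 2^j * (3 * N) := by ring
          _ ≤ q * (3 * N) := Nat.mul_le_mul_right _ hj2
          _ ≤ r := h3
      have h6 := tau_far p hN2 heps hj1 h5
      obtain ⟨y, hy⟩ : ∃ y : ℝ, y = (r:ℝ) / N := ⟨_, rfl⟩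
      have hrpos : (0:ℝ) < r := by
        have : 0 < r := by omega
        exact_mod_cast this
      have hy1 : 1 ≤ y := by
        rw [hy, le_div_iff₀ hNr, one_mul]
        have : N ≤ r := by omega
        exact_mod_cast this
      have h7 : y / 6 ≤ (2:ℝ)^j := by
        have : r ≤ 2^j * (6 * N) := by
          have h8 : (q + 1) * (3 * N) ≤ 2^(j+1) * (3 * N) := Nat.mul_le_mul_right _ hj3
          have e : 2^(j+1) * (3 * N) = 2^j * (6 * N) := by ring
          omega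
        have h8 : (r:ℝ) ≤ 2^j * (6 * N) := by exact_mod_cast this
        rw [hy, div_div, div_le_iff₀ (by positivity)]
        linarith
      have h8 := quarter_pow_le h7
      have h9 : (N:ℝ)^(-(5/24) : ℝ) ≤ (2 * y) * ((r:ℝ) + 1)^(-(5/24) : ℝ) := by
        have e : (N:ℝ)^(-(5/24) : ℝ) = (((r:ℝ) + 1) / N)^(5/24 : ℝ) *
            ((r:ℝ) + 1)^(-(5/24) : ℝ) := by
          rw [Real.div_rpow hr1.le hNr.le, Real.rpow_neg hr1.le, Real.rpow_neg hNr.le]
          field_simp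
        rw [e]
        apply mul_le_mul_of_nonneg_right _ hpn.le
        have hz1 : 1 ≤ ((r:ℝ) + 1) / N := by
          rw [le_div_iff₀ hNr, one_mul]
          have : N ≤ r := by omega
          have : (N:ℝ) ≤ r := by exact_mod_cast this
          linarith
        calc (((r:ℝ) + 1) / N)^(5/24 : ℝ) ≤ (((r:ℝ) + 1) / N)^(1:ℝ) :=
              Real.rpow_le_rpow_of_exponent_le hz1 (by norm_num)
          _ = ((r:ℝ) + 1) / N := Real.rpow_one _
          _ ≤ 2 * y := by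
              rw [hy, ← mul_div_assoc]
              apply div_le_div_of_nonneg_right _ hNr.le
              have : (1:ℝ) ≤ r := by
                have : 1 ≤ r := by omega
                exact_mod_cast this
              linarith
      have h10 : (arm p N)^2 ≤ Cc^2 * ((2 * y) * ((r:ℝ) + 1)^(-(5/24) : ℝ)) := by
        have i1 : arm p N ≤ Cc * (N:ℝ)^(-(5/48) : ℝ) :=
          (arm_mono_param hp0 hp (by norm_num) N).trans (harm N (by omega)).2
        have i2 := pow_le_pow_left₀ (arm_nonneg hp0 (by linarith) N) i1 2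
        have i3 : (Cc * (N:ℝ)^(-(5/48) : ℝ))^2 = Cc^2 * (N:ℝ)^(-(5/24) : ℝ) := by
          rw [mul_pow, ← Real.rpow_natCast ((N:ℝ)^(-(5/48) : ℝ)), ← Real.rpow_mul hNr.le]
          norm_num
        rw [i3] at i2
        exact i2.trans (mul_le_mul_of_nonneg_left h9 (by positivity))
      have h11 : Real.exp (-(y/12)) ≤ Real.exp (-(1 / (12 * E) * (r * t))) := by
        apply Real.exp_le_exp.mpr
        have h12 : (r:ℝ) * t ≤ E * y := by
          calc (r:ℝ) * t = y * (N * t) := by rw [hy]; field_simp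
            _ ≤ y * E := mul_le_mul_of_nonneg_left hNE (by linarith)
            _ = E * y := mul_comm _ _
        have h13 : 1 / (12 * E) * (r * t) ≤ 1 / (12 * E) * (E * y) :=
          mul_le_mul_of_nonneg_left h12 (by positivity)
        have h14 : 1 / (12 * E) * (E * y) = y / 12 := by field_simp
        linarith
      calc tau p x ≤ (arm p N)^2 * (1/4)^(2^j) := h6
        _ ≤ (Cc^2 * ((2 * y) * ((r:ℝ) + 1)^(-(5/24) : ℝ))) * Real.exp (-(y/6)) :=
            mul_le_mul h10 h8 (by positivity) (by positivity)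
        _ = 2 * Cc^2 * ((r:ℝ) + 1)^(-(5/24) : ℝ) * (y * Real.exp (-(y/6))) := by ring
        _ ≤ 2 * Cc^2 * ((r:ℝ) + 1)^(-(5/24) : ℝ) * (12 * Real.exp (-(y/12))) :=
            mul_le_mul_of_nonneg_left (mul_exp_le2 y) (by positivity)
        _ = 24 * Cc^2 * ((r:ℝ) + 1)^(-(5/24) : ℝ) * Real.exp (-(y/12)) := by ring
        _ ≤ 24 * Cc^2 * ((r:ℝ) + 1)^(-(5/24) : ℝ) * Real.exp (-(1 / (12 * E) * (r * t))) :=
            mul_le_mul_of_nonneg_left h11 (by positivity)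
        _ ≤ _ := by
            apply mul_le_mul_of_nonneg_right _ (Real.exp_pos _).le
            apply mul_le_mul_of_nonneg_right _ hpn.le
            linarith

/-- Upper bound for the mean cluster size. -/
theorem sigma_upper : ∃ C : ℝ, 0 < C ∧ ∀ p : unitInterval,
    (p : ℝ) < 1/2 → sigma p ≤ ENNReal.ofReal (C * (1/2 - (p:ℝ))^(-(43/18) : ℝ)) := by
  obtain ⟨c, C, hc, hC, h⟩ := tau_upper
  obtain ⟨K, hK⟩ : ∃ K : ℝ, K = 8 * C * (1 + 2 / c) * Real.exp (c / 2) := ⟨_, rfl⟩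
  have hK0 : 0 < K := by rw [hK]; positivity
  refine ⟨K * ((1 + c / 2) / (c / 2)), by positivity, ?_⟩
  intro p hp
  have hp0 : (0:ℝ) ≤ p := p.2.1
  obtain ⟨s, hs⟩ : ∃ s : ℝ, s = 1/2 - (p:ℝ) := ⟨_, rfl⟩
  have hs0 : 0 < s := by rw [hs]; linarith
  have hs1 : s ≤ 1/2 := by rw [hs]; linarith
  rw [← hs]
  obtain ⟨t, ht⟩ : ∃ t : ℝ, t = s^(4/3 : ℝ) := ⟨_, rfl⟩
  have ht0 : 0 < t := by rw [ht]; positivity
  have ht1 : t ≤ 1 := by
    rw [ht]; exact Real.rpow_le_one hs0.le (by linarith) (by norm_num)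
  obtain ⟨ρ, hρ⟩ : ∃ ρ : ℝ, ρ = Real.exp (-(c / 2 * t)) := ⟨_, rfl⟩
  have hρ0 : 0 < ρ := by rw [hρ]; exact Real.exp_pos _
  have hρ1 : ρ < 1 := by
    rw [hρ]
    have h3 : 0 < c / 2 * t := by positivity
    have h4 := Real.exp_lt_exp.mpr (show -(c / 2 * t) < 0 by linarith)
    rwa [Real.exp_zero] at h4
  have hf : ∀ x : Vtx, tau p x ≤ (fun r : ℕ => C * ((r:ℝ) + 1)^(-(5/24) : ℝ) *
      Real.exp (-(c * (r * t)))) (max x.1.natAbs x.2.natAbs) := by
    intro x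
    have := h p hp.le x
    rw [← hs, ← ht] at this
    exact this
  refine (sigma_le_shell p (f := fun r : ℕ => C * ((r:ℝ) + 1)^(-(5/24) : ℝ) *
      Real.exp (-(c * (r * t)))) (fun r => by positivity) hf).trans ?_
  have hterm : ∀ r : ℕ, 8 * ((r:ℝ) + 1) * (C * ((r:ℝ) + 1)^(-(5/24) : ℝ) *
      Real.exp (-(c * (r * t)))) ≤ K * t^(-(19/24) : ℝ) * ρ^r := by
    intro r
    have hr1 : (0:ℝ) < (r:ℝ) + 1 := by positivity
    obtain ⟨u, hu⟩ : ∃ u : ℝ, u = ((r:ℝ) + 1) * t := ⟨_, rfl⟩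
    have hu0 : 0 < u := by rw [hu]; positivity
    have e1 : ((r:ℝ) + 1) * ((r:ℝ) + 1)^(-(5/24) : ℝ) = t^(-(19/24) : ℝ) * u^(19/24 : ℝ) := by
      rw [hu, Real.mul_rpow hr1.le ht0.le, Real.rpow_neg ht0.le]
      have e2 : ((r:ℝ) + 1) * ((r:ℝ) + 1)^(-(5/24) : ℝ) = ((r:ℝ) + 1)^(19/24 : ℝ) := by
        nth_rewrite 1 [← Real.rpow_one ((r:ℝ) + 1)]
        rw [← Real.rpow_add hr1]
        norm_num
      rw [e2]
      field_simp
    have e3 : u^(19/24 : ℝ) ≤ 1 + u := by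
      rcases le_total u 1 with h1 | h1
      · have := Real.rpow_le_one hu0.le h1 (show (0:ℝ) ≤ 19/24 by norm_num)
        linarith
      · calc u^(19/24 : ℝ) ≤ u^(1:ℝ) := Real.rpow_le_rpow_of_exponent_le h1 (by norm_num)
          _ = u := Real.rpow_one u
          _ ≤ 1 + u := by linarith
    have e4 : 1 + u ≤ (1 + 2 / c) * Real.exp (c / 2 * u) := by
      have h1 : 1 ≤ Real.exp (c / 2 * u) := Real.one_le_exp (by positivity)
      have h2 : c / 2 * u ≤ Real.exp (c / 2 * u) := by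
        have := Real.add_one_le_exp (c / 2 * u)
        linarith
      have h3 : u ≤ 2 / c * Real.exp (c / 2 * u) := by
        calc u = 2 / c * (c / 2 * u) := by field_simp
          _ ≤ _ := mul_le_mul_of_nonneg_left h2 (by positivity)
      calc 1 + u ≤ Real.exp (c / 2 * u) + 2 / c * Real.exp (c / 2 * u) := by linarith
        _ = _ := by ring
    have e5 : Real.exp (c / 2 * u) * Real.exp (-(c * (r * t))) ≤ Real.exp (c / 2) * ρ^r := by
      rw [hρ, ← Real.exp_nat_mul, ← Real.exp_add, ← Real.exp_add]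
      apply Real.exp_le_exp.mpr
      rw [hu]
      have h1 : c / 2 * t ≤ c / 2 * 1 := mul_le_mul_of_nonneg_left ht1 (by positivity)
      have h2 : 0 ≤ c * ((r:ℝ) * t) := by positivity
      nlinarith
    calc 8 * ((r:ℝ) + 1) * (C * ((r:ℝ) + 1)^(-(5/24) : ℝ) * Real.exp (-(c * (r * t))))
        = 8 * C * (((r:ℝ) + 1) * ((r:ℝ) + 1)^(-(5/24) : ℝ)) * Real.exp (-(c * (r * t))) := by ring
      _ = 8 * C * t^(-(19/24) : ℝ) * u^(19/24 : ℝ) * Real.exp (-(c * (r * t))) := by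
          rw [e1]; ring
      _ ≤ 8 * C * t^(-(19/24) : ℝ) * ((1 + 2 / c) * Real.exp (c / 2 * u)) *
          Real.exp (-(c * (r * t))) := by
          apply mul_le_mul_of_nonneg_right _ (Real.exp_pos _).le
          exact mul_le_mul_of_nonneg_left (e3.trans e4) (by positivity)
      _ = 8 * C * (1 + 2 / c) * t^(-(19/24) : ℝ) *
          (Real.exp (c / 2 * u) * Real.exp (-(c * (r * t)))) := by ring
      _ ≤ 8 * C * (1 + 2 / c) * t^(-(19/24) : ℝ) * (Real.exp (c / 2) * ρ^r) :=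
          mul_le_mul_of_nonneg_left e5 (by positivity)
      _ = _ := by rw [hK]; ring
  refine (ENNReal.tsum_le_tsum (fun r => ENNReal.ofReal_le_ofReal (hterm r))).trans ?_
  have hsum : Summable (fun r : ℕ => K * t^(-(19/24) : ℝ) * ρ^r) :=
    (summable_geometric_of_lt_one hρ0.le hρ1).mul_left _
  rw [← ENNReal.ofReal_tsum_of_nonneg (fun r => by positivity) hsum]
  apply ENNReal.ofReal_le_ofReal
  rw [tsum_mul_left, tsum_geometric_of_lt_one hρ0.le hρ1]
  have h1 : (1 - ρ)⁻¹ ≤ ((1 + c / 2) / (c / 2)) * t⁻¹ := by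
    have h2 : c / 2 * t / (1 + c / 2) ≤ 1 - ρ := by
      have h3 : ρ ≤ 1 / (1 + c / 2 * t) := by
        rw [hρ, Real.exp_neg, one_div]
        apply inv_anti₀ (by positivity)
        have := Real.add_one_le_exp (c / 2 * t)
        linarith
      have h4 : c / 2 * t / (1 + c / 2) ≤ 1 - 1 / (1 + c / 2 * t) := by
        have e : 1 - 1 / (1 + c / 2 * t) = c / 2 * t / (1 + c / 2 * t) := by field_simp; ring
        rw [e]
        apply div_le_div_of_nonneg_left (by positivity) (by positivity)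
        have : c / 2 * t ≤ c / 2 * 1 := mul_le_mul_of_nonneg_left ht1 (by positivity)
        linarith
      linarith
    calc (1 - ρ)⁻¹ ≤ (c / 2 * t / (1 + c / 2))⁻¹ := inv_anti₀ (by positivity) h2
      _ = _ := by field_simp
  calc K * t^(-(19/24) : ℝ) * (1 - ρ)⁻¹ ≤
        K * t^(-(19/24) : ℝ) * (((1 + c / 2) / (c / 2)) * t⁻¹) :=
        mul_le_mul_of_nonneg_left h1 (by positivity)
    _ = K * ((1 + c / 2) / (c / 2)) * (t^(-(19/24) : ℝ) * t⁻¹) := by ring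
    _ = _ := by
        congr 1
        rw [← Real.rpow_neg_one t, ← Real.rpow_add ht0, ht, ← Real.rpow_mul hs0.le]
        norm_num

end Pool.Agent.W424.NC
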