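import Pool.Agent.W424.NC.Stab

/-!
Lower bound for the one-arm probability below the critical point, up to constants.
-/

set_option maxHeartbeats 1000000

namespace Pool.Agent.W424.NC

open H31K H974 Finset

theorem Pr_full {q : ℝ} (h0 : 0 ≤ q) (h1 : q ≤ 1) (S : Finset Edg) {A : Finset Edg → Prop}
    (hA : A S) : q^(S.card) ≤ Pr (fun _ => q) S A := by
  unfold Pr Ex
  have h : (∏ e ∈ S, q) * (∏ e ∈ S \ S, (1 - q)) * ind (A S) ≤
      ∑ F ∈ S.powerset, (∏ e ∈ F, q) * (∏ e ∈ S \ F, (1 - q)) * ind (A F) := by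
    refine Finset.single_le_sum (f := fun F => (∏ e ∈ F, q) * (∏ e ∈ S \ F, (1 - q)) * ind (A F))
      (fun F _ => ?_) (Finset.mem_powerset_self S)
    apply mul_nonneg (mul_nonneg (Finset.prod_nonneg fun _ _ => h0)
      (Finset.prod_nonneg fun _ _ => by linarith)) (ind_nonneg _)
  rw [ind_of hA, mul_one, Finset.sdiff_self, Finset.prod_empty, mul_one, Finset.prod_const] at h
  exact h

theorem reach_line {G : Set Edg} {y : ℤ} (n : ℕ)
    (h : ∀ x : ℤ, 0 ≤ x → x < n → ((x, y, true) : Edg) ∈ G) :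
    Reach G (0, y) ((n : ℤ), y) := by
  induction n with
  | zero => exact Reach.refl _ _
  | succ n ih =>
    have h1 := ih (fun x h2 h3 => h x h2 (by push_cast; omega))
    have h2 : ((((n:ℤ), y, true)) : Edg) ∈ G := h n (by positivity) (by push_cast; omega)
    have h3 : Adj G ((n:ℤ), y) (((n + 1 : ℕ) : ℤ), y) := by
      refine ⟨((n:ℤ), y, true), h2, Or.inl ⟨by simp, ?_⟩⟩
      rw [tgt_true]
      push_cast
      rfl
    exact h1.trans h3.reach

theorem hh_pos {q : ℝ} (h0 : 0 < q) (h1 : q ≤ 1) (n : ℕ) : 0 < hh q n 1 := by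
  refine lt_of_lt_of_le (pow_pos h0 _) (Pr_full h0.le h1 (LRE 0 n 0 1) ?_)
  refine ⟨0, 0, by omega, by omega, ?_⟩
  apply reach_line
  intro x h2 h3
  have : ((x, (0:ℤ), true) : Edg) ∈ LRE 0 n 0 1 := by
    simp only [mem_LRE_true]; omega
  exact ⟨by exact_mod_cast this, by exact_mod_cast this⟩

theorem arm_pos {q : ℝ} (h0 : 0 < q) (h1 : q ≤ 1) (n : ℕ) : 0 < arm q n := by
  refine lt_of_lt_of_le (pow_pos h0 _) (Pr_full h0.le h1 (boxE n) ?_)
  refine ⟨((n:ℤ), 0), ?_, ?_⟩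
  · refine ⟨?_, Or.inr (Or.inl rfl)⟩
    unfold inR
    simp only
    omega
  apply reach_line
  intro x h2 h3
  have : ((x, (0:ℤ), true) : Edg) ∈ boxE n := by
    unfold boxE
    simp only [mem_RE_true]; omega
  exact ⟨by exact_mod_cast this, by exact_mod_cast this⟩

/-- The window for bounded scales. -/
theorem win_base : ∃ κ : ℝ, 0 < κ ∧ ∀ q : ℝ, 1/4 ≤ q → q ≤ 3/4 → H12S.Win q κ 4 := by
  obtain ⟨k, hk⟩ : ∃ k : ℝ, k = hh (1/4) ((64 : ℕ) : ℤ) 1 := ⟨_, rfl⟩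
  have hk0 : 0 < k := by rw [hk]; exact hh_pos (by norm_num) (by norm_num) 64
  refine ⟨min k (1/2), lt_min hk0 (by norm_num), ?_⟩
  have key : ∀ q : ℝ, 1/4 ≤ q → q ≤ 3/4 → ∀ h : ℕ, 1 ≤ h → h ≤ 4 →
      min k (1/2) ≤ hh q (16 * h) h := by
    intro q hq hq1 h h1 h4
    refine (min_le_left _ _).trans ?_
    rw [hk]
    refine (hh_mono (by norm_num) (by norm_num) (w' := 16 * h) (h' := h) ?_ ?_ ?_).trans
      (hh_mono_param (by norm_num) hq (by linarith) _ _)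
    · omega
    · push_cast; omega
    · omega
  intro q hq hq1
  exact ⟨lt_min hk0 (by norm_num), min_le_right _ _, hq, hq1, key q hq hq1,
    key (1 - q) (by linarith) (by linarith)⟩

/-- The choice of the scale. -/
theorem nearG : ∃ κ a C : ℝ, 0 < κ ∧ 0 < a ∧ 0 < C ∧ ∀ (p : ℝ) (n : ℕ), 1/4 ≤ p → p ≤ 1/2 →
    1 ≤ n → ∃ m : ℕ, 1 ≤ m ∧ m ≤ n ∧ H12S.Win p κ (4 * m) ∧
      (∀ k : ℕ, 1 ≤ k → k ≤ 4 * m → a * (k:ℝ)^(-(5/48) : ℝ) ≤ arm p k) ∧
      (m = n ∨ 1 ≤ C * (m * (1/2 - p)^(4/3 : ℝ))) := by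
  obtain ⟨κ, b, hκ, hb, hst⟩ := armS
  obtain ⟨cc, Cc, hcc, hCc, harm⟩ := arm_crit
  obtain ⟨κ2, hκ2, hbase⟩ := win_base
  obtain ⟨b1, hb1⟩ : ∃ b1 : ℝ, b1 = b^(4/3 : ℝ) := ⟨_, rfl⟩
  have hb10 : 0 < b1 := by rw [hb1]; positivity
  obtain ⟨ap, hap, hap2⟩ : ∃ ap : ℝ, 0 < ap ∧ ∀ (p : ℝ) (k : ℕ), 1/4 ≤ p → p ≤ 1/2 → k ≤ 4 →
      ap ≤ arm p k := by
    refine ⟨_, arm_pos (q := 1/4) (by norm_num) (by norm_num) 4, fun p k h1 h2 h3 => ?_⟩
    exact (arm_mono_param (by norm_num) h1 (by linarith) _).trans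
      (arm_anti (by linarith) (by linarith) h3)
  refine ⟨min κ κ2, min (cc / 3) ap, 8 / b1, lt_min hκ hκ2,
    lt_min (by positivity) hap, by positivity, ?_⟩
  intro p n hp hp1 hn
  obtain ⟨s, hs⟩ : ∃ s : ℝ, s = 1/2 - p := ⟨_, rfl⟩
  have hs0 : 0 ≤ s := by rw [hs]; linarith
  obtain ⟨H, hH⟩ : ∃ H : ℝ, H = s^(4/3 : ℝ) := ⟨_, rfl⟩
  have hH0 : 0 ≤ H := by rw [hH]; positivity
  rw [← hs, ← hH]
  have hsH : s = H^(3/4 : ℝ) := by
    rw [hH, ← Real.rpow_mul hs0]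
    norm_num
  have hbb : b = b1^(3/4 : ℝ) := by
    rw [hb1, ← Real.rpow_mul hb.le]
    norm_num
  -- good scales
  have good : ∀ m : ℕ, 1 ≤ m → 4 * (m:ℝ) * H ≤ b1 → H12S.Win p (min κ κ2) (4 * m) ∧
      (∀ k : ℕ, 1 ≤ k → k ≤ 4 * m → min (cc / 3) ap * (k:ℝ)^(-(5/48) : ℝ) ≤ arm p k) := by
    intro m hm hmH
    have hall : ∀ k : ℕ, 1 ≤ k → k ≤ 4 * m → H12S.Win p κ k ∧
        arm p k ≤ 3 * arm (1/2) k ∧ arm (1/2) k ≤ 3 * arm p k := by
      intro k hk1 hk2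
      apply hst k hk1
      have hk0 : (0:ℝ) < k := by exact_mod_cast hk1
      have hk2' : (k:ℝ) ≤ 4 * m := by exact_mod_cast hk2
      rw [abs_sub_comm, abs_of_nonneg (by linarith), ← hs, Real.rpow_neg hk0.le,
        ← div_eq_mul_inv, le_div_iff₀ (by positivity)]
      rw [hsH, ← Real.mul_rpow hH0 hk0.le, hbb]
      apply Real.rpow_le_rpow (by positivity) _ (by norm_num)
      calc H * (k:ℝ) ≤ H * (4 * m) := mul_le_mul_of_nonneg_left hk2' hH0
        _ = 4 * (m:ℝ) * H := by ring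
        _ ≤ b1 := hmH
    constructor
    · have hW := (hall (4 * m) (by omega) le_rfl).1
      exact ⟨lt_min hκ hκ2, (min_le_left _ _).trans hW.kle, hW.lo, hW.hi,
        fun h h1 h2 => (min_le_left _ _).trans (hW.pri h h1 h2),
        fun h h1 h2 => (min_le_left _ _).trans (hW.dua h h1 h2)⟩
    · intro k hk1 hk2
      have h3 := (hall k hk1 hk2).2.2
      have h4 := (harm k hk1).1
      have h5 : min (cc / 3) ap * (k:ℝ)^(-(5/48) : ℝ) ≤ cc / 3 * (k:ℝ)^(-(5/48) : ℝ) :=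
        mul_le_mul_of_nonneg_right (min_le_left _ _) (by positivity)
      linarith
  by_cases hA : 4 * (n:ℝ) * H ≤ b1
  · exact ⟨n, hn, le_rfl, (good n hn hA).1, (good n hn hA).2, Or.inl rfl⟩
  · push Not at hA
    have hHp : 0 < H := by
      rcases hH0.lt_or_eq with h | h
      · exact h
      · exfalso
        rw [← h] at hA
        linarith
    by_cases hB : 4 * H ≤ b1
    · obtain ⟨x, hx⟩ : ∃ x : ℝ, x = b1 / (4 * H) := ⟨_, rfl⟩
      have hx1 : 1 ≤ x := by rw [hx, le_div_iff₀ (by positivity)]; linarith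
      have hxn : x < n := by
        rw [hx, div_lt_iff₀ (by positivity)]
        linarith
      have hxH : x * (4 * H) = b1 := by rw [hx, div_mul_cancel₀ _ (by positivity)]
      have hm1 : 1 ≤ ⌊x⌋₊ := Nat.le_floor (by exact_mod_cast hx1)
      have hm2 : (⌊x⌋₊ : ℝ) ≤ x := Nat.floor_le (by linarith)
      have hm3 : x < ⌊x⌋₊ + 1 := Nat.lt_floor_add_one x
      have hm4 : (1:ℝ) ≤ (⌊x⌋₊ : ℝ) := by exact_mod_cast hm1
      have hmH : 4 * ((⌊x⌋₊ : ℕ) : ℝ) * H ≤ b1 := by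
        calc 4 * ((⌊x⌋₊ : ℕ) : ℝ) * H ≤ 4 * x * H := by
              apply mul_le_mul_of_nonneg_right _ hH0
              linarith
          _ = b1 := by rw [← hxH]; ring
      refine ⟨⌊x⌋₊, hm1, ?_, (good _ hm1 hmH).1, (good _ hm1 hmH).2, Or.inr ?_⟩
      · have : ((⌊x⌋₊ : ℕ) : ℝ) < n := lt_of_le_of_lt hm2 hxn
        exact_mod_cast this.le
      · rw [div_mul_eq_mul_div, le_div_iff₀ hb10, one_mul, ← hxH]
        calc x * (4 * H) ≤ (2 * (⌊x⌋₊ : ℝ)) * (4 * H) :=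
              mul_le_mul_of_nonneg_right (by linarith) (by positivity)
          _ = 8 * ((⌊x⌋₊ : ℝ) * H) := by ring
    · push Not at hB
      refine ⟨1, le_rfl, hn, ?_, ?_, Or.inr ?_⟩
      · have hW := hbase p hp (by linarith)
        exact ⟨lt_min hκ hκ2, (min_le_right _ _).trans hW.kle, hW.lo, hW.hi,
          fun h h1 h2 => (min_le_right _ _).trans (hW.pri h h1 (by omega)),
          fun h h1 h2 => (min_le_right _ _).trans (hW.dua h h1 (by omega))⟩
      · intro k hk1 hk2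
        have hk1' : (1:ℝ) ≤ k := by exact_mod_cast hk1
        calc min (cc / 3) ap * (k:ℝ)^(-(5/48) : ℝ)
            ≤ ap * 1 := by
              apply mul_le_mul (min_le_right _ _) _ (by positivity) hap.le
              exact Real.rpow_le_one_of_one_le_of_nonpos hk1' (by norm_num)
          _ = ap := mul_one _
          _ ≤ arm p k := hap2 p k hp hp1 (by omega)
      · rw [div_mul_eq_mul_div, le_div_iff₀ hb10]
        push_cast
        linarith

/-- Crossings of long rectangles. -/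
theorem hh_long {q κ : ℝ} {m : ℕ} (hW : H12S.Win q κ m) (hm : 1 ≤ m) (j : ℕ) :
    κ^(2 * j + 1) ≤ hh q (16 * (m:ℤ) + 15 * m * j) m := by
  have h0 : 0 ≤ q := by linarith [hW.lo]
  have h1 : q ≤ 1 := by linarith [hW.hi]
  have hk := hW.kpos
  have hm' : (0:ℤ) < m := by exact_mod_cast hm
  induction j with
  | zero =>
    have := hW.pri m hm le_rfl
    simpa using this
  | succ j ih =>
    have h2 := hW.pri m hm le_rfl
    have h3 : κ ≤ hh q (m:ℤ) m := h2.trans (hh_mono h0 h1 hm' (by omega) le_rfl)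
    have hjm : (0:ℤ) ≤ 15 * m * j := by positivity
    have g := hh_glue h0 h1 (w1 := 16 * (m:ℤ) + 15 * m * j) (w2 := 16 * (m:ℤ)) (v := m) (h := m)
      hm' (by linarith) (by linarith) hm'
    have e : 16 * (m:ℤ) + 15 * m * j + 16 * (m:ℤ) - m = 16 * (m:ℤ) + 15 * m * ((j + 1 : ℕ) : ℤ) := by
      push_cast; ring
    rw [e] at g
    refine le_trans ?_ g
    have e2 : κ^(2 * (j + 1) + 1) = κ^(2 * j + 1) * κ * κ := by ring
    rw [e2]
    have hp : 0 ≤ κ^(2 * j + 1) := by positivity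
    have k1 : κ^(2 * j + 1) * κ ≤ hh q (16 * (m:ℤ) + 15 * m * j) m * hh q (16 * (m:ℤ)) m :=
      mul_le_mul ih h2 hk.le (hp.trans ih)
    exact mul_le_mul k1 h3 hk.le ((by positivity : 0 ≤ κ^(2 * j + 1) * κ).trans k1)

/-- Crossings of long rectangles, in exponential form. -/
theorem hh_exp {q κ : ℝ} {m n : ℕ} (hW : H12S.Win q κ m) (hm : 1 ≤ m) (hn : 1 ≤ n) :
    κ * Real.exp (-(2 * Real.log (1 / κ)) * ((n:ℝ) / m)) ≤ hh q n m := by
  have h0 : 0 ≤ q := by linarith [hW.lo]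
  have h1 : q ≤ 1 := by linarith [hW.hi]
  have hk := hW.kpos
  have hm' : (0:ℝ) < m := by exact_mod_cast hm
  obtain ⟨j, hj⟩ : ∃ j : ℕ, j = n / m := ⟨_, rfl⟩
  have hj1 : n < m * (j + 1) := by
    rw [hj]
    exact Nat.lt_mul_div_succ n hm
  have hj2 : (j:ℝ) ≤ (n:ℝ) / m := by
    rw [hj]
    exact Nat.cast_div_le
  have h2 := hh_long hW hm j
  have h3 : hh q (16 * (m:ℤ) + 15 * m * j) m ≤ hh q n m := by
    apply hh_mono h0 h1 (by exact_mod_cast hn) _ le_rfl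
    have h4 : (n:ℤ) < m * (j + 1) := by exact_mod_cast hj1
    have h5 : (0:ℤ) ≤ (m:ℤ) * j := by positivity
    have h6 : (0:ℤ) ≤ (m:ℤ) := by positivity
    nlinarith
  refine le_trans ?_ (h2.trans h3)
  have hlog : 0 ≤ Real.log (1 / κ) := by
    apply Real.log_nonneg
    rw [le_div_iff₀ hk]
    linarith [hW.kle]
  have e1 : κ^(2 * j + 1) = κ * Real.exp (-(2 * Real.log (1 / κ)) * j) := by
    have e2 : κ^(2 * j) = Real.exp (-(2 * Real.log (1 / κ)) * j) := by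
      rw [one_div, Real.log_inv]
      have e3 : (-(2 * -Real.log κ) * (j:ℝ)) = ((2 * j : ℕ) : ℝ) * Real.log κ := by
        push_cast; ring
      rw [e3, Real.exp_nat_mul, Real.exp_log hk]
    rw [pow_succ, e2]
    ring
  rw [e1]
  apply mul_le_mul_of_nonneg_left _ hk.le
  apply Real.exp_le_exp.mpr
  have := mul_le_mul_of_nonneg_left hj2 (by positivity : 0 ≤ 2 * Real.log (1 / κ))
  linarith

/-- Lower bound for the one-arm probability below the critical point. -/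
theorem arm_lower : ∃ c C : ℝ, 0 < c ∧ 0 < C ∧ ∀ (p : ℝ) (n : ℕ), 1/4 ≤ p → p ≤ 1/2 → 1 ≤ n →
    c * (n:ℝ)^(-(5/48) : ℝ) * Real.exp (-C * (n * (1/2 - p)^(4/3 : ℝ))) ≤ arm p n := by
  obtain ⟨κ, a, C, hκ, ha, hC, hG⟩ := nearG
  have hlog0 : ∃ L : ℝ, L = Real.log (1 / κ) := ⟨_, rfl⟩
  obtain ⟨L, hL⟩ := hlog0
  refine ⟨min a (a * (2:ℝ)^(-(5/48) : ℝ) * κ^5), max (2 * L * C) 1, lt_min ha (by positivity),
    lt_of_lt_of_le one_pos (le_max_right _ _), ?_⟩
  intro p n hp hp1 hn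
  obtain ⟨m, hm, hmn, hW, harm, hcase⟩ := hG p n hp hp1 hn
  have h0 : 0 ≤ p := by linarith
  have h1 : p ≤ 1 := by linarith
  have hs0 : 0 ≤ 1/2 - p := by linarith
  obtain ⟨H, hH⟩ : ∃ H : ℝ, H = (1/2 - p)^(4/3 : ℝ) := ⟨_, rfl⟩
  have hH0 : 0 ≤ H := by rw [hH]; positivity
  rw [← hH] at hcase ⊢
  have hn0 : (0:ℝ) < n := by exact_mod_cast hn
  have hm0 : (0:ℝ) < m := by exact_mod_cast hm
  have hexp1 : Real.exp (-(max (2 * L * C) 1) * (n * H)) ≤ 1 := by
    rw [Real.exp_le_one_iff]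
    have : 0 ≤ max (2 * L * C) 1 := (zero_le_one).trans (le_max_right _ _)
    have h2 : 0 ≤ max (2 * L * C) 1 * (n * H) := by positivity
    linarith
  have hnp : 0 < (n:ℝ)^(-(5/48) : ℝ) := by positivity
  by_cases hnm : n ≤ 4 * m
  · calc min a (a * (2:ℝ)^(-(5/48) : ℝ) * κ^5) * (n:ℝ)^(-(5/48) : ℝ) *
          Real.exp (-(max (2 * L * C) 1) * (n * H))
        ≤ a * (n:ℝ)^(-(5/48) : ℝ) * 1 := by
          apply mul_le_mul _ hexp1 (Real.exp_pos _).le (by positivity)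
          exact mul_le_mul_of_nonneg_right (min_le_left _ _) hnp.le
      _ = a * (n:ℝ)^(-(5/48) : ℝ) := mul_one _
      _ ≤ arm p n := harm n hn hnm
  · push Not at hnm
    have hC2 : 1 ≤ C * (m * H) := by
      rcases hcase with h | h
      · omega
      · exact h
    have ok := okq h0 h1
    have hW2 : H12S.Win p κ (2 * m) := hW.anti (by omega)
    have hsub : boxE (2 * m) ⊆ boxE n := boxE_mono (by omega)
    have e1 := pr_Arm p hsub
    have e2 : κ^4 ≤ Pr (fun _ => p) (boxE n) (Circ m ((2 * m : ℕ) : ℤ)) := by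
      refine le_trans ?_ (pr_Circ h0 h1 (R1 := m) (R2 := ((2 * m : ℕ) : ℤ)) (by positivity)
        (by push_cast; omega) hsub)
      apply pow_le_pow_left₀ hκ.le
      refine (hW.pri m hm (by omega)).trans ?_
      apply hh_mono h0 h1
      · push_cast; omega
      · push_cast; omega
      · push_cast; omega
    have hsub2 : LRE 0 n (-(m:ℤ)) m ⊆ boxE n := by
      refine LRE_subset_RE.trans ?_
      unfold boxE
      apply RE_subset <;> omega
    have e3 : κ * Real.exp (-(2 * L) * ((n:ℝ) / m)) ≤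
        Pr (fun _ => p) (boxE n) (LRc 0 n (-(m:ℤ)) m) := by
      rw [pr_LRc p hsub2]
      have h2 := hh_exp (hW.anti (show m ≤ 4 * m by omega)) hm hn
      rw [← hL] at h2
      refine h2.trans ?_
      apply hh_mono h0 h1
      · omega
      · omega
      · omega
    have i1 := Pr_harris ok (Arm_incr (boxE n) (2 * m))
      (B := Circ m ((2 * m : ℕ) : ℤ)) (fun F G h _ hF => hF.mono h)
    have i2 := Pr_harris ok (S := boxE n)
      (A := fun F => Arm (2 * m) F ∧ Circ m ((2 * m : ℕ) : ℤ) F)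
      (B := LRc 0 n (-(m:ℤ)) m) (fun F G h _ hF => ⟨hF.1.mono h, hF.2.mono h⟩)
      (LRc_incr _ _ _ _ _)
    have i3 : Pr (fun _ => p) (boxE n)
        (fun F => (Arm (2 * m) F ∧ Circ m ((2 * m : ℕ) : ℤ) F) ∧ LRc 0 n (-(m:ℤ)) m F) ≤
          arm p n := by
      unfold arm
      apply Pr_mono ok
      rintro F _ ⟨⟨hA, hB⟩, hD⟩
      exact arm_of_glue3 hm (by omega) hA hB hD
    rw [e1] at i1
    have ha2 : a * (2:ℝ)^(-(5/48) : ℝ) * (n:ℝ)^(-(5/48) : ℝ) ≤ arm p (2 * m) := by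
      have h2 := harm (2 * m) (by omega) (by omega)
      refine le_trans ?_ h2
      rw [mul_assoc]
      apply mul_le_mul_of_nonneg_left _ ha.le
      push_cast
      rw [Real.mul_rpow (by norm_num) hm0.le]
      apply mul_le_mul_of_nonneg_left _ (by positivity)
      exact Real.rpow_le_rpow_of_nonpos hm0 (by exact_mod_cast hmn) (by norm_num)
    have hexp2 : Real.exp (-(max (2 * L * C) 1) * (n * H)) ≤
        Real.exp (-(2 * L) * ((n:ℝ) / m)) := by
      apply Real.exp_le_exp.mpr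
      have h3 : (n:ℝ) / m ≤ C * (n * H) := by
        rw [div_le_iff₀ hm0]
        calc (n:ℝ) = n * 1 := (mul_one _).symm
          _ ≤ n * (C * (m * H)) := mul_le_mul_of_nonneg_left hC2 hn0.le
          _ = C * (n * H) * m := by ring
      have hL0 : 0 ≤ L := by
        rw [hL]
        apply Real.log_nonneg
        rw [le_div_iff₀ hκ]
        linarith [hW.kle]
      have h4 : 2 * L * ((n:ℝ) / m) ≤ 2 * L * (C * (n * H)) :=
        mul_le_mul_of_nonneg_left h3 (by positivity)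
      have h5 : 2 * L * C * (n * H) ≤ max (2 * L * C) 1 * (n * H) :=
        mul_le_mul_of_nonneg_right (le_max_left _ _) (by positivity)
      linarith
    have hE0 : 0 < Real.exp (-(2 * L) * ((n:ℝ) / m)) := Real.exp_pos _
    have harm0 : 0 ≤ arm p (2 * m) := arm_nonneg h0 h1 _
    have j1 : (a * (2:ℝ)^(-(5/48) : ℝ) * (n:ℝ)^(-(5/48) : ℝ)) * κ^4 ≤
        arm p (2 * m) * Pr (fun _ => p) (boxE n) (Circ m ((2 * m : ℕ) : ℤ)) :=
      mul_le_mul ha2 e2 (by positivity) harm0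
    have j2 : ((a * (2:ℝ)^(-(5/48) : ℝ) * (n:ℝ)^(-(5/48) : ℝ)) * κ^4) *
        (κ * Real.exp (-(2 * L) * ((n:ℝ) / m))) ≤ arm p n := by
      refine le_trans ?_ (i2.trans i3)
      refine mul_le_mul (j1.trans i1) e3 (by positivity) ?_
      exact (by positivity : 0 ≤ (a * (2:ℝ)^(-(5/48) : ℝ) * (n:ℝ)^(-(5/48) : ℝ)) * κ^4).trans
        (j1.trans i1)
    calc min a (a * (2:ℝ)^(-(5/48) : ℝ) * κ^5) * (n:ℝ)^(-(5/48) : ℝ) *
          Real.exp (-(max (2 * L * C) 1) * (n * H))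
        ≤ (a * (2:ℝ)^(-(5/48) : ℝ) * κ^5) * (n:ℝ)^(-(5/48) : ℝ) *
          Real.exp (-(2 * L) * ((n:ℝ) / m)) := by
          apply mul_le_mul _ hexp2 (Real.exp_pos _).le (by positivity)
          exact mul_le_mul_of_nonneg_right (min_le_right _ _) hnp.le
      _ = ((a * (2:ℝ)^(-(5/48) : ℝ) * (n:ℝ)^(-(5/48) : ℝ)) * κ^4) *
        (κ * Real.exp (-(2 * L) * ((n:ℝ) / m))) := by ring
      _ ≤ arm p n := j2

end Pool.Agent.W424.NC
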