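import Pool.Agent.W424.NC.FarA
import Pool.Agent.H31R3.Kes.Inputs

/-!
Sharp near-critical estimates, part E: crossings beyond the correlation length.
-/

set_option maxHeartbeats 1000000

namespace Pool.Agent.W424.NC

open H973N H974 H12S Finset

/-- The window ends before `E (q - 1/2)^(-4/3)`. -/
theorem w2S (κ : ℝ) (hκ : 0 < κ) (hκ2 : κ ≤ 1/2) : ∃ E h0 : ℝ, 0 < E ∧ 0 < h0 ∧ ∀ q : ℝ,
    1/2 < q → q < 1/2 + h0 → ∃ n : ℕ, (n:ℝ) ≤ E * (q - 1/2) ^ (-(4/3 : ℝ)) ∧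
      ¬ H12S.Win q κ n := by
  obtain ⟨κ0, b, c, C, hκ0, hb, hc, hC, hnear⟩ := nearS
  have hN : NearP b c C := fun n hn q hq => (hnear n hn q hq).2
  obtain ⟨κh, hκh, hhalf⟩ := H12S.win_half
  obtain ⟨κ', hκ'⟩ : ∃ κ' : ℝ, κ' = min κ κh := ⟨_, rfl⟩
  have hκ'0 : 0 < κ' := by rw [hκ']; exact lt_min hκ hκh
  obtain ⟨D, n0, hD, hmain⟩ := WD_low0 hb hc hN κ' hκ'0 (3 / b)
  have hDr : (1:ℝ) ≤ D := by exact_mod_cast hD
  -- the scale `n1`
  obtain ⟨Y0, hY0⟩ : ∃ Y0 : ℝ, Y0 = (n0:ℝ) + 2 := ⟨_, rfl⟩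
  have hn0r : (0:ℝ) ≤ n0 := Nat.cast_nonneg _
  have hY02 : 2 ≤ Y0 := by rw [hY0]; linarith
  have hY0p : 0 < Y0 := by linarith
  refine ⟨D * b ^ (4/3 : ℝ), min (1/4) (b * Y0 ^ (-(3/4 : ℝ))), by positivity,
    lt_min (by norm_num) (by positivity), ?_⟩
  intro q hq1 hq2
  obtain ⟨h, hhd⟩ : ∃ h : ℝ, h = q - 1/2 := ⟨_, rfl⟩
  have hpos : 0 < h := by rw [hhd]; linarith
  have hlt1 : h < 1/4 := by
    have : h < min (1/4) (b * Y0 ^ (-(3/4 : ℝ))) := by rw [hhd]; linarith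
    exact lt_of_lt_of_le this (min_le_left _ _)
  have hlt2 : h < b * Y0 ^ (-(3/4 : ℝ)) := by
    have : h < min (1/4) (b * Y0 ^ (-(3/4 : ℝ))) := by rw [hhd]; linarith
    exact lt_of_lt_of_le this (min_le_right _ _)
  rw [← hhd]
  obtain ⟨y, hy⟩ : ∃ y : ℝ, y = (b / h) ^ (4/3 : ℝ) := ⟨_, rfl⟩
  have hbh : 0 < b / h := by positivity
  have hy34 : y ^ (-(3/4 : ℝ)) = h / b := by
    rw [hy, ← Real.rpow_mul hbh.le]
    norm_num
    rw [Real.rpow_neg_one, inv_div]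
  have hypos : 0 < y := by rw [hy]; positivity
  have hYy : Y0 ≤ y := by
    by_contra hcon
    push Not at hcon
    have i1 : Y0 ^ (-(3/4 : ℝ)) ≤ y ^ (-(3/4 : ℝ)) :=
      Real.rpow_le_rpow_of_nonpos hypos hcon.le (by norm_num)
    rw [hy34, le_div_iff₀ hb] at i1
    linarith
  obtain ⟨n1, hn1⟩ : ∃ n1 : ℕ, n1 = ⌊y⌋₊ := ⟨_, rfl⟩
  have hn1y : (n1:ℝ) ≤ y := by rw [hn1]; exact Nat.floor_le hypos.le
  have hyn1 : y < n1 + 1 := by rw [hn1]; exact Nat.lt_floor_add_one y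
  have hn1n0 : n0 + 1 ≤ n1 := by
    rw [hn1]
    apply Nat.le_floor
    push_cast
    linarith
  have hn11 : 1 ≤ n1 := by omega
  have hn1r : (1:ℝ) ≤ n1 := by exact_mod_cast hn11
  have hn1pos : (0:ℝ) < n1 := by linarith
  refine ⟨D * n1, ?_, ?_⟩
  · push_cast
    rw [Real.rpow_neg hpos.le]
    calc (D:ℝ) * n1 ≤ D * y := mul_le_mul_of_nonneg_left hn1y (by linarith)
      _ = _ := by
          rw [hy, Real.div_rpow hb.le hpos.le]
          ring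
  · intro hW
    have hq0 : q ≤ 1 := by linarith [hW.hi]
    have hWs : ∀ t ∈ Set.Icc (1/2) q, H12S.Win t κ' (D * n1) := by
      intro t ht
      have hwh := hhalf (D * n1)
      have m1 : κ' ≤ κ := by rw [hκ']; exact min_le_left _ _
      have m2 : κ' ≤ κh := by rw [hκ']; exact min_le_right _ _
      refine ⟨hκ'0, m1.trans hκ2, by linarith [ht.1], by linarith [ht.2, hW.hi], ?_, ?_⟩
      · intro k k1 k2
        calc κ' ≤ κh := m2
          _ ≤ hh (1/2) (16 * k) k := hwh.pri k k1 k2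
          _ ≤ _ := hh_mono_param (by norm_num) ht.1 (by linarith [ht.2]) _ _
      · intro k k1 k2
        calc κ' ≤ κ := m1
          _ ≤ hh (1 - q) (16 * k) k := hW.dua k k1 k2
          _ ≤ _ := hh_mono_param (by linarith) (by linarith [ht.2]) (by linarith [ht.1]) _ _
    have hwin : h ≤ b * (n1:ℝ) ^ (-(3/4 : ℝ)) := by
      have i1 : h = b * y ^ (-(3/4 : ℝ)) := by rw [hy34]; field_simp
      rw [i1]
      apply mul_le_mul_of_nonneg_left _ hb.le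
      exact Real.rpow_le_rpow_of_nonpos hn1pos hn1y (by norm_num)
    have hlb : ∀ t ∈ Set.Icc (1/2) q,
        3 / b * (n1:ℝ) ^ (3/4 : ℝ) * (((D * n1 : ℕ) : ℝ) + 1) ^ 2 ≤ WD t (D * n1) := by
      intro t ht
      refine hmain n1 (by omega) hn11 t ?_ (hWs t ht)
      rw [abs_of_nonneg (by linarith [ht.1])]
      refine le_trans ?_ hwin
      rw [hhd]
      linarith [ht.2]
    have hint := WD_int (by norm_num) hq1.le hq0 (D * n1) hlb
    have hnn : 0 < (((D * n1 : ℕ) : ℝ) + 1) ^ 2 := by positivity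
    have hle1 : 3 / b * (n1:ℝ) ^ (3/4 : ℝ) * h ≤ 1 := by
      have : (3 / b * (n1:ℝ) ^ (3/4 : ℝ) * h) * (((D * n1 : ℕ) : ℝ) + 1) ^ 2 ≤
          1 * (((D * n1 : ℕ) : ℝ) + 1) ^ 2 := by
        rw [one_mul]
        calc _ = 3 / b * (n1:ℝ) ^ (3/4 : ℝ) * (((D * n1 : ℕ) : ℝ) + 1) ^ 2 * (q - 1/2) := by
              rw [hhd]; ring
          _ ≤ _ := hint
      exact le_of_mul_le_mul_right this hnn
    -- `h` is not too small
    have hhlow : b / 2 * (n1:ℝ) ^ (-(3/4 : ℝ)) ≤ h := by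
      have i1 : h = b * y ^ (-(3/4 : ℝ)) := by rw [hy34]; field_simp
      rw [i1]
      have i2 : (2 * (n1:ℝ)) ^ (-(3/4 : ℝ)) ≤ y ^ (-(3/4 : ℝ)) :=
        Real.rpow_le_rpow_of_nonpos hypos (by linarith) (by norm_num)
      rw [Real.mul_rpow (by norm_num) hn1pos.le] at i2
      have i3 : (1/2 : ℝ) ≤ 2 ^ (-(3/4 : ℝ)) := by
        calc (1/2 : ℝ) = (2:ℝ) ^ (-(1:ℝ)) := by rw [Real.rpow_neg_one]; norm_num
          _ ≤ _ := Real.rpow_le_rpow_of_exponent_le (by norm_num) (by norm_num)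
      have i4 : 0 < (n1:ℝ) ^ (-(3/4 : ℝ)) := by positivity
      calc b / 2 * (n1:ℝ) ^ (-(3/4 : ℝ)) = b * (1/2 * (n1:ℝ) ^ (-(3/4 : ℝ))) := by ring
        _ ≤ b * (2 ^ (-(3/4 : ℝ)) * (n1:ℝ) ^ (-(3/4 : ℝ))) := by
            apply mul_le_mul_of_nonneg_left _ hb.le
            exact mul_le_mul_of_nonneg_right i3 i4.le
        _ ≤ _ := mul_le_mul_of_nonneg_left i2 hb.le
    have i5 : 3 / b * (n1:ℝ) ^ (3/4 : ℝ) * (b / 2 * (n1:ℝ) ^ (-(3/4 : ℝ))) ≤ 1 :=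
      le_trans (mul_le_mul_of_nonneg_left hhlow (by positivity)) hle1
    have i6 : 3 / b * (n1:ℝ) ^ (3/4 : ℝ) * (b / 2 * (n1:ℝ) ^ (-(3/4 : ℝ))) = 3 / 2 := by
      have i7 : (n1:ℝ) ^ (3/4 : ℝ) * (n1:ℝ) ^ (-(3/4 : ℝ)) = 1 := by
        rw [← Real.rpow_add hn1pos]; norm_num
      calc 3 / b * (n1:ℝ) ^ (3/4 : ℝ) * (b / 2 * (n1:ℝ) ^ (-(3/4 : ℝ)))
          = (3 / b * (b / 2)) * ((n1:ℝ) ^ (3/4 : ℝ) * (n1:ℝ) ^ (-(3/4 : ℝ))) := by ring
        _ = _ := by rw [i7]; field_simp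
    rw [i6] at i5
    norm_num at i5

/-- The probability `eps` decreases in the parameter. -/
theorem eps_anti {p p' : ℝ} (h0 : 0 ≤ p) (h : p ≤ p') (h1 : p' ≤ 1) (N : ℕ) :
    eps p' N ≤ eps p N := by
  have h2 : hh p (2 * N) (N - 1) ≤ hh p' (2 * N) (N - 1) := hh_mono_param h0 h h1 _ _
  have h3 : eps p N = 1 - hh p (2 * N) (N - 1) := rfl
  have h4 : eps p' N = 1 - hh p' (2 * N) (N - 1) := rfl
  linarith

/-- Crossings beyond the correlation length. -/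
theorem farS : ∃ E : ℝ, 1 ≤ E ∧ ∀ p : ℝ, 1/2 < p → p ≤ 1 → ∀ N : ℕ,
    E * (p - 1/2) ^ (-(4/3 : ℝ)) ≤ N → eps p N ≤ 1/100 := by
  obtain ⟨κ, hκ, hκ2, hsup⟩ := super_scale
  obtain ⟨E, h0, hE, hh0, hw⟩ := w2S κ hκ hκ2
  obtain ⟨h1, hh1⟩ : ∃ h1 : ℝ, h1 = min (h0 / 2) (1/4) := ⟨_, rfl⟩
  have hh10 : 0 < h1 := by rw [hh1]; exact lt_min (by linarith) (by norm_num)
  have hh1a : h1 ≤ h0 / 2 := by rw [hh1]; exact min_le_left _ _
  have hh1b : h1 ≤ 1/4 := by rw [hh1]; exact min_le_right _ _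
  -- the statement for small `h`
  have key : ∀ h : ℝ, 0 < h → h ≤ h1 → ∀ N : ℕ, (4 * E + 8) * h ^ (-(4/3 : ℝ)) ≤ N →
      eps (1/2 + h) N ≤ 1/100 := by
    intro h hpos hle N hN
    obtain ⟨n, hn, hnW⟩ := hw (1/2 + h) (by linarith) (by linarith)
    obtain ⟨M, hM2, hMn, hMe⟩ := hsup (1/2 + h) (by linarith) (by linarith) n hnW
    rw [show (1:ℝ)/2 + h - 1/2 = h by ring] at hn
    have h1p : 1 ≤ h ^ (-(4/3 : ℝ)) :=
      Real.one_le_rpow_of_pos_of_le_one_of_nonpos hpos (by linarith) (by norm_num)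
    apply H31K.eps_all (by linarith) (by linarith) hM2 hMe
    have : (4 * (n + 2) : ℝ) ≤ N := by nlinarith
    have h3 : 4 * (n + 2) ≤ N := by exact_mod_cast this
    omega
  obtain ⟨E1, hE1⟩ : ∃ E1 : ℝ, E1 = (4 * E + 8) * h1 ^ (-(4/3 : ℝ)) := ⟨_, rfl⟩
  have h1p : 1 ≤ h1 ^ (-(4/3 : ℝ)) :=
    Real.one_le_rpow_of_pos_of_le_one_of_nonpos hh10 (by linarith) (by norm_num)
  have hE1' : 4 * E + 8 ≤ E1 := by rw [hE1]; exact le_mul_of_one_le_right (by linarith) h1p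
  refine ⟨E1, by linarith, ?_⟩
  intro p hp hp1 N hN
  have hpos : 0 < p - 1/2 := by linarith
  rcases le_total (p - 1/2) h1 with hle | hle
  · have h2 := key (p - 1/2) hpos hle N (by
      refine le_trans ?_ hN
      exact mul_le_mul_of_nonneg_right hE1' (by positivity))
    rwa [show (1:ℝ)/2 + (p - 1/2) = p by ring] at h2
  · have h3 : 1 ≤ (p - 1/2) ^ (-(4/3 : ℝ)) :=
      Real.one_le_rpow_of_pos_of_le_one_of_nonpos hpos (by linarith) (by norm_num)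
    have h4 : E1 ≤ N := by
      refine le_trans ?_ hN
      exact le_mul_of_one_le_right (by linarith) h3
    have h5 := key h1 hh10 le_rfl N (by rw [← hE1]; exact h4)
    exact (eps_anti (by linarith) (by linarith) hp1 N).trans h5

end Pool.Agent.W424.NC
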