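import Pool.Agent.W424.NC.Stab
import Pool.Agent.W424.NC.FarB

/-!
Upper bounds for the one-arm and the two-point probabilities below the critical point.
-/

set_option maxHeartbeats 1000000

namespace Pool.Agent.W424.NC

open H31K H974 Finset

/-- The probability that there is no closed dual circuit in the annulus. -/
theorem pr_nblk {p : ℝ} (h0 : 0 ≤ p) (h1 : p ≤ 1) {N : ℕ} (hN : 2 ≤ N) {S : Finset Edg}
    (hS : annE (N - 1) (2 * N - 1) ⊆ S) :
    Pr (fun _ => p) S (fun F => ¬ Blk ((N - 1 : ℕ) : ℤ) ((2 * N - 1 : ℕ) : ℤ) F) ≤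
      20 * eps (1 - p) N := by
  have hN' : (2:ℤ) ≤ N := by exact_mod_cast hN
  have ok := okq h0 h1
  obtain ⟨n, hn⟩ : ∃ n : ℤ, n = (N:ℤ) := ⟨_, rfl⟩
  obtain ⟨s1, s2, s3, s4⟩ := ann_sub (n := N - 1) (m := 2 * N - 1) (by omega)
  have c1 : ((N - 1 : ℕ) : ℤ) = n - 1 := by omega
  have c2 : ((2 * N - 1 : ℕ) : ℤ) = 2 * n - 1 := by omega
  rw [c1, c2] at s1 s2 s3 s4 ⊢
  have e1 : Pr (fun _ => p) S (LRc (n - 1) (2 * n - 1) (-(2 * n - 1)) (2 * n - 1)) =
      hh p n (4 * n - 2) := by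
    rw [pr_LRc p (s1.trans hS)]
    congr 1 <;> ring
  have e2 : Pr (fun _ => p) S (LRc (-(2 * n - 1)) (-(n - 1)) (-(2 * n - 1)) (2 * n - 1)) =
      hh p n (4 * n - 2) := by
    rw [pr_LRc p (s2.trans hS)]
    congr 1 <;> ring
  have e3 : Pr (fun _ => p) S (TBc (-(2 * n - 1)) (2 * n - 1) (n - 1) (2 * n - 1)) =
      hh p n (4 * n - 2) := by
    rw [pr_TBc p (s3.trans hS)]
    congr 1 <;> ring
  have e4 : Pr (fun _ => p) S (TBc (-(2 * n - 1)) (2 * n - 1) (-(2 * n - 1)) (-(n - 1))) =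
      hh p n (4 * n - 2) := by
    rw [pr_TBc p (s4.trans hS)]
    congr 1 <;> ring
  have i1 : Pr (fun _ => p) S (fun F => ¬ Blk (n - 1) (2 * n - 1) F) ≤
      Pr (fun _ => p) S (fun F =>
      ((LRc (n - 1) (2 * n - 1) (-(2 * n - 1)) (2 * n - 1) F ∨
        LRc (-(2 * n - 1)) (-(n - 1)) (-(2 * n - 1)) (2 * n - 1) F)) ∨
      (TBc (-(2 * n - 1)) (2 * n - 1) (n - 1) (2 * n - 1) F ∨
        TBc (-(2 * n - 1)) (2 * n - 1) (-(2 * n - 1)) (-(n - 1)) F)) := by
    apply Pr_mono ok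
    intro F _ h
    unfold Blk at h
    tauto
  have i2 := Pr_or_le ok S (fun F => LRc (n - 1) (2 * n - 1) (-(2 * n - 1)) (2 * n - 1) F ∨
        LRc (-(2 * n - 1)) (-(n - 1)) (-(2 * n - 1)) (2 * n - 1) F)
      (fun F => TBc (-(2 * n - 1)) (2 * n - 1) (n - 1) (2 * n - 1) F ∨
        TBc (-(2 * n - 1)) (2 * n - 1) (-(2 * n - 1)) (-(n - 1)) F)
  have i3 := Pr_or_le ok S (LRc (n - 1) (2 * n - 1) (-(2 * n - 1)) (2 * n - 1))
    (LRc (-(2 * n - 1)) (-(n - 1)) (-(2 * n - 1)) (2 * n - 1))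
  have i4 := Pr_or_le ok S (TBc (-(2 * n - 1)) (2 * n - 1) (n - 1) (2 * n - 1))
    (TBc (-(2 * n - 1)) (2 * n - 1) (-(2 * n - 1)) (-(n - 1)))
  rw [e1, e2] at i3
  rw [e3, e4] at i4
  have d1 := hh_dual (q := p) (w := n) (h := 4 * n - 2) (by omega) (by omega)
  have d2 : hh (1 - p) (4 * n) (n - 1) ≤ hh (1 - p) (4 * n - 2 + 1) (n - 1) :=
    hh_mono (by linarith) (by linarith) (by omega) (by omega) le_rfl
  have d3 := long_cross (p := 1 - p) (by linarith) (by linarith) hN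
  rw [← hn] at d3
  linarith

/-- Doubly exponential decay of the annulus crossings. -/
theorem pr_nblk_pow {p : ℝ} (h0 : 0 ≤ p) (h1 : p ≤ 1) {N : ℕ} (hN : 2 ≤ N)
    (he : eps (1 - p) N ≤ 1/100) (j : ℕ) {S : Finset Edg}
    (hS : annE (2^j * N - 1) (2 * (2^j * N) - 1) ⊆ S) :
    Pr (fun _ => p) S (fun F => ¬ Blk ((2^j * N - 1 : ℕ) : ℤ) ((2 * (2^j * N) - 1 : ℕ) : ℤ) F) ≤
      (1/4)^(2^j) := by
  have h2 : 2 ≤ 2^j * N := by
    calc 2 ≤ N := hN
      _ ≤ 2^j * N := Nat.le_mul_of_pos_left _ (by positivity)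
  have h3 := pr_nblk h0 h1 h2 hS
  have h4 := eps_nonneg (p := 1 - p) (by linarith) (by linarith) (2^j * N)
  have h5 := eps_pow2 (p := 1 - p) (by linarith) (by linarith) hN he j
  linarith

theorem annE_sub (n m : ℕ) : annE n m ⊆ boxE m := by
  unfold annE
  exact Finset.sdiff_subset

theorem Blk_loc {n m : ℕ} (hnm : n < m) {S : Finset Edg} (hS : annE n m ⊆ S)
    (F : Finset Edg) : ¬ Blk n m F ↔ ¬ Blk n m (F ∩ S) := by
  rw [Blk_local hnm hS]

/-- The arm beyond the correlation length. -/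
theorem arm_far {p : ℝ} (h0 : 0 ≤ p) (h1 : p ≤ 1) {N : ℕ} (hN : 2 ≤ N)
    (he : eps (1 - p) N ≤ 1/100) {j : ℕ} (hj : 1 ≤ j) :
    arm p (2 * (2^j * N)) ≤ arm p N * (1/4)^(2^j) := by
  obtain ⟨M, hM⟩ : ∃ M : ℕ, M = 2^j * N := ⟨_, rfl⟩
  have hM2 : 2 * N ≤ M := by
    rw [hM]
    apply Nat.mul_le_mul_right
    calc 2 = 2^1 := rfl
      _ ≤ 2^j := Nat.pow_le_pow_right (by norm_num) hj
  have ok := okq h0 h1
  have h3 := pr_nblk_pow h0 h1 hN he j (S := annE (2^j * N - 1) (2 * (2^j * N) - 1))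
    (Finset.Subset.refl _)
  rw [← hM] at h3 ⊢
  obtain ⟨S, hS⟩ : ∃ S : Finset Edg, S = boxE (2 * M) := ⟨_, rfl⟩
  have s1 : boxE N ⊆ S := by rw [hS]; exact boxE_mono (by omega)
  have s2 : annE (M - 1) (2 * M - 1) ⊆ S := by
    rw [hS]; exact (annE_sub _ _).trans (boxE_mono (by omega))
  have hd : Disjoint (boxE N) (annE (M - 1) (2 * M - 1)) := by
    unfold annE
    apply Finset.disjoint_of_subset_left (boxE_mono (show N ≤ M - 1 by omega))
    exact Finset.disjoint_sdiff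
  have h4 := Pr_indep (p := fun _ => p) s1 s2 hd (A := Arm N)
    (B := fun F => ¬ Blk ((M - 1 : ℕ) : ℤ) ((2 * M - 1 : ℕ) : ℤ) F)
    (fun F _ => Arm_local (Finset.Subset.refl _))
    (fun F _ => Blk_loc (by omega) (Finset.Subset.refl _) F)
  have h5 : Pr (fun _ => p) S (fun F => ¬ Blk ((M - 1 : ℕ) : ℤ) ((2 * M - 1 : ℕ) : ℤ) F) =
      Pr (fun _ => p) (annE (M - 1) (2 * M - 1))
        (fun F => ¬ Blk ((M - 1 : ℕ) : ℤ) ((2 * M - 1 : ℕ) : ℤ) F) :=
    Pr_local s2 (fun F _ => Blk_loc (by omega) (Finset.Subset.refl _) F)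
  rw [pr_Arm p s1, h5] at h4
  have h6 : arm p (2 * M) ≤ Pr (fun _ => p) S (fun F => Arm N F ∧
      ¬ Blk ((M - 1 : ℕ) : ℤ) ((2 * M - 1 : ℕ) : ℤ) F) := by
    unfold arm
    rw [← hS]
    apply Pr_mono ok
    rintro F _ ⟨v, hv, hr⟩
    constructor
    · obtain ⟨w, k1, k2, k3⟩ := first_exit (a := -(N:ℤ)) (b := N) (c := -(N:ℤ)) (d := N)
        (u := (0, 0)) (by unfold inR; simp) hr (by unfold onB at hv; push_cast at hv; omega)
      refine ⟨w, ⟨k1, k2⟩, k3.mono ?_⟩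
      rintro e ⟨⟨k4, -⟩, k5⟩
      exact ⟨k4, k5⟩
    · apply not_blk_of_arm (v := v) (by positivity) (by omega) (hr.mono Set.inter_subset_left)
      unfold onB at hv
      push_cast at hv
      omega
  calc arm p (2 * M) ≤ _ := h6
    _ = _ := h4
    _ ≤ _ := mul_le_mul_of_nonneg_left h3 (arm_nonneg h0 h1 _)

theorem quarter_pow_le {j : ℕ} {y : ℝ} (h : y ≤ (2:ℝ)^j) : ((1:ℝ)/4)^(2^j) ≤ Real.exp (-y) := by
  have h10 : (1/4 : ℝ) ≤ Real.exp (-1) := by
    rw [Real.exp_neg, one_div]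
    apply inv_anti₀ (Real.exp_pos _)
    have := Real.exp_one_lt_d9
    linarith
  calc ((1:ℝ)/4)^(2^j) ≤ (Real.exp (-1))^(2^j) := pow_le_pow_left₀ (by norm_num) h10 _
    _ = Real.exp (-((2:ℝ)^j)) := by
        rw [← Real.exp_nat_mul]
        congr 1
        push_cast
        ring
    _ ≤ _ := Real.exp_le_exp.mpr (by linarith)

theorem mul_exp_le (y : ℝ) : y * Real.exp (-(y/4)) ≤ 8 * Real.exp (-(y/8)) := by
  have h1 : y / 8 ≤ Real.exp (y / 8) := by
    have := Real.add_one_le_exp (y / 8)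
    linarith
  have h2 : Real.exp (-(y/4)) = Real.exp (-(y/8)) * Real.exp (-(y/8)) := by
    rw [← Real.exp_add]; congr 1; ring
  have h3 : Real.exp (y/8) * Real.exp (-(y/8)) = 1 := by
    rw [← Real.exp_add]; simp
  have h4 : 0 < Real.exp (-(y/8)) := Real.exp_pos _
  rw [h2]
  have h5 : y * Real.exp (-(y/8)) ≤ 8 := by
    calc y * Real.exp (-(y/8)) = 8 * ((y/8) * Real.exp (-(y/8))) := by ring
      _ ≤ 8 * (Real.exp (y/8) * Real.exp (-(y/8))) := by
          apply mul_le_mul_of_nonneg_left _ (by norm_num)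
          exact mul_le_mul_of_nonneg_right h1 h4.le
      _ = 8 := by rw [h3]; ring
  calc y * (Real.exp (-(y/8)) * Real.exp (-(y/8))) = (y * Real.exp (-(y/8))) * Real.exp (-(y/8)) := by
        ring
    _ ≤ _ := mul_le_mul_of_nonneg_right h5 h4.le

/-- The scale beyond which the crossings decay. -/
theorem farN : ∃ E : ℝ, 1 ≤ E ∧ ∀ p : ℝ, 0 ≤ p → p < 1/2 → ∃ N : ℕ, 2 ≤ N ∧
    (N:ℝ) * (1/2 - p)^(4/3 : ℝ) ≤ E ∧ 1 ≤ (N:ℝ) * (1/2 - p)^(4/3 : ℝ) ∧
      eps (1 - p) N ≤ 1/100 := by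
  obtain ⟨E, hE, hfar⟩ := farS
  refine ⟨E + 3, by linarith, ?_⟩
  intro p hp0 hp
  obtain ⟨s, hs⟩ : ∃ s : ℝ, s = 1/2 - p := ⟨_, rfl⟩
  have hs0 : 0 < s := by rw [hs]; linarith
  have hs1 : s ≤ 1/2 := by rw [hs]; linarith
  rw [← hs]
  obtain ⟨x, hx⟩ : ∃ x : ℝ, x = s^(-(4/3 : ℝ)) := ⟨_, rfl⟩
  have hx1 : 1 ≤ x := by
    rw [hx]
    exact Real.one_le_rpow_of_pos_of_le_one_of_nonpos hs0 (by linarith) (by norm_num)
  have hxs : x * s^(4/3 : ℝ) = 1 := by
    rw [hx, ← Real.rpow_add hs0]; norm_num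
  have hs43 : 0 < s^(4/3 : ℝ) := by positivity
  refine ⟨⌈E * x⌉₊ + 2, by omega, ?_, ?_, ?_⟩
  · have := Nat.ceil_lt_add_one (a := E * x) (by positivity)
    push_cast
    calc ((⌈E * x⌉₊ : ℝ) + 2) * s^(4/3 : ℝ) ≤ ((E + 3) * x) * s^(4/3 : ℝ) := by
          apply mul_le_mul_of_nonneg_right _ hs43.le
          linarith
      _ = (E + 3) * (x * s^(4/3 : ℝ)) := by ring
      _ = _ := by rw [hxs, mul_one]
  · have := Nat.le_ceil (E * x)
    push_cast
    calc (1:ℝ) ≤ E * 1 := by linarith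
      _ = (E * x) * s^(4/3 : ℝ) := by rw [← hxs]; ring
      _ ≤ _ := by
          apply mul_le_mul_of_nonneg_right _ hs43.le
          linarith
  · apply hfar (1 - p) (by linarith) (by linarith)
    have := Nat.le_ceil (E * x)
    rw [show 1 - p - 1/2 = s by rw [hs]; ring, ← hx]
    push_cast
    linarith

/-- Upper bound for the one-arm probability at and below the critical point. -/
theorem arm_upper : ∃ c C : ℝ, 0 < c ∧ 0 < C ∧ ∀ p : ℝ, 0 ≤ p → p ≤ 1/2 → ∀ n : ℕ, 1 ≤ n →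
    arm p n ≤ C * (n:ℝ)^(-(5/48) : ℝ) * Real.exp (-(c * (n * (1/2 - p)^(4/3 : ℝ)))) := by
  obtain ⟨E, hE, hfar⟩ := farN
  obtain ⟨cc, Cc, hcc, hCc, harm⟩ := arm_crit
  refine ⟨1 / (8 * E), 8 * Cc, by positivity, by positivity, ?_⟩
  intro p hp0 hp n hn
  have hnr : (1:ℝ) ≤ n := by exact_mod_cast hn
  have hn0 : (0:ℝ) < n := by linarith
  have hpn : 0 < (n:ℝ)^(-(5/48) : ℝ) := by positivity
  have hcr : arm p n ≤ Cc * (n:ℝ)^(-(5/48) : ℝ) :=
    (arm_mono_param hp0 hp (by norm_num) n).trans (harm n hn).2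
  rcases hp.eq_or_lt with heq | hlt
  · subst heq
    rw [sub_self, Real.zero_rpow (by norm_num), mul_zero, mul_zero, neg_zero, Real.exp_zero,
      mul_one]
    have : 0 < Cc * (n:ℝ)^(-(5/48) : ℝ) := by positivity
    linarith
  · obtain ⟨N, hN2, hNE, hN1, heps⟩ := hfar p hp0 hlt
    obtain ⟨t, ht⟩ : ∃ t : ℝ, t = (1/2 - p)^(4/3 : ℝ) := ⟨_, rfl⟩
    have ht0 : 0 < t := by rw [ht]; exact Real.rpow_pos_of_pos (by linarith) _
    rw [← ht] at hNE hN1 ⊢
    have hNr : (0:ℝ) < N := by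
      have : 0 < N := by omega
      exact_mod_cast this
    rcases le_or_gt n (4 * N) with hle | hgt
    · have h1 : Real.exp (-1) ≤ Real.exp (-(1 / (8 * E) * (n * t))) := by
        apply Real.exp_le_exp.mpr
        have h2 : (n:ℝ) * t ≤ 4 * E := by
          have : (n:ℝ) ≤ 4 * N := by exact_mod_cast hle
          calc (n:ℝ) * t ≤ (4 * N) * t := mul_le_mul_of_nonneg_right this ht0.le
            _ = 4 * (N * t) := by ring
            _ ≤ 4 * E := by linarith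
        have h3 : 1 / (8 * E) * (n * t) ≤ 1 / (8 * E) * (4 * E) :=
          mul_le_mul_of_nonneg_left h2 (by positivity)
        have h4 : 1 / (8 * E) * (4 * E) = 1/2 := by field_simp; norm_num
        linarith
      have h5 : (1/8 : ℝ) ≤ Real.exp (-1) := by
        rw [Real.exp_neg, one_div]
        apply inv_anti₀ (Real.exp_pos _)
        have := Real.exp_one_lt_d9
        linarith
      calc arm p n ≤ Cc * (n:ℝ)^(-(5/48) : ℝ) := hcr
        _ = (8 * Cc * (n:ℝ)^(-(5/48) : ℝ)) * (1/8) := by ring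
        _ ≤ _ := mul_le_mul_of_nonneg_left (h5.trans h1) (by positivity)
    · obtain ⟨q, hq⟩ : ∃ q : ℕ, q = n / (2 * N) := ⟨_, rfl⟩
      have hq2 : 2 ≤ q := by
        rw [hq, Nat.le_div_iff_mul_le (by omega)]
        omega
      obtain ⟨j, hj⟩ : ∃ j : ℕ, j = Nat.log 2 q := ⟨_, rfl⟩
      have hj1 : 1 ≤ j := by
        rw [hj]
        exact Nat.le_log_of_pow_le (by norm_num) (by omega)
      have hj2 : 2^j ≤ q := by rw [hj]; exact Nat.pow_log_le_self 2 (by omega)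
      have hj3 : q < 2^(j+1) := by rw [hj]; exact Nat.lt_pow_succ_log_self (by norm_num) q
      have h3 : q * (2 * N) ≤ n := by rw [hq]; exact Nat.div_mul_le_self n (2*N)
      have h4 : n < (q + 1) * (2 * N) := by
        have := Nat.lt_mul_div_succ n (show 0 < 2 * N by omega)
        rw [← hq] at this
        calc n < 2 * N * (q + 1) := this
          _ = (q + 1) * (2 * N) := by ring
      have h5 : 2 * (2^j * N) ≤ n := by
        calc 2 * (2^j * N) = 2^j * (2 * N) := by ring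
          _ ≤ q * (2 * N) := Nat.mul_le_mul_right _ hj2
          _ ≤ n := h3
      have h6 := (arm_anti hp0 (by linarith) h5).trans
        (arm_far hp0 (by linarith) hN2 heps hj1)
      obtain ⟨y, hy⟩ : ∃ y : ℝ, y = (n:ℝ) / N := ⟨_, rfl⟩
      have hy1 : 1 ≤ y := by
        rw [hy, le_div_iff₀ hNr, one_mul]
        have : N ≤ n := by omega
        exact_mod_cast this
      have h7 : y / 4 ≤ (2:ℝ)^j := by
        have : n ≤ 2^j * (4 * N) := by
          have h8 : (q + 1) * (2 * N) ≤ 2^(j+1) * (2 * N) := Nat.mul_le_mul_right _ hj3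
          have e : 2^(j+1) * (2 * N) = 2^j * (4 * N) := by ring
          omega
        have h8 : (n:ℝ) ≤ 2^j * (4 * N) := by exact_mod_cast this
        rw [hy, div_div, div_le_iff₀ (by positivity)]
        linarith
      have h8 := quarter_pow_le h7
      have h9 : (N:ℝ)^(-(5/48) : ℝ) ≤ y * (n:ℝ)^(-(5/48) : ℝ) := by
        have e : (N:ℝ)^(-(5/48) : ℝ) = y^(5/48 : ℝ) * (n:ℝ)^(-(5/48) : ℝ) := by
          rw [hy, Real.div_rpow hn0.le hNr.le, Real.rpow_neg hn0.le, Real.rpow_neg hNr.le]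
          field_simp
        rw [e]
        apply mul_le_mul_of_nonneg_right _ hpn.le
        calc y^(5/48 : ℝ) ≤ y^(1:ℝ) := Real.rpow_le_rpow_of_exponent_le hy1 (by norm_num)
          _ = y := Real.rpow_one y
      have h10 : arm p N ≤ Cc * (y * (n:ℝ)^(-(5/48) : ℝ)) :=
        ((arm_mono_param hp0 hp (by norm_num) N).trans (harm N (by omega)).2).trans
          (mul_le_mul_of_nonneg_left h9 hCc.le)
      have h11 : Real.exp (-(y/8)) ≤ Real.exp (-(1 / (8 * E) * (n * t))) := by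
        apply Real.exp_le_exp.mpr
        have h12 : (n:ℝ) * t ≤ E * y := by
          calc (n:ℝ) * t = y * (N * t) := by rw [hy]; field_simp
            _ ≤ y * E := mul_le_mul_of_nonneg_left hNE (by linarith)
            _ = E * y := mul_comm _ _
        have h13 : 1 / (8 * E) * (n * t) ≤ 1 / (8 * E) * (E * y) :=
          mul_le_mul_of_nonneg_left h12 (by positivity)
        have h14 : 1 / (8 * E) * (E * y) = y / 8 := by field_simp
        linarith
      calc arm p n ≤ arm p N * (1/4)^(2^j) := h6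
        _ ≤ (Cc * (y * (n:ℝ)^(-(5/48) : ℝ))) * Real.exp (-(y/4)) :=
            mul_le_mul h10 h8 (by positivity) (by positivity)
        _ = Cc * (n:ℝ)^(-(5/48) : ℝ) * (y * Real.exp (-(y/4))) := by ring
        _ ≤ Cc * (n:ℝ)^(-(5/48) : ℝ) * (8 * Real.exp (-(y/8))) :=
            mul_le_mul_of_nonneg_left (mul_exp_le y) (by positivity)
        _ ≤ Cc * (n:ℝ)^(-(5/48) : ℝ) * (8 * Real.exp (-(1 / (8 * E) * (n * t)))) := by
            apply mul_le_mul_of_nonneg_left _ (by positivity)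
            linarith
        _ = _ := by ring

end Pool.Agent.W424.NC
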