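import Pool.Agent.W424.NC.VolFin

/-!
Critical bond percolation on the square lattice: the largest cluster in a box.
-/

set_option maxHeartbeats 1000000

namespace Pool.Agent.W424.NC

open H31K H974 Finset MeasureTheory

/-- Some vertex of the box of radius `N` is connected in it to at least `m` vertices. -/
def BigE (N m : ℕ) (F : Finset Edg) : Prop :=
  ∃ u : Vtx, u ∈ boxV N ∧ ∃ A : Finset Vtx, m ≤ A.card ∧
    ∀ v ∈ A, v ∈ boxV N ∧ Reach (↑F ∩ ↑(boxE N)) u v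

theorem BigE.mono {N m : ℕ} {F G : Finset Edg} (h : F ⊆ G) (hF : BigE N m F) : BigE N m G := by
  obtain ⟨u, hu, A, hA, hr⟩ := hF
  exact ⟨u, hu, A, hA, fun v hv => ⟨(hr v hv).1,
    (hr v hv).2.mono (Set.inter_subset_inter_left _ (by exact_mod_cast h))⟩⟩

theorem BigE_local {N m : ℕ} {F S : Finset Edg} (hS : boxE N ⊆ S) :
    BigE N m F ↔ BigE N m (F ∩ S) := by
  unfold BigE
  rw [coe_inter_eq hS]

theorem boxV_mono {n m : ℕ} (h : n ≤ m) : boxV n ⊆ boxV m := by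
  have h' : (n:ℤ) ≤ m := by exact_mod_cast h
  unfold boxV
  intro x hx
  rw [Finset.mem_product, Finset.mem_Icc, Finset.mem_Icc] at hx ⊢
  omega

/-- Many points with long arms and a circuit give a big cluster. -/
theorem big_of {r m : ℕ} (hr : 1 ≤ r) {F : Finset Edg} (h2 : Circ r ((3 * r : ℕ) : ℤ) F)
    (h3 : (m:ℝ) ≤ YF r F) : BigE (5 * r) m F := by
  classical
  have e1 : YF r F = (((boxV r).filter
      (fun x => Arm (4 * r) ((trl (-x.1) (-x.2)).mp F))).card : ℝ) := by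
    unfold YF
    rw [Finset.card_filter]
    push_cast
    apply Finset.sum_congr rfl
    intro x _
    unfold ind
    split_ifs <;> simp_all
  rw [e1] at h3
  obtain ⟨A, hA⟩ : ∃ A : Finset Vtx, A = (boxV r).filter
      (fun x => Arm (4 * r) ((trl (-x.1) (-x.2)).mp F)) := ⟨_, rfl⟩
  rw [← hA] at h3
  have h4 : m ≤ A.card := by exact_mod_cast h3
  obtain ⟨z, hz⟩ := circ_meet (by positivity) (by push_cast; omega) h2
  -- every point of `A` is connected to `z`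
  have key : ∀ x ∈ A, Reach (↑F ∩ ↑(boxE (3 * r))) x z := by
    intro x hx
    rw [hA, Finset.mem_filter] at hx
    obtain ⟨hx1, hx2⟩ := hx
    have hxr := mem_boxV hx1
    obtain ⟨x1, x2⟩ := x
    simp only at hxr hx2
    obtain ⟨u, hu, hru⟩ := hx2
    have hru2 : Reach (↑((trl (-x1) (-x2)).mp F) : Set Edg) (0, 0) u :=
      hru.mono Set.inter_subset_left
    have hru3 := (trl (- -x1) (- -x2)).reach hru2
    rw [← LSym.coe_mp, trl_trl, trl_ψ] at hru3
    obtain ⟨u1, u2⟩ := u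
    rw [trl_ψ, neg_neg, neg_neg, zero_add, zero_add] at hru3
    unfold onB inR at hu
    unfold inR at hxr
    simp only at hu hxr
    push_cast at hu
    obtain ⟨w, k1, k2, k3⟩ := first_exit (a := -((3 * r : ℕ) : ℤ)) (b := ((3 * r : ℕ) : ℤ))
      (c := -((3 * r : ℕ) : ℤ)) (d := ((3 * r : ℕ) : ℤ))
      (by unfold inR; simp only; push_cast; omega) hru3 (by simp only; push_cast; omega)
    exact hz (x1, x2) w (by unfold inR; simp only; omega) k2 k3
  have hsub : (↑F : Set Edg) ∩ ↑(boxE (3 * r)) ⊆ ↑F ∩ ↑(boxE (5 * r)) :=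
    Set.inter_subset_inter_right _ (by exact_mod_cast boxE_mono (by omega : 3 * r ≤ 5 * r))
  have hbv : boxV r ⊆ boxV (5 * r) := boxV_mono (by omega)
  rcases A.eq_empty_or_nonempty with hE | ⟨x0, hx0⟩
  · rw [hE] at h4
    refine ⟨(0, 0), ?_, ∅, h4, by simp⟩
    unfold boxV
    simp only [Finset.mem_product, Finset.mem_Icc]
    omega
  · have hmemV : ∀ x ∈ A, x ∈ boxV (5 * r) := by
      intro x hx
      rw [hA, Finset.mem_filter] at hx
      exact hbv hx.1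
    refine ⟨x0, hmemV x0 hx0, A, h4, fun v hv => ⟨hmemV v hv, ?_⟩⟩
    exact ((key x0 hx0).trans (key v hv).symm).mono hsub

/-- A big cluster exists with positive probability. -/
theorem big_pos : ∃ c0 K : ℝ, 0 < c0 ∧ c0 ≤ 1 ∧ 0 < K ∧ ∀ (r m : ℕ), 1 ≤ r →
    (m:ℝ) ≤ K * (r:ℝ)^(91/48 : ℝ) → ∀ S : Finset Edg, boxE (5 * r) ⊆ S →
    c0 ≤ Pr (fun _ => (1/2:ℝ)) S (BigE (5 * r) m) := by
  obtain ⟨cc, Cc, hcc, hCc, harm⟩ := arm_crit
  obtain ⟨K, hK, hsec⟩ := YF_second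
  obtain ⟨K4, hK4⟩ : ∃ K4 : ℝ, K4 = 4 * cc * (4:ℝ)^(-(5/48) : ℝ) := ⟨_, rfl⟩
  have hK40 : 0 < K4 := by rw [hK4]; positivity
  refine ⟨min ((1/2)^188 * (K4^2 / (4 * K))) 1, K4 / 2, lt_min (by positivity) one_pos,
    min_le_right _ _, by positivity, ?_⟩
  intro r m hr1 hm' S hSs
  refine (min_le_left _ _).trans ?_
  have h0 : (0:ℝ) ≤ 1/2 := by norm_num
  have h1 : (1/2:ℝ) ≤ 1 := by norm_num
  have ok := okq h0 h1
  have hr0 : (0:ℝ) < r := by exact_mod_cast hr1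
  obtain ⟨M, hM⟩ : ∃ M : ℝ, M = K4 * (r:ℝ)^(91/48 : ℝ) := ⟨_, rfl⟩
  have hM0 : 0 < M := by rw [hM]; positivity
  have hmM : (m:ℝ) ≤ M / 2 := by rw [hM]; linarith
  have hmean : M ≤ Ex (fun _ => (1/2:ℝ)) S (YF r) := by
    rw [YF_mean hSs, hM, hK4]
    have i1 := (harm (4 * r) (by omega)).1
    have i2 : ((4 * r : ℕ) : ℝ)^(-(5/48) : ℝ) = (4:ℝ)^(-(5/48) : ℝ) * (r:ℝ)^(-(5/48) : ℝ) := by
      push_cast
      rw [Real.mul_rpow (by norm_num) hr0.le]
    rw [i2] at i1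
    have i3 : (r:ℝ)^(91/48 : ℝ) = (r:ℝ)^2 * (r:ℝ)^(-(5/48) : ℝ) := by
      rw [← Real.rpow_two, ← Real.rpow_add hr0]
      norm_num
    rw [i3]
    calc 4 * cc * (4:ℝ)^(-(5/48) : ℝ) * ((r:ℝ)^2 * (r:ℝ)^(-(5/48) : ℝ))
        = (4 * (r:ℝ)^2) * (cc * ((4:ℝ)^(-(5/48) : ℝ) * (r:ℝ)^(-(5/48) : ℝ))) := by ring
      _ ≤ (2 * (r:ℝ) + 1)^2 * arm (1/2) (4 * r) := by
          apply mul_le_mul _ i1 (by positivity) (by positivity)
          nlinarith
  have hpz := pz ok hM0 (by positivity : 0 < K * (r:ℝ)^(4 - 5/24 : ℝ)) hmean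
    (hsec r hr1 S hSs)
  have hc0 : M^2 / (4 * (K * (r:ℝ)^(4 - 5/24 : ℝ))) = K4^2 / (4 * K) := by
    have i1 : ((r:ℝ)^(91/48 : ℝ))^2 = (r:ℝ)^(4 - 5/24 : ℝ) := by
      rw [← Real.rpow_natCast ((r:ℝ)^(91/48 : ℝ)), ← Real.rpow_mul hr0.le]
      norm_num
    have i2 : (0:ℝ) < (r:ℝ)^(4 - 5/24 : ℝ) := by positivity
    rw [hM, mul_pow, i1]
    field_simp
  rw [hc0] at hpz
  have hsub3 : boxE (3 * r) ⊆ S := (boxE_mono (by omega)).trans hSs
  have hr' : (0:ℤ) < r := by exact_mod_cast hr1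
  have hcirc : (1/2 : ℝ)^188 ≤ Pr (fun _ => (1/2:ℝ)) S (Circ r ((3 * r : ℕ) : ℤ)) := by
    refine le_trans ?_ (pr_Circ h0 h1 (R1 := r) (R2 := ((3 * r : ℕ) : ℤ)) (by positivity)
      (by push_cast; omega) hsub3)
    have k := rsw_p (p := 1/2) le_rfl h1 (n := r) (w := 2 * ((3 * r : ℕ) : ℤ))
      (h := ((3 * r : ℕ) : ℤ) - r) hr' (by push_cast; omega) (by push_cast; omega)
      (by push_cast; omega)
    calc (1/2 : ℝ)^188 = ((1/2 : ℝ)^47)^4 := by norm_num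
      _ ≤ _ := pow_le_pow_left₀ (by positivity) k 4
  have i2 := Pr_harris ok (S := S)
    (A := Circ r ((3 * r : ℕ) : ℤ))
    (B := fun F => M / 2 ≤ YF r F) (fun F G h _ hF => hF.mono h)
    (fun F G h _ hF => hF.trans (YF_mono r h))
  have i3 : Pr (fun _ => (1/2:ℝ)) S (fun F => Circ r ((3 * r : ℕ) : ℤ) F ∧
      M / 2 ≤ YF r F) ≤ Pr (fun _ => (1/2:ℝ)) S (BigE (5 * r) m) := by
    apply Pr_mono ok
    rintro F _ ⟨k1, k2⟩
    exact big_of hr1 k1 (hmM.trans k2)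
  have hA0 : (0:ℝ) ≤ (1/2 : ℝ)^188 := by positivity
  exact ((mul_le_mul hcirc hpz (by positivity) (hA0.trans hcirc)).trans i2).trans i3

/-- Disjoint boxes in a row. -/
theorem row {r m n : ℕ} {c0 : ℝ} (hc0 : ∀ S : Finset Edg, boxE (5 * r) ⊆ S →
      c0 ≤ Pr (fun _ => (1/2:ℝ)) S (BigE (5 * r) m)) (hc1 : c0 ≤ 1) :
    ∀ N : ℕ, (10 * r + 1) * N ≤ 2 * n →
      Pr (fun _ => (1/2:ℝ)) (boxE n) (fun F => ∀ j < N,
        ¬ BigE (5 * r) m ((trl (n - 5 * r - (10 * r + 1) * j) 0).mp F)) ≤ (1 - c0)^N := by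
  intro N
  have ok := okq (q := 1/2) (by norm_num) (by norm_num)
  induction N with
  | zero =>
    intro _
    rw [pow_zero]
    exact Pr_le_one ok _ _
  | succ k ih =>
    intro hk
    have hk' : (10 * r + 1) * k + (10 * r + 1) ≤ 2 * n := by
      have : (10 * r + 1) * (k + 1) = (10 * r + 1) * k + (10 * r + 1) := by ring
      omega
    have ih' := ih (by omega)
    obtain ⟨a, ha⟩ : ∃ a : ℤ, a = (n:ℤ) - 5 * r - (10 * r + 1) * k := ⟨_, rfl⟩
    have hkz : (0:ℤ) ≤ (10 * (r:ℤ) + 1) * k := by positivity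
    have hkn : (10 * (r:ℤ) + 1) * k + (10 * r + 1) ≤ 2 * n := by exact_mod_cast hk'
    -- the new box
    obtain ⟨U, hU⟩ : ∃ U : Finset Edg, U = RE (-a - ((5 * r : ℕ) : ℤ)) (-a + ((5 * r : ℕ) : ℤ))
      (-((5 * r : ℕ) : ℤ)) ((5 * r : ℕ) : ℤ) := ⟨_, rfl⟩
    obtain ⟨W, hW⟩ : ∃ W : Finset Edg, W = RE (-(n:ℤ)) (-a - ((5 * r : ℕ) : ℤ) - 1) (-(n:ℤ)) n :=
      ⟨_, rfl⟩
    push_cast at hU hW
    have hUn : U ⊆ boxE n := by
      rw [hU]; unfold boxE
      apply RE_subset <;> omega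
    have hWn : W ⊆ boxE n := by
      rw [hW]; unfold boxE
      apply RE_subset <;> omega
    have hd : Disjoint W U := by
      rw [Finset.disjoint_left, hU, hW]
      rintro ⟨x, y, _ | _⟩ he1 he2
      · simp only [mem_RE_false] at he1 he2; omega
      · simp only [mem_RE_true] at he1 he2; omega
    have himg : ∀ b : ℤ, boxE (5 * r) = (trl b 0).mp (RE (-b - 5 * (r:ℤ)) (-b + 5 * (r:ℤ))
        (-(5 * (r:ℤ))) (5 * (r:ℤ))) := by
      intro b
      rw [trl_RE]; unfold boxE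
      push_cast
      congr 1 <;> ring
    have hlocU : ∀ F : Finset Edg, (¬ BigE (5 * r) m ((trl a 0).mp F)) ↔
        (¬ BigE (5 * r) m ((trl a 0).mp (F ∩ U))) := by
      intro F
      rw [LSym.mp_inter]
      have hs : boxE (5 * r) ⊆ (trl a 0).mp U := by
        rw [himg a, hU]
      rw [← BigE_local (F := (trl a 0).mp F) hs]
    have hlocW : ∀ F : Finset Edg, (∀ j < k,
        ¬ BigE (5 * r) m ((trl (n - 5 * r - (10 * r + 1) * j) 0).mp F)) ↔ (∀ j < k,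
        ¬ BigE (5 * r) m ((trl (n - 5 * r - (10 * r + 1) * j) 0).mp (F ∩ W))) := by
      intro F
      apply forall_congr'
      intro j
      apply imp_congr_right
      intro hj
      rw [LSym.mp_inter]
      have hs : boxE (5 * r) ⊆ (trl ((n:ℤ) - 5 * r - (10 * r + 1) * j) 0).mp W := by
        rw [himg ((n:ℤ) - 5 * r - (10 * r + 1) * j)]
        apply LSym.mp_mono
        rw [hW]
        have hjz : (0:ℤ) ≤ (10 * (r:ℤ) + 1) * j := by positivity
        have hjk : (10 * (r:ℤ) + 1) * j + (10 * r + 1) ≤ (10 * (r:ℤ) + 1) * k := by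
          have h5 : (j:ℤ) + 1 ≤ k := by exact_mod_cast hj
          have h6 : (0:ℤ) ≤ 10 * (r:ℤ) + 1 := by positivity
          nlinarith
        apply RE_subset <;> omega
      rw [← BigE_local (F := (trl ((n:ℤ) - 5 * r - (10 * r + 1) * j) 0).mp F) hs]
    have hind := Pr_indep (p := fun _ => (1/2:ℝ)) hWn hUn hd
      (A := fun F => ∀ j < k, ¬ BigE (5 * r) m ((trl (n - 5 * r - (10 * r + 1) * j) 0).mp F))
      (B := fun F => ¬ BigE (5 * r) m ((trl a 0).mp F)) (fun F _ => hlocW F) (fun F _ => hlocU F)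
    have e1 : Pr (fun _ => (1/2:ℝ)) (boxE n) (fun F => ∀ j < k + 1,
        ¬ BigE (5 * r) m ((trl (n - 5 * r - (10 * r + 1) * j) 0).mp F)) =
        Pr (fun _ => (1/2:ℝ)) (boxE n) (fun F => (∀ j < k,
          ¬ BigE (5 * r) m ((trl (n - 5 * r - (10 * r + 1) * j) 0).mp F)) ∧
          ¬ BigE (5 * r) m ((trl a 0).mp F)) := by
      apply Pr_congr
      intro F _
      constructor
      · intro h
        exact ⟨fun j hj => h j (by omega), by rw [ha]; exact h k (by omega)⟩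
      · rintro ⟨h1, h2⟩ j hj
        rcases Nat.lt_succ_iff_lt_or_eq.mp hj with h | h
        · exact h1 j h
        · rw [h, ← ha]; exact h2
    have e2 : Pr (fun _ => (1/2:ℝ)) (boxE n) (fun F => ¬ BigE (5 * r) m ((trl a 0).mp F)) ≤
        1 - c0 := by
      rw [Pr_not]
      have e3 : Pr (fun _ => (1/2:ℝ)) (boxE n) (fun F => BigE (5 * r) m ((trl a 0).mp F)) =
          Pr (fun _ => (1/2:ℝ)) ((trl a 0).mp (boxE n)) (BigE (5 * r) m) := by
        rw [LSym.pr]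
      rw [e3]
      have := hc0 ((trl a 0).mp (boxE n)) (by
        rw [himg a]
        apply LSym.mp_mono
        rw [hU] at hUn
        exact hUn)
      linarith
    rw [e1, hind, pow_succ]
    exact mul_le_mul ih' e2 (Pr_nonneg ok _ _) (by
      have : (0:ℝ) ≤ 1 - c0 := by linarith
      positivity)

end Pool.Agent.W424.NC
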