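import Pool.Agent.W424.NC.Big

/-!
Critical bond percolation on the square lattice: the largest cluster in a box, final estimates.
-/

set_option maxHeartbeats 1000000

namespace Pool.Agent.W424.NC

open H31K H974 Finset MeasureTheory

theorem BigE_shift {n r m : ℕ} {a : ℤ} (h1 : -(n:ℤ) ≤ -a - 5 * r) (h2 : -a + 5 * r ≤ (n:ℤ))
    {F : Finset Edg} (h : BigE (5 * r) m ((trl a 0).mp F)) : BigE n m F := by
  classical
  obtain ⟨u, hu, A, hA, hr⟩ := h
  have hrr : (0:ℤ) ≤ r := by positivity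
  have hbox : ∀ v : Vtx, v ∈ boxV (5 * r) → ((v.1 - a, v.2) : Vtx) ∈ boxV n := by
    intro v hv
    have hv' := mem_boxV hv
    unfold inR at hv'
    simp only at hv'
    push_cast at hv'
    unfold boxV
    simp only [Finset.mem_product, Finset.mem_Icc]
    omega
  have hreach : ∀ v w : Vtx, Reach (↑((trl a 0).mp F) ∩ ↑(boxE (5 * r))) v w →
      Reach (↑F ∩ ↑(boxE n)) (v.1 - a, v.2) (w.1 - a, w.2) := by
    rintro ⟨v1, v2⟩ ⟨w1, w2⟩ hvw
    have k1 := (trl (-a) (-0)).reach hvw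
    rw [LSym.image_inter, trl_trl, trl_ψ, trl_ψ] at k1
    simp only [neg_zero, add_zero] at k1
    refine Reach.mono ?_ k1
    apply Set.inter_subset_inter_right
    have k2 : (trl (-a) 0).mp (boxE (5 * r)) ⊆ boxE n := by
      unfold boxE
      rw [trl_RE]
      apply RE_subset <;> push_cast <;> omega
    exact_mod_cast k2
  have hinj : Function.Injective (fun v : Vtx => ((v.1 - a, v.2) : Vtx)) := by
    intro v w hvw
    simp only [Prod.mk.injEq] at hvw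
    apply Prod.ext
    · omega
    · exact hvw.2
  refine ⟨(u.1 - a, u.2), hbox u hu, A.image (fun v : Vtx => ((v.1 - a, v.2) : Vtx)), ?_, ?_⟩
  · rw [Finset.card_image_of_injective _ hinj]
    exact hA
  · intro v hv
    obtain ⟨w, hw, rfl⟩ := Finset.mem_image.mp hv
    exact ⟨hbox w (hr w hw).1, hreach u w (hr w hw).2⟩

/-- The largest cluster is large. -/
theorem big_lower {ε : ℝ} (hε : 0 < ε) : ∃ c : ℝ, 0 < c ∧ ∀ n : ℕ, 1 ≤ n → ∃ m : ℕ, 1 ≤ m ∧
    c * (n:ℝ)^(91/48 : ℝ) ≤ m ∧ 1 - ε ≤ Pr (fun _ => (1/2:ℝ)) (boxE n) (BigE n m) := by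
  obtain ⟨c0, K, hc0, hc01, hK, hbig⟩ := big_pos
  have ok := okq (q := 1/2) (by norm_num) (by norm_num)
  obtain ⟨N, hN⟩ := exists_pow_lt_of_lt_one hε (by linarith : 1 - c0 < 1)
  have hN' : (1 - c0)^(N + 1) ≤ ε := by
    have i1 : (0:ℝ) ≤ 1 - c0 := by linarith
    have i2 : 1 - c0 ≤ 1 := by linarith
    calc (1 - c0)^(N + 1) = (1 - c0)^N * (1 - c0) := pow_succ _ _
      _ ≤ (1 - c0)^N * 1 := mul_le_mul_of_nonneg_left i2 (by positivity)
      _ ≤ ε := by linarith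
  obtain ⟨Q, hQ⟩ : ∃ Q : ℕ, Q = N + 1 := ⟨_, rfl⟩
  rw [← hQ] at hN'
  have hQ1 : 1 ≤ Q := by omega
  have hQ0 : (0:ℝ) < Q := by exact_mod_cast hQ1
  obtain ⟨c1, hc1⟩ : ∃ c1 : ℝ, c1 = K * ((12 * (Q:ℝ))⁻¹)^(91/48 : ℝ) := ⟨_, rfl⟩
  have hc10 : 0 < c1 := by rw [hc1]; positivity
  refine ⟨min (c1 / 2) (((6 * (Q:ℝ))⁻¹)^(91/48 : ℝ)), lt_min (by positivity) (by positivity), ?_⟩
  intro n hn
  have hn0 : (0:ℝ) < n := by exact_mod_cast hn
  have hnp : 0 < (n:ℝ)^(91/48 : ℝ) := by positivity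
  -- the case `m = 1`
  have one : 1 - ε ≤ Pr (fun _ => (1/2:ℝ)) (boxE n) (BigE n 1) := by
    have h : Pr (fun _ => (1/2:ℝ)) (boxE n) (BigE n 1) = 1 := by
      apply Pr_true
      intro F _
      have h0 : ((0, 0) : Vtx) ∈ boxV n := by
        unfold boxV
        simp only [Finset.mem_product, Finset.mem_Icc]
        omega
      refine ⟨(0, 0), h0, {(0, 0)}, by simp, ?_⟩
      intro v hv
      rw [Finset.mem_singleton] at hv
      rw [hv]
      exact ⟨h0, Reach.refl _ _⟩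
    rw [h]
    linarith
  by_cases hsmall : n < 6 * Q
  · refine ⟨1, le_rfl, ?_, one⟩
    have h1 : (n:ℝ) ≤ 6 * Q := by exact_mod_cast hsmall.le
    calc min (c1 / 2) (((6 * (Q:ℝ))⁻¹)^(91/48 : ℝ)) * (n:ℝ)^(91/48 : ℝ)
        ≤ ((6 * (Q:ℝ))⁻¹)^(91/48 : ℝ) * (n:ℝ)^(91/48 : ℝ) :=
          mul_le_mul_of_nonneg_right (min_le_right _ _) hnp.le
      _ = ((6 * (Q:ℝ))⁻¹ * n)^(91/48 : ℝ) := (Real.mul_rpow (by positivity) hn0.le).symm
      _ ≤ 1 := by
          apply Real.rpow_le_one (by positivity) _ (by norm_num)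
          rw [inv_mul_eq_div, div_le_one (by positivity)]
          exact h1
      _ = ((1:ℕ):ℝ) := by norm_num
  · push Not at hsmall
    obtain ⟨r, hr⟩ : ∃ r : ℕ, r = n / (6 * Q) := ⟨_, rfl⟩
    have h6Q : 0 < 6 * Q := by omega
    have hr1 : 1 ≤ r := by
      rw [hr, Nat.le_div_iff_mul_le h6Q]
      omega
    have hrn : 6 * Q * r ≤ n := by rw [hr]; exact Nat.mul_div_le _ _
    have hrn2 : n < 6 * Q * (r + 1) := by
      rw [hr]
      exact Nat.lt_mul_div_succ n h6Q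
    have hr0 : (0:ℝ) < r := by exact_mod_cast hr1
    have hrow : (10 * r + 1) * Q ≤ 2 * n := by
      have i1 : 1 * Q ≤ r * Q := Nat.mul_le_mul_right _ hr1
      nlinarith
    have hrlow : (12 * (Q:ℝ))⁻¹ * n ≤ r := by
      rw [inv_mul_eq_div, div_le_iff₀ (by positivity)]
      have i1 : n ≤ 12 * Q * r := by nlinarith
      have i2 : (n:ℝ) ≤ 12 * Q * r := by exact_mod_cast i1
      linarith
    obtain ⟨y, hy⟩ : ∃ y : ℝ, y = K * (r:ℝ)^(91/48 : ℝ) := ⟨_, rfl⟩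
    have hy0 : 0 < y := by rw [hy]; positivity
    have hcy : c1 * (n:ℝ)^(91/48 : ℝ) ≤ y := by
      rw [hc1, hy, mul_assoc, ← Real.mul_rpow (by positivity) hn0.le]
      apply mul_le_mul_of_nonneg_left _ hK.le
      exact Real.rpow_le_rpow (by positivity) hrlow (by norm_num)
    have hcle : min (c1 / 2) (((6 * (Q:ℝ))⁻¹)^(91/48 : ℝ)) * (n:ℝ)^(91/48 : ℝ) ≤ y / 2 := by
      calc _ ≤ c1 / 2 * (n:ℝ)^(91/48 : ℝ) := mul_le_mul_of_nonneg_right (min_le_left _ _) hnp.le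
        _ = c1 * (n:ℝ)^(91/48 : ℝ) / 2 := by ring
        _ ≤ _ := by linarith
    by_cases hy1 : y < 1
    · exact ⟨1, le_rfl, by push_cast; linarith, one⟩
    · push Not at hy1
      obtain ⟨m, hm⟩ : ∃ m : ℕ, m = ⌊y⌋₊ := ⟨_, rfl⟩
      have hm1 : 1 ≤ m := by rw [hm]; exact Nat.le_floor (by exact_mod_cast hy1)
      have hmy : (m:ℝ) ≤ y := by rw [hm]; exact Nat.floor_le hy0.le
      have hym : y < m + 1 := by rw [hm]; exact Nat.lt_floor_add_one y
      have hm1' : (1:ℝ) ≤ m := by exact_mod_cast hm1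
      refine ⟨m, hm1, by linarith, ?_⟩
      have h1 := row (r := r) (m := m) (n := n) (c0 := c0)
        (fun S hS => hbig r m hr1 (by rw [← hy]; exact hmy) S hS) hc01 Q hrow
      have h2 : Pr (fun _ => (1/2:ℝ)) (boxE n) (fun F => ¬ BigE n m F) ≤
          Pr (fun _ => (1/2:ℝ)) (boxE n) (fun F => ∀ j < Q,
            ¬ BigE (5 * r) m ((trl (n - 5 * r - (10 * r + 1) * j) 0).mp F)) := by
        apply Pr_mono ok
        intro F _ hF j hj hcon
        apply hF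
        refine BigE_shift ?_ ?_ hcon
        · have : (0:ℤ) ≤ (10 * (r:ℤ) + 1) * j := by positivity
          linarith
        · have h5 : (j:ℤ) + 1 ≤ Q := by exact_mod_cast hj
          have h6 : (0:ℤ) ≤ 10 * (r:ℤ) + 1 := by positivity
          have h7 : (10 * (r:ℤ) + 1) * Q ≤ 2 * n := by exact_mod_cast hrow
          nlinarith
      rw [Pr_not] at h2
      linarith

/-- `x` is connected to at least `m` vertices. -/
def VX (m : ℕ) (x : Vtx) (F : Finset Edg) : Prop :=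
  ∃ A : Finset Vtx, m ≤ A.card ∧ ∀ v ∈ A, Reach (↑F : Set Edg) x v

theorem VX_shift {m : ℕ} {x : Vtx} {F : Finset Edg} (h : VX m x F) :
    VX m (0, 0) ((trl (-x.1) (-x.2)).mp F) := by
  classical
  obtain ⟨A, hA, hr⟩ := h
  have hinj : Function.Injective (fun v : Vtx => ((v.1 - x.1, v.2 - x.2) : Vtx)) := by
    intro v w hvw
    simp only [Prod.mk.injEq] at hvw
    apply Prod.ext
    · omega
    · omega
  refine ⟨A.image (fun v : Vtx => ((v.1 - x.1, v.2 - x.2) : Vtx)), ?_, ?_⟩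
  · rw [Finset.card_image_of_injective _ hinj]
    exact hA
  · intro v hv
    obtain ⟨w, hw, rfl⟩ := Finset.mem_image.mp hv
    have k1 := (trl (-x.1) (-x.2)).reach (hr w hw)
    obtain ⟨x1, x2⟩ := x
    obtain ⟨w1, w2⟩ := w
    rw [← LSym.coe_mp, trl_ψ, trl_ψ] at k1
    simp only at k1 ⊢
    have e1 : x1 + -x1 = 0 := by ring
    have e2 : x2 + -x2 = 0 := by ring
    have e3 : w1 + -x1 = w1 - x1 := by ring
    have e4 : w2 + -x2 = w2 - x2 := by ring
    rw [e1, e2, e3, e4] at k1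
    exact k1

theorem pr_VX (m : ℕ) (x : Vtx) (S : Finset Edg) :
    Pr (fun _ => (1/2:ℝ)) S (VX m x) ≤ (bondLaw hlf).real (Vol m) := by
  classical
  have ok := okq (q := 1/2) (by norm_num) (by norm_num)
  have h1 : Pr (fun _ => (1/2:ℝ)) S (VX m x) ≤
      Pr (fun _ => (1/2:ℝ)) S (fun F => VX m (0, 0) ((trl (-x.1) (-x.2)).mp F)) :=
    Pr_mono ok (fun F _ h => VX_shift h)
  refine h1.trans ?_
  rw [← LSym.pr]
  have h2 := law_event hlf ((trl (-x.1) (-x.2)).mp S) (VX m (0, 0))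
  have hhlf : ((hlf : unitInterval) : ℝ) = 1/2 := rfl
  rw [hhlf] at h2
  rw [← h2]
  refine measureReal_mono ?_
  rintro ω ⟨A, hA, hr⟩
  have h5 : (↑A : Set Vtx) ⊆ cluster0 ω := by
    intro v hv
    have h7 := hr v (Finset.mem_coe.mp hv)
    rw [FF_coe] at h7
    exact (open_reach ω _ _).mpr (h7.mono Set.inter_subset_left)
  have h8 := Set.encard_le_encard h5
  rw [Set.encard_coe_eq_coe_finsetCard] at h8
  show (m:ℕ∞) ≤ (cluster0 ω).encard
  exact le_trans (by exact_mod_cast hA) h8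

/-- The largest cluster is not too large. -/
theorem big_upper : ∃ C : ℝ, 0 < C ∧ ∀ n m : ℕ, 1 ≤ n → 1 ≤ m →
    Pr (fun _ => (1/2:ℝ)) (boxE n) (BigE n m) ≤ C * (n:ℝ)^2 * (m:ℝ)^(-(96/91) : ℝ) := by
  classical
  obtain ⟨C, hC, hvol⟩ := vol_upper
  refine ⟨9 * C, by positivity, ?_⟩
  intro n m hn hm
  have ok := okq (q := 1/2) (by norm_num) (by norm_num)
  have hn1 : (1:ℝ) ≤ n := by exact_mod_cast hn
  have hm1 : (1:ℝ) ≤ m := by exact_mod_cast hm
  have hm0 : (0:ℝ) < m := by linarith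
  have h1 : Pr (fun _ => (1/2:ℝ)) (boxE n) (BigE n m) ≤
      Ex (fun _ => (1/2:ℝ)) (boxE n) (fun F => (1 / (m:ℝ)) * ∑ x ∈ boxV n, ind (VX m x F)) := by
    unfold Pr
    apply Ex_mono ok
    intro F _
    by_cases h : BigE n m F
    · rw [ind_of h]
      obtain ⟨u, hu, A, hA, hr⟩ := h
      have h2 : (A.card : ℝ) ≤ ∑ x ∈ boxV n, ind (VX m x F) := by
        have h3 : A ⊆ boxV n := fun v hv => (hr v hv).1
        calc (A.card : ℝ) = ∑ _x ∈ A, (1:ℝ) := by rw [Finset.sum_const, nsmul_eq_mul, mul_one]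
          _ ≤ ∑ x ∈ A, ind (VX m x F) := by
              apply Finset.sum_le_sum
              intro v hv
              rw [ind_of]
              refine ⟨A, hA, fun w hw => ?_⟩
              exact ((hr v hv).2.symm.trans (hr w hw).2).mono Set.inter_subset_left
          _ ≤ _ := Finset.sum_le_sum_of_subset_of_nonneg h3 (fun x _ _ => ind_nonneg _)
      have h4 : (m:ℝ) ≤ A.card := by exact_mod_cast hA
      rw [one_div, ← div_eq_inv_mul, le_div_iff₀ hm0]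
      linarith
    · rw [ind_not_of h]
      apply mul_nonneg (by positivity)
      exact Finset.sum_nonneg (fun x _ => ind_nonneg _)
  rw [Ex_mul_left, Ex_sum] at h1
  have h2 : ∑ x ∈ boxV n, Ex (fun _ => (1/2:ℝ)) (boxE n) (fun F => ind (VX m x F)) ≤
      ∑ _x ∈ boxV n, C * (m:ℝ)^(-(5/91) : ℝ) :=
    Finset.sum_le_sum (fun x _ => (pr_VX m x (boxE n)).trans (hvol m hm))
  rw [Finset.sum_const, nsmul_eq_mul, card_boxV] at h2
  have h3 : (2 * (n:ℝ) + 1)^2 ≤ 9 * (n:ℝ)^2 := by nlinarith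
  have hmp : 0 < (m:ℝ)^(-(5/91) : ℝ) := by positivity
  have h4 : 1 / (m:ℝ) * (m:ℝ)^(-(5/91) : ℝ) = (m:ℝ)^(-(96/91) : ℝ) := by
    rw [one_div, ← Real.rpow_neg_one, ← Real.rpow_add hm0]
    norm_num
  calc _ ≤ 1 / (m:ℝ) * ∑ x ∈ boxV n, Ex (fun _ => (1/2:ℝ)) (boxE n)
        (fun F => ind (VX m x F)) := h1
    _ ≤ 1 / (m:ℝ) * ((2 * (n:ℝ) + 1)^2 * (C * (m:ℝ)^(-(5/91) : ℝ))) :=
        mul_le_mul_of_nonneg_left h2 (by positivity)
    _ ≤ 1 / (m:ℝ) * ((9 * (n:ℝ)^2) * (C * (m:ℝ)^(-(5/91) : ℝ))) := by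
        apply mul_le_mul_of_nonneg_left _ (by positivity)
        exact mul_le_mul_of_nonneg_right h3 (by positivity)
    _ = 9 * C * (n:ℝ)^2 * (1 / (m:ℝ) * (m:ℝ)^(-(5/91) : ℝ)) := by ring
    _ = _ := by rw [h4]

end Pool.Agent.W424.NC
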