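import Pool.Agent.W424.NC.NearC
import Pool.Agent.H974R5.Exps

/-!
Sharp near-critical estimates, part D: the end of the scaling window up to constants.
-/

set_option maxHeartbeats 1000000

namespace Pool.Agent.W424.NC

open H973N H974 H12S Finset

/-- The two-sided four-arm bounds in the window. -/
def NearP (b c C : ℝ) : Prop := ∀ n : ℕ, 1 ≤ n → ∀ q : ℝ, |q - 1/2| ≤ b * (n:ℝ) ^ (-(3/4 : ℝ)) →
  ∀ k : ℕ, 1 ≤ k → k ≤ n → c * (k:ℝ) ^ (-(5/4 : ℝ)) ≤ a4 q k ∧ a4 q k ≤ C * (k:ℝ) ^ (-(5/4 : ℝ))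

theorem SB_up {q : ℝ} (h0 : 0 ≤ q) (h1 : q ≤ 1) {n g s t : ℕ} (M : ℕ) (hg : 1 ≤ g) (hgn : g ≤ n)
    (hs : s ≤ 2 * n) (ht : t ≤ 2 * n) : SB q s t M g ≤ 81 * ((n:ℝ) / g) ^ 2 := by
  classical
  obtain ⟨W, hW⟩ : ∃ W : ℕ, W = 2 * n / g + 2 := ⟨_, rfl⟩
  have hgr : (0:ℝ) < g := by exact_mod_cast hg
  have hcard : ∑ i ∈ idx M, PB q s t (gp g i) (2 * g - 1) ≤
      ∑ i ∈ Icc (-(W:ℤ)) W ×ˢ Icc (-(W:ℤ)) W, (1:ℝ) := by
    have e1 : ∑ i ∈ idx M, PB q s t (gp g i) (2 * g - 1) =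
        ∑ i ∈ (idx M).filter (fun i => i ∈ Icc (-(W:ℤ)) W ×ˢ Icc (-(W:ℤ)) W),
          PB q s t (gp g i) (2 * g - 1) := by
      rw [Finset.sum_filter]
      apply Finset.sum_congr rfl
      intro i _
      split_ifs with hi
      · rfl
      · apply PB_out hg
        by_contra hcon
        push Not at hcon
        apply hi
        have key : ∀ x : ℤ, ∀ y : ℕ, y ≤ 2 * n → |(g:ℤ) * x| ≤ (y:ℤ) + 2 * g →
            -(W:ℤ) ≤ x ∧ x ≤ W := by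
          intro x y hy hx
          have h3 : (g:ℤ) * |x| ≤ (g:ℤ) * W + (g - 1) := by
            have e2 : |(g:ℤ) * x| = (g:ℤ) * |x| := by
              rw [abs_mul, abs_of_nonneg (by positivity)]
            rw [e2] at hx
            have h4 : 2 * n < g * (2 * n / g) + g := by
              have h40 := Nat.lt_mul_div_succ (2 * n) (show 0 < g by omega)
              rw [Nat.mul_add, Nat.mul_one] at h40
              exact h40
            have h5 : (2 * n : ℤ) + 1 ≤ g * (2 * n / g : ℕ) + g := by exact_mod_cast h4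
            have h6 : (W:ℤ) = (2 * n / g : ℕ) + 2 := by rw [hW]; push_cast; ring
            rw [h6]
            have h7 : (y:ℤ) ≤ 2 * n := by exact_mod_cast hy
            nlinarith
          have h8 : |x| ≤ W := by
            by_contra h9
            push Not at h9
            have hg0 : (0:ℤ) < g := by exact_mod_cast hg
            have : (g:ℤ) * (W + 1) ≤ (g:ℤ) * |x| := mul_le_mul_of_nonneg_left (by omega) hg0.le
            nlinarith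
          exact abs_le.mp h8
        rw [Finset.mem_product, Finset.mem_Icc, Finset.mem_Icc]
        exact ⟨key i.1 s hs hcon.1, key i.2 t ht hcon.2⟩
    rw [e1]
    refine (Finset.sum_le_sum (fun i _ => (Pr_le_one (SM2_ok h0 h1) _ _ :
      PB q s t (gp g i) (2 * g - 1) ≤ 1))).trans ?_
    apply Finset.sum_le_sum_of_subset_of_nonneg
    · intro i hi
      exact (Finset.mem_filter.mp hi).2
    · intro i _ _; norm_num
  unfold SB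
  refine hcard.trans ?_
  rw [Finset.sum_const, Finset.card_product, Int.card_Icc, nsmul_eq_mul, mul_one]
  have e3 : ((W:ℤ) + 1 - -(W:ℤ)).toNat = 2 * W + 1 := by omega
  rw [e3]
  push_cast
  have hWr : (W:ℝ) ≤ 2 * ((n:ℝ) / g) + 2 := by
    rw [hW]
    push_cast
    have : ((2 * n / g : ℕ) : ℝ) ≤ ((2 * n : ℕ) : ℝ) / g := Nat.cast_div_le
    push_cast at this
    have e4 : 2 * (n:ℝ) / g = 2 * ((n:ℝ) / g) := by ring
    rw [e4] at this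
    linarith
  have hng : 1 ≤ (n:ℝ) / g := by
    rw [le_div_iff₀ hgr, one_mul]
    exact_mod_cast hgn
  have h5 : 2 * (W:ℝ) + 1 ≤ 9 * ((n:ℝ) / g) := by linarith
  have h6 : 0 ≤ (W:ℝ) := Nat.cast_nonneg _
  nlinarith

theorem WS_up2 {q : ℝ} (h0 : 0 ≤ q) (h1 : q ≤ 1) {n g : ℕ} (hg : 1 ≤ g) (hgn : g ≤ n) :
    WS q n g ≤ 81 * ((n:ℝ) / g) ^ 2 * ((n:ℝ) + 1) ^ 2 := by
  have hcard : ((Icc n (2 * n)).card : ℝ) = (n:ℝ) + 1 := by
    rw [Nat.card_Icc]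
    have : 2 * n + 1 - n = n + 1 := by omega
    rw [this]; push_cast; ring
  unfold WS
  have h2 : ∀ s ∈ Icc n (2 * n), ∑ t ∈ Icc n (2 * n), SB q s t (2 * n + 1) g ≤
      ((n:ℝ) + 1) * (81 * ((n:ℝ) / g) ^ 2) := by
    intro s hs
    rw [← hcard, ← nsmul_eq_mul]
    apply Finset.sum_le_card_nsmul
    intro t ht
    exact SB_up h0 h1 _ hg hgn (Finset.mem_Icc.mp hs).2 (Finset.mem_Icc.mp ht).2
  have h3 := Finset.sum_le_card_nsmul _ _ _ h2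
  rw [nsmul_eq_mul, hcard] at h3
  calc _ ≤ _ := h3
    _ = _ := by ring

theorem c_le_C {b c C : ℝ} (hb : 0 < b) (hN : NearP b c C) : c ≤ C := by
  have h := hN 1 le_rfl (1/2) (by simp; exact hb.le) 1 le_rfl le_rfl
  simp only [Nat.cast_one, Real.one_rpow, mul_one] at h
  linarith [h.1, h.2]

/-- The lower bound for the derivative, at the scale `D n₁`. -/
theorem WD_low0 {b c C : ℝ} (hb : 0 < b) (hc : 0 < c) (hN : NearP b c C) (κ : ℝ) (hκ : 0 < κ)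
    (Λ : ℝ) : ∃ D n0 : ℕ, 1 ≤ D ∧ ∀ n1 : ℕ, n0 ≤ n1 → 1 ≤ n1 → ∀ q : ℝ,
      |q - 1/2| ≤ b * (n1:ℝ) ^ (-(3/4 : ℝ)) → H12S.Win q κ (D * n1) →
        Λ * (n1:ℝ) ^ (3/4 : ℝ) * (((D * n1 : ℕ) : ℝ) + 1) ^ 2 ≤ WD q (D * n1) := by
  have hcC := c_le_C hb hN
  have hC : 0 < C := by linarith
  obtain ⟨c0, α0, hc0, hα0, hlowS0⟩ := WS_low κ hκ
  obtain ⟨Cb, hCb, hbd⟩ := scale_bd κ hκ
  obtain ⟨α, hα⟩ : ∃ α : ℝ, α = min α0 (1/2) := ⟨_, rfl⟩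
  have hαpos : 0 < α := by rw [hα]; exact lt_min hα0 (by norm_num)
  have hα1 : α ≤ 1/2 := by rw [hα]; exact min_le_right _ _
  have hαα0 : α ≤ α0 := by rw [hα]; exact min_le_left _ _
  obtain ⟨u, hu⟩ : ∃ u : ℕ, u = ⌈1 / α⌉₊ := ⟨_, rfl⟩
  have huα : 1 ≤ (u:ℝ) * α := by
    have : 1 / α ≤ u := by rw [hu]; exact Nat.le_ceil _
    rwa [div_le_iff₀ hαpos] at this
  obtain ⟨K2, hK2⟩ : ∃ K2 : ℝ, K2 = (6:ℝ) ^ (2 * u + 1) := ⟨_, rfl⟩
  have hK20 : 0 < K2 := by rw [hK2]; positivity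
  obtain ⟨δ, hδ⟩ : ∃ δ : ℝ, δ = 1 / (144 * K2) := ⟨_, rfl⟩
  have hδ0 : 0 < δ := by rw [hδ]; positivity
  obtain ⟨lg, hlg⟩ : ∃ lg : ℝ, lg = Real.log (C / c) := ⟨_, rfl⟩
  have hCc1 : 1 ≤ C / c := by rw [le_div_iff₀ hc]; linarith
  have hlg0 : 0 ≤ lg := by rw [hlg]; exact Real.log_nonneg hCc1
  obtain ⟨L, M2, G0, Mr, Cin, hL, hM2, hG0, hMr, hCin, hgood⟩ :=
    good_scale exit3 stIn κ hκ (5/4 + lg) δ (by linarith) hδ0
  have hLr : (2:ℝ) ≤ L := by exact_mod_cast hL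
  have hL0 : (0:ℝ) < L := by linarith
  have hG0r : (1:ℝ) ≤ G0 := by exact_mod_cast hG0
  have hM2r : (8:ℝ) ≤ M2 := by exact_mod_cast hM2
  obtain ⟨Q, hQ⟩ : ∃ Q : ℕ, Q = 4 * L * M2 + 100 * G0 := ⟨_, rfl⟩
  have hQ1 : 100 ≤ Q := by rw [hQ]; omega
  have hQr : (100:ℝ) ≤ Q := by exact_mod_cast hQ1
  obtain ⟨cf, hcf⟩ : ∃ cf : ℝ, cf = c0 * c * (4 * (L:ℝ)) ^ (-(5/4 : ℝ)) /
    (100 * Cin * G0 * Q) := ⟨_, rfl⟩
  have hcf0 : 0 < cf := by rw [hcf]; positivity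
  -- the number of scales
  obtain ⟨w, hw⟩ : ∃ w : ℕ, 324 * (Q:ℝ) ^ 2 / c0 + 4 * Cb / c0 + |Λ| / cf + 1 < (6:ℝ) ^ w :=
    pow_unbounded_of_one_lt _ (by norm_num)
  have hw0 : 0 ≤ 324 * (Q:ℝ) ^ 2 / c0 := by positivity
  have hw1 : 0 ≤ 4 * Cb / c0 := by positivity
  have hw2 : 0 ≤ |Λ| / cf := by positivity
  obtain ⟨J, hJ⟩ : ∃ J : ℕ, J = 4 * w := ⟨_, rfl⟩
  have h6Jw : (6:ℝ) ^ w ≤ (6:ℝ) ^ J := pow_le_pow_right₀ (by norm_num) (by omega)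
  obtain ⟨D, hD⟩ : ∃ D : ℕ, D = 6 ^ (u * J) := ⟨_, rfl⟩
  have hD1 : 1 ≤ D := by rw [hD]; exact Nat.one_le_pow _ _ (by norm_num)
  have hDr : (D:ℝ) = (6:ℝ) ^ (u * J) := by rw [hD]; push_cast; ring
  have hDα : (6:ℝ) ^ J ≤ (D:ℝ) ^ α := by
    rw [hDr, ← Real.rpow_natCast, ← Real.rpow_natCast, ← Real.rpow_mul (by norm_num)]
    apply Real.rpow_le_rpow_of_exponent_le (by norm_num)
    push_cast
    have : 0 ≤ (J:ℝ) := Nat.cast_nonneg _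
    nlinarith
  refine ⟨D, 2 * 6 ^ J * Q * Mr, hD1, ?_⟩
  intro n1 hn1 hn11 q hq hW
  have h0 : 0 ≤ q := by linarith [hW.lo]
  have h1 : q ≤ 1 := by linarith [hW.hi]
  obtain ⟨n, hn⟩ : ∃ n : ℕ, n = D * n1 := ⟨_, rfl⟩
  rw [← hn] at hW ⊢
  have hn1n : n1 ≤ n := by rw [hn]; exact Nat.le_mul_of_pos_left _ (by omega)
  have hn1pos : (0:ℝ) < n1 := by exact_mod_cast hn11
  have hnr : (n:ℝ) = D * n1 := by rw [hn]; push_cast; ring
  have hQpos : 0 < Q := by omega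
  obtain ⟨Z, hZ⟩ : ∃ Z : ℕ, Z = 6 ^ J * Q := ⟨_, rfl⟩
  have hZpos : 0 < Z := by rw [hZ]; positivity
  obtain ⟨r0, hr0⟩ : ∃ r0 : ℕ, r0 = n1 / Z := ⟨_, rfl⟩
  have hr0Mr : Mr ≤ r0 := by
    rw [hr0, Nat.le_div_iff_mul_le hZpos]
    calc Mr * Z = 6 ^ J * Q * Mr := by rw [hZ]; ring
      _ ≤ 2 * 6 ^ J * Q * Mr := by
          have e : 2 * 6 ^ J * Q * Mr = 2 * (6 ^ J * Q * Mr) := by ring
          rw [e]; omega
      _ ≤ n1 := hn1
  have hr01 : 1 ≤ r0 := hMr.trans hr0Mr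
  have hZr0 : Z * r0 ≤ n1 := by rw [hr0]; exact Nat.mul_div_le _ _
  have hn1Z : n1 ≤ 2 * (Z * r0) := by
    have h3 : n1 < Z * (r0 + 1) := by rw [hr0]; exact Nat.lt_mul_div_succ _ hZpos
    have h4 : Z * 1 ≤ Z * r0 := Nat.mul_le_mul_left _ hr01
    rw [Nat.mul_add] at h3
    omega
  have hn1Zr : (n1:ℝ) ≤ 2 * ((6:ℝ) ^ J * Q) * r0 := by
    have : (n1:ℝ) ≤ ((2 * (Z * r0) : ℕ) : ℝ) := by exact_mod_cast hn1Z
    rw [hZ] at this
    push_cast at this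
    linarith
  -- scales
  have hrJ : ∀ j, j ≤ J → Q * (6 ^ j * r0) ≤ n1 := by
    intro j hj
    have h3 : 6 ^ j ≤ 6 ^ J := Nat.pow_le_pow_right (by norm_num) hj
    calc Q * (6 ^ j * r0) ≤ Q * (6 ^ J * r0) :=
          Nat.mul_le_mul_left _ (Nat.mul_le_mul_right _ h3)
      _ = Z * r0 := by rw [hZ]; ring
      _ ≤ n1 := hZr0
  have hg100 : ∀ j, j ≤ J → 100 * (G0 * (6 ^ j * r0)) ≤ n1 := by
    intro j hj
    refine le_trans ?_ (hrJ j hj)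
    rw [← Nat.mul_assoc]
    apply Nat.mul_le_mul_right
    rw [hQ]; omega
  have hk4 : ∀ j, j ≤ J → 4 * L * (M2 * (6 ^ j * r0)) ≤ n1 := by
    intro j hj
    refine le_trans ?_ (hrJ j hj)
    rw [← Nat.mul_assoc]
    apply Nat.mul_le_mul_right
    rw [hQ]; omega
  have hg1 : ∀ j : ℕ, 1 ≤ G0 * (6 ^ j * r0) := by
    intro j
    have : 0 < 6 ^ j := by positivity
    exact Nat.mul_pos (by omega) (Nat.mul_pos this (by omega))
  have hn1' : 0 < ((n:ℝ) + 1) ^ 2 := by positivity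
  obtain ⟨S, hS⟩ : ∃ S : ℕ → ℝ, S = fun j => WS q n (G0 * (6 ^ j * r0)) := ⟨_, rfl⟩
  have hSv : ∀ j, S j = WS q n (G0 * (6 ^ j * r0)) := fun j => by rw [hS]
  have hgn : ∀ j, j ≤ J → G0 * (6 ^ j * r0) ≤ n := by
    intro j hj
    have := hg100 j hj
    omega
  have hSlow : ∀ j, j ≤ J → c0 * ((n:ℝ) / ((G0 * (6 ^ j * r0) : ℕ) : ℝ)) ^ α * ((n:ℝ) + 1) ^ 2 ≤
      S j := by
    intro j hj
    rw [hSv]
    refine le_trans ?_ (hlowS0 q n hW n _ (hg1 j) (hgn j hj) le_rfl)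
    apply mul_le_mul_of_nonneg_right _ hn1'.le
    apply mul_le_mul_of_nonneg_left _ hc0.le
    apply Real.rpow_le_rpow_of_exponent_le _ hαα0
    have i1 : (0:ℝ) < ((G0 * (6 ^ j * r0) : ℕ) : ℝ) := by exact_mod_cast hg1 j
    rw [le_div_iff₀ i1, one_mul]
    exact_mod_cast hgn j hj
  -- the ratio is at least `D`
  have hratio : ∀ j, j ≤ J → (D:ℝ) ≤ (n:ℝ) / ((G0 * (6 ^ j * r0) : ℕ) : ℝ) := by
    intro j hj
    have i1 : (0:ℝ) < ((G0 * (6 ^ j * r0) : ℕ) : ℝ) := by exact_mod_cast hg1 j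
    rw [le_div_iff₀ i1, hnr]
    apply mul_le_mul_of_nonneg_left _ (Nat.cast_nonneg _)
    have := hg100 j hj
    have h3 : G0 * (6 ^ j * r0) ≤ n1 := by omega
    exact_mod_cast h3
  have hratioα : ∀ j, j ≤ J → (6:ℝ) ^ J ≤ ((n:ℝ) / ((G0 * (6 ^ j * r0) : ℕ) : ℝ)) ^ α :=
    fun j hj => hDα.trans (Real.rpow_le_rpow (Nat.cast_nonneg _) (hratio j hj) hαpos.le)
  have h61 : (1:ℝ) ≤ (6:ℝ) ^ J := one_le_pow₀ (by norm_num)
  have hSlow2 : ∀ j, j ≤ J → c0 * (6:ℝ) ^ J * ((n:ℝ) + 1) ^ 2 ≤ S j := by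
    intro j hj
    refine le_trans ?_ (hSlow j hj)
    apply mul_le_mul_of_nonneg_right _ hn1'.le
    exact mul_le_mul_of_nonneg_left (hratioα j hj) hc0.le
  -- pigeonhole
  obtain ⟨j, hjJ, hjS⟩ : ∃ j, j < J ∧ S (j + 1) ≤ K2 * S j := by
    by_contra hcon
    push Not at hcon
    have hpow : ∀ i, i ≤ J → K2 ^ i * S 0 ≤ S i := by
      intro i
      induction i with
      | zero => intro _; simp
      | succ i ih =>
        intro hi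
        have h3 := ih (by omega)
        have h4 := hcon i (by omega)
        calc K2 ^ (i + 1) * S 0 = K2 * (K2 ^ i * S 0) := by rw [pow_succ]; ring
          _ ≤ K2 * S i := mul_le_mul_of_nonneg_left h3 hK20.le
          _ ≤ S (i + 1) := h4.le
    have h3 := hpow J le_rfl
    have h4 : c0 * ((n:ℝ) + 1) ^ 2 ≤ S 0 := by
      refine le_trans ?_ (hSlow2 0 (Nat.zero_le _))
      apply mul_le_mul_of_nonneg_right _ hn1'.le
      exact le_mul_of_one_le_right hc0.le h61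
    have h5 : S J ≤ 81 * ((n:ℝ) / ((G0 * (6 ^ J * r0) : ℕ) : ℝ)) ^ 2 * ((n:ℝ) + 1) ^ 2 := by
      rw [hSv]
      exact WS_up2 h0 h1 (hg1 J) (hgn J le_rfl)
    have h6 : (n:ℝ) / ((G0 * (6 ^ J * r0) : ℕ) : ℝ) ≤ D * (2 * Q) := by
      have i1 : (0:ℝ) < ((G0 * (6 ^ J * r0) : ℕ) : ℝ) := by exact_mod_cast hg1 J
      rw [div_le_iff₀ i1, hnr]
      push_cast
      have i2 : (0:ℝ) ≤ D * (2 * Q) * (6 ^ J * r0) := by positivity
      calc (D:ℝ) * n1 ≤ D * (2 * ((6:ℝ) ^ J * Q) * r0) :=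
            mul_le_mul_of_nonneg_left hn1Zr (Nat.cast_nonneg _)
        _ = D * (2 * Q) * (6 ^ J * r0) * 1 := by ring
        _ ≤ D * (2 * Q) * (6 ^ J * r0) * G0 := mul_le_mul_of_nonneg_left hG0r i2
        _ = _ := by ring
    have h7 : ((n:ℝ) / ((G0 * (6 ^ J * r0) : ℕ) : ℝ)) ^ 2 ≤ (D * (2 * Q)) ^ 2 :=
      pow_le_pow_left₀ (by positivity) h6 2
    have h8 : K2 ^ J * (c0 * ((n:ℝ) + 1) ^ 2) ≤ 81 * (D * (2 * Q)) ^ 2 * ((n:ℝ) + 1) ^ 2 := by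
      calc K2 ^ J * (c0 * ((n:ℝ) + 1) ^ 2) ≤ K2 ^ J * S 0 :=
            mul_le_mul_of_nonneg_left h4 (by positivity)
        _ ≤ S J := h3
        _ ≤ _ := h5
        _ ≤ _ := by
            apply mul_le_mul_of_nonneg_right _ hn1'.le
            exact mul_le_mul_of_nonneg_left h7 (by norm_num)
    have h9 : K2 ^ J * c0 ≤ 81 * ((D:ℝ) * (2 * Q)) ^ 2 := by
      have : (K2 ^ J * c0) * ((n:ℝ) + 1) ^ 2 ≤ (81 * ((D:ℝ) * (2 * Q)) ^ 2) * ((n:ℝ) + 1) ^ 2 := by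
        linarith
      exact le_of_mul_le_mul_right this hn1'
    have h10 : K2 ^ J = (6:ℝ) ^ J * (D:ℝ) ^ 2 := by
      rw [hK2, hDr, ← pow_mul, ← pow_mul, ← pow_add]
      congr 1
      ring
    rw [h10] at h9
    have hD2 : 0 < (D:ℝ) ^ 2 := by
      have : (0:ℝ) < D := by exact_mod_cast hD1
      positivity
    have h11 : (6:ℝ) ^ J * c0 ≤ 324 * (Q:ℝ) ^ 2 := by
      have : ((6:ℝ) ^ J * c0) * (D:ℝ) ^ 2 ≤ (324 * (Q:ℝ) ^ 2) * (D:ℝ) ^ 2 := by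
        calc ((6:ℝ) ^ J * c0) * (D:ℝ) ^ 2 = (6:ℝ) ^ J * (D:ℝ) ^ 2 * c0 := by ring
          _ ≤ 81 * ((D:ℝ) * (2 * Q)) ^ 2 := h9
          _ = _ := by ring
      exact le_of_mul_le_mul_right this hD2
    rw [← le_div_iff₀ hc0] at h11
    linarith
  -- the chosen scale
  obtain ⟨r, hr⟩ : ∃ r : ℕ, r = 6 ^ j * r0 := ⟨_, rfl⟩
  have hr0r : r0 ≤ r := by
    rw [hr]
    exact Nat.le_mul_of_pos_left _ (by positivity)
  have hrMr : Mr ≤ r := hr0Mr.trans hr0r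
  have hr1 : 1 ≤ r := hMr.trans hrMr
  have hg100r : 100 * (G0 * r) ≤ n1 := by rw [hr]; exact hg100 j hjJ.le
  have hk4r : 4 * L * (M2 * r) ≤ n1 := by rw [hr]; exact hk4 j hjJ.le
  have hM2r1 : 8 ≤ M2 * r := by
    calc 8 = 8 * 1 := rfl
      _ ≤ M2 * r := Nat.mul_le_mul hM2 hr1
  have hk41 : 1 ≤ 4 * L * (M2 * r) := by
    have : 0 < 4 * L * (M2 * r) := Nat.mul_pos (by omega) (by omega)
    exact this
  have hM2n1 : M2 * r ≤ n1 := by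
    refine le_trans ?_ hk4r
    exact Nat.le_mul_of_pos_left _ (by omega)
  have hreg : a4 q ((M2 * r) / 8) ≤ (192 * (L:ℝ)) ^ (5/4 + lg) * a4 q (4 * L * (M2 * r)) := by
    have i1 := (hN n1 hn11 q hq ((M2 * r) / 8) (by omega) (by omega)).2
    have i2 := (hN n1 hn11 q hq (4 * L * (M2 * r)) hk41 hk4r).1
    have k1pos : (0:ℝ) < ((M2 * r / 8 : ℕ) : ℝ) := by
      have : 0 < M2 * r / 8 := by omega
      exact_mod_cast this
    have k2pos : (0:ℝ) < ((4 * L * (M2 * r) : ℕ) : ℝ) := by exact_mod_cast hk41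
    have i3 := pow_scale (x := ((M2 * r / 8 : ℕ) : ℝ)) (y := ((4 * L * (M2 * r) : ℕ) : ℝ))
      (G := 64 * L) k1pos k2pos (by positivity) (by
        have i4 : M2 * r ≤ 16 * (M2 * r / 8) := by omega
        have i5 : 4 * L * (M2 * r) ≤ 4 * L * (16 * (M2 * r / 8)) := Nat.mul_le_mul_left _ i4
        have i6 : ((4 * L * (M2 * r) : ℕ) : ℝ) ≤ ((4 * L * (16 * (M2 * r / 8)) : ℕ) : ℝ) := by
          exact_mod_cast i5
        refine i6.trans (le_of_eq ?_)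
        push_cast; ring)
    have hp2 : 0 < ((4 * L * (M2 * r) : ℕ) : ℝ) ^ (-(5/4 : ℝ)) := by positivity
    have i7 : C / c * (64 * (L:ℝ)) ^ (5/4 : ℝ) ≤ (192 * (L:ℝ)) ^ (5/4 + lg) := by
      rw [Real.rpow_add (by positivity), mul_comm]
      apply mul_le_mul _ _ (by positivity) (by positivity)
      · exact Real.rpow_le_rpow (by positivity) (by linarith) (by norm_num)
      · have e : C / c = Real.exp 1 ^ lg := by
          rw [← Real.exp_mul, one_mul, hlg, Real.exp_log (by positivity)]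
        rw [e]
        apply Real.rpow_le_rpow (Real.exp_pos _).le _ hlg0
        have := Real.exp_one_lt_d9
        linarith
    calc a4 q ((M2 * r) / 8) ≤ C * ((M2 * r / 8 : ℕ) : ℝ) ^ (-(5/4 : ℝ)) := i1
      _ ≤ C * ((64 * (L:ℝ)) ^ (5/4 : ℝ) * ((4 * L * (M2 * r) : ℕ) : ℝ) ^ (-(5/4 : ℝ))) :=
          mul_le_mul_of_nonneg_left i3 hC.le
      _ = (C / c * (64 * (L:ℝ)) ^ (5/4 : ℝ)) *
          (c * ((4 * L * (M2 * r) : ℕ) : ℝ) ^ (-(5/4 : ℝ))) := by field_simp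
      _ ≤ (192 * (L:ℝ)) ^ (5/4 + lg) * (c * ((4 * L * (M2 * r) : ℕ) : ℝ) ^ (-(5/4 : ℝ))) :=
          mul_le_mul_of_nonneg_right i7 (by positivity)
      _ ≤ _ := mul_le_mul_of_nonneg_left i2 (by positivity)
  have hins := hgood q n hW r hrMr (by omega) hreg
  obtain ⟨Y, hY⟩ : ∃ Y : ℝ, Y = ((M2 * r : ℕ) : ℝ) ^ 2 * a4 q (4 * L * (M2 * r)) := ⟨_, rfl⟩
  rw [← hY] at hins
  have hY0 : 0 ≤ Y := by rw [hY]; exact mul_nonneg (by positivity) (H12S.a4_nonneg h0 h1 _)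
  have hmain := hbd q n hW n (G0 * r) (by rw [hr]; exact hg1 j) (by omega) le_rfl δ Y Cin hδ0.le
    hY0 hCin.le hins
  have hSj : WS q n (G0 * r) = S j := by rw [hSv, hr]
  have hSj1 : WS q n (6 * (G0 * r)) = S (j + 1) := by
    rw [hSv]
    congr 1
    rw [hr, pow_succ]; ring
  rw [hSj, hSj1] at hmain
  have hd1 : 36 * δ * S (j + 1) ≤ S j / 4 := by
    calc 36 * δ * S (j + 1) ≤ 36 * δ * (K2 * S j) :=
          mul_le_mul_of_nonneg_left hjS (by positivity)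
      _ = S j / 4 := by rw [hδ]; field_simp; ring
  have hSj2 := hSlow2 j hjJ.le
  have hd2 : Cb * ((n:ℝ) + 1) ^ 2 ≤ S j / 4 := by
    have i3 : 4 * Cb / c0 ≤ (6:ℝ) ^ J := by linarith
    rw [div_le_iff₀ hc0] at i3
    have i5 := mul_le_mul_of_nonneg_right i3 hn1'.le
    linarith
  have hd3 : S j / 2 * Y ≤ 25 * Cin * WD q n := by
    refine le_trans ?_ hmain
    apply mul_le_mul_of_nonneg_right _ hY0
    linarith
  -- the size of `Y`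
  have hYlow : c * (4 * (L:ℝ)) ^ (-(5/4 : ℝ)) * (r:ℝ) ^ (3/4 : ℝ) ≤ Y := by
    obtain ⟨m, hm⟩ : ∃ m : ℝ, m = ((M2 * r : ℕ) : ℝ) := ⟨_, rfl⟩
    have hmpos : 0 < m := by
      rw [hm]
      have : 0 < M2 * r := by omega
      exact_mod_cast this
    have hrm : (r:ℝ) ≤ m := by
      rw [hm]
      have : r ≤ M2 * r := Nat.le_mul_of_pos_left _ (by omega)
      exact_mod_cast this
    have i2 := (hN n1 hn11 q hq (4 * L * (M2 * r)) hk41 hk4r).1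
    have i3 : ((4 * L * (M2 * r) : ℕ) : ℝ) = (4 * L) * m := by rw [hm]; push_cast; ring
    rw [i3, Real.mul_rpow (by positivity) hmpos.le] at i2
    rw [hY, ← hm]
    calc c * (4 * (L:ℝ)) ^ (-(5/4 : ℝ)) * (r:ℝ) ^ (3/4 : ℝ)
        ≤ c * (4 * (L:ℝ)) ^ (-(5/4 : ℝ)) * m ^ (3/4 : ℝ) := by
          apply mul_le_mul_of_nonneg_left _ (by positivity)
          exact Real.rpow_le_rpow (Nat.cast_nonneg _) hrm (by norm_num)
      _ = m ^ 2 * (c * ((4 * (L:ℝ)) ^ (-(5/4 : ℝ)) * m ^ (-(5/4 : ℝ)))) := by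
          rw [← m_sq hmpos]; ring
      _ ≤ _ := mul_le_mul_of_nonneg_left i2 (by positivity)
  -- `r^(3/4)` in terms of `n1`
  have hr34 : (n1:ℝ) ^ (3/4 : ℝ) / (2 * Q * (6:ℝ) ^ (3 * w)) ≤ (r:ℝ) ^ (3/4 : ℝ) := by
    have i1 : (n1:ℝ) ≤ (2 * Q * (6:ℝ) ^ J) * r := by
      have : (r0:ℝ) ≤ r := by exact_mod_cast hr0r
      calc (n1:ℝ) ≤ 2 * ((6:ℝ) ^ J * Q) * r0 := hn1Zr
        _ ≤ 2 * ((6:ℝ) ^ J * Q) * r := mul_le_mul_of_nonneg_left this (by positivity)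
        _ = _ := by ring
    have i2 := Real.rpow_le_rpow hn1pos.le i1 (show (0:ℝ) ≤ 3/4 by norm_num)
    rw [Real.mul_rpow (by positivity) (Nat.cast_nonneg _),
      Real.mul_rpow (by positivity) (by positivity)] at i2
    have i3 : ((6:ℝ) ^ J) ^ (3/4 : ℝ) = (6:ℝ) ^ (3 * w) := by
      rw [hJ, ← Real.rpow_natCast, ← Real.rpow_natCast, ← Real.rpow_mul (by norm_num)]
      congr 1
      push_cast
      ring
    rw [i3] at i2
    have i4 : (2 * (Q:ℝ)) ^ (3/4 : ℝ) ≤ 2 * Q := by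
      calc (2 * (Q:ℝ)) ^ (3/4 : ℝ) ≤ (2 * (Q:ℝ)) ^ (1:ℝ) :=
            Real.rpow_le_rpow_of_exponent_le (by linarith) (by norm_num)
        _ = _ := Real.rpow_one _
    have i5 : 0 ≤ (r:ℝ) ^ (3/4 : ℝ) := by positivity
    rw [div_le_iff₀ (by positivity)]
    calc (n1:ℝ) ^ (3/4 : ℝ) ≤ (2 * (Q:ℝ)) ^ (3/4 : ℝ) * (6:ℝ) ^ (3 * w) * (r:ℝ) ^ (3/4 : ℝ) := i2
      _ ≤ (2 * Q) * (6:ℝ) ^ (3 * w) * (r:ℝ) ^ (3/4 : ℝ) := by
          apply mul_le_mul_of_nonneg_right _ i5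
          exact mul_le_mul_of_nonneg_right i4 (by positivity)
      _ = _ := by ring
  -- conclusion
  have hfin : (c0 * (6:ℝ) ^ J * ((n:ℝ) + 1) ^ 2) / 2 *
      (c * (4 * (L:ℝ)) ^ (-(5/4 : ℝ)) * ((n1:ℝ) ^ (3/4 : ℝ) / (2 * Q * (6:ℝ) ^ (3 * w)))) ≤
      25 * Cin * WD q n := by
    refine le_trans ?_ hd3
    apply mul_le_mul _ _ (by positivity) _
    · linarith
    · refine le_trans ?_ hYlow
      exact mul_le_mul_of_nonneg_left hr34 (by positivity)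
    · have : 0 ≤ c0 * (6:ℝ) ^ J * ((n:ℝ) + 1) ^ 2 := by positivity
      linarith
  have h6J3 : (6:ℝ) ^ J = (6:ℝ) ^ w * (6:ℝ) ^ (3 * w) := by
    rw [← pow_add, hJ]; congr 1; ring
  have hfin2 : (cf * (6:ℝ) ^ w) * ((n1:ℝ) ^ (3/4 : ℝ) * ((n:ℝ) + 1) ^ 2) * (25 * Cin) ≤
      25 * Cin * WD q n := by
    refine le_trans ?_ hfin
    have e : (c0 * (6:ℝ) ^ J * ((n:ℝ) + 1) ^ 2) / 2 *
      (c * (4 * (L:ℝ)) ^ (-(5/4 : ℝ)) * ((n1:ℝ) ^ (3/4 : ℝ) / (2 * Q * (6:ℝ) ^ (3 * w)))) =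
      (cf * G0 * (6:ℝ) ^ w) * ((n1:ℝ) ^ (3/4 : ℝ) * ((n:ℝ) + 1) ^ 2) * (25 * Cin) := by
      rw [h6J3, hcf]
      field_simp
      ring
    rw [e]
    apply mul_le_mul_of_nonneg_right _ (by positivity)
    apply mul_le_mul_of_nonneg_right _ (by positivity)
    apply mul_le_mul_of_nonneg_right _ (by positivity)
    exact le_mul_of_one_le_right hcf0.le hG0r
  have hfin3 : (cf * (6:ℝ) ^ w) * ((n1:ℝ) ^ (3/4 : ℝ) * ((n:ℝ) + 1) ^ 2) ≤ WD q n := by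
    have : (25 * Cin) * ((cf * (6:ℝ) ^ w) * ((n1:ℝ) ^ (3/4 : ℝ) * ((n:ℝ) + 1) ^ 2)) ≤
      (25 * Cin) * WD q n := by linarith
    exact le_of_mul_le_mul_left this (by positivity)
  refine le_trans ?_ hfin3
  have hΛ : Λ ≤ cf * (6:ℝ) ^ w := by
    have i1 : |Λ| / cf ≤ (6:ℝ) ^ w := by linarith
    rw [div_le_iff₀ hcf0] at i1
    linarith [le_abs_self Λ]
  rw [mul_assoc]
  exact mul_le_mul_of_nonneg_right hΛ (by positivity)

end Pool.Agent.W424.NC
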