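import Pool.Agent.H973R4.Close
import Pool.Agent.H974R4.W2.Close

/-!
Sharp near-critical estimates, part A: the derivative bounds of `H973N` without loss in the
exponent, and the key inequality at one scale.
-/

set_option maxHeartbeats 1000000

namespace Pool.Agent.W424.NC

open H973N H974 H12S Finset

theorem W_bounds0 {ε : ℝ} (h0 : 0 ≤ ε) (h1 : ε < 1 / 4) : ∃ C : ℝ, 0 < C ∧
    ∀ (q A : ℝ) (K : ℕ), 0 ≤ q → q ≤ 1 → 1 ≤ A →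
    (∀ k ≤ K, a4 q (2^k) ≤ A * ((2:ℝ)^k) ^ (-(5/4 : ℝ) + ε)) →
    W1s q K ≤ C * A * ((2:ℝ)^K) ^ ((3/4 : ℝ) + ε) ∧
    W2s q K ≤ C * A^2 * ((2:ℝ)^K) ^ ((3/2 : ℝ) + 2 * ε) ∧
    (4:ℝ)^K * a4 q (2^K) * W1s q K ≤ C * A^2 * ((2:ℝ)^K) ^ ((3/2 : ℝ) + 2 * ε) := by
  refine ⟨8, by norm_num, ?_⟩
  intro q A K hq0 hq1 hA hk
  obtain ⟨p, hpdef⟩ : ∃ p : ℝ, p = (2:ℝ) ^ (-(5/4 : ℝ) + ε) := ⟨_, rfl⟩
  obtain ⟨s, hsdef⟩ : ∃ s : ℝ, s = Real.sqrt 2 := ⟨_, rfl⟩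
  have hp : 0 < p := by rw [hpdef]; positivity
  have hs : 0 < s := by rw [hsdef]; positivity
  have hs2 : s ^ 2 = 2 := by rw [hsdef]; exact Real.sq_sqrt (by norm_num)
  have e1 : (2:ℝ) ^ ((3/4 : ℝ) + ε) = 4 * p := by
    have : (3/4 : ℝ) + ε = 2 + (-(5/4 : ℝ) + ε) := by ring
    rw [this, Real.rpow_add (by norm_num), hpdef]
    norm_num
  have e2 : (2:ℝ) ^ ((3/2 : ℝ) + 2 * ε) = 16 * p ^ 2 := by
    have : (3/2 : ℝ) + 2 * ε = ((3/4 : ℝ) + ε) + ((3/4 : ℝ) + ε) := by ring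
    rw [this, Real.rpow_add (by norm_num), e1]
    ring
  have hw : 7 / 6 * s ≤ 4 * p := by
    have h3 : (2:ℝ) ^ (3/4 : ℝ) ≤ 4 * p := by
      rw [← e1]
      exact Real.rpow_le_rpow_of_exponent_le (by norm_num) (by linarith)
    have h4 : ((2:ℝ) ^ (3/4 : ℝ)) ^ 4 = 8 := by
      rw [← Real.rpow_natCast, ← Real.rpow_mul (by norm_num)]
      norm_num
    have h5 : (7 / 6 * s) ^ 4 ≤ ((2:ℝ) ^ (3/4 : ℝ)) ^ 4 := by
      rw [h4]
      have : (7 / 6 * s) ^ 4 = (7 / 6) ^ 4 * (s ^ 2) ^ 2 := by ring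
      rw [this, hs2]
      norm_num
    exact le_trans (le_of_pow_le_pow_left₀ (by norm_num) (by positivity) h5) h3
  have hρ1 : 7 / 6 ≤ 4 * p / s := by
    rw [le_div_iff₀ hs]; exact hw
  have hρ2 : 7 / 6 ≤ 8 * p ^ 2 := by
    have h3 : (7 / 6 * s) ^ 2 ≤ (4 * p) ^ 2 := pow_le_pow_left₀ (by positivity) hw 2
    nlinarith
  have ha : ∀ k ≤ K, a4 q (2^k) ≤ A * p ^ k := by
    intro k hkK
    have := hk k hkK
    rwa [two_rpow_comm, ← hpdef] at this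
  have hn : ∀ k, 0 ≤ a4 q (2^k) := fun k => a4_nn hq0 hq1 _
  have hA0 : 0 < A := by linarith
  rw [two_rpow_comm, two_rpow_comm, e1, e2]
  have W1 : W1s q K ≤ 8 * A * (4 * p) ^ K := by
    unfold W1s
    have h3 : Real.sqrt ((2:ℝ)^K) ≤ A * (4 * p) ^ K := by
      rw [sqrt_two_pow, ← hsdef]
      have h4 : s ^ K ≤ (4 * p) ^ K := pow_le_pow_left₀ hs.le (by linarith) K
      have h5 : 0 ≤ (4 * p) ^ K := by positivity
      nlinarith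
    have h4 : ∑ k ∈ Finset.range (K + 1), (4:ℝ)^k * a4 q (2^k) * Real.sqrt ((2:ℝ)^(K - k)) ≤
        ∑ k ∈ Finset.range (K + 1), A * s ^ K * (4 * p / s) ^ k := by
      apply Finset.sum_le_sum
      intro k hkr
      have hkK : k ≤ K := by
        have := Finset.mem_range.1 hkr
        omega
      rw [sqrt_two_pow, ← hsdef, pow_sub₀ _ hs.ne' hkK, div_pow, mul_pow]
      have h5 : (4:ℝ)^k * a4 q (2^k) * (s ^ K * (s ^ k)⁻¹) ≤
          (4:ℝ)^k * (A * p ^ k) * (s ^ K * (s ^ k)⁻¹) := by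
        have h6 : 0 ≤ s ^ K * (s ^ k)⁻¹ := by positivity
        have h7 : (4:ℝ)^k * a4 q (2^k) ≤ (4:ℝ)^k * (A * p ^ k) :=
          mul_le_mul_of_nonneg_left (ha k hkK) (by positivity)
        exact mul_le_mul_of_nonneg_right h7 h6
      refine le_trans h5 (le_of_eq ?_)
      field_simp
    rw [← Finset.mul_sum] at h4
    have h5 := geo_le _ hρ1 K
    have h6 : A * s ^ K * ∑ k ∈ Finset.range (K + 1), (4 * p / s) ^ k ≤
        A * s ^ K * (7 * (4 * p / s) ^ K) := mul_le_mul_of_nonneg_left h5 (by positivity)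
    have h7 : A * s ^ K * (7 * (4 * p / s) ^ K) = 7 * A * (4 * p) ^ K := by
      rw [div_pow]
      field_simp
    linarith
  have W2 : W2s q K ≤ 8 * A ^ 2 * (16 * p ^ 2) ^ K := by
    unfold W2s
    have hA2 : 1 ≤ A ^ 2 := by nlinarith
    have h3 : (2:ℝ) ^ K ≤ A ^ 2 * (16 * p ^ 2) ^ K := by
      have h4 : (2:ℝ) ^ K ≤ (16 * p ^ 2) ^ K := pow_le_pow_left₀ (by norm_num) (by linarith) K
      have h5 : 0 ≤ (16 * p ^ 2) ^ K := by positivity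
      nlinarith
    have h4 : ∑ k ∈ Finset.range (K + 1), (16:ℝ)^k * (a4 q (2^k))^2 * (2:ℝ)^(K - k) ≤
        ∑ k ∈ Finset.range (K + 1), A ^ 2 * 2 ^ K * (8 * p ^ 2) ^ k := by
      apply Finset.sum_le_sum
      intro k hkr
      have hkK : k ≤ K := by
        have := Finset.mem_range.1 hkr
        omega
      rw [pow_sub₀ _ (by norm_num : (2:ℝ) ≠ 0) hkK]
      have h5 : (16:ℝ)^k * (a4 q (2^k))^2 * ((2:ℝ) ^ K * (2 ^ k)⁻¹) ≤
          (16:ℝ)^k * (A * p ^ k)^2 * ((2:ℝ) ^ K * (2 ^ k)⁻¹) := by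
        have h6 : 0 ≤ (2:ℝ) ^ K * (2 ^ k)⁻¹ := by positivity
        have h8 : (a4 q (2^k))^2 ≤ (A * p ^ k)^2 := pow_le_pow_left₀ (hn k) (ha k hkK) 2
        have h7 : (16:ℝ)^k * (a4 q (2^k))^2 ≤ (16:ℝ)^k * (A * p ^ k)^2 :=
          mul_le_mul_of_nonneg_left h8 (by positivity)
        exact mul_le_mul_of_nonneg_right h7 h6
      refine le_trans h5 (le_of_eq ?_)
      have h9 : (16:ℝ) ^ k = 2 ^ k * 8 ^ k := by rw [← mul_pow]; norm_num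
      rw [h9, mul_pow 8, ← pow_mul p 2 k, mul_comm 2 k, pow_mul]
      field_simp
    rw [← Finset.mul_sum] at h4
    have h5 := geo_le _ hρ2 K
    have h6 : A ^ 2 * 2 ^ K * ∑ k ∈ Finset.range (K + 1), (8 * p ^ 2) ^ k ≤
        A ^ 2 * 2 ^ K * (7 * (8 * p ^ 2) ^ K) := mul_le_mul_of_nonneg_left h5 (by positivity)
    have h7 : A ^ 2 * 2 ^ K * (7 * (8 * p ^ 2) ^ K) = 7 * A ^ 2 * (16 * p ^ 2) ^ K := by
      have h9 : (16 * p ^ 2) ^ K = 2 ^ K * (8 * p ^ 2) ^ K := by rw [← mul_pow]; ring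
      rw [h9]; ring
    linarith
  refine ⟨W1, W2, ?_⟩
  have h3 : (4:ℝ)^K * a4 q (2^K) ≤ (4:ℝ)^K * (A * p ^ K) :=
    mul_le_mul_of_nonneg_left (ha K le_rfl) (by positivity)
  have h4 : 0 ≤ (4:ℝ)^K * a4 q (2^K) := mul_nonneg (by positivity) (hn K)
  calc (4:ℝ)^K * a4 q (2^K) * W1s q K ≤ (4:ℝ)^K * a4 q (2^K) * (8 * A * (4 * p) ^ K) :=
        mul_le_mul_of_nonneg_left W1 h4
    _ ≤ (4:ℝ)^K * (A * p ^ K) * (8 * A * (4 * p) ^ K) :=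
        mul_le_mul_of_nonneg_right h3 (by positivity)
    _ = 8 * A ^ 2 * (16 * p ^ 2) ^ K := by
        have h9 : (16 * p ^ 2) ^ K = 4 ^ K * p ^ K * (4 * p) ^ K := by
          rw [← mul_pow, ← mul_pow]; ring
        rw [h9]; ring


theorem T_deriv0 (κ : ℝ) (hκ : 0 < κ) {ε : ℝ} (hε0 : 0 ≤ ε) (hε : ε ≤ 1/8) (L : ℕ) (hL : 2 ≤ L) :
    ∃ C : ℝ, 0 < C ∧ ∀ (q : ℝ) (n : ℕ), Win q κ n → ∀ (A : ℝ), 1 ≤ A → A4le q A ε n →
      ∀ (m : ℕ), 128 ≤ m → m ≤ n → ∀ (I J : Set Vtx), (∀ v ∈ I ∪ J, (m:ℤ) ≤ |v.2|) → ∃ D : ℝ,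
        HasDerivAt (fun q => ∑ e ∈ boxE (m / 4), PQ q (SR L m)
          (Pf (fun F : Finset Edg => Cn I J ↑F) e)) D q ∧
          |D| ≤ C * A ^ 2 * (m:ℝ) ^ ((3/2 : ℝ) + 2 * ε) := by
  obtain ⟨C1, hC1, h1⟩ := near_sum κ hκ
  obtain ⟨C2, hC2, h2⟩ := far_sum κ hκ
  obtain ⟨C3, hC3, h3⟩ := W_bounds0 hε0 (lt_of_le_of_lt hε (by norm_num))
  set Λ : ℕ := 256 * L with hΛ
  refine ⟨C1 * Λ * C3 + C2 * Λ^3 * C3, by positivity, ?_⟩
  intro q n hw A hA ha m hm hmn I J hIJ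
  obtain ⟨K, hK2, hKm, hKm'⟩ := dyadic_scale hm
  have h0 : 0 ≤ q := by linarith [hw.lo]
  have h1' : q ≤ 1 := by linarith [hw.hi]
  have hsub : boxE (m / 4) ⊆ SR L m := by
    unfold boxE SR
    have : m ≤ 2 * L * m := by nlinarith
    exact RE_subset (by omega) (by omega) (by omega) (by omega)
  obtain ⟨D, hD, hDle⟩ := deriv_T (SR L m) (boxE (m / 4)) hsub
    (fun F : Finset Edg => Cn I J ↑F) (fun F G h hF => Cn_mono' (by exact_mod_cast h) hF) q h0 h1'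
  refine ⟨D, hD, hDle.trans ?_⟩
  have hbase : ∀ e ∈ boxE (m / 4), (-((m / 4 : ℕ) : ℤ) ≤ e.1 ∧ e.1 ≤ ((m / 4 : ℕ) : ℤ)) ∧
      (-((m / 4 : ℕ) : ℤ) ≤ e.2.1 ∧ e.2.1 ≤ ((m / 4 : ℕ) : ℤ)) := by
    rintro ⟨x, y, bo⟩ he
    unfold boxE at he
    cases bo
    · rw [mem_RE_false] at he; simp only; omega
    · rw [mem_RE_true] at he; simp only; omega
  have hLm : m ≤ L * m := Nat.le_mul_of_pos_left _ (by omega)
  have hKz : (32:ℤ) * 2^K ≤ m := by exact_mod_cast hKm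
  have hKz' : (m:ℤ) < 64 * 2^K := by exact_mod_cast hKm'
  have hKp : (0:ℤ) < 2^K := by positivity
  have hΛK : (4:ℤ) * L * m ≤ (Λ:ℕ) * 2^K := by
    rw [hΛ]; push_cast
    have : (0:ℤ) ≤ L := by positivity
    nlinarith
  have hLz : (m:ℤ) ≤ L * m := by exact_mod_cast hLm
  have hoff : Off (-(2 * L * m : ℕ)) (2 * L * m : ℕ) (-m) m I J := by
    rintro v hv ⟨_, h4, h5⟩
    have := hIJ v hv
    rcases le_abs.mp this with h6 | h6 <;> omega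
  have hG1 : ∀ e ∈ boxE (m / 4), |e.1| ≤ (Λ:ℤ) * 2^K ∧ |e.2.1| ≤ (Λ:ℤ) * 2^K := by
    intro e he
    have := hbase e he
    have h5 : (m:ℤ) ≤ (Λ:ℤ) * 2^K := by nlinarith
    rw [abs_le, abs_le]
    omega
  have hG2 : ∀ e ∈ boxE (m / 4),
      ((-(2 * L * m : ℕ) : ℤ) + 24 * 2^K ≤ e.1 ∧ e.1 ≤ ((2 * L * m : ℕ) : ℤ) - 24 * 2^K) ∧
      ((-m : ℤ) + 24 * 2^K ≤ e.2.1 ∧ e.2.1 ≤ (m:ℤ) - 24 * 2^K) := by
    intro e he
    have := hbase e he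
    have e1 : ((2 * L * m : ℕ) : ℤ) = 2 * (L * m) := by push_cast; ring
    rw [e1]
    omega
  have hnat : 12 * 2^K ≤ n := by omega
  have hd1 : ((2 * L * m : ℕ) : ℤ) - (-(2 * L * m : ℕ) : ℤ) ≤ (Λ:ℤ) * 2^K := by
    push_cast; linarith
  have hd2 : (m:ℤ) - (-(m:ℤ)) ≤ (Λ:ℤ) * 2^K := by nlinarith
  have hΛ1 : 1 ≤ Λ := by omega
  have k1 := h1 q n hw _ _ _ _ K Λ hΛ1 hnat I J hoff (boxE (m / 4)) hG1 hG2
  have k2 := h2 q n hw _ _ _ _ K Λ hK2 hΛ1 hnat hd1 hd2 I J hoff (boxE (m / 4)) hG1 hG2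
  have k3 := h3 q A K h0 h1' hA (a4le_dyadic (by linarith) hε ha (by omega))
  have hsplit : ∑ e ∈ boxE (m / 4), ∑ g ∈ (SR L m).erase e,
      Pr (fun _ => q) (SR L m) (SD (fun F : Finset Edg => Cn I J ↑F) e g) =
      (∑ e ∈ boxE (m / 4), ∑ g ∈ (SR L m).erase e, ind (dst e g ≤ 4 * 2^K) *
        PQ q (SR L m) (SD (fun F : Finset Edg => Cn I J ↑F) e g)) +
      ∑ e ∈ boxE (m / 4), ∑ g ∈ (SR L m).erase e, ind (¬ dst e g ≤ 4 * 2^K) *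
        PQ q (SR L m) (SD (fun F : Finset Edg => Cn I J ↑F) e g) := by
    rw [← Finset.sum_add_distrib]
    apply Finset.sum_congr rfl
    intro e _
    rw [← Finset.sum_add_distrib]
    apply Finset.sum_congr rfl
    intro g _
    rw [ind_not]
    unfold PQ
    ring
  rw [hsplit]
  have hpow : ((2:ℝ)^K) ^ ((3/2 : ℝ) + 2 * ε) ≤ (m:ℝ) ^ ((3/2 : ℝ) + 2 * ε) := by
    apply Real.rpow_le_rpow (by positivity) _ (by linarith)
    have : 2^K ≤ m := by omega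
    exact_mod_cast this
  have hA0 : 0 ≤ A := by linarith
  have i1 := k3.2.1
  have i2 := k3.2.2
  have j1 : C1 * Λ * W2s q K ≤ C1 * Λ * (C3 * A^2 * (m:ℝ) ^ ((3/2 : ℝ) + 2 * ε)) := by
    apply mul_le_mul_of_nonneg_left _ (by positivity)
    exact i1.trans (mul_le_mul_of_nonneg_left hpow (by positivity))
  have j2 : C2 * Λ^3 * ((4:ℝ)^K * a4 q (2^K) * W1s q K) ≤
      C2 * Λ^3 * (C3 * A^2 * (m:ℝ) ^ ((3/2 : ℝ) + 2 * ε)) := by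
    apply mul_le_mul_of_nonneg_left _ (by positivity)
    exact i2.trans (mul_le_mul_of_nonneg_left hpow (by positivity))
  calc _ ≤ C1 * Λ * W2s q K + C2 * Λ^3 * ((4:ℝ)^K * a4 q (2^K) * W1s q K) := add_le_add k1 k2
    _ ≤ C1 * Λ * (C3 * A^2 * (m:ℝ) ^ ((3/2 : ℝ) + 2 * ε)) +
        C2 * Λ^3 * (C3 * A^2 * (m:ℝ) ^ ((3/2 : ℝ) + 2 * ε)) := add_le_add j1 j2
    _ = _ := by ring


theorem hh_deriv0 (κ : ℝ) (hκ : 0 < κ) {ε : ℝ} (hε0 : 0 ≤ ε) (hε : ε ≤ 1/8) :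
    ∃ C : ℝ, 0 < C ∧ ∀ (q : ℝ) (n : ℕ), Win q κ n → ∀ (A : ℝ), 1 ≤ A → A4le q A ε n →
      ∀ (h : ℕ), 1 ≤ h → h ≤ n → ∃ D : ℝ,
        HasDerivAt (fun q => hh q (16 * h) h) D q ∧
          |D| ≤ C * A * (h:ℝ) ^ ((3/4 : ℝ) + ε) := by
  obtain ⟨C1, hC1, h1⟩ := whitney_sum κ hκ
  obtain ⟨C3, hC3, h3⟩ := W_bounds0 hε0 (lt_of_le_of_lt hε (by norm_num))
  refine ⟨C1 * 128 * C3 + 400, by positivity, ?_⟩
  intro q n hw A hA ha h hh1 hhn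
  have h0 : 0 ≤ q := by linarith [hw.lo]
  have h1' : q ≤ 1 := by linarith [hw.hi]
  have ok := okq h0 h1'
  have hA0 : 0 ≤ A := by linarith
  have hD := deriv_f (LRE 0 (16 * h) 0 h) (LRc 0 (16 * h) 0 h) (fun F G hFG => LRc.mono hFG) q
  have hD0 : 0 ≤ ∑ e ∈ LRE 0 (16 * (h:ℤ)) 0 h,
      Pr (fun _ => q) (LRE 0 (16 * (h:ℤ)) 0 h) (Pf (LRc 0 (16 * h) 0 h) e) :=
    Finset.sum_nonneg (fun e _ => Pr_nonneg ok _ _)
  refine ⟨_, hD, ?_⟩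
  rw [abs_of_nonneg hD0]
  have hhr : (1:ℝ) ≤ h := by exact_mod_cast hh1
  have hp1 : (1:ℝ) ≤ (h:ℝ) ^ ((3/4 : ℝ) + ε) := Real.one_le_rpow hhr (by linarith)
  rcases Nat.lt_or_ge h 4 with hlt | hge
  · -- small `h`
    have k1 : ∑ e ∈ LRE 0 (16 * (h:ℤ)) 0 h,
        Pr (fun _ => q) (LRE 0 (16 * (h:ℤ)) 0 h) (Pf (LRc 0 (16 * h) 0 h) e) ≤
        ∑ e ∈ LRE 0 (16 * (h:ℤ)) 0 h, (1:ℝ) :=
      Finset.sum_le_sum (fun e _ => Pr_le_one ok _ _)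
    have k2 : (LRE 0 (16 * (h:ℤ)) 0 h).card ≤ 400 := by
      have : LRE 0 (16 * (h:ℤ)) 0 h ⊆ (Finset.Icc (0:ℤ) 48) ×ˢ ((Finset.Icc (0:ℤ) 3) ×ˢ Finset.univ) := by
        rintro ⟨x, y, bo⟩ he
        rw [Finset.mem_product, Finset.mem_product, Finset.mem_Icc, Finset.mem_Icc]
        cases bo
        · rw [mem_LRE_false] at he
          simp only [Finset.mem_univ, and_true]; omega
        · rw [mem_LRE_true] at he
          simp only [Finset.mem_univ, and_true]; omega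
      refine (Finset.card_le_card this).trans ?_
      rw [Finset.card_product, Finset.card_product, Int.card_Icc, Int.card_Icc,
        Finset.card_univ, Fintype.card_bool]
      decide
    rw [Finset.sum_const, nsmul_eq_mul, mul_one] at k1
    have k3 : ((LRE 0 (16 * (h:ℤ)) 0 h).card : ℝ) ≤ 400 := by exact_mod_cast k2
    have k4 : (1:ℝ) ≤ A * (h:ℝ) ^ ((3/4 : ℝ) + ε) := one_le_mul_of_one_le_of_one_le hA hp1
    have k5 : 0 ≤ C1 * 128 * C3 * (A * (h:ℝ) ^ ((3/4 : ℝ) + ε)) := by positivity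
    nlinarith
  · -- large `h`
    obtain ⟨K, g1, g2⟩ := dyadic_scale4 hge
    have g2z : (h:ℤ) < 8 * 2^K := by exact_mod_cast g2
    have k1 := h1 q n hw 0 (16 * h) 0 h K 128 (by norm_num) (by omega) (by push_cast; omega)
      (by push_cast; omega) (LRE 0 (16 * h) 0 h) {v | v.1 = 0 ∧ 0 ≤ v.2 ∧ v.2 ≤ (h:ℤ)}
      {v | v.1 = 16 * (h:ℤ) ∧ 0 ≤ v.2 ∧ v.2 ≤ (h:ℤ)} ∅ (Set.empty_disjoint _)
      (by
        rintro v (hv | hv) ⟨⟨h4, h5⟩, _⟩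
        · have : v.1 = 0 := hv.1
          omega
        · have : v.1 = 16 * (h:ℤ) := hv.1
          omega)
      (LRE 0 (16 * h) 0 h) (Finset.Subset.refl _) LRE_subset_RE
      (by
        rintro g _ ⟨x, y, bo⟩ he _
        cases bo
        · rw [mem_RE_false] at he; rw [mem_LRE_false]; omega
        · rw [mem_RE_true] at he; rw [mem_LRE_true]; omega)
    have k2 := (h3 q A K h0 h1' hA (a4le_dyadic (by linarith) hε ha (by omega))).1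
    have k3 : ∑ e ∈ LRE 0 (16 * (h:ℤ)) 0 h,
        Pr (fun _ => q) (LRE 0 (16 * (h:ℤ)) 0 h) (Pf (LRc 0 (16 * h) 0 h) e) =
        ∑ g ∈ LRE 0 (16 * (h:ℤ)) 0 h, PQ q (LRE 0 (16 * h) 0 h)
          (Pf (CO {v | v.1 = 0 ∧ 0 ≤ v.2 ∧ v.2 ≤ (h:ℤ)}
            {v | v.1 = 16 * (h:ℤ) ∧ 0 ≤ v.2 ∧ v.2 ≤ (h:ℤ)} ∅) g) := by
      apply Finset.sum_congr rfl
      intro e he
      apply Pr_congr
      intro F hF
      unfold Pf
      rw [LRc_iff (Finset.insert_subset he hF), LRc_iff ((Finset.erase_subset _ _).trans hF)]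
    have hpow : ((2:ℝ)^K) ^ ((3/4 : ℝ) + ε) ≤ (h:ℝ) ^ ((3/4 : ℝ) + ε) := by
      apply Real.rpow_le_rpow (by positivity) _ (by linarith)
      have : 2^K ≤ h := by omega
      exact_mod_cast this
    rw [k3]
    have j1 : C1 * ((128 : ℕ) : ℝ) * W1s q K ≤
        C1 * ((128 : ℕ) : ℝ) * (C3 * A * (h:ℝ) ^ ((3/4 : ℝ) + ε)) := by
      apply mul_le_mul_of_nonneg_left _ (by positivity)
      exact k2.trans (mul_le_mul_of_nonneg_left hpow (by positivity))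
    refine (k1.trans j1).trans ?_
    push_cast
    have k5 : 0 ≤ 400 * (A * (h:ℝ) ^ ((3/4 : ℝ) + ε)) := by positivity
    nlinarith


end Pool.Agent.W424.NC
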