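import Pool.Agent.W424.NC.NearA
import Pool.Agent.H12R2.Sep.KeyC

/-!
Sharp near-critical estimates, part B: the key inequality at one scale, one step of the
bootstrap.
-/

set_option maxHeartbeats 1000000

namespace Pool.Agent.W424.NC

open H973N H974 H12S Finset

/-- The sum of the pivotal probabilities at scale `m`. -/
noncomputable def TT (L m : ℕ) (I J : Set Vtx) (q : ℝ) : ℝ :=
  ∑ e ∈ boxE (m / 4), PQ q (SR L m) (Pf (fun F : Finset Edg => Cn I J ↑F) e)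

/-- The key inequality at one scale. -/
theorem key0 (κ : ℝ) (hκ : 0 < κ) (η0 : ℝ) (hη0 : 0 < η0) :
    ∃ (L M : ℕ) (C η : ℝ), 2 ≤ L ∧ 512 ≤ M ∧ 0 < C ∧ 0 < η ∧
      η * (192 * (L:ℝ)) ^ (5/4 : ℝ) ≤ η0 ∧
      ∀ (q : ℝ) (n : ℕ), Win q κ n → ∀ m : ℕ, M ≤ m → 4 * L * m ≤ n →
        ∃ I J : Set Vtx, (∀ v ∈ I ∪ J, (m:ℤ) ≤ |v.2|) ∧
          (m:ℝ) ^ 2 * a4 q (4 * L * m) ≤ C * TT L m I J q + (m:ℝ) ^ 2 * (η * a4 q (m / 8)) := by
  obtain ⟨C, c, hC, hc, hex⟩ := exit_prob2 κ hκ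
  obtain ⟨L, hL, hLK⟩ := KY_choose_L (C / η0) c (5/4) hc
  have hL0 : (0:ℝ) < L := by
    have : 0 < L := by omega
    exact_mod_cast this
  obtain ⟨K, hK⟩ : ∃ K : ℝ, K = (192 * (L:ℝ)) ^ (5/4 : ℝ) := ⟨_, rfl⟩
  have hK0 : 0 < K := by rw [hK]; positivity
  have e0' : (64 * (3 * L : ℕ) : ℝ) ^ (5/4 : ℝ) = K := by
    rw [hK]
    congr 1
    push_cast
    ring
  rw [e0'] at hLK
  obtain ⟨M1, M2, N, hM1, hM2, hex2⟩ := hex L (η0 / (32 * K)) hL (by positivity)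
  obtain ⟨cd, hcd⟩ : ∃ cd : ℕ, cd = (2 * (2 * N + 1)) * (2 * (2 * N + 1)) := ⟨_, rfl⟩
  have hcd0 : (0:ℝ) < cd := by
    have : 0 < cd := by rw [hcd]; positivity
    exact_mod_cast this
  obtain ⟨η1, hη1⟩ : ∃ η1 : ℝ, η1 = η0 / (32 * K) + C * Real.exp (-c * L) := ⟨_, rfl⟩
  have hη10 : 0 < η1 := by rw [hη1]; positivity
  refine ⟨L, max M2 512, 8 * cd, 8 * η1, hL, le_max_right _ _, by positivity, by positivity,
    ?_, ?_⟩
  · rw [← hK, hη1]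
    have e1 : η0 / (32 * K) * K = η0 / 32 := by field_simp
    have e2 : C * Real.exp (-c * L) * K ≤ η0 / 32 := by
      have e3 : C / η0 * Real.exp (-c * L) * K = (C * Real.exp (-c * L) * K) / η0 := by ring
      rw [e3, div_le_iff₀ hη0] at hLK
      linarith
    calc 8 * (η0 / (32 * K) + C * Real.exp (-c * L)) * K
        = 8 * (η0 / (32 * K) * K) + 8 * (C * Real.exp (-c * L) * K) := by ring
      _ ≤ 8 * (η0 / 32) + 8 * (η0 / 32) := by rw [e1]; linarith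
      _ ≤ η0 := by linarith
  intro q n hW m hmM hmn
  have h0 : 0 ≤ q := by linarith [hW.lo]
  have h1 : q ≤ 1 := by linarith [hW.hi]
  have ha0 : ∀ j, 0 ≤ a4 q j := fun j => H12S.a4_nonneg h0 h1 j
  have hmM2 : M2 ≤ m := (le_max_left _ _).trans hmM
  have hm512 : 512 ≤ m := (le_max_right _ _).trans hmM
  have hs := a4_sum_ge h0 h1 hL (by omega : 64 ≤ m)
  obtain ⟨idx, hidx⟩ : ∃ idx : Finset ((Bool × ℤ) × (Bool × ℤ)), idx = prs L m (m / M2) N :=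
    ⟨_, rfl⟩
  have hcard : (idx.card : ℝ) ≤ cd := by
    rw [hidx, hcd]
    exact_mod_cast kc_prs_card L m _ N
  have hne : idx.Nonempty := by rw [hidx]; exact kc_prs_ne _ _ _ _
  have hex3 : ∀ e ∈ boxE (m / 4),
      PQ q (SR L m) (fun F => A4 (-(2 * L * m : ℕ)) (2 * L * m : ℕ) (-m) m e ↑F) ≤
        (∑ p ∈ idx, PQ q (SR L m) (fun F =>
          Sev L m (m / M2) (m / M1) p.1.1 (2 * (m / M2 : ℕ) * p.1.2) p.2.1
            (2 * (m / M2 : ℕ) * p.2.2) e ↑F)) + η1 * a4 q (m / 8) := by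
    intro e he
    have h := hex2 q n hW m hmM2 hmn e he
    rw [hidx, hη1]
    exact h
  set T : (Bool × ℤ) × (Bool × ℤ) → ℝ := fun p =>
    TS q L m (m / M2) (m / M1) p.1.1 p.1.2 p.2.1 p.2.2 with hT
  have hs2 : ∑ e ∈ boxE (m / 4), PQ q (SR L m)
        (fun F => A4 (-(2 * L * m : ℕ)) (2 * L * m : ℕ) (-m) m e ↑F) ≤
      ∑ p ∈ idx, T p + (m:ℝ) ^ 2 * (η1 * a4 q (m / 8)) := by
    refine (Finset.sum_le_sum hex3).trans ?_
    rw [Finset.sum_add_distrib, Finset.sum_comm, Finset.sum_const, nsmul_eq_mul]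
    refine add_le_add le_rfl ?_
    exact mul_le_mul_of_nonneg_right (KY_card (by omega)) (mul_nonneg hη10.le (ha0 _))
  obtain ⟨p', hp', hmax⟩ := Finset.exists_max_image idx T hne
  have hT0 : ∀ p, 0 ≤ T p := fun p => Finset.sum_nonneg fun _ _ => Pr_nonneg (okq h0 h1) _ _
  have hs4 : ∑ p ∈ idx, T p ≤ cd * T p' := by
    refine (Finset.sum_le_card_nsmul _ _ _ hmax).trans ?_
    rw [nsmul_eq_mul]
    exact mul_le_mul_of_nonneg_right hcard (hT0 _)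
  refine ⟨cell p'.1.1 m (2 * (m / M2 : ℕ) * p'.1.2) (m / M2),
      cell p'.2.1 m (2 * (m / M2 : ℕ) * p'.2.2) (m / M2), ?_, ?_⟩
  · have hc' : ∀ (τ : Bool) (x : ℤ) (r : ℕ), ∀ v ∈ cell τ m x r, (m:ℤ) ≤ |v.2| := by
      intro τ x r v hv
      have hv2 : v.2 = sy τ m := (mem_cell.mp hv).1
      rw [hv2]
      cases τ
      · unfold sy; simp
      · unfold sy; simp
    rintro v (hv | hv)
    · exact hc' _ _ _ v hv
    · exact hc' _ _ _ v hv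
  · have h5 : T p' ≤ TT L m (cell p'.1.1 m (2 * (m / M2 : ℕ) * p'.1.2) (m / M2))
        (cell p'.2.1 m (2 * (m / M2 : ℕ) * p'.2.2) (m / M2)) q := by
      rw [hT]
      unfold TS TT
      apply Finset.sum_le_sum
      intro e _
      apply Pr_mono (okq h0 h1)
      intro F _ hF
      rw [← Pv_iff]
      refine Qev_Pv ?_ hF.1
      have : m / M2 ≤ m / M1 := Nat.div_le_div_left (by omega) (by omega)
      omega
    have h6 := mul_le_mul_of_nonneg_left h5 hcd0.le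
    have h7 : (m:ℝ) ^ 2 * (8 * η1 * a4 q (m / 8)) = 8 * ((m:ℝ) ^ 2 * (η1 * a4 q (m / 8))) := by
      ring
    rw [h7]
    have h8 : (m:ℝ) ^ 2 * a4 q (4 * L * m) = 8 * ((m:ℝ) ^ 2 / 8 * a4 q (4 * L * m)) := by ring
    rw [h8, mul_assoc 8]
    linarith

/-- Comparison of powers of `k` and `k + 1`. -/
theorem pow_succ_ge {k : ℕ} (hk : 1 ≤ k) :
    (k:ℝ) ^ (-(5/4 : ℝ)) ≤ 3 * ((k:ℝ) + 1) ^ (-(5/4 : ℝ)) := by
  have hk1 : (1:ℝ) ≤ k := by exact_mod_cast hk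
  have j1 : (2 * (k:ℝ)) ^ (-(5/4 : ℝ)) ≤ ((k:ℝ) + 1) ^ (-(5/4 : ℝ)) :=
    Real.rpow_le_rpow_of_nonpos (by linarith) (by linarith) (by norm_num)
  have j2 : (1/3 : ℝ) ≤ (2:ℝ) ^ (-(5/4 : ℝ)) := by
    have j3 : (2:ℝ) ^ (-(3/2 : ℝ)) ≤ (2:ℝ) ^ (-(5/4 : ℝ)) :=
      Real.rpow_le_rpow_of_exponent_le (by norm_num) (by norm_num)
    have j4 : (1/3 : ℝ) ≤ (2:ℝ) ^ (-(3/2 : ℝ)) := by
      have j5 : ((2:ℝ) ^ (-(3/2 : ℝ)))^2 = 1/8 := by
        rw [← Real.rpow_natCast, ← Real.rpow_mul (by norm_num)]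
        rw [show (-(3/2:ℝ)) * ((2:ℕ):ℝ) = ((-3 : ℤ) : ℝ) by norm_num, Real.rpow_intCast]
        norm_num
      have j6 : 0 < (2:ℝ) ^ (-(3/2 : ℝ)) := by positivity
      nlinarith
    exact j4.trans j3
  rw [Real.mul_rpow (by norm_num) (by linarith)] at j1
  have j7 : 0 < (k:ℝ) ^ (-(5/4 : ℝ)) := by positivity
  have j8 := mul_le_mul_of_nonneg_right j2 j7.le
  linarith

/-- Scaling of negative powers. -/
theorem pow_scale {x y G : ℝ} (hx : 0 < x) (hy : 0 < y) (hG : 0 < G) (h : y ≤ G * x) :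
    x ^ (-(5/4 : ℝ)) ≤ G ^ (5/4 : ℝ) * y ^ (-(5/4 : ℝ)) := by
  calc x ^ (-(5/4 : ℝ)) ≤ (y / G) ^ (-(5/4 : ℝ)) := by
        apply Real.rpow_le_rpow_of_nonpos (by positivity) _ (by norm_num)
        rw [div_le_iff₀ hG]; linarith
    _ = G ^ (5/4 : ℝ) * y ^ (-(5/4 : ℝ)) := by
        rw [Real.div_rpow hy.le hG.le, Real.rpow_neg hG.le, div_inv_eq_mul, mul_comm]

theorem m_sq {m : ℝ} (hm : 0 < m) : m ^ 2 * m ^ (-(5/4 : ℝ)) = m ^ (3/4 : ℝ) := by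
  rw [← Real.rpow_natCast, ← Real.rpow_add hm]
  congr 1
  norm_num

theorem A4le0 {q A : ℝ} {n : ℕ} : A4le q A 0 n ↔
    ∀ k : ℕ, k ≤ n → a4 q k ≤ A * ((k:ℝ) + 1) ^ (-(5/4 : ℝ)) := by
  unfold A4le
  rw [add_zero]

/-- The Lipschitz bound for the sum of pivotal probabilities. -/
theorem TT_lip {κ : ℝ} (hκ : 0 < κ) (L : ℕ) (hL : 2 ≤ L) : ∃ C1 : ℝ, 0 < C1 ∧
    ∀ (q A b : ℝ) (n : ℕ), 1 ≤ n → 1 ≤ A → 0 < b → |q - 1/2| ≤ b * (n:ℝ) ^ (-(3/4 : ℝ)) →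
      (∀ t ∈ Set.uIcc (1/2) q, Win t κ n ∧ A4le t A 0 n) →
      ∀ m : ℕ, 128 ≤ m → m ≤ n → ∀ I J : Set Vtx, (∀ v ∈ I ∪ J, (m:ℤ) ≤ |v.2|) →
        |TT L m I J q - TT L m I J (1/2)| ≤ C1 * A ^ 2 * b * (m:ℝ) ^ (3/4 : ℝ) := by
  obtain ⟨C1, hC1, hT⟩ := T_deriv0 κ hκ (le_refl (0:ℝ)) (by norm_num) L hL
  refine ⟨C1, hC1, ?_⟩
  intro q A b n hn hA hb hq hseg m hm hmn I J hIJ
  have hmr : (128:ℝ) ≤ m := by exact_mod_cast hm
  have hmpos : (0:ℝ) < m := by linarith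
  have hlip := lip (f := TT L m I J) (a := 1/2) (b := q)
      (B := C1 * A ^ 2 * (m:ℝ) ^ ((3/2 : ℝ) + 2 * 0))
      (fun t ht => hT t n (hseg t ht).1 A hA (hseg t ht).2 m hm hmn I J hIJ)
  refine hlip.trans ?_
  have j1 : (n:ℝ) ^ (-(3/4 : ℝ)) ≤ (m:ℝ) ^ (-(3/4 : ℝ)) :=
    Real.rpow_le_rpow_of_nonpos hmpos (by exact_mod_cast hmn) (by norm_num)
  have j2 : (m:ℝ) ^ ((3/2 : ℝ) + 2 * 0) * (m:ℝ) ^ (-(3/4 : ℝ)) = (m:ℝ) ^ (3/4 : ℝ) := by
    rw [← Real.rpow_add hmpos]; congr 1; norm_num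
  have j3 : 0 ≤ C1 * A ^ 2 * (m:ℝ) ^ ((3/2 : ℝ) + 2 * 0) := by positivity
  calc C1 * A ^ 2 * (m:ℝ) ^ ((3/2 : ℝ) + 2 * 0) * |q - 1/2|
      ≤ C1 * A ^ 2 * (m:ℝ) ^ ((3/2 : ℝ) + 2 * 0) * (b * (m:ℝ) ^ (-(3/4 : ℝ))) :=
        mul_le_mul_of_nonneg_left (hq.trans (mul_le_mul_of_nonneg_left j1 hb.le)) j3
    _ = C1 * A ^ 2 * b * ((m:ℝ) ^ ((3/2 : ℝ) + 2 * 0) * (m:ℝ) ^ (-(3/4 : ℝ))) := by ring
    _ = _ := by rw [j2]

theorem TT_up {q : ℝ} (h0 : 0 ≤ q) (h1 : q ≤ 1) {L m : ℕ} (hm : 16 ≤ m) (hL : 2 ≤ L)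
    {I J : Set Vtx} (hIJ : ∀ v ∈ I ∪ J, (m:ℤ) ≤ |v.2|) :
    TT L m I J q ≤ (m:ℝ)^2 * a4 q (m / 2) := T_upper h0 h1 hm hL hIJ

/-- One step of the bootstrap. -/
theorem step0 {κ : ℝ} (hκ : 0 < κ) :
    ∃ A B : ℝ, 1 ≤ A ∧ 1 ≤ B ∧ (∀ k : ℕ, a4 (1/2) k ≤ A * ((k:ℝ) + 1) ^ (-(5/4 : ℝ))) ∧
      ∀ (q : ℝ) (n : ℕ), 1 ≤ n → B * |q - 1/2| ≤ (n:ℝ) ^ (-(3/4 : ℝ)) →
      (∀ t ∈ Set.uIcc (1/2) q, Win t κ n ∧ A4le t A 0 n) →
      ∀ k ≤ n, a4 q k < A * ((k:ℝ) + 1) ^ (-(5/4 : ℝ)) := by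
  obtain ⟨L, M, C, η, hL, hM, hC, hη, hηK, hk⟩ := key0 κ hκ (1/12) (by norm_num)
  obtain ⟨C1, hC1, hlip⟩ := TT_lip hκ L hL
  obtain ⟨cc, Cc, hcc, hCc, hcrit⟩ := Pool.Agent.H988R6.a4_sharp
  have hL0 : (0:ℝ) < L := by
    have : 0 < L := by omega
    exact_mod_cast this
  obtain ⟨G, hG⟩ : ∃ G : ℝ, G = (8 * (L:ℝ)) ^ (5/4 : ℝ) := ⟨_, rfl⟩
  have hG0 : 0 < G := by rw [hG]; positivity
  obtain ⟨K0, hK0⟩ : ∃ K0 : ℕ, K0 = 8 * L * M := ⟨_, rfl⟩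
  obtain ⟨A0, hA0⟩ : ∃ A0 : ℝ, A0 = 3 * ((K0:ℝ) + 1)^2 := ⟨_, rfl⟩
  have hK0r : (0:ℝ) ≤ K0 := Nat.cast_nonneg _
  have hA03 : 3 ≤ A0 := by rw [hA0]; nlinarith
  obtain ⟨A, hA⟩ : ∃ A : ℝ, A = A0 + 3 * Cc + 48 * G * C * Cc := ⟨_, rfl⟩
  have hGC : 0 < 48 * G * C * Cc := by positivity
  have hA3 : 3 ≤ A := by rw [hA]; linarith
  have hApos : 0 < A := by linarith
  obtain ⟨B, hB⟩ : ∃ B : ℝ, B = 12 * G * C * C1 * A + 1 := ⟨_, rfl⟩
  have hBp : 0 < 12 * G * C * C1 * A := by positivity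
  have hB1 : 1 ≤ B := by rw [hB]; linarith
  have hBpos : 0 < B := by linarith
  refine ⟨A, B, by linarith, hB1, ?_, ?_⟩
  · intro k
    rcases Nat.eq_zero_or_pos k with h | h
    · subst h
      have i1 := a4_le_two' (q := 1/2) (by norm_num) (by norm_num) 0
      simp only [Nat.cast_zero, zero_add, Real.one_rpow, mul_one]
      linarith
    · have i1 := (hcrit k h).2
      have i2 := pow_succ_ge h
      have i3 : 0 < ((k:ℝ) + 1) ^ (-(5/4 : ℝ)) := by positivity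
      calc a4 (1/2) k ≤ Cc * (k:ℝ) ^ (-(5/4) : ℝ) := i1
        _ ≤ Cc * (3 * ((k:ℝ) + 1) ^ (-(5/4 : ℝ))) := mul_le_mul_of_nonneg_left i2 hCc.le
        _ = (3 * Cc) * ((k:ℝ) + 1) ^ (-(5/4 : ℝ)) := by ring
        _ ≤ _ := mul_le_mul_of_nonneg_right (by rw [hA]; linarith) i3.le
  intro q n hn hq hseg k hkn
  have hwq := hseg q Set.right_mem_uIcc
  have hq0 : 0 ≤ q := by linarith [hwq.1.lo]
  have hq1 : q ≤ 1 := by linarith [hwq.1.hi]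
  have hnr : (1:ℝ) ≤ n := by exact_mod_cast hn
  rcases Nat.lt_or_ge k K0 with hlt | hge
  · -- small scales
    have i1 := a4_le_two' hq0 hq1 k
    have hkr : ((k:ℝ) + 1) ≤ (K0:ℝ) + 1 := by
      have : (k:ℝ) ≤ K0 := by exact_mod_cast hlt.le
      linarith
    have hk1r : (1:ℝ) ≤ (k:ℝ) + 1 := by
      have : (0:ℝ) ≤ k := Nat.cast_nonneg _
      linarith
    have i2 : ((k:ℝ) + 1) ^ (-(2:ℝ)) ≤ ((k:ℝ) + 1) ^ (-(5/4 : ℝ)) :=
      Real.rpow_le_rpow_of_exponent_le hk1r (by norm_num)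
    have i3 : ((K0:ℝ) + 1) ^ (-(2:ℝ)) ≤ ((k:ℝ) + 1) ^ (-(2:ℝ)) :=
      Real.rpow_le_rpow_of_nonpos (by linarith) hkr (by norm_num)
    have i4 : 3 ≤ A * ((K0:ℝ) + 1) ^ (-(2:ℝ)) := by
      have i6 : A0 * ((K0:ℝ) + 1) ^ (-(2:ℝ)) = 3 := by
        rw [hA0, Real.rpow_neg (by linarith), Real.rpow_two]
        field_simp
      rw [← i6]
      exact mul_le_mul_of_nonneg_right (by rw [hA]; linarith) (by positivity)
    have i5 : A * ((K0:ℝ) + 1) ^ (-(2:ℝ)) ≤ A * ((k:ℝ) + 1) ^ (-(5/4 : ℝ)) :=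
      mul_le_mul_of_nonneg_left (i3.trans i2) (by linarith)
    linarith
  · -- large scales
    have hLM : 0 < L * M := Nat.mul_pos (by omega) (by omega)
    obtain ⟨m, hm⟩ : ∃ m : ℕ, m = k / (4 * L) := ⟨_, rfl⟩
    have h4L : 0 < 4 * L := by omega
    have hm1 : 4 * L * m ≤ k := by rw [hm]; exact Nat.mul_div_le _ _
    have hm2 : k < 4 * L * m + 4 * L := by
      rw [hm]
      have := Nat.lt_mul_div_succ k h4L
      rw [Nat.mul_add, Nat.mul_one] at this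
      exact this
    have hmM : 2 * M ≤ m := by
      rw [hm, Nat.le_div_iff_mul_le h4L]
      have : 2 * M * (4 * L) = K0 := by rw [hK0]; ring
      omega
    have hMm : M ≤ m := by omega
    have hm512 : 512 ≤ m := by omega
    have hk8 : k ≤ 8 * L * m := by
      have i1 : 4 * L * 1 ≤ 4 * L * m := Nat.mul_le_mul_left _ (by omega)
      have i2 : 8 * L * m = 4 * L * m + 4 * L * m := by ring
      omega
    have hkpos : (0:ℝ) < k := by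
      have i0 : 4 * L * 1 ≤ 4 * L * m := Nat.mul_le_mul_left _ (by omega)
      have : 0 < k := by omega
      exact_mod_cast this
    have hmr : (512:ℝ) ≤ m := by exact_mod_cast hm512
    have hmpos : (0:ℝ) < m := by linarith
    have hmk : m ≤ k := by
      have : 1 * m ≤ 4 * L * m := Nat.mul_le_mul_right _ (by omega)
      omega
    have hk8r : (k:ℝ) ≤ (8 * (L:ℝ)) * m := by
      have : (k:ℝ) ≤ ((8 * L * m : ℕ) : ℝ) := by exact_mod_cast hk8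
      push_cast at this
      linarith
    obtain ⟨I, J, hIJ, hbound⟩ := hk q n hwq.1 m hMm (hm1.trans hkn)
    have hl := hlip q A (1 / B) n hn (by linarith) (by positivity) (by
      rw [div_mul_eq_mul_div, one_mul, le_div_iff₀ hBpos]; linarith) hseg m (by omega)
      (hmk.trans hkn) I J hIJ
    have hup := TT_up (q := 1/2) (by norm_num) (by norm_num) (L := L) (m := m) (by omega) hL hIJ
    have hcr : a4 (1/2) (m / 2) ≤ 4 * Cc * (m:ℝ) ^ (-(5/4 : ℝ)) := by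
      have j1 := (hcrit (m / 2) (by omega)).2
      have j2 : (m:ℝ) ≤ 3 * ((m / 2 : ℕ) : ℝ) := by
        have : m ≤ 3 * (m / 2) := by omega
        exact_mod_cast this
      have j3 := pow_scale (x := ((m / 2 : ℕ) : ℝ)) (y := m) (G := 3) (by linarith) hmpos
        (by norm_num) j2
      have j4 : (3:ℝ) ^ (5/4 : ℝ) ≤ 4 := by
        have j5 : ((3:ℝ) ^ (5/4 : ℝ))^4 = 243 := by
          rw [← Real.rpow_natCast, ← Real.rpow_mul (by norm_num)]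
          rw [show (5/4:ℝ) * ((4:ℕ):ℝ) = ((5 : ℕ) : ℝ) by norm_num, Real.rpow_natCast]
          norm_num
        by_contra hcon
        push Not at hcon
        have : (4:ℝ)^4 < ((3:ℝ) ^ (5/4 : ℝ))^4 := pow_lt_pow_left₀ hcon (by norm_num) (by norm_num)
        rw [j5] at this
        norm_num at this
      have j6 : 0 < (m:ℝ) ^ (-(5/4 : ℝ)) := by positivity
      calc a4 (1/2) (m / 2) ≤ Cc * ((m / 2 : ℕ) : ℝ) ^ (-(5/4) : ℝ) := j1
        _ ≤ Cc * ((3:ℝ) ^ (5/4 : ℝ) * (m:ℝ) ^ (-(5/4 : ℝ))) := mul_le_mul_of_nonneg_left j3 hCc.le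
        _ ≤ Cc * (4 * (m:ℝ) ^ (-(5/4 : ℝ))) := by
            apply mul_le_mul_of_nonneg_left _ hCc.le
            exact mul_le_mul_of_nonneg_right j4 j6.le
        _ = _ := by ring
    obtain ⟨P, hP⟩ : ∃ P : ℝ, P = (m:ℝ) ^ (-(5/4 : ℝ)) := ⟨_, rfl⟩
    have hP0 : 0 < P := by rw [hP]; positivity
    have hm2' : (m:ℝ) ^ (3/4 : ℝ) = (m:ℝ) ^ 2 * P := by rw [hP]; exact (m_sq hmpos).symm
    have hTq : TT L m I J q ≤ (m:ℝ)^2 * ((4 * Cc + C1 * A ^ 2 / B) * P) := by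
      have j1 := (abs_le.mp hl).2
      have j2 : (m:ℝ)^2 * a4 (1/2) (m / 2) ≤ (m:ℝ)^2 * (4 * Cc * P) := by
        rw [hP]
        exact mul_le_mul_of_nonneg_left hcr (by positivity)
      rw [hm2'] at j1
      have j3 : C1 * A ^ 2 * (1 / B) * ((m:ℝ)^2 * P) = (m:ℝ)^2 * (C1 * A ^ 2 / B * P) := by ring
      rw [j3] at j1
      have j4 : (m:ℝ)^2 * ((4 * Cc + C1 * A ^ 2 / B) * P) =
        (m:ℝ)^2 * (4 * Cc * P) + (m:ℝ)^2 * (C1 * A ^ 2 / B * P) := by ring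
      linarith
    have hb2 : a4 q (4 * L * m) ≤ C * (4 * Cc + C1 * A ^ 2 / B) * P + η * a4 q (m / 8) := by
      have j1 := mul_le_mul_of_nonneg_left hTq hC.le
      have j2 : (m:ℝ)^2 * a4 q (4 * L * m) ≤ (m:ℝ)^2 *
          (C * (4 * Cc + C1 * A ^ 2 / B) * P + η * a4 q (m / 8)) := by
        refine hbound.trans ?_
        have j3 : (m:ℝ)^2 * (C * (4 * Cc + C1 * A ^ 2 / B) * P + η * a4 q (m / 8)) =
          C * ((m:ℝ)^2 * ((4 * Cc + C1 * A ^ 2 / B) * P)) + (m:ℝ)^2 * (η * a4 q (m / 8)) := by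
          ring
        rw [j3]
        linarith
      exact le_of_mul_le_mul_left j2 (by positivity)
    obtain ⟨R, hR⟩ : ∃ R : ℝ, R = (k:ℝ) ^ (-(5/4 : ℝ)) := ⟨_, rfl⟩
    have hR0 : 0 < R := by rw [hR]; positivity
    have hPR : P ≤ G * R := by
      rw [hP, hR, hG]
      exact pow_scale hmpos hkpos (by positivity) hk8r
    have h8 : a4 q (m / 8) ≤ A * ((192 * (L:ℝ)) ^ (5/4 : ℝ) * R) := by
      have j1 := (A4le0.mp hwq.2) (m / 8) (by omega)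
      refine j1.trans (mul_le_mul_of_nonneg_left ?_ hApos.le)
      rw [hR]
      refine pow_scale (by positivity) hkpos (by positivity) ?_
      have j2 : (m:ℝ) ≤ 8 * (((m / 8 : ℕ) : ℝ) + 1) := by
        have : m ≤ 8 * (m / 8 + 1) := by omega
        exact_mod_cast this
      have j3 : (0:ℝ) ≤ ((m / 8 : ℕ) : ℝ) := Nat.cast_nonneg _
      calc (k:ℝ) ≤ (8 * (L:ℝ)) * m := hk8r
        _ ≤ (8 * (L:ℝ)) * (8 * (((m / 8 : ℕ) : ℝ) + 1)) :=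
            mul_le_mul_of_nonneg_left j2 (by positivity)
        _ = (64 * L) * (((m / 8 : ℕ) : ℝ) + 1) := by ring
        _ ≤ (192 * L) * (((m / 8 : ℕ) : ℝ) + 1) := by
            apply mul_le_mul_of_nonneg_right _ (by linarith)
            linarith
    have hkN : 1 ≤ k := by exact_mod_cast hkpos
    have hkk1 : R ≤ 3 * ((k:ℝ) + 1) ^ (-(5/4 : ℝ)) := by
      rw [hR]; exact pow_succ_ge hkN
    have h4Lm : 4 * L * 1 ≤ 4 * L * m := Nat.mul_le_mul_left _ (by omega)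
    have hb3 : a4 q k ≤ a4 q (4 * L * m) := H12S.a4_anti hq0 hq1 (by omega) hm1
    have hb4 : η * a4 q (m / 8) ≤ A / 12 * R := by
      calc η * a4 q (m / 8) ≤ η * (A * ((192 * (L:ℝ)) ^ (5/4 : ℝ) * R)) :=
            mul_le_mul_of_nonneg_left h8 hη.le
        _ = (η * (192 * (L:ℝ)) ^ (5/4 : ℝ)) * (A * R) := by ring
        _ ≤ (1/12) * (A * R) := mul_le_mul_of_nonneg_right hηK (by positivity)
        _ = _ := by ring
    have hb5 : C * (4 * Cc + C1 * A ^ 2 / B) * P ≤ A / 6 * R := by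
      have j1 : C * (4 * Cc + C1 * A ^ 2 / B) * G ≤ A / 6 := by
        have j2 : C * (4 * Cc) * G ≤ A / 12 := by
          have : 48 * G * C * Cc ≤ A := by rw [hA]; linarith
          have e : C * (4 * Cc) * G = 48 * G * C * Cc / 12 := by ring
          rw [e]; linarith
        have j3 : C * (C1 * A ^ 2 / B) * G ≤ A / 12 := by
          have e : C * (C1 * A ^ 2 / B) * G = (12 * G * C * C1 * A) * A / 12 / B := by ring
          rw [e, div_le_iff₀ hBpos]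
          have : (12 * G * C * C1 * A) ≤ B := by rw [hB]; linarith
          nlinarith
        have j4 : C * (4 * Cc + C1 * A ^ 2 / B) * G = C * (4 * Cc) * G +
          C * (C1 * A ^ 2 / B) * G := by ring
        rw [j4]; linarith
      have j5 : 0 ≤ C * (4 * Cc + C1 * A ^ 2 / B) := by positivity
      calc C * (4 * Cc + C1 * A ^ 2 / B) * P ≤ C * (4 * Cc + C1 * A ^ 2 / B) * (G * R) :=
            mul_le_mul_of_nonneg_left hPR j5
        _ = (C * (4 * Cc + C1 * A ^ 2 / B) * G) * R := by ring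
        _ ≤ _ := mul_le_mul_of_nonneg_right j1 hR0.le
    have hpk : 0 < ((k:ℝ) + 1) ^ (-(5/4 : ℝ)) := by positivity
    have hAR : A / 4 * R ≤ A / 4 * (3 * ((k:ℝ) + 1) ^ (-(5/4 : ℝ))) :=
      mul_le_mul_of_nonneg_left hkk1 (by linarith)
    have hApk : 0 < A * ((k:ℝ) + 1) ^ (-(5/4 : ℝ)) := by positivity
    linarith

end Pool.Agent.W424.NC
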