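import Pool.Agent.W424.NC.NearB

/-!
Sharp near-critical estimates, part C: stability in the window `|q - 1/2| ≤ b n^(-3/4)`.
-/

set_option maxHeartbeats 1000000

namespace Pool.Agent.W424.NC

open H973N H974 H12S Finset

/-- Sharp stability of the box crossings and of the four-arm upper bound. -/
theorem stabU : ∃ κ C : ℝ, 0 < κ ∧ 1 ≤ C ∧ ∀ n : ℕ, 1 ≤ n → ∀ q : ℝ,
      |q - 1/2| ≤ (n:ℝ) ^ (-(3/4 : ℝ)) / C → Win q κ n ∧ A4le q C 0 n := by
  obtain ⟨κ1, hκ1, hwin⟩ := H973N.win_half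
  have hκ1' : κ1 ≤ 1/2 := (hwin 1).kle
  have hκ : 0 < κ1 / 2 := by linarith
  obtain ⟨A, B, hA, hB, hAcrit, hstep⟩ := step0 hκ
  obtain ⟨C2, hC2, hhd⟩ := hh_deriv0 (κ1 / 2) hκ (le_refl (0:ℝ)) (by norm_num)
  set C : ℝ := A + B + 4 * (C2 * A / κ1) + 4 with hC
  have hx : 0 < C2 * A / κ1 := by positivity
  have hCpos : 0 < C := by linarith
  have hCA : A ≤ C := by linarith
  have hCB : B ≤ C := by linarith
  refine ⟨κ1 / 2, C, hκ, by linarith, ?_⟩
  intro n hn q hq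
  have hnr : (1:ℝ) ≤ n := by exact_mod_cast hn
  have hn1 : (n:ℝ) ^ (-(3/4 : ℝ)) ≤ 1 := Real.rpow_le_one_of_one_le_of_nonpos hnr (by norm_num)
  have hn0 : 0 < (n:ℝ) ^ (-(3/4 : ℝ)) := by positivity
  set δ : ℝ := (n:ℝ) ^ (-(3/4 : ℝ)) / C with hδ
  have hδ0 : 0 < δ := by positivity
  have hδ4 : δ ≤ 1/4 := by
    rw [hδ, div_le_iff₀ hCpos]; linarith
  -- the family of constraints
  set g : Bool × (Fin (n+1) ⊕ Fin (n+1)) → ℝ → ℝ := fun i s =>
    match i.2 with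
    | Sum.inl k => a4 (qs i.1 s) k - A * (((k:ℕ):ℝ) + 1) ^ (-(5/4 : ℝ))
    | Sum.inr h => if (h:ℕ) = 0 then -1 else κ1 / 2 - hh (qs i.1 s) (16 * (h:ℕ)) (h:ℕ) with hg
  have hgcont : ∀ i, Continuous (g i) := by
    rintro ⟨τ, k | h⟩
    · simp only [hg]
      apply Continuous.sub _ continuous_const
      unfold a4
      exact ((cont_Pr _ _).comp (cont_qs τ)).add ((cont_Pr _ _).comp (cont_qs τ))
    · simp only [hg]
      split_ifs
      · exact continuous_const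
      · apply Continuous.sub continuous_const
        exact (cont_Pr _ _).comp (cont_qs τ)
  -- meaning of the constraints
  have hmean : ∀ s, 0 ≤ s → s ≤ δ → (∀ i, g i s ≤ 0) → ∀ τ : Bool,
      Win (qs τ s) (κ1 / 2) n ∧ A4le (qs τ s) A 0 n := by
    intro s hs hsδ hgs τ
    have hwin' : ∀ τ : Bool, ∀ h : ℕ, 1 ≤ h → h ≤ n → κ1 / 2 ≤ hh (qs τ s) (16 * h) h := by
      intro τ h h1 h2
      have := hgs (τ, Sum.inr ⟨h, by omega⟩)
      simp only [hg] at this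
      rw [if_neg (by omega)] at this
      linarith
    refine ⟨⟨hκ, by linarith, ?_, ?_, hwin' τ, ?_⟩, ?_⟩
    · have := abs_qs (τ := τ) hs
      have := (abs_le.mp this.le).1
      linarith
    · have := abs_qs (τ := τ) hs
      have := (abs_le.mp this.le).2
      linarith
    · intro h h1 h2
      rw [qs_flip]
      exact hwin' (!τ) h h1 h2
    · rw [A4le0]
      intro k hk
      have := hgs (τ, Sum.inl ⟨k, by omega⟩)
      simp only [hg] at this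
      linarith
  -- constraints hold strictly at `0`
  have hstrict : ∀ t, 0 ≤ t → t ≤ δ → (∀ s, 0 ≤ s → s ≤ t → ∀ τ : Bool,
      Win (qs τ s) (κ1 / 2) n ∧ A4le (qs τ s) A 0 n) → ∀ i, g i t < 0 := by
    intro t ht htδ hall
    have h7 : t * C ≤ (n:ℝ) ^ (-(3/4 : ℝ)) := by
      have : δ * C = (n:ℝ) ^ (-(3/4 : ℝ)) := by rw [hδ]; field_simp
      rw [← this]
      exact mul_le_mul_of_nonneg_right htδ hCpos.le
    rintro ⟨τ, k | h⟩
    · simp only [hg]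
      have hseg : ∀ t' ∈ Set.uIcc (1/2) (qs τ t), Win t' (κ1 / 2) n ∧ A4le t' A 0 n := by
        intro t' ht'
        obtain ⟨s', h1, h2, rfl⟩ := uIcc_qs ht ht'
        exact hall s' h1 h2 τ
      have h3 := hstep (qs τ t) n hn (by
        rw [abs_qs ht]
        have h4 : B * t ≤ C * t := mul_le_mul_of_nonneg_right hCB ht
        linarith) hseg k (by have := k.2; omega)
      linarith
    · simp only [hg]
      split_ifs with h0
      · norm_num
      · have h1 : 1 ≤ (h:ℕ) := by omega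
        have h2 : (h:ℕ) ≤ n := by have := h.2; omega
        have hlip := lip (f := fun q => hh q (16 * ((h:ℕ):ℤ)) ((h:ℕ):ℤ)) (a := 1/2) (b := qs τ t)
          (B := C2 * A * ((h:ℕ):ℝ) ^ ((3/4 : ℝ) + 0)) (by
            intro t' ht'
            obtain ⟨s', h3, h4, rfl⟩ := uIcc_qs ht ht'
            obtain ⟨hw, hA4⟩ := hall s' h3 h4 τ
            exact hhd (qs τ s') n hw A hA hA4 h h1 h2)
        rw [abs_qs ht, add_zero] at hlip
        have h3 := (hwin h).pri h h1 le_rfl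
        have h4 : C2 * A * ((h:ℕ):ℝ) ^ (3/4 : ℝ) * t ≤ κ1 / 4 := by
          have hhr : (0:ℝ) < ((h:ℕ):ℝ) := by exact_mod_cast h1
          have h5 : ((h:ℕ):ℝ) ^ (3/4 : ℝ) ≤ (n:ℝ) ^ (3/4 : ℝ) :=
            Real.rpow_le_rpow hhr.le (by exact_mod_cast h2) (by norm_num)
          have h6 : (n:ℝ) ^ (3/4 : ℝ) * (n:ℝ) ^ (-(3/4 : ℝ)) ≤ 1 := by
            rw [← Real.rpow_add (by linarith)]
            norm_num
          have h8 : 4 * (C2 * A / κ1) ≤ C := by linarith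
          have h9 : ((h:ℕ):ℝ) ^ (3/4 : ℝ) * (t * C) ≤ 1 := by
            calc _ ≤ (n:ℝ) ^ (3/4 : ℝ) * (n:ℝ) ^ (-(3/4 : ℝ)) :=
                  mul_le_mul h5 h7 (by positivity) (by positivity)
              _ ≤ 1 := h6
          have h10 : ((h:ℕ):ℝ) ^ (3/4 : ℝ) * t * (4 * (C2 * A / κ1)) ≤ 1 := by
            calc _ ≤ ((h:ℕ):ℝ) ^ (3/4 : ℝ) * t * C :=
                  mul_le_mul_of_nonneg_left h8 (by positivity)
              _ ≤ 1 := by linarith
          have h11 : C2 * A * ((h:ℕ):ℝ) ^ (3/4 : ℝ) * t =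
              κ1 / 4 * (((h:ℕ):ℝ) ^ (3/4 : ℝ) * t * (4 * (C2 * A / κ1))) := by
            field_simp
          rw [h11]
          have : 0 ≤ κ1 / 4 := by linarith
          nlinarith
        have h5 := (abs_le.mp hlip).1
        linarith
  have hconc : ∀ t, 0 ≤ t → t ≤ δ → ∀ i, g i t < 0 := by
    apply bootstrap g δ hgcont
    · apply hstrict 0 le_rfl hδ0.le
      intro s hs1 hs2 τ
      have hs0 : s = 0 := le_antisymm hs2 hs1
      subst hs0
      have hq0 : qs τ 0 = 1/2 := by cases τ <;> simp [qs]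
      rw [hq0]
      refine ⟨⟨hκ, by linarith, by norm_num, by norm_num, ?_, ?_⟩, ?_⟩
      · intro h h1 h2
        exact le_trans (by linarith) ((hwin n).pri h h1 h2)
      · intro h h1 h2
        exact le_trans (by linarith) ((hwin n).dua h h1 h2)
      · rw [A4le0]
        exact fun k _ => hAcrit k
    · intro t ht htδ hall
      apply hstrict t ht htδ
      intro s hs1 hs2 τ
      exact hmean s hs1 (hs2.trans htδ) (hall s hs1 hs2) τ
  -- conclusion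
  obtain ⟨τ, hτ⟩ : ∃ τ : Bool, q = qs τ |q - 1/2| := by
    rcases le_total (1/2) q with h | h
    · refine ⟨true, ?_⟩
      unfold qs
      rw [abs_of_nonneg (by linarith)]
      simp
    · refine ⟨false, ?_⟩
      unfold qs
      rw [abs_of_nonpos (by linarith)]
      simp only [Bool.false_eq_true, if_false]
      ring
  have hfin := hmean |q - 1/2| (abs_nonneg _) hq (fun i => (hconc _ (abs_nonneg _) hq i).le) τ
  rw [← hτ] at hfin
  refine ⟨hfin.1, ?_⟩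
  rw [A4le0]
  intro k hk
  refine ((A4le0.mp hfin.2) k hk).trans ?_
  exact mul_le_mul_of_nonneg_right hCA (by positivity)

/-- The sharp lower bound for the four-arm probability in the window. -/
theorem stabL : ∃ B c : ℝ, ∃ D : ℕ, 1 ≤ B ∧ 0 < c ∧ 1 ≤ D ∧ ∀ n : ℕ, 1 ≤ n → ∀ q : ℝ,
      |q - 1/2| ≤ (n:ℝ) ^ (-(3/4 : ℝ)) / B → ∀ k : ℕ, 1 ≤ k → D * k ≤ n →
        c * (k:ℝ) ^ (-(5/4 : ℝ)) ≤ a4 q k := by
  obtain ⟨κ, CA, hκ, hCA, hst⟩ := stabU
  obtain ⟨cc, Cc, hcc, hCc, hcrit⟩ := Pool.Agent.H988R6.a4_sharp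
  obtain ⟨L, M, C, η, hL, hM, hC, hη, hηK, hk⟩ := key0 κ hκ (cc / (4 * Cc)) (by positivity)
  obtain ⟨C1, hC1, hlip⟩ := TT_lip hκ L hL
  have hL0 : (0:ℝ) < L := by
    have : 0 < L := by omega
    exact_mod_cast this
  have hM0 : (0:ℝ) < M := by
    have : 0 < M := by omega
    exact_mod_cast this
  obtain ⟨G, hG⟩ : ∃ G : ℝ, G = (4 * (L:ℝ)) ^ (-(5/4 : ℝ)) := ⟨_, rfl⟩
  have hG0 : 0 < G := by rw [hG]; positivity
  -- `T(1/2) ≥ g0 m^(3/4)`
  obtain ⟨g0, hg0⟩ : ∃ g0 : ℝ, g0 = cc * G / (2 * C) := ⟨_, rfl⟩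
  have hg00 : 0 < g0 := by rw [hg0]; positivity
  obtain ⟨B, hB⟩ : ∃ B : ℝ, B = CA + 2 * C1 * CA ^ 2 / g0 := ⟨_, rfl⟩
  have hBp : 0 < 2 * C1 * CA ^ 2 / g0 := by positivity
  have hB1 : 1 ≤ B := by rw [hB]; linarith
  have hBpos : 0 < B := by linarith
  refine ⟨B, g0 / 2 * (2 * (M:ℝ)) ^ (-(5/4 : ℝ)), 8 * L * M, hB1, by positivity, ?_, ?_⟩
  · have : 0 < 8 * L * M := Nat.mul_pos (by omega) (by omega)
    omega
  intro n hn q hq k hk1 hkn
  have hnr : (1:ℝ) ≤ n := by exact_mod_cast hn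
  have hkr : (1:ℝ) ≤ k := by exact_mod_cast hk1
  have hn0 : 0 < (n:ℝ) ^ (-(3/4 : ℝ)) := by positivity
  have hseg : ∀ t ∈ Set.uIcc (1/2) q, Win t κ n ∧ A4le t CA 0 n := by
    intro t ht
    apply hst n hn t
    have i1 : |t - 1/2| ≤ |q - 1/2| := Set.abs_sub_left_of_mem_uIcc ht
    calc |t - 1/2| ≤ |q - 1/2| := i1
      _ ≤ (n:ℝ) ^ (-(3/4 : ℝ)) / B := hq
      _ ≤ (n:ℝ) ^ (-(3/4 : ℝ)) / CA :=
        div_le_div_of_nonneg_left hn0.le (by linarith) (by rw [hB]; linarith)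
  have hwq := (hseg q Set.right_mem_uIcc).1
  have hq0 : 0 ≤ q := by linarith [hwq.lo]
  have hq1 : q ≤ 1 := by linarith [hwq.hi]
  have hwh := (hseg (1/2) Set.left_mem_uIcc).1
  obtain ⟨m, hm⟩ : ∃ m : ℕ, m = 2 * M * k := ⟨_, rfl⟩
  have hMk : M * 1 ≤ M * k := Nat.mul_le_mul_left _ hk1
  have hm2M : 2 * M ≤ m := by rw [hm, Nat.mul_assoc]; omega
  have hMm : M ≤ m := by omega
  have hm512 : 512 ≤ m := by omega
  have h4 : 4 * L * m ≤ n := by
    calc 4 * L * m = 8 * L * M * k := by rw [hm]; ring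
      _ ≤ n := hkn
  have hmn : m ≤ n := by
    have : 1 * m ≤ 4 * L * m := Nat.mul_le_mul_right _ (by omega)
    omega
  have hkm : k ≤ m / 2 := by
    rw [Nat.le_div_iff_mul_le (by norm_num), hm]
    have : 1 * k ≤ M * k := Nat.mul_le_mul_right _ (by omega)
    nlinarith
  have hmr : (512:ℝ) ≤ m := by exact_mod_cast hm512
  have hmpos : (0:ℝ) < m := by linarith
  obtain ⟨P, hP⟩ : ∃ P : ℝ, P = (m:ℝ) ^ (-(5/4 : ℝ)) := ⟨_, rfl⟩
  have hP0 : 0 < P := by rw [hP]; positivity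
  obtain ⟨I, J, hIJ, hbound⟩ := hk (1/2) n hwh m hMm h4
  have hl := hlip q CA (1 / B) n hn hCA (by positivity) (by
      rw [div_mul_eq_mul_div, one_mul]; exact hq) hseg m (by omega) hmn I J hIJ
  have hup := TT_up hq0 hq1 (L := L) (m := m) (by omega) hL hIJ
  -- lower bound at `1/2`
  have hlow : cc * (G * P) ≤ a4 (1/2) (4 * L * m) := by
    have j1 := (hcrit (4 * L * m) (by
      have : 0 < 4 * L * m := by positivity
      omega)).1
    have j2 : ((4 * L * m : ℕ) : ℝ) ^ (-(5/4) : ℝ) = G * P := by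
      rw [hG, hP]
      push_cast
      rw [Real.mul_rpow (by positivity) hmpos.le]
    rw [j2] at j1
    exact j1
  have hm8 : η * a4 (1/2) (m / 8) ≤ cc * (G * P) / 2 := by
    have j1 := (hcrit (m / 8) (by omega)).2
    have j2 : ((m / 8 : ℕ) : ℝ) ^ (-(5/4 : ℝ)) ≤ (48:ℝ) ^ (5/4 : ℝ) * P := by
      rw [hP]
      refine pow_scale ?_ hmpos (by norm_num) ?_
      · have : 0 < m / 8 := by omega
        exact_mod_cast this
      · have : m ≤ 48 * (m / 8) := by omega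
        exact_mod_cast this
    have j3 : (48:ℝ) ^ (5/4 : ℝ) = (192 * (L:ℝ)) ^ (5/4 : ℝ) * G := by
      have e : (192 * (L:ℝ)) = 48 * (4 * L) := by ring
      rw [hG, e, Real.mul_rpow (by norm_num) (by positivity), mul_assoc,
        ← Real.rpow_add (by positivity)]
      norm_num
    have j4 : a4 (1/2) (m / 8) ≤ Cc * ((192 * (L:ℝ)) ^ (5/4 : ℝ) * G * P) := by
      rw [← j3]
      exact j1.trans (mul_le_mul_of_nonneg_left j2 hCc.le)
    calc η * a4 (1/2) (m / 8) ≤ η * (Cc * ((192 * (L:ℝ)) ^ (5/4 : ℝ) * G * P)) :=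
          mul_le_mul_of_nonneg_left j4 hη.le
      _ = (η * (192 * (L:ℝ)) ^ (5/4 : ℝ)) * (Cc * (G * P)) := by ring
      _ ≤ (cc / (4 * Cc)) * (Cc * (G * P)) := mul_le_mul_of_nonneg_right hηK (by positivity)
      _ = cc * (G * P) / 4 := by field_simp
      _ ≤ _ := by
          have : 0 < cc * (G * P) := by positivity
          linarith
  have hm2' : (m:ℝ) ^ (3/4 : ℝ) = (m:ℝ) ^ 2 * P := by rw [hP]; exact (m_sq hmpos).symm
  have hT : (m:ℝ) ^ 2 * (g0 * P) ≤ TT L m I J (1/2) := by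
    have j1 : (m:ℝ) ^ 2 * (cc * (G * P)) ≤ C * TT L m I J (1/2) +
        (m:ℝ) ^ 2 * (cc * (G * P) / 2) := by
      refine (mul_le_mul_of_nonneg_left hlow (by positivity)).trans (hbound.trans ?_)
      have := mul_le_mul_of_nonneg_left hm8 (show 0 ≤ (m:ℝ) ^ 2 by positivity)
      linarith
    have j2 : (m:ℝ) ^ 2 * (cc * (G * P)) / 2 ≤ C * TT L m I J (1/2) := by linarith
    have j3 : (m:ℝ) ^ 2 * (g0 * P) = ((m:ℝ) ^ 2 * (cc * (G * P)) / 2) / C := by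
      rw [hg0]; field_simp
    rw [j3, div_le_iff₀ hC]
    linarith
  have hTq : (m:ℝ) ^ 2 * (g0 / 2 * P) ≤ TT L m I J q := by
    have j1 := (abs_le.mp hl).1
    rw [hm2'] at j1
    have j2 : C1 * CA ^ 2 * (1 / B) ≤ g0 / 2 := by
      have j3 : 2 * C1 * CA ^ 2 / g0 ≤ B := by rw [hB]; linarith
      rw [div_le_iff₀ hg00] at j3
      rw [mul_one_div, div_le_iff₀ hBpos]
      linarith
    have j4 : C1 * CA ^ 2 * (1 / B) * ((m:ℝ) ^ 2 * P) ≤ g0 / 2 * ((m:ℝ) ^ 2 * P) :=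
      mul_le_mul_of_nonneg_right j2 (by positivity)
    have j5 : (m:ℝ) ^ 2 * (g0 / 2 * P) = (m:ℝ) ^ 2 * (g0 * P) - g0 / 2 * ((m:ℝ) ^ 2 * P) := by
      ring
    linarith
  have ha : g0 / 2 * P ≤ a4 q (m / 2) := by
    have := hTq.trans hup
    exact le_of_mul_le_mul_left this (by positivity)
  have hak : a4 q (m / 2) ≤ a4 q k := H12S.a4_anti hq0 hq1 hk1 hkm
  refine le_trans (le_of_eq ?_) (ha.trans hak)
  rw [hP, hm]
  push_cast
  rw [Real.mul_rpow (x := 2 * (M:ℝ)) (y := (k:ℝ)) (by positivity) (by positivity)]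
  ring

/-- Sharp near-critical stability. -/
theorem nearS : ∃ κ b c C : ℝ, 0 < κ ∧ 0 < b ∧ 0 < c ∧ 0 < C ∧ ∀ n : ℕ, 1 ≤ n → ∀ q : ℝ,
      |q - 1/2| ≤ b * (n:ℝ) ^ (-(3/4 : ℝ)) → Win q κ n ∧
        ∀ k : ℕ, 1 ≤ k → k ≤ n →
          c * (k:ℝ) ^ (-(5/4 : ℝ)) ≤ a4 q k ∧ a4 q k ≤ C * (k:ℝ) ^ (-(5/4 : ℝ)) := by
  obtain ⟨κ, C, hκ, hC, hst⟩ := stabU
  obtain ⟨B, c, D, hB, hc, hD, hlow⟩ := stabL
  have hD0 : (0:ℝ) < D := by exact_mod_cast hD
  have hCp : 0 < C := by linarith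
  have hBp : 0 < B := by linarith
  obtain ⟨b, hb⟩ : ∃ b : ℝ, b = min (1 / C) ((D:ℝ) ^ (-(3/4 : ℝ)) / B) := ⟨_, rfl⟩
  have hb0 : 0 < b := by rw [hb]; exact lt_min (by positivity) (by positivity)
  refine ⟨κ, b, c, C, hκ, hb0, hc, hCp, ?_⟩
  intro n hn q hq
  have hnr : (1:ℝ) ≤ n := by exact_mod_cast hn
  have hn0 : 0 < (n:ℝ) ^ (-(3/4 : ℝ)) := by positivity
  have hu := hst n hn q (by
    refine hq.trans ?_
    have : b ≤ 1 / C := by rw [hb]; exact min_le_left _ _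
    calc b * (n:ℝ) ^ (-(3/4 : ℝ)) ≤ 1 / C * (n:ℝ) ^ (-(3/4 : ℝ)) :=
          mul_le_mul_of_nonneg_right this hn0.le
      _ = _ := by ring)
  refine ⟨hu.1, fun k hk1 hkn => ⟨?_, ?_⟩⟩
  · refine hlow (D * n) (Nat.mul_pos hD hn) q ?_ k hk1 (Nat.mul_le_mul_left _ hkn)
    refine hq.trans ?_
    have : b ≤ (D:ℝ) ^ (-(3/4 : ℝ)) / B := by rw [hb]; exact min_le_right _ _
    calc b * (n:ℝ) ^ (-(3/4 : ℝ)) ≤ (D:ℝ) ^ (-(3/4 : ℝ)) / B * (n:ℝ) ^ (-(3/4 : ℝ)) :=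
          mul_le_mul_of_nonneg_right this hn0.le
      _ = _ := by
          push_cast
          rw [Real.mul_rpow hD0.le (by linarith)]
          ring
  · have hkpos : (0:ℝ) < k := by exact_mod_cast hk1
    refine ((A4le0.mp hu.2) k hkn).trans (mul_le_mul_of_nonneg_left ?_ hCp.le)
    exact Real.rpow_le_rpow_of_nonpos hkpos (by linarith) (by norm_num)

end Pool.Agent.W424.NC
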