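import Pool.Agent.W424.NC.NearC
import Pool.Agent.H974R5.Exps

/-!
Sharp stability of the one-arm probability.
-/

set_option maxHeartbeats 1000000

namespace Pool.Agent.W424.NC

open H31K H974 Finset

/-- the geometric sum -/
theorem stab_geom0 {ε : ℝ} (he : 0 ≤ ε) {n : ℕ} (hn : 1 ≤ n) :
    ∑ k ∈ (range n).filter (fun k => 9 * 2^k ≤ n), ((2:ℝ)^(1/4 + ε))^k ≤
      7 * (n:ℝ)^(1/4 + ε) := by
  set ρ : ℝ := (2:ℝ)^(1/4 + ε) with hρ
  have hρ1 : 1.18 ≤ ρ := by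
    have h1 : (1.18:ℝ) ≤ (2:ℝ)^(1/4 : ℝ) := by
      have h2 : ((1.18:ℝ)^(4:ℕ))^(1/4 : ℝ) ≤ (2:ℝ)^(1/4 : ℝ) :=
        Real.rpow_le_rpow (by norm_num) (by norm_num) (by norm_num)
      rw [← Real.rpow_natCast, ← Real.rpow_mul (by norm_num)] at h2
      norm_num at h2 ⊢
      exact h2
    refine h1.trans ?_
    rw [hρ]
    exact Real.rpow_le_rpow_of_exponent_le (by norm_num) (by linarith)
  have hsub : (range n).filter (fun k => 9 * 2^k ≤ n) ⊆ range (Nat.log 2 n + 1) := by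
    intro k hk
    rw [mem_filter] at hk
    rw [mem_range, Nat.lt_succ_iff]
    apply Nat.le_log_of_pow_le (by norm_num)
    omega
  have h1 : ∑ k ∈ (range n).filter (fun k => 9 * 2^k ≤ n), ρ^k ≤
      ∑ k ∈ range (Nat.log 2 n + 1), ρ^k :=
    sum_le_sum_of_subset_of_nonneg hsub (fun k _ _ => by positivity)
  refine h1.trans ?_
  rw [geom_sum_eq (by linarith), div_le_iff₀ (by linarith)]
  have h2 : ρ^(Nat.log 2 n) ≤ (n:ℝ)^(1/4 + ε) := by
    have h3 : ρ^(Nat.log 2 n) = ((2:ℝ)^(Nat.log 2 n))^(1/4 + ε) := by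
      rw [hρ, ← Real.rpow_natCast, ← Real.rpow_natCast, ← Real.rpow_mul (by norm_num),
        ← Real.rpow_mul (by norm_num), mul_comm]
    rw [h3]
    apply Real.rpow_le_rpow (by positivity) _ (by linarith)
    exact_mod_cast Nat.pow_log_le_self 2 (by omega)
  have h4 : 0 ≤ (n:ℝ)^(1/4 + ε) := by positivity
  rw [pow_succ]
  have h5 : ρ^(Nat.log 2 n) * ρ ≤ (n:ℝ)^(1/4 + ε) * ρ := mul_le_mul_of_nonneg_right h2 (by linarith)
  nlinarith

/-- the derivative is at most `Λ` times the one-arm probability -/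
theorem stab_dArm0 {κ B ε : ℝ} (hκ : 0 < κ) (hB : 0 < B) (he : 0 ≤ ε) (he1 : ε ≤ 1/4) :
    ∃ L : ℝ, 0 < L ∧ ∀ (n : ℕ) (q : ℝ), 1 ≤ n → H12S.Win q κ n →
      (∀ m : ℕ, 1 ≤ m → m ≤ n → H12S.a4 q m ≤ B * (m:ℝ)^(-(5/4) + ε)) →
      dArm q n ≤ L * (n:ℝ)^(3/4 + ε) * arm q n := by
  obtain ⟨C, hC, hd⟩ := dArm_le
  refine ⟨C / κ^7 * (1 + 7 * B) + 133128, by positivity, ?_⟩
  intro n q hn hW h4
  have hq0 : 0 ≤ q := by linarith [hW.lo]
  have hq1 : q ≤ 1 := by linarith [hW.hi]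
  have harm := arm_nonneg hq0 hq1 n
  have hn1 : (1:ℝ) ≤ n := by exact_mod_cast hn
  have hn0 : (0:ℝ) < n := by linarith
  have hpow1 : 1 ≤ (n:ℝ)^(3/4 + ε) := Real.one_le_rpow hn1 (by linarith)
  rcases lt_or_ge n 64 with hn64 | hn64
  · -- small n
    have h1 : dArm q n ≤ ∑ _e ∈ boxE n, 4 * arm q n := by
      unfold dArm
      apply sum_le_sum
      intro e he
      have h2 := piv_le (P := fun _ => q) (okq hq0 hq1) he
      have h3 : armP (fun _ => q) n = arm q n := rfl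
      rw [h3] at h2
      have h5 : 0 ≤ Pr (fun _ => q) ((boxE n).erase e) (PivA n e) := Pr_nonneg (okq hq0 hq1) _ _
      have h6 := hW.lo
      nlinarith
    rw [sum_const, nsmul_eq_mul] at h1
    have hcard : ((boxE n).card : ℝ) ≤ 33282 := by
      have hM : (2 * n + 1) * ((2 * n + 1) * 2) ≤ 33282 := by
        have h0 : 2 * n + 1 ≤ 129 := by omega
        calc (2 * n + 1) * ((2 * n + 1) * 2) ≤ 129 * (129 * 2) :=
              Nat.mul_le_mul h0 (Nat.mul_le_mul_right 2 h0)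
          _ = 33282 := by norm_num
      have h2 := card_boxE_le hM
      push_cast at h2
      exact h2
    have h7 : ((boxE n).card : ℝ) * (4 * arm q n) ≤ 33282 * (4 * arm q n) :=
      mul_le_mul_of_nonneg_right hcard (by linarith)
    have h8 : 33282 * (4 * arm q n) ≤ 133128 * (n:ℝ)^(3/4 + ε) * arm q n := by nlinarith
    have h9 : 0 ≤ C / κ^7 * (1 + 7 * B) * (n:ℝ)^(3/4 + ε) * arm q n := by positivity
    nlinarith
  · have h1 := hd q κ n hn64 hW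
    have hterm : ∀ k ∈ (range n).filter (fun k => 9 * 2^k ≤ n),
        Real.sqrt (n / (2:ℝ)^k) * ((4:ℝ)^k * H12S.a4 q (3 * 2^k)) ≤
          B * Real.sqrt n * ((2:ℝ)^(1/4 + ε))^k := by
      intro k hk
      rw [mem_filter] at hk
      have hk2 := hk.2
      have h2k : 0 < 2^k := by positivity
      have h5 := h4 (3 * 2^k) (by omega) (by omega)
      have hx : (0:ℝ) < (2:ℝ)^k := by positivity
      have h6 : (((3 * 2^k : ℕ) : ℝ))^(-(5/4) + ε) ≤ ((2:ℝ)^k)^(-(5/4) + ε) := by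
        push_cast
        apply Real.rpow_le_rpow_of_nonpos hx _ (by linarith)
        linarith
      have h7 : Real.sqrt (n / (2:ℝ)^k) = Real.sqrt n * ((2:ℝ)^k)^(-(1/2) : ℝ) := by
        rw [Real.sqrt_div hn0.le, Real.rpow_neg hx.le, ← Real.sqrt_eq_rpow, div_eq_mul_inv]
      have h8 : (4:ℝ)^k = ((2:ℝ)^k)^(2:ℝ) := by
        rw [Real.rpow_two, ← pow_mul, mul_comm, pow_mul]; norm_num
      have h9 : ((2:ℝ)^(1/4 + ε))^k = ((2:ℝ)^k)^(1/4 + ε) := by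
        rw [← Real.rpow_natCast, ← Real.rpow_natCast, ← Real.rpow_mul (by norm_num),
          ← Real.rpow_mul (by norm_num), mul_comm]
      rw [h7, h8, h9]
      calc Real.sqrt n * ((2:ℝ)^k)^(-(1/2) : ℝ) * (((2:ℝ)^k)^(2:ℝ) * H12S.a4 q (3 * 2^k))
          ≤ Real.sqrt n * ((2:ℝ)^k)^(-(1/2) : ℝ) * (((2:ℝ)^k)^(2:ℝ) *
            (B * ((2:ℝ)^k)^(-(5/4) + ε))) := by
            apply mul_le_mul_of_nonneg_left _ (by positivity)
            apply mul_le_mul_of_nonneg_left _ (by positivity)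
            exact h5.trans (mul_le_mul_of_nonneg_left h6 hB.le)
        _ = B * Real.sqrt n * (((2:ℝ)^k)^(-(1/2) : ℝ) * ((2:ℝ)^k)^(2:ℝ) *
            ((2:ℝ)^k)^(-(5/4) + ε)) := by ring
        _ = B * Real.sqrt n * ((2:ℝ)^k)^(1/4 + ε) := by
            rw [← Real.rpow_add hx, ← Real.rpow_add hx]
            congr 2
            ring
    have hsum : ∑ k ∈ (range n).filter (fun k => 9 * 2^k ≤ n),
        Real.sqrt (n / (2:ℝ)^k) * ((4:ℝ)^k * H12S.a4 q (3 * 2^k)) ≤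
          7 * B * (n:ℝ)^(3/4 + ε) := by
      refine (sum_le_sum hterm).trans ?_
      rw [← mul_sum]
      have h5 := stab_geom0 he hn
      calc B * Real.sqrt n * ∑ k ∈ (range n).filter (fun k => 9 * 2^k ≤ n), ((2:ℝ)^(1/4 + ε))^k
          ≤ B * Real.sqrt n * (7 * (n:ℝ)^(1/4 + ε)) :=
            mul_le_mul_of_nonneg_left h5 (by positivity)
        _ = 7 * B * ((n:ℝ)^(1/2 : ℝ) * (n:ℝ)^(1/4 + ε)) := by rw [Real.sqrt_eq_rpow]; ring
        _ = 7 * B * (n:ℝ)^(3/4 + ε) := by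
            rw [← Real.rpow_add hn0]
            congr 2
            ring
    have hsq : Real.sqrt n ≤ (n:ℝ)^(3/4 + ε) := by
      rw [Real.sqrt_eq_rpow]
      exact Real.rpow_le_rpow_of_exponent_le hn1 (by linarith)
    have hc : 0 ≤ C / κ^7 * arm q n := by positivity
    calc dArm q n ≤ C / κ^7 * arm q n * (Real.sqrt n +
        ∑ k ∈ (range n).filter (fun k => 9 * 2^k ≤ n),
          Real.sqrt (n / (2:ℝ)^k) * ((4:ℝ)^k * H12S.a4 q (3 * 2^k))) := h1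
      _ ≤ C / κ^7 * arm q n * ((n:ℝ)^(3/4 + ε) + 7 * B * (n:ℝ)^(3/4 + ε)) :=
          mul_le_mul_of_nonneg_left (add_le_add hsq hsum) hc
      _ = C / κ^7 * (1 + 7 * B) * (n:ℝ)^(3/4 + ε) * arm q n := by ring
      _ ≤ (C / κ^7 * (1 + 7 * B) + 133128) * (n:ℝ)^(3/4 + ε) * arm q n := by
          apply mul_le_mul_of_nonneg_right _ harm
          apply mul_le_mul_of_nonneg_right _ (by linarith)
          linarith

/-- K6. -/
theorem stabK0 {κ B ε : ℝ} (hκ : 0 < κ) (hB : 0 < B) (he : 0 ≤ ε) (he1 : ε ≤ 1/4) :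
    ∃ c : ℝ, 0 < c ∧ ∀ (n : ℕ) (δ : ℝ), 1 ≤ n → 0 ≤ δ → δ * (n:ℝ)^(3/4 + ε) ≤ c →
      (∀ q : ℝ, |q - 1/2| ≤ δ → H12S.Win q κ n ∧
        ∀ m : ℕ, 1 ≤ m → m ≤ n → H12S.a4 q m ≤ B * (m:ℝ)^(-(5/4) + ε)) →
      ∀ q : ℝ, |q - 1/2| ≤ δ → arm q n ≤ 3 * arm (1/2) n ∧ arm (1/2) n ≤ 3 * arm q n := by
  obtain ⟨L, hL, hd⟩ := stab_dArm0 hκ hB he he1
  refine ⟨1 / L, by positivity, ?_⟩
  intro n δ hn hδ hδc hwin q hq
  set Λ : ℝ := L * (n:ℝ)^(3/4 + ε) with hΛ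
  have hΛ0 : 0 ≤ Λ := by positivity
  have hδΛ : Λ * δ ≤ 1 := by
    have h1 := mul_le_mul_of_nonneg_left hδc hL.le
    rw [mul_one_div, div_self hL.ne'] at h1
    rw [hΛ]
    linarith
  obtain ⟨hW, _⟩ := hwin q hq
  have hq0 : 0 ≤ q := by linarith [hW.lo]
  have hq1 : q ≤ 1 := by linarith [hW.hi]
  have harm := arm_nonneg hq0 hq1 n
  have harm2 := arm_nonneg (q := 1/2) (by norm_num) (by norm_num) n
  have hexp : ∀ t : ℝ, t ≤ 1 → Real.exp t ≤ 3 := by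
    intro t ht
    have h1 := Real.exp_le_exp.mpr ht
    have h2 := Real.exp_one_lt_d9
    linarith
  have hab := abs_le.mp hq
  rcases le_total (1/2) q with h | h
  · constructor
    · have h1 := stab_gron (n := n) (Λ := Λ) h (fun x h1 h2 => by
        obtain ⟨hWx, h4x⟩ := hwin x (by rw [abs_le]; constructor <;> linarith)
        exact hd n x hn hWx h4x)
      refine h1.trans (mul_le_mul_of_nonneg_right (hexp _ ?_) harm2)
      have h3 : Λ * (q - 1/2) ≤ Λ * δ := mul_le_mul_of_nonneg_left hab.2 hΛ0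
      linarith
    · have h1 := arm_mono_param (by norm_num) h hq1 n
      linarith
  · constructor
    · have h1 := arm_mono_param hq0 h (by norm_num) n
      linarith
    · have h1 := stab_gron (n := n) (Λ := Λ) h (fun x h1 h2 => by
        obtain ⟨hWx, h4x⟩ := hwin x (by rw [abs_le]; constructor <;> linarith)
        exact hd n x hn hWx h4x)
      refine h1.trans (mul_le_mul_of_nonneg_right (hexp _ ?_) harm)
      have h3 : Λ * (1/2 - q) ≤ Λ * δ := mul_le_mul_of_nonneg_left (by linarith) hΛ0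
      linarith


/-- Sharp stability of the one-arm probability and of the crossing probabilities. -/
theorem armS : ∃ κ b : ℝ, 0 < κ ∧ 0 < b ∧ ∀ n : ℕ, 1 ≤ n → ∀ q : ℝ,
    |q - 1/2| ≤ b * (n:ℝ)^(-(3/4 : ℝ)) →
      H12S.Win q κ n ∧ arm q n ≤ 3 * arm (1/2) n ∧ arm (1/2) n ≤ 3 * arm q n := by
  obtain ⟨κ0, b, c, C, hκ0, hb, hc, hC, hnear⟩ := nearS
  obtain ⟨c2, hc2, hst⟩ := stabK0 (ε := 0) hκ0 hC le_rfl (by norm_num)
  refine ⟨κ0, min b c2, hκ0, lt_min hb hc2, ?_⟩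
  intro n hn q hq
  have hn1 : (1:ℝ) ≤ n := by exact_mod_cast hn
  have hn0 : (0:ℝ) < n := by linarith
  have hk1 : min b c2 ≤ b := min_le_left _ _
  have hk2 : min b c2 ≤ c2 := min_le_right _ _
  have hp0 : 0 < (n:ℝ)^(-(3/4 : ℝ)) := by positivity
  have hwin : ∀ q' : ℝ, |q' - 1/2| ≤ min b c2 * (n:ℝ)^(-(3/4 : ℝ)) → H12S.Win q' κ0 n ∧
        ∀ m : ℕ, 1 ≤ m → m ≤ n → H12S.a4 q' m ≤ C * (m:ℝ)^(-(5/4) + (0:ℝ)) := by
    intro q' hq'
    have h := hnear n hn q' (hq'.trans (mul_le_mul_of_nonneg_right hk1 hp0.le))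
    refine ⟨h.1, fun m h1 h2 => ?_⟩
    rw [add_zero]
    exact (h.2 m h1 h2).2
  refine ⟨(hwin q hq).1, ?_⟩
  refine hst n (min b c2 * (n:ℝ)^(-(3/4 : ℝ))) hn (by positivity) ?_ hwin q hq
  rw [mul_assoc, ← Real.rpow_add hn0]
  norm_num

/-- The one-arm exponent at the critical point. -/
theorem arm_crit : ∃ c C : ℝ, 0 < c ∧ 0 < C ∧ ∀ n : ℕ, 1 ≤ n →
    c * (n:ℝ)^(-(5/48) : ℝ) ≤ arm (1/2) n ∧ arm (1/2) n ≤ C * (n:ℝ)^(-(5/48) : ℝ) :=
  Pool.Agent.H160R2.SA.arSharp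

end Pool.Agent.W424.NC
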