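import Pool.Agent.W424.NC.Stab
import Pool.Agent.W424.NC.FarB

/-!
The percolation probability near the critical point, up to constants.
-/

set_option maxHeartbeats 1000000

namespace Pool.Agent.W424.NC

open H31K H974 Finset

theorem theta_upper : ∃ C : ℝ, 0 < C ∧ ∀ p : unitInterval,
    (1/2 : ℝ) < p → theta p ≤ C * ((p:ℝ) - 1/2)^(5/36 : ℝ) := by
  obtain ⟨κ, b, hκ, hb, hst⟩ := armS
  obtain ⟨cc, Cc, hcc, hCc, harm⟩ := arm_crit
  refine ⟨3 * Cc * (2:ℝ)^(5/48 : ℝ) * b^(-(5/36 : ℝ)) + b^(-(5/36 : ℝ)), by positivity, ?_⟩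
  intro p hp
  obtain ⟨s, hs⟩ : ∃ s : ℝ, s = (p:ℝ) - 1/2 := ⟨_, rfl⟩
  rw [← hs]
  have hs0 : 0 < s := by rw [hs]; linarith
  have hse : 0 < s^(5/36 : ℝ) := Real.rpow_pos_of_pos hs0 _
  rcases lt_or_ge b s with hks | hks
  · have h3 : 1 ≤ b^(-(5/36 : ℝ)) * s^(5/36 : ℝ) := by
      rw [Real.rpow_neg hb.le, ← div_eq_inv_mul, le_div_iff₀ (Real.rpow_pos_of_pos hb _), one_mul]
      exact Real.rpow_le_rpow hb.le hks.le (by norm_num)
    calc theta p ≤ 1 := theta_le_one p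
      _ ≤ b^(-(5/36 : ℝ)) * s^(5/36 : ℝ) := h3
      _ ≤ _ := by
          apply mul_le_mul_of_nonneg_right _ hse.le
          have : 0 < 3 * Cc * (2:ℝ)^(5/48 : ℝ) * b^(-(5/36 : ℝ)) := by positivity
          linarith
  · obtain ⟨x, hx⟩ : ∃ x : ℝ, x = (b/s)^(4/3 : ℝ) := ⟨_, rfl⟩
    have hbs : 1 ≤ b/s := by rw [le_div_iff₀ hs0, one_mul]; exact hks
    have hbs0 : 0 < b/s := by positivity
    have hx1 : 1 ≤ x := by rw [hx]; exact Real.one_le_rpow hbs (by norm_num)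
    have hx34 : x^(-(3/4 : ℝ)) = s/b := by
      rw [hx, ← Real.rpow_mul hbs0.le]
      norm_num
      rw [Real.rpow_neg_one, inv_div]
    obtain ⟨n, hn⟩ : ∃ n : ℕ, n = ⌊x⌋₊ := ⟨_, rfl⟩
    have hn1 : 1 ≤ n := by rw [hn]; exact Nat.le_floor (by exact_mod_cast hx1)
    have hn1' : (1:ℝ) ≤ n := by exact_mod_cast hn1
    have hnx : (n:ℝ) ≤ x := by rw [hn]; exact Nat.floor_le (by linarith)
    have hxn : x ≤ 2 * n := by
      have h3 : x < n + 1 := by rw [hn]; exact Nat.lt_floor_add_one x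
      linarith
    have hwin : |(p:ℝ) - 1/2| ≤ b * (n:ℝ)^(-(3/4 : ℝ)) := by
      rw [← hs, abs_of_pos hs0]
      have h4 : x^(-(3/4 : ℝ)) ≤ (n:ℝ)^(-(3/4 : ℝ)) :=
        Real.rpow_le_rpow_of_nonpos (by linarith) hnx (by norm_num)
      rw [hx34, div_le_iff₀ hb] at h4
      linarith
    obtain ⟨_, h5, _⟩ := hst n hn1 p hwin
    have h6 := (harm n hn1).2
    have h7 : (n:ℝ)^(-(5/48) : ℝ) ≤ (2:ℝ)^(5/48 : ℝ) * b^(-(5/36 : ℝ)) * s^(5/36 : ℝ) := by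
      calc (n:ℝ)^(-(5/48) : ℝ) ≤ (x/2)^(-(5/48) : ℝ) :=
            Real.rpow_le_rpow_of_nonpos (by positivity) (by linarith) (by norm_num)
        _ = (2:ℝ)^(5/48 : ℝ) * (b/s)^(-(5/36 : ℝ)) := by
            rw [Real.div_rpow (by linarith) (by norm_num), hx, ← Real.rpow_mul hbs0.le,
              Real.rpow_neg (by norm_num : (0:ℝ) ≤ 2), div_inv_eq_mul, mul_comm]
            norm_num
        _ = _ := by
            rw [Real.div_rpow hb.le hs0.le, Real.rpow_neg hs0.le, div_inv_eq_mul, mul_assoc]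
    calc theta p ≤ arm p n := theta_le_arm p n
      _ ≤ 3 * arm (1/2) n := h5
      _ ≤ 3 * (Cc * (n:ℝ)^(-(5/48) : ℝ)) := by linarith
      _ ≤ 3 * (Cc * ((2:ℝ)^(5/48 : ℝ) * b^(-(5/36 : ℝ)) * s^(5/36 : ℝ))) := by
          have := mul_le_mul_of_nonneg_left h7 hCc.le
          linarith
      _ = (3 * Cc * (2:ℝ)^(5/48 : ℝ) * b^(-(5/36 : ℝ))) * s^(5/36 : ℝ) := by ring
      _ ≤ _ := by
          apply mul_le_mul_of_nonneg_right _ hse.le
          have : 0 < b^(-(5/36 : ℝ)) := by positivity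
          linarith

theorem theta_lower : ∃ c : ℝ, 0 < c ∧ ∀ p : unitInterval,
    (1/2 : ℝ) < p → c * ((p:ℝ) - 1/2)^(5/36 : ℝ) ≤ theta p := by
  obtain ⟨E, hE, hfar⟩ := farS
  obtain ⟨cc, Cc, hcc, hCc, harm⟩ := arm_crit
  refine ⟨1/2 * (cc * (2 * (E + 3))^(-(5/48) : ℝ)), by positivity, ?_⟩
  intro p hp
  obtain ⟨s, hs⟩ : ∃ s : ℝ, s = (p:ℝ) - 1/2 := ⟨_, rfl⟩
  rw [← hs]
  have hs0 : 0 < s := by rw [hs]; linarith
  have hs1 : s ≤ 1/2 := by have := p.2.2; rw [hs]; linarith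
  obtain ⟨x, hx⟩ : ∃ x : ℝ, x = s^(-(4/3 : ℝ)) := ⟨_, rfl⟩
  have hx1 : 1 ≤ x := by
    rw [hx]
    exact Real.one_le_rpow_of_pos_of_le_one_of_nonpos hs0 (by linarith) (by norm_num)
  obtain ⟨N, hN⟩ : ∃ N : ℕ, N = ⌈E * x⌉₊ + 2 := ⟨_, rfl⟩
  have hNx : E * x ≤ N := by
    have := Nat.le_ceil (E * x)
    rw [hN]; push_cast
    linarith
  have hNle : (N:ℝ) ≤ (E + 3) * x := by
    have := Nat.ceil_lt_add_one (a := E * x) (by positivity)
    rw [hN]; push_cast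
    linarith
  have hfar' : eps p N ≤ 1/100 := by
    apply hfar p hp p.2.2 N
    rw [← hs, ← hx]
    exact hNx
  have h5 : 1/2 * arm p (2 * N) ≤ theta p :=
    le_theta p (fun m => arm_chain p.2.1 p.2.2 (by omega) hfar' m)
  have h6 : arm (1/2) (2 * N) ≤ arm p (2 * N) :=
    arm_mono_param (by norm_num) hp.le p.2.2 _
  have h7 := (harm (2 * N) (by omega)).1
  have h9 : (2 * (E + 3))^(-(5/48) : ℝ) * s^(5/36 : ℝ) ≤ ((2 * N : ℕ) : ℝ)^(-(5/48) : ℝ) := by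
    have h11 : ((2 * N : ℕ) : ℝ) ≤ (2 * (E + 3)) * x := by push_cast; linarith
    calc (2 * (E + 3))^(-(5/48) : ℝ) * s^(5/36 : ℝ)
        = (2 * (E + 3))^(-(5/48) : ℝ) * x^(-(5/48) : ℝ) := by
          rw [hx, ← Real.rpow_mul hs0.le]
          norm_num
      _ = ((2 * (E + 3)) * x)^(-(5/48) : ℝ) :=
          (Real.mul_rpow (by positivity) (by linarith)).symm
      _ ≤ ((2 * N : ℕ) : ℝ)^(-(5/48) : ℝ) :=
          Real.rpow_le_rpow_of_nonpos (by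
            have : 0 < 2 * N := by omega
            exact_mod_cast this) h11 (by norm_num)
  calc 1/2 * (cc * (2 * (E + 3))^(-(5/48) : ℝ)) * s^(5/36 : ℝ)
      = 1/2 * (cc * ((2 * (E + 3))^(-(5/48) : ℝ) * s^(5/36 : ℝ))) := by ring
    _ ≤ 1/2 * (cc * ((2 * N : ℕ) : ℝ)^(-(5/48) : ℝ)) := by
        have := mul_le_mul_of_nonneg_left h9 hcc.le
        linarith
    _ ≤ 1/2 * arm p (2 * N) := by linarith
    _ ≤ theta p := h5

end Pool.Agent.W424.NC
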