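import Pool.Agent.W424.NC.ArmLow
import Pool.Agent.W424.NC.TwoUp

/-!
Lower bound for the two-point function below the critical point, up to constants.
-/

set_option maxHeartbeats 1000000

namespace Pool.Agent.W424.NC

open H31K H974 Finset MeasureTheory

theorem tau_ge (p : unitInterval) (S : Finset Edg) (x : Vtx) :
    Pr (fun _ => (p:ℝ)) S (TP x) ≤ tau p x := by
  rw [← law_event p S (TP x)]
  unfold tau
  refine measureReal_mono ?_
  intro ω hω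
  have h1 : Reach (↑(FF S ω) : Set Edg) (0, 0) x := hω
  exact (open_reach ω _ _).mpr (h1.mono (by rw [FF_coe]; exact Set.inter_subset_left))

/-- An arm and a circuit catch every path from the inner box to the boundary. -/
theorem hit0 {F : Finset Edg} {r : ℕ} (hr : 1 ≤ r) (hA : Arm (2 * r) F)
    (hC : Circ r ((2 * r : ℕ) : ℤ) F) {u v : Vtx} (hu : inR (-r) r (-r) r u)
    (hv : v.1 ≤ -((2 * r : ℕ) : ℤ) ∨ ((2 * r : ℕ) : ℤ) ≤ v.1 ∨ v.2 ≤ -((2 * r : ℕ) : ℤ) ∨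
      ((2 * r : ℕ) : ℤ) ≤ v.2)
    (h : Reach (↑F : Set Edg) u v) : Reach (↑F : Set Edg) (0, 0) u := by
  obtain ⟨z, hz⟩ := circ_meet (by positivity) (by push_cast; omega) hC
  obtain ⟨w0, hw0, hrw⟩ := hA
  have m1 := hz (0, 0) w0 (by unfold inR; simp) hw0.2 hrw
  obtain ⟨w, k1, k2, k3⟩ := first_exit (a := -((2 * r : ℕ) : ℤ)) (b := ((2 * r : ℕ) : ℤ))
    (c := -((2 * r : ℕ) : ℤ)) (d := ((2 * r : ℕ) : ℤ))
    (by unfold inR at hu ⊢; push_cast; omega) h hv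
  have m2 := hz u w hu k2 k3
  exact (m1.mono Set.inter_subset_left).trans (m2.mono Set.inter_subset_left).symm

theorem hitx {F : Finset Edg} {r : ℕ} (hr : 1 ≤ r) {x1 x2 : ℤ}
    (hA : Arm (2 * r) ((trl (-x1) (-x2)).mp F))
    (hC : Circ r ((2 * r : ℕ) : ℤ) ((trl (-x1) (-x2)).mp F)) {u1 u2 v1 v2 : ℤ}
    (hu : inR (x1 - r) (x1 + r) (x2 - r) (x2 + r) (u1, u2))
    (hv : v1 ≤ x1 - ((2 * r : ℕ) : ℤ) ∨ x1 + ((2 * r : ℕ) : ℤ) ≤ v1 ∨
      v2 ≤ x2 - ((2 * r : ℕ) : ℤ) ∨ x2 + ((2 * r : ℕ) : ℤ) ≤ v2)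
    (h : Reach (↑F : Set Edg) (u1, u2) (v1, v2)) :
    Reach (↑F : Set Edg) (x1, x2) (u1, u2) := by
  have h1 := (trl (-x1) (-x2)).reach h
  rw [← LSym.coe_mp, trl_ψ, trl_ψ] at h1
  have h2 := hit0 hr hA hC (u := (u1 + -x1, u2 + -x2)) (v := (v1 + -x1, v2 + -x2))
    (by unfold inR at hu ⊢; simp only at hu ⊢; omega) (by simp only; omega) h1
  have h3 := (trl (- -x1) (- -x2)).reach h2
  rw [← LSym.coe_mp, trl_trl, trl_ψ, trl_ψ] at h3
  simpa using h3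

/-- The gluing construction. -/
theorem tp_of_L {F : Finset Edg} {r : ℕ} (hr : 1 ≤ r) {x1 x2 a b c d : ℤ}
    (ha : a ≤ -((2 * r : ℕ) : ℤ)) (ha' : a ≤ x1 - r) (hb : ((2 * r : ℕ) : ℤ) ≤ b)
    (hb' : x1 + r ≤ b) (hc : c ≤ -(r:ℤ)) (hc' : c ≤ x2 - ((2 * r : ℕ) : ℤ)) (hd : (r:ℤ) ≤ d)
    (hd' : x2 + ((2 * r : ℕ) : ℤ) ≤ d)
    (hA0 : Arm (2 * r) F) (hC0 : Circ r ((2 * r : ℕ) : ℤ) F)
    (hAx : Arm (2 * r) ((trl (-x1) (-x2)).mp F))
    (hCx : Circ r ((2 * r : ℕ) : ℤ) ((trl (-x1) (-x2)).mp F))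
    (hH : LRc a b (-r) r F) (hV : TBc (x1 - r) (x1 + r) c d F) : TP (x1, x2) F := by
  obtain ⟨y, y', hy, hy', hp⟩ := hH
  obtain ⟨w, w', hw, hw', hq⟩ := hV
  push_cast at ha hb hc' hd'
  have hr' : (1:ℤ) ≤ r := by exact_mod_cast hr
  -- the horizontal path meets the column through the origin
  obtain ⟨y1, y2, k1, k2, k3, k4⟩ := sub_LR (a := 0) (b := b) (c := -(r:ℤ)) (d := r) (by omega)
    (by rintro x y ⟨-, h⟩ _ _; simp only [mem_coe, mem_LRE_true] at h; omega)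
    (by rintro x y ⟨-, h⟩ _ _; simp only [mem_coe, mem_LRE_false] at h; omega) hp
    (by simp only; omega) le_rfl
  have q1 : Reach (↑F : Set Edg) (0, 0) (0, y1) :=
    hit0 hr hA0 hC0 (u := (0, y1)) (v := (b, y2)) (by unfold inR; simp only; omega)
      (by simp only; push_cast; omega)
      (k3.mono (by rintro e ⟨⟨h7, -⟩, -⟩; exact h7))
  have q2 : Reach (↑F : Set Edg) (a, y) (0, y1) := k4.mono Set.inter_subset_left
  -- the vertical path meets the row through `x`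
  obtain ⟨z1, z2, l1, l2, l3, l4⟩ := sub_TB (a := x1 - r) (b := x1 + r) (c := x2) (d := d)
    (by omega)
    (by rintro x y ⟨-, h⟩ _ _; simp only [mem_coe, mem_TBE_false] at h; omega)
    (by rintro x y ⟨-, h⟩ _ _; simp only [mem_coe, mem_TBE_true] at h; omega) hq
    (by simp only; omega) le_rfl
  have q3 : Reach (↑F : Set Edg) (x1, x2) (z1, x2) :=
    hitx hr hAx hCx (u1 := z1) (u2 := x2) (v1 := z2) (v2 := d) (by unfold inR; simp only; omega)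
      (by push_cast; omega)
      (l3.mono (by rintro e ⟨⟨h7, -⟩, -⟩; exact h7))
  have q4 : Reach (↑F : Set Edg) (w, c) (z1, x2) := l4.mono Set.inter_subset_left
  -- the two paths meet
  have hpR : Reach (↑F ∩ ↑(RE a b (-(r:ℤ)) r)) (a, y) (b, y') :=
    hp.mono (Set.inter_subset_inter_right (↑F)
      (by exact_mod_cast LRE_subset_RE : (↑(LRE a b (-(r:ℤ)) r) : Set Edg) ⊆ _))
  have hqR : Reach (↑F ∩ ↑(RE (x1 - r) (x1 + r) c d)) (w, c) (w', d) :=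
    hq.mono (Set.inter_subset_inter_right (↑F)
      (by exact_mod_cast TBE_subset_RE : (↑(TBE (x1 - r) (x1 + r) c d) : Set Edg) ⊆ _))
  have m : Reach (↑F ∩ ↑(RE a b c d)) (a, y) (w, c) :=
    cross_meet (a := x1 - r) (b := x1 + r) (c := -(r:ℤ)) (d := r) ha' (by omega) hb' hc
      (by omega) hd hpR (by simp only; omega) (by simp only; omega) hqR (by simp only; omega)
      (by simp only; omega)
  have q5 : Reach (↑F : Set Edg) (a, y) (w, c) := m.mono Set.inter_subset_left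
  exact q1.trans (q2.symm.trans (q5.trans (q4.trans q3.symm)))

theorem pr_shift_circ {q : ℝ} (h0 : 0 ≤ q) (h1 : q ≤ 1) {x1 x2 : ℤ} {r n : ℕ} (hrn : r ≤ n)
    {S : Finset Edg} (hS : RE (x1 - n) (x1 + n) (x2 - n) (x2 + n) ⊆ S) :
    (hh q (2 * (n:ℤ)) ((n:ℤ) - r))^4 ≤
      Pr (fun _ => q) S (fun F => Circ r (n:ℤ) ((trl (-x1) (-x2)).mp F)) := by
  rw [← LSym.pr]
  apply pr_Circ h0 h1 (by positivity) (by exact_mod_cast hrn)
  have h1 : RE (-(n:ℤ)) n (-n) n = (trl (-x1) (-x2)).mp (RE (x1 - n) (x1 + n) (x2 - n) (x2 + n)) := by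
    rw [trl_RE]; congr 1 <;> ring
  rw [h1]
  exact LSym.mp_mono _ hS

/-- The two-point function from below, by gluing. -/
theorem two_far {q κ : ℝ} {m n : ℕ} (hW : H12S.Win q κ (2 * m)) (hm : 1 ≤ m) (hmn : m ≤ n)
    {x1 x2 : ℤ} (hx1 : |x1| ≤ n) (hx2 : |x2| ≤ n) :
    (arm q (2 * m))^2 * κ^8 * (hh q ((5 * n : ℕ) : ℤ) m)^2 ≤
      Pr (fun _ => q) (boxE (3 * n)) (TP (x1, x2)) := by
  have h0 : 0 ≤ q := by linarith [hW.lo]
  have h1 : q ≤ 1 := by linarith [hW.hi]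
  have ok := okq h0 h1
  have hκ := hW.kpos
  have hx1' := abs_le.mp hx1
  have hx2' := abs_le.mp hx2
  obtain ⟨S, hS⟩ : ∃ S : Finset Edg, S = boxE (3 * n) := ⟨_, rfl⟩
  rw [← hS]
  have hmn' : (m:ℤ) ≤ n := by exact_mod_cast hmn
  have s1 : boxE (2 * m) ⊆ S := by rw [hS]; exact boxE_mono (by omega)
  have s2 : RE (x1 - ((2 * m : ℕ) : ℤ)) (x1 + ((2 * m : ℕ) : ℤ)) (x2 - ((2 * m : ℕ) : ℤ))
      (x2 + ((2 * m : ℕ) : ℤ)) ⊆ S := by
    rw [hS]
    unfold boxE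
    apply RE_subset <;> push_cast <;> omega
  obtain ⟨a, ha⟩ : ∃ a : ℤ, a = min 0 x1 - ((2 * m : ℕ) : ℤ) := ⟨_, rfl⟩
  obtain ⟨b, hb⟩ : ∃ b : ℤ, b = max 0 x1 + ((2 * m : ℕ) : ℤ) := ⟨_, rfl⟩
  obtain ⟨c, hc⟩ : ∃ c : ℤ, c = min 0 x2 - ((2 * m : ℕ) : ℤ) := ⟨_, rfl⟩
  obtain ⟨d, hd⟩ : ∃ d : ℤ, d = max 0 x2 + ((2 * m : ℕ) : ℤ) := ⟨_, rfl⟩
  push_cast at ha hb hc hd
  have s3 : LRE a b (-(m:ℤ)) m ⊆ S := by
    refine LRE_subset_RE.trans ?_
    rw [hS]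
    unfold boxE
    apply RE_subset <;> push_cast <;> omega
  have s4 : TBE (x1 - m) (x1 + m) c d ⊆ S := by
    refine TBE_subset_RE.trans ?_
    rw [hS]
    unfold boxE
    apply RE_subset <;> push_cast <;> omega
  have e1 := pr_Arm q s1
  have e2 := pr_shift_arm q s2
  have hcirc : κ^4 ≤ (hh q (2 * ((2 * m : ℕ) : ℤ)) (((2 * m : ℕ) : ℤ) - m))^4 := by
    apply pow_le_pow_left₀ hκ.le
    refine (hW.pri m hm (by omega)).trans ?_
    apply hh_mono h0 h1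
    · push_cast; omega
    · push_cast; omega
    · push_cast; omega
  have e3 : κ^4 ≤ Pr (fun _ => q) S (Circ m ((2 * m : ℕ) : ℤ)) :=
    hcirc.trans (pr_Circ h0 h1 (R1 := m) (R2 := ((2 * m : ℕ) : ℤ)) (by positivity)
      (by push_cast; omega) s1)
  have e4 : κ^4 ≤ Pr (fun _ => q) S
      (fun F => Circ m ((2 * m : ℕ) : ℤ) ((trl (-x1) (-x2)).mp F)) :=
    hcirc.trans (pr_shift_circ h0 h1 (by omega) s2)
  have e5 : hh q ((5 * n : ℕ) : ℤ) m ≤ Pr (fun _ => q) S (LRc a b (-m) m) := by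
    rw [pr_LRc q s3]
    apply hh_mono h0 h1 <;> push_cast <;> omega
  have e6 : hh q ((5 * n : ℕ) : ℤ) m ≤ Pr (fun _ => q) S (TBc (x1 - m) (x1 + m) c d) := by
    rw [pr_TBc q s4]
    apply hh_mono h0 h1 <;> push_cast <;> omega
  have i1 := Pr_harris ok (S := S) (A := Arm (2 * m))
    (B := fun F => Arm (2 * m) ((trl (-x1) (-x2)).mp F)) (Arm_incr S _)
    (fun F G h _ hF => hF.mono (LSym.mp_mono _ h))
  rw [e1, e2] at i1
  have i2 := Pr_harris ok (S := S) (A := Circ m ((2 * m : ℕ) : ℤ))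
    (B := fun F => Circ m ((2 * m : ℕ) : ℤ) ((trl (-x1) (-x2)).mp F))
    (fun F G h _ hF => hF.mono h) (fun F G h _ hF => hF.mono (LSym.mp_mono _ h))
  have i3 := Pr_harris ok (S := S) (LRc_incr S a b (-m) m) (TBc_incr S (x1 - m) (x1 + m) c d)
  have i4 := Pr_harris ok (S := S)
    (A := fun F => Arm (2 * m) F ∧ Arm (2 * m) ((trl (-x1) (-x2)).mp F))
    (B := fun F => Circ m ((2 * m : ℕ) : ℤ) F ∧
      Circ m ((2 * m : ℕ) : ℤ) ((trl (-x1) (-x2)).mp F))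
    (fun F G h _ hF => ⟨hF.1.mono h, hF.2.mono (LSym.mp_mono _ h)⟩)
    (fun F G h _ hF => ⟨hF.1.mono h, hF.2.mono (LSym.mp_mono _ h)⟩)
  have i5 := Pr_harris ok (S := S)
    (A := fun F => (Arm (2 * m) F ∧ Arm (2 * m) ((trl (-x1) (-x2)).mp F)) ∧
      (Circ m ((2 * m : ℕ) : ℤ) F ∧ Circ m ((2 * m : ℕ) : ℤ) ((trl (-x1) (-x2)).mp F)))
    (B := fun F => LRc a b (-m) m F ∧ TBc (x1 - m) (x1 + m) c d F)
    (fun F G h _ hF => ⟨⟨hF.1.1.mono h, hF.1.2.mono (LSym.mp_mono _ h)⟩,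
      ⟨hF.2.1.mono h, hF.2.2.mono (LSym.mp_mono _ h)⟩⟩)
    (fun F G h _ hF => ⟨hF.1.mono h, hF.2.mono h⟩)
  have i6 : Pr (fun _ => q) S (fun F => ((Arm (2 * m) F ∧
      Arm (2 * m) ((trl (-x1) (-x2)).mp F)) ∧
      (Circ m ((2 * m : ℕ) : ℤ) F ∧ Circ m ((2 * m : ℕ) : ℤ) ((trl (-x1) (-x2)).mp F))) ∧
      (LRc a b (-m) m F ∧ TBc (x1 - m) (x1 + m) c d F)) ≤ Pr (fun _ => q) S (TP (x1, x2)) := by
    apply Pr_mono ok
    rintro F _ ⟨⟨⟨k1, k2⟩, k3, k4⟩, k5, k6⟩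
    refine tp_of_L hm ?_ ?_ ?_ ?_ ?_ ?_ ?_ ?_ k1 k3 k2 k4 k5 k6 <;> push_cast <;> omega
  have hA0 : 0 ≤ arm q (2 * m) := arm_nonneg h0 h1 _
  have hh0 : 0 ≤ hh q ((5 * n : ℕ) : ℤ) m := hh_nonneg h0 h1 _ _
  have j2 : κ^4 * κ^4 ≤ Pr (fun _ => q) S (fun F => Circ m ((2 * m : ℕ) : ℤ) F ∧
      Circ m ((2 * m : ℕ) : ℤ) ((trl (-x1) (-x2)).mp F)) :=
    (mul_le_mul e3 e4 (by positivity) ((by positivity : 0 ≤ κ^4).trans e3)).trans i2
  have j3 : hh q ((5 * n : ℕ) : ℤ) m * hh q ((5 * n : ℕ) : ℤ) m ≤ Pr (fun _ => q) S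
      (fun F => LRc a b (-m) m F ∧ TBc (x1 - m) (x1 + m) c d F) :=
    (mul_le_mul e5 e6 hh0 (hh0.trans e5)).trans i3
  have j4 := (mul_le_mul i1 j2 (by positivity) ((mul_nonneg hA0 hA0).trans i1)).trans i4
  have j4n : 0 ≤ arm q (2 * m) * arm q (2 * m) * (κ^4 * κ^4) := by positivity
  have j5 := (mul_le_mul j4 j3 (mul_nonneg hh0 hh0) (j4n.trans j4)).trans i5
  calc (arm q (2 * m))^2 * κ^8 * (hh q ((5 * n : ℕ) : ℤ) m)^2
      = arm q (2 * m) * arm q (2 * m) * (κ^4 * κ^4) *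
        (hh q ((5 * n : ℕ) : ℤ) m * hh q ((5 * n : ℕ) : ℤ) m) := by ring
    _ ≤ _ := j5
    _ ≤ _ := i6

/-- Lower bound for the two-point function below the critical point. -/
theorem tau_lower : ∃ c C : ℝ, 0 < c ∧ 0 < C ∧ ∀ p : unitInterval, (1/4 : ℝ) ≤ p →
    (p:ℝ) ≤ 1/2 → ∀ x : Vtx, c * ((nrm x : ℝ) + 1)^(-(5/24) : ℝ) *
      Real.exp (-(C * (nrm x * (1/2 - (p:ℝ))^(4/3 : ℝ)))) ≤ tau p x := by
  obtain ⟨κ, a, C, hκ, ha, hC, hG⟩ := nearG
  obtain ⟨L, hL⟩ : ∃ L : ℝ, L = Real.log (1 / κ) := ⟨_, rfl⟩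
  obtain ⟨G, hGd⟩ : ∃ G : ℝ, G = a^2 * (4:ℝ)^(-(5/24) : ℝ) * κ^10 := ⟨_, rfl⟩
  have hG0 : 0 < G := by rw [hGd]; positivity
  refine ⟨min G 1, max (20 * L * C) 1, lt_min hG0 one_pos,
    lt_of_lt_of_le one_pos (le_max_right _ _), ?_⟩
  intro p hp hp1 x
  obtain ⟨n, hn⟩ : ∃ n : ℕ, n = nrm x := ⟨_, rfl⟩
  rw [← hn]
  have h0 : (0:ℝ) ≤ p := p.2.1
  have h1 : (p:ℝ) ≤ 1 := p.2.2
  have hs0 : 0 ≤ 1/2 - (p:ℝ) := by linarith
  obtain ⟨H, hH⟩ : ∃ H : ℝ, H = (1/2 - (p:ℝ))^(4/3 : ℝ) := ⟨_, rfl⟩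
  have hH0 : 0 ≤ H := by rw [hH]; positivity
  rw [← hH]
  have hx1 : |x.1| ≤ n := by
    rw [hn]; unfold nrm
    rw [Int.abs_eq_natAbs]
    exact_mod_cast le_max_left _ _
  have hx2 : |x.2| ≤ n := by
    rw [hn]; unfold nrm
    rw [Int.abs_eq_natAbs]
    exact_mod_cast le_max_right _ _
  have hM0 : 0 ≤ max (20 * L * C) 1 := zero_le_one.trans (le_max_right _ _)
  have hexp1 : Real.exp (-(max (20 * L * C) 1 * (n * H))) ≤ 1 := by
    rw [Real.exp_le_one_iff]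
    have h2 : 0 ≤ max (20 * L * C) 1 * (n * H) := by positivity
    linarith
  have hnp : 0 < ((n:ℝ) + 1)^(-(5/24) : ℝ) := by positivity
  rcases Nat.eq_zero_or_pos n with hn0 | hnpos
  · have hx : x = (0, 0) := by
      rw [hn0] at hx1 hx2
      have k1 := abs_le.mp hx1
      have k2 := abs_le.mp hx2
      apply Prod.ext
      · simp only; push_cast at k1; omega
      · simp only; push_cast at k2; omega
    have h2 : (1:ℝ) ≤ tau p x := by
      refine le_trans (le_of_eq ?_) (tau_ge p ∅ x)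
      rw [hx]
      exact (Pr_true _ (fun F _ => Reach.refl _ _)).symm
    refine le_trans ?_ h2
    have h3 : ((n:ℝ) + 1)^(-(5/24) : ℝ) ≤ 1 :=
      Real.rpow_le_one_of_one_le_of_nonpos (by linarith [(Nat.cast_nonneg n : (0:ℝ) ≤ n)])
        (by norm_num)
    calc min G 1 * ((n:ℝ) + 1)^(-(5/24) : ℝ) * Real.exp (-(max (20 * L * C) 1 * (n * H)))
        ≤ 1 * 1 * 1 := by
          apply mul_le_mul _ hexp1 (Real.exp_pos _).le (by norm_num)
          exact mul_le_mul (min_le_right _ _) h3 hnp.le (by norm_num)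
      _ = 1 := by norm_num
  · obtain ⟨m, hm, hmn, hW, harm, hcase⟩ := hG p n hp hp1 hnpos
    have hnr : (1:ℝ) ≤ n := by exact_mod_cast hnpos
    have hn0 : (0:ℝ) < n := by linarith
    have hm0 : (0:ℝ) < m := by exact_mod_cast hm
    have hmnr : (m:ℝ) ≤ n := by exact_mod_cast hmn
    have hpow : ∀ k : ℕ, 1 ≤ k → k ≤ 4 * m →
        a * (4:ℝ)^(-(5/48) : ℝ) * ((n:ℝ) + 1)^(-(5/48) : ℝ) ≤ arm p k := by
      intro k hk1 hk2
      have h2 := harm k hk1 hk2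
      refine le_trans ?_ h2
      rw [mul_assoc]
      apply mul_le_mul_of_nonneg_left _ ha.le
      rw [← Real.mul_rpow (by norm_num) (by linarith)]
      apply Real.rpow_le_rpow_of_nonpos (by exact_mod_cast hk1) _ (by norm_num)
      have : (k:ℝ) ≤ 4 * m := by exact_mod_cast hk2
      linarith
    have hsq : (a * (4:ℝ)^(-(5/48) : ℝ) * ((n:ℝ) + 1)^(-(5/48) : ℝ)) *
        (a * (4:ℝ)^(-(5/48) : ℝ) * ((n:ℝ) + 1)^(-(5/48) : ℝ)) =
        a^2 * (4:ℝ)^(-(5/24) : ℝ) * ((n:ℝ) + 1)^(-(5/24) : ℝ) := by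
      have e1 : (4:ℝ)^(-(5/24) : ℝ) = (4:ℝ)^(-(5/48) : ℝ) * (4:ℝ)^(-(5/48) : ℝ) := by
        rw [← Real.rpow_add (by norm_num)]; norm_num
      have e2 : ((n:ℝ) + 1)^(-(5/24) : ℝ) = ((n:ℝ) + 1)^(-(5/48) : ℝ) * ((n:ℝ) + 1)^(-(5/48) : ℝ) := by
        rw [← Real.rpow_add (by linarith)]; norm_num
      rw [e1, e2]
      ring
    have hκ1 : κ ≤ 1 := by linarith [hW.kle]
    have hL0 : 0 ≤ L := by
      rw [hL]
      apply Real.log_nonneg
      rw [le_div_iff₀ hκ]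
      linarith
    have hbase0 : 0 ≤ a * (4:ℝ)^(-(5/48) : ℝ) * ((n:ℝ) + 1)^(-(5/48) : ℝ) := by positivity
    rcases hcase with hcase | hcase
    · -- below the correlation length
      subst hcase
      have h2 := two_point h0 h1 (r := m) hm (x1 := x.1) (x2 := x.2)
        (by unfold inR; simp only; have := abs_le.mp hx1; have := abs_le.mp hx2; omega)
        (Finset.Subset.refl (boxE (5 * m)))
      have h3 : κ ≤ hh p ((6 * m : ℕ) : ℤ) ((2 * m : ℕ) : ℤ) := by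
        refine (hW.pri (2 * m) (by omega) (by omega)).trans ?_
        apply hh_mono h0 h1
        · push_cast; omega
        · push_cast; omega
        · push_cast; omega
      have h4 := pow_le_pow_left₀ hκ.le h3 4
      have h5 := mul_le_mul (hpow (3 * m) (by omega) (by omega)) (hpow (4 * m) (by omega) le_rfl)
        hbase0 (arm_nonneg h0 h1 _)
      rw [hsq] at h5
      have h6 := mul_le_mul h5 h4 (by positivity)
        (mul_nonneg (arm_nonneg h0 h1 _) (arm_nonneg h0 h1 _))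
      refine le_trans ?_ (h6.trans (h2.trans (tau_ge p _ _)))
      have hκ6 : κ^10 ≤ κ^4 := pow_le_pow_of_le_one hκ.le hκ1 (by norm_num)
      calc min G 1 * ((m:ℝ) + 1)^(-(5/24) : ℝ) * Real.exp (-(max (20 * L * C) 1 * (m * H)))
          ≤ G * ((m:ℝ) + 1)^(-(5/24) : ℝ) * 1 := by
            apply mul_le_mul _ hexp1 (Real.exp_pos _).le (by positivity)
            exact mul_le_mul_of_nonneg_right (min_le_left _ _) hnp.le
        _ = (a^2 * (4:ℝ)^(-(5/24) : ℝ) * ((m:ℝ) + 1)^(-(5/24) : ℝ)) * κ^10 := by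
            rw [hGd]; ring
        _ ≤ _ := mul_le_mul_of_nonneg_left hκ6 (by positivity)
    · -- beyond the correlation length
      rw [← hH] at hcase
      have h2 := two_far (hW.anti (show 2 * m ≤ 4 * m by omega)) hm hmn (x1 := x.1) (x2 := x.2)
        hx1 hx2
      have h3 := hh_exp (hW.anti (show m ≤ 4 * m by omega)) hm (n := 5 * n) (by omega)
      rw [← hL] at h3
      obtain ⟨e, he⟩ : ∃ e : ℝ, e = Real.exp (-(2 * L) * (((5 * n : ℕ) : ℝ) / m)) := ⟨_, rfl⟩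
      have he0 : 0 < e := by rw [he]; exact Real.exp_pos _
      rw [← he] at h3
      have h4 := pow_le_pow_left₀ (by positivity) h3 2
      have h5 := mul_le_mul (hpow (2 * m) (by omega) (by omega))
        (hpow (2 * m) (by omega) (by omega)) hbase0 (arm_nonneg h0 h1 _)
      rw [hsq, ← sq] at h5
      have h6 := mul_le_mul (mul_le_mul_of_nonneg_right h5 (by positivity : 0 ≤ κ^8)) h4
        (by positivity) (by positivity)
      refine le_trans ?_ (h6.trans (h2.trans (tau_ge p _ _)))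
      have hexp2 : Real.exp (-(max (20 * L * C) 1 * (n * H))) ≤ e^2 := by
        rw [he, ← Real.exp_nat_mul]
        apply Real.exp_le_exp.mpr
        have h7 : (n:ℝ) / m ≤ C * (n * H) := by
          rw [div_le_iff₀ hm0]
          calc (n:ℝ) = n * 1 := (mul_one _).symm
            _ ≤ n * (C * (m * H)) := mul_le_mul_of_nonneg_left hcase hn0.le
            _ = C * (n * H) * m := by ring
        have h8 : 20 * L * ((n:ℝ) / m) ≤ 20 * L * (C * (n * H)) :=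
          mul_le_mul_of_nonneg_left h7 (by positivity)
        have h9 : 20 * L * C * (n * H) ≤ max (20 * L * C) 1 * (n * H) :=
          mul_le_mul_of_nonneg_right (le_max_left _ _) (by positivity)
        have e1 : ((2:ℕ):ℝ) * (-(2 * L) * (((5 * n : ℕ) : ℝ) / m)) = -(20 * L * ((n:ℝ) / m)) := by
          push_cast; ring
        rw [e1]
        linarith
      calc min G 1 * ((n:ℝ) + 1)^(-(5/24) : ℝ) * Real.exp (-(max (20 * L * C) 1 * (n * H)))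
          ≤ G * ((n:ℝ) + 1)^(-(5/24) : ℝ) * e^2 := by
            apply mul_le_mul _ hexp2 (Real.exp_pos _).le (by positivity)
            exact mul_le_mul_of_nonneg_right (min_le_left _ _) hnp.le
        _ = (a^2 * (4:ℝ)^(-(5/24) : ℝ) * ((n:ℝ) + 1)^(-(5/24) : ℝ)) * κ^8 * (κ * e)^2 := by
            rw [hGd]; ring

end Pool.Agent.W424.NC
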