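import Pool.Agent.W424.NC.VolLow

/-!
Critical bond percolation on the square lattice: the volume of the cluster of the origin.
-/

set_option maxHeartbeats 1000000

namespace Pool.Agent.W424.NC

open H31K H974 Finset MeasureTheory

/-- Paley-Zygmund. -/
theorem pz {S : Finset Edg} {p : Edg → ℝ} (ok : Ok p) {Y : Finset Edg → ℝ} {m M2 : ℝ}
    (hm : 0 < m) (hM2 : 0 < M2) (h1 : m ≤ Ex p S Y) (h2 : Ex p S (fun F => Y F * Y F) ≤ M2) :
    m^2 / (4 * M2) ≤ Pr p S (fun F => m / 2 ≤ Y F) := by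
  obtain ⟨l, hl⟩ : ∃ l : ℝ, l = m / (2 * M2) := ⟨_, rfl⟩
  have hl0 : 0 < l := by rw [hl]; positivity
  have hpt : ∀ F, F ⊆ S → Y F ≤ m/2 + l/2 * (Y F * Y F) + 1/(2*l) * ind (m/2 ≤ Y F) := by
    intro F _
    have hY : 0 ≤ Y F * Y F := mul_self_nonneg _
    by_cases h : m/2 ≤ Y F
    · rw [ind_of h, mul_one]
      have h3 : 0 ≤ (l * Y F - 1)^2 / (2*l) := by positivity
      have h4 : (l * Y F - 1)^2 / (2*l) = l/2*(Y F * Y F) + 1/(2*l) - Y F := by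
        field_simp
        ring
      linarith
    · rw [ind_not_of h, mul_zero, add_zero]
      push Not at h
      have : 0 ≤ l/2*(Y F * Y F) := by positivity
      linarith
  have h3 := Ex_mono ok hpt
  have h4 : Ex p S (fun F => m/2 + l/2 * (Y F * Y F) + 1/(2*l) * ind (m/2 ≤ Y F)) =
      m/2 + l/2 * Ex p S (fun F => Y F * Y F) + 1/(2*l) * Pr p S (fun F => m/2 ≤ Y F) := by
    rw [Ex_add, Ex_add, Ex_const, Ex_mul_left, Ex_mul_left]
    rfl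
  rw [h4] at h3
  have h5 : l/2 * Ex p S (fun F => Y F * Y F) ≤ m/4 := by
    calc l/2 * Ex p S (fun F => Y F * Y F) ≤ l/2 * M2 :=
          mul_le_mul_of_nonneg_left h2 (by positivity)
      _ = m/4 := by rw [hl]; field_simp; ring
  have h6 : m/4 ≤ 1/(2*l) * Pr p S (fun F => m/2 ≤ Y F) := by linarith
  have h7 : 1/(2*l) = M2 / m := by rw [hl]; field_simp
  rw [h7, div_mul_eq_mul_div, le_div_iff₀ hm] at h6
  rw [div_le_iff₀ (by positivity)]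
  nlinarith

/-- The number of points of the box of radius `r` with a long arm. -/
noncomputable def YF (r : ℕ) (F : Finset Edg) : ℝ :=
  ∑ x ∈ boxV r, ind (Arm (4 * r) ((trl (-x.1) (-x.2)).mp F))

theorem YF_mono (r : ℕ) {F G : Finset Edg} (h : F ⊆ G) : YF r F ≤ YF r G := by
  unfold YF
  exact Finset.sum_le_sum (fun x _ => ind_mono (fun hF => hF.mono (LSym.mp_mono _ h)))

theorem YF_mean {r : ℕ} {S : Finset Edg} (hS : boxE (5 * r) ⊆ S) :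
    Ex (fun _ => (1/2:ℝ)) S (YF r) = (2 * (r:ℝ) + 1)^2 * arm (1/2) (4 * r) := by
  unfold YF
  rw [Ex_sum, ← card_boxV, ← nsmul_eq_mul, ← Finset.sum_const]
  apply Finset.sum_congr rfl
  intro x hx
  have hx' := mem_boxV hx
  unfold inR at hx'
  simp only at hx'
  apply pr_shift_arm
  refine Finset.Subset.trans ?_ hS
  unfold boxE
  apply RE_subset <;> push_cast <;> omega

theorem YF_second : ∃ K : ℝ, 0 < K ∧ ∀ (r : ℕ), 1 ≤ r → ∀ S : Finset Edg, boxE (5 * r) ⊆ S →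
    Ex (fun _ => (1/2:ℝ)) S (fun F => YF r F * YF r F) ≤ K * (r:ℝ)^(4 - 5/24 : ℝ) := by
  classical
  obtain ⟨K, hK, hpair⟩ := pair_bound
  refine ⟨K * 8 * (3:ℝ)^(4 - 5/48 : ℝ), by positivity, ?_⟩
  intro r hr S hS
  have hr1 : (1:ℝ) ≤ r := by exact_mod_cast hr
  have hr0 : (0:ℝ) < r := by linarith
  have h1 : Ex (fun _ => (1/2:ℝ)) S (fun F => YF r F * YF r F) =
      ∑ x ∈ boxV r, ∑ y ∈ boxV r, Pr (fun _ => (1/2:ℝ)) S
        (fun F => Arm (4 * r) ((trl (-x.1) (-x.2)).mp F) ∧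
          Arm (4 * r) ((trl (-y.1) (-y.2)).mp F)) := by
    have e1 : (fun F => YF r F * YF r F) = fun F => ∑ x ∈ boxV r, ∑ y ∈ boxV r,
        ind (Arm (4 * r) ((trl (-x.1) (-x.2)).mp F) ∧
          Arm (4 * r) ((trl (-y.1) (-y.2)).mp F)) := by
      funext F
      unfold YF
      rw [Finset.sum_mul_sum]
      apply Finset.sum_congr rfl
      intro x _
      apply Finset.sum_congr rfl
      intro y _
      rw [ind_and]
    rw [e1, Ex_sum]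
    apply Finset.sum_congr rfl
    intro x _
    rw [Ex_sum]
    rfl
  rw [h1]
  have h2 : ∀ x ∈ boxV r, ∑ y ∈ boxV r, Pr (fun _ => (1/2:ℝ)) S
        (fun F => Arm (4 * r) ((trl (-x.1) (-x.2)).mp F) ∧
          Arm (4 * r) ((trl (-y.1) (-y.2)).mp F)) ≤
      K * (8 * (((2 * r : ℕ) : ℝ) + 1)^(2 - 5/48 : ℝ)) * (r:ℝ)^(-(5/48) : ℝ) := by
    intro x hx
    calc _ ≤ ∑ y ∈ boxV r, K * ((nrm (y.1 - x.1, y.2 - x.2) : ℝ) + 1)^(-(5/48) : ℝ) *
          (r:ℝ)^(-(5/48) : ℝ) := Finset.sum_le_sum (fun y hy => hpair r hr x y hx hy S hS)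
      _ = K * (∑ y ∈ boxV r, ((nrm (y.1 - x.1, y.2 - x.2) : ℝ) + 1)^(-(5/48) : ℝ)) *
          (r:ℝ)^(-(5/48) : ℝ) := by
          rw [Finset.mul_sum, Finset.sum_mul]
      _ ≤ _ := by
          apply mul_le_mul_of_nonneg_right _ (by positivity)
          apply mul_le_mul_of_nonneg_left _ hK.le
          have hinj : Function.Injective (fun y : Vtx => ((y.1 - x.1, y.2 - x.2) : Vtx)) := by
            intro y y' h
            simp only [Prod.mk.injEq] at h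
            apply Prod.ext
            · omega
            · omega
          have e2 : ∑ y ∈ boxV r, ((nrm (y.1 - x.1, y.2 - x.2) : ℝ) + 1)^(-(5/48) : ℝ) =
              ∑ z ∈ (boxV r).image (fun y : Vtx => ((y.1 - x.1, y.2 - x.2) : Vtx)),
                ((nrm z : ℝ) + 1)^(-(5/48) : ℝ) := by
            rw [Finset.sum_image (fun y _ y' _ h => hinj h)]
          rw [e2]
          refine le_trans (Finset.sum_le_sum_of_subset_of_nonneg ?_
            (fun z _ _ => by positivity)) (sum_nrm_pow (by norm_num) (2 * r))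
          intro z hz
          obtain ⟨y, hy, rfl⟩ := Finset.mem_image.mp hz
          have hx' := mem_boxV hx
          have hy' := mem_boxV hy
          unfold inR at hx' hy'
          simp only at hx' hy'
          unfold boxV
          rw [Finset.mem_product, Finset.mem_Icc, Finset.mem_Icc]
          simp only
          push_cast
          omega
  refine (Finset.sum_le_sum h2).trans ?_
  rw [Finset.sum_const, nsmul_eq_mul, card_boxV]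
  have h3 : ((2 * r : ℕ) : ℝ) + 1 ≤ 3 * r := by push_cast; linarith
  have h4 : (2 * (r:ℝ) + 1)^2 ≤ (3 * (r:ℝ))^(2:ℝ) := by
    rw [Real.rpow_two]
    exact pow_le_pow_left₀ (by positivity) (by linarith) 2
  have h5 : (((2 * r : ℕ) : ℝ) + 1)^(2 - 5/48 : ℝ) ≤ (3 * (r:ℝ))^(2 - 5/48 : ℝ) :=
    Real.rpow_le_rpow (by positivity) h3 (by norm_num)
  have h3r : (0:ℝ) < 3 * r := by positivity
  have h6 : (3 * (r:ℝ))^(2:ℝ) * (3 * (r:ℝ))^(2 - 5/48 : ℝ) =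
      (3:ℝ)^(4 - 5/48 : ℝ) * (r:ℝ)^(4 - 5/48 : ℝ) := by
    rw [← Real.rpow_add h3r, Real.mul_rpow (by norm_num) hr0.le]
    norm_num
  have h7 : (r:ℝ)^(4 - 5/48 : ℝ) * (r:ℝ)^(-(5/48) : ℝ) = (r:ℝ)^(4 - 5/24 : ℝ) := by
    rw [← Real.rpow_add hr0]
    norm_num
  calc (2 * (r:ℝ) + 1)^2 *
      (K * (8 * (((2 * r : ℕ) : ℝ) + 1)^(2 - 5/48 : ℝ)) * (r:ℝ)^(-(5/48) : ℝ))
      = K * 8 * ((2 * (r:ℝ) + 1)^2 * (((2 * r : ℕ) : ℝ) + 1)^(2 - 5/48 : ℝ)) *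
        (r:ℝ)^(-(5/48) : ℝ) := by ring
    _ ≤ K * 8 * ((3 * (r:ℝ))^(2:ℝ) * (3 * (r:ℝ))^(2 - 5/48 : ℝ)) * (r:ℝ)^(-(5/48) : ℝ) := by
        apply mul_le_mul_of_nonneg_right _ (by positivity)
        apply mul_le_mul_of_nonneg_left _ (by positivity)
        exact mul_le_mul h4 h5 (by positivity) (by positivity)
    _ = K * 8 * (3:ℝ)^(4 - 5/48 : ℝ) * ((r:ℝ)^(4 - 5/48 : ℝ) * (r:ℝ)^(-(5/48) : ℝ)) := by
        rw [h6]; ring
    _ = _ := by rw [h7]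

theorem vol_of_YF {r : ℕ} (hr : 1 ≤ r) {S : Finset Edg} {n : ℕ} {ω : sqLattice.edgeSet → Bool}
    (h1 : Arm (3 * r) (FF S ω)) (h2 : Circ r ((3 * r : ℕ) : ℤ) (FF S ω))
    (h3 : (n:ℝ) ≤ YF r (FF S ω)) : ω ∈ Vol n := by
  classical
  have e1 : YF r (FF S ω) = (((boxV r).filter
      (fun x => Arm (4 * r) ((trl (-x.1) (-x.2)).mp (FF S ω)))).card : ℝ) := by
    unfold YF
    rw [Finset.card_filter]
    push_cast
    apply Finset.sum_congr rfl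
    intro x _
    unfold ind
    split_ifs <;> simp_all
  rw [e1] at h3
  have h4 : n ≤ ((boxV r).filter
      (fun x => Arm (4 * r) ((trl (-x.1) (-x.2)).mp (FF S ω)))).card := by exact_mod_cast h3
  have h5 : (↑((boxV r).filter
      (fun x => Arm (4 * r) ((trl (-x.1) (-x.2)).mp (FF S ω)))) : Set Vtx) ⊆ cluster0 ω := by
    intro x hx
    rw [Finset.mem_coe, Finset.mem_filter] at hx
    have h6 : TP (x.1, x.2) (FF S ω) := tp_of_arms hr (mem_boxV hx.1) h1 h2 hx.2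
    have h7 : Reach (↑(FF S ω) : Set Edg) (0, 0) x := h6
    rw [FF_coe] at h7
    exact (open_reach ω _ _).mpr (h7.mono Set.inter_subset_left)
  have h8 := Set.encard_le_encard h5
  rw [Set.encard_coe_eq_coe_finsetCard] at h8
  show (n:ℕ∞) ≤ (cluster0 ω).encard
  exact le_trans (by exact_mod_cast h4) h8

/-- Lower bound for the volume of the critical cluster. -/
theorem vol_lower : ∃ c : ℝ, 0 < c ∧ ∀ n : ℕ, 1 ≤ n →
    c * (n:ℝ)^(-(5/91) : ℝ) ≤ (bondLaw hlf).real (Vol n) := by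
  obtain ⟨cc, Cc, hcc, hCc, harm⟩ := arm_crit
  obtain ⟨K, hK, hsec⟩ := YF_second
  obtain ⟨K4, hK4⟩ : ∃ K4 : ℝ, K4 = 4 * cc * (4:ℝ)^(-(5/48) : ℝ) := ⟨_, rfl⟩
  have hK40 : 0 < K4 := by rw [hK4]; positivity
  obtain ⟨B, hB⟩ : ∃ B : ℝ, B = (2 / K4)^(48/91 : ℝ) + 2 := ⟨_, rfl⟩
  have hB0 : 0 < B := by rw [hB]; positivity
  refine ⟨cc * (3 * B)^(-(5/48) : ℝ) * (1/2)^188 * (K4^2 / (4 * K)), by positivity, ?_⟩
  intro n hn
  have hn1 : (1:ℝ) ≤ n := by exact_mod_cast hn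
  have hn0 : (0:ℝ) < n := by linarith
  have h0 : (0:ℝ) ≤ 1/2 := by norm_num
  have h1 : (1/2:ℝ) ≤ 1 := by norm_num
  have ok := okq h0 h1
  obtain ⟨x0, hx0⟩ : ∃ x0 : ℝ, x0 = (2 * n / K4)^(48/91 : ℝ) := ⟨_, rfl⟩
  have hx00 : 0 < x0 := by rw [hx0]; positivity
  obtain ⟨r, hr⟩ : ∃ r : ℕ, r = ⌈x0⌉₊ + 1 := ⟨_, rfl⟩
  have hr1 : 1 ≤ r := by omega
  have hr0 : (0:ℝ) < r := by exact_mod_cast hr1
  have hrx : x0 ≤ r := by
    have := Nat.le_ceil x0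
    rw [hr]; push_cast; linarith
  have hrB : (r:ℝ) ≤ B * (n:ℝ)^(48/91 : ℝ) := by
    have i1 := Nat.ceil_lt_add_one hx00.le
    have i2 : x0 = (2 / K4)^(48/91 : ℝ) * (n:ℝ)^(48/91 : ℝ) := by
      rw [hx0, ← Real.mul_rpow (by positivity) hn0.le]
      congr 1
      ring
    have i3 : 1 ≤ (n:ℝ)^(48/91 : ℝ) := Real.one_le_rpow hn1 (by norm_num)
    rw [hr, hB]
    push_cast
    have i4 : ((2 / K4)^(48/91 : ℝ) + 2) * (n:ℝ)^(48/91 : ℝ) = x0 + 2 * (n:ℝ)^(48/91 : ℝ) := by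
      rw [i2]; ring
    rw [i4]
    linarith
  obtain ⟨m, hm⟩ : ∃ m : ℝ, m = K4 * (r:ℝ)^(91/48 : ℝ) := ⟨_, rfl⟩
  have hm0 : 0 < m := by rw [hm]; positivity
  have hmn : (n:ℝ) ≤ m / 2 := by
    have i1 : x0^(91/48 : ℝ) = 2 * n / K4 := by
      rw [hx0, ← Real.rpow_mul (by positivity)]
      norm_num
    have i2 : x0^(91/48 : ℝ) ≤ (r:ℝ)^(91/48 : ℝ) :=
      Real.rpow_le_rpow hx00.le hrx (by norm_num)
    rw [i1, div_le_iff₀ hK40] at i2
    rw [hm]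
    linarith
  obtain ⟨S, hS⟩ : ∃ S : Finset Edg, S = boxE (5 * r) := ⟨_, rfl⟩
  have hSs : boxE (5 * r) ⊆ S := by rw [hS]
  have hmean : m ≤ Ex (fun _ => (1/2:ℝ)) S (YF r) := by
    rw [YF_mean hSs, hm, hK4]
    have i1 := (harm (4 * r) (by omega)).1
    have i2 : ((4 * r : ℕ) : ℝ)^(-(5/48) : ℝ) = (4:ℝ)^(-(5/48) : ℝ) * (r:ℝ)^(-(5/48) : ℝ) := by
      push_cast
      rw [Real.mul_rpow (by norm_num) hr0.le]
    rw [i2] at i1
    have i3 : (r:ℝ)^(91/48 : ℝ) = (r:ℝ)^2 * (r:ℝ)^(-(5/48) : ℝ) := by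
      rw [← Real.rpow_two, ← Real.rpow_add hr0]
      norm_num
    rw [i3]
    calc 4 * cc * (4:ℝ)^(-(5/48) : ℝ) * ((r:ℝ)^2 * (r:ℝ)^(-(5/48) : ℝ))
        = (4 * (r:ℝ)^2) * (cc * ((4:ℝ)^(-(5/48) : ℝ) * (r:ℝ)^(-(5/48) : ℝ))) := by ring
      _ ≤ (2 * (r:ℝ) + 1)^2 * arm (1/2) (4 * r) := by
          apply mul_le_mul _ i1 (by positivity) (by positivity)
          nlinarith
  have hpz := pz ok hm0 (by positivity : 0 < K * (r:ℝ)^(4 - 5/24 : ℝ)) hmean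
    (hsec r hr1 S hSs)
  have hc0 : m^2 / (4 * (K * (r:ℝ)^(4 - 5/24 : ℝ))) = K4^2 / (4 * K) := by
    have i1 : ((r:ℝ)^(91/48 : ℝ))^2 = (r:ℝ)^(4 - 5/24 : ℝ) := by
      rw [← Real.rpow_natCast ((r:ℝ)^(91/48 : ℝ)), ← Real.rpow_mul hr0.le]
      norm_num
    have i2 : (0:ℝ) < (r:ℝ)^(4 - 5/24 : ℝ) := by positivity
    rw [hm, mul_pow, i1]
    field_simp
  rw [hc0] at hpz
  -- the circuit
  have hsub3 : boxE (3 * r) ⊆ S := by rw [hS]; exact boxE_mono (by omega)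
  have hr' : (0:ℤ) < r := by exact_mod_cast hr1
  have hcirc : (1/2 : ℝ)^188 ≤ Pr (fun _ => (1/2:ℝ)) S (Circ r ((3 * r : ℕ) : ℤ)) := by
    refine le_trans ?_ (pr_Circ h0 h1 (R1 := r) (R2 := ((3 * r : ℕ) : ℤ)) (by positivity)
      (by push_cast; omega) hsub3)
    have k := rsw_p (p := 1/2) le_rfl h1 (n := r) (w := 2 * ((3 * r : ℕ) : ℤ))
      (h := ((3 * r : ℕ) : ℤ) - r) hr' (by push_cast; omega) (by push_cast; omega)
      (by push_cast; omega)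
    calc (1/2 : ℝ)^188 = ((1/2 : ℝ)^47)^4 := by norm_num
      _ ≤ _ := pow_le_pow_left₀ (by positivity) k 4
  have harm3 : cc * (3 * B)^(-(5/48) : ℝ) * (n:ℝ)^(-(5/91) : ℝ) ≤
      Pr (fun _ => (1/2:ℝ)) S (Arm (3 * r)) := by
    rw [pr_Arm (1/2) hsub3]
    refine le_trans ?_ (harm (3 * r) (by omega)).1
    rw [mul_assoc]
    apply mul_le_mul_of_nonneg_left _ hcc.le
    calc (3 * B)^(-(5/48) : ℝ) * (n:ℝ)^(-(5/91) : ℝ)
        = (3 * B * (n:ℝ)^(48/91 : ℝ))^(-(5/48) : ℝ) := by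
          rw [Real.mul_rpow (x := 3 * B) (y := (n:ℝ)^(48/91 : ℝ)) (by positivity) (by positivity),
            ← Real.rpow_mul hn0.le]
          norm_num
      _ ≤ ((3 * r : ℕ) : ℝ)^(-(5/48) : ℝ) := by
          apply Real.rpow_le_rpow_of_nonpos (by exact_mod_cast (by omega : 0 < 3 * r)) _
            (by norm_num)
          push_cast
          nlinarith
  have i1 := Pr_harris ok (Arm_incr S (3 * r))
    (B := Circ r ((3 * r : ℕ) : ℤ)) (fun F G h _ hF => hF.mono h)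
  have i2 := Pr_harris ok (S := S)
    (A := fun F => Arm (3 * r) F ∧ Circ r ((3 * r : ℕ) : ℤ) F)
    (B := fun F => m / 2 ≤ YF r F) (fun F G h _ hF => ⟨hF.1.mono h, hF.2.mono h⟩)
    (fun F G h _ hF => hF.trans (YF_mono r h))
  have i3 : Pr (fun _ => (1/2:ℝ)) S (fun F => (Arm (3 * r) F ∧ Circ r ((3 * r : ℕ) : ℤ) F) ∧
      m / 2 ≤ YF r F) ≤ (bondLaw hlf).real (Vol n) := by
    have e : Pr (fun _ => (1/2:ℝ)) S (fun F => (Arm (3 * r) F ∧ Circ r ((3 * r : ℕ) : ℤ) F) ∧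
      m / 2 ≤ YF r F) = (bondLaw hlf).real {ω | (Arm (3 * r) (FF S ω) ∧
        Circ r ((3 * r : ℕ) : ℤ) (FF S ω)) ∧ m / 2 ≤ YF r (FF S ω)} :=
      (law_event hlf S (fun F => (Arm (3 * r) F ∧ Circ r ((3 * r : ℕ) : ℤ) F) ∧
        m / 2 ≤ YF r F)).symm
    rw [e]
    refine measureReal_mono ?_
    rintro ω ⟨⟨k1, k2⟩, k3⟩
    exact vol_of_YF hr1 k1 k2 (hmn.trans k3)
  have hA0 : 0 ≤ cc * (3 * B)^(-(5/48) : ℝ) * (n:ℝ)^(-(5/91) : ℝ) := by positivity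
  have j1 := (mul_le_mul harm3 hcirc (by positivity) (hA0.trans harm3)).trans i1
  have hB1 : 0 ≤ cc * (3 * B)^(-(5/48) : ℝ) * (n:ℝ)^(-(5/91) : ℝ) * (1/2 : ℝ)^188 := by
    positivity
  have j2 := (mul_le_mul j1 hpz (by positivity) (hB1.trans j1)).trans (i2.trans i3)
  calc cc * (3 * B)^(-(5/48) : ℝ) * (1/2)^188 * (K4^2 / (4 * K)) * (n:ℝ)^(-(5/91) : ℝ)
      = cc * (3 * B)^(-(5/48) : ℝ) * (n:ℝ)^(-(5/91) : ℝ) * (1/2 : ℝ)^188 * (K4^2 / (4 * K)) := by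
        ring
    _ ≤ _ := j2

end Pool.Agent.W424.NC
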