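import Pool.Agent.W424.NC.VolUp

/-!
Critical bond percolation on the square lattice: lower bound for the volume of the cluster of the
origin.
-/

set_option maxHeartbeats 1000000

namespace Pool.Agent.W424.NC

open H31K H974 Finset MeasureTheory

/-- A path which ends in the box `[-D, D]²` enters it through edges outside of it. -/
theorem first_hit {G : Set Edg} {D : ℕ} {v u : Vtx} (h : Reach G v u)
    (hu : inR (-D) D (-D) D u) :
    ∃ w, inR (-D) D (-D) D w ∧ Reach (G \ ↑(boxE D)) v w := by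
  have key : ∀ w, Reach G v w → (∃ w', inR (-D) D (-D) D w' ∧ Reach (G \ ↑(boxE D)) v w') ∨
      (¬ inR (-D) D (-D) D w ∧ Reach (G \ ↑(boxE D)) v w) := by
    intro w hw
    induction hw with
    | refl =>
      by_cases hv : inR (-D) D (-D) D v
      · exact Or.inl ⟨v, hv, Reach.refl _ _⟩
      · exact Or.inr ⟨hv, Reach.refl _ _⟩
    | @tail w w' _ hs ih =>
      rcases ih with ih | ⟨ih1, ih2⟩
      · exact Or.inl ih
      · obtain ⟨⟨x0, y0, bo⟩, heG, hcase⟩ := hs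
        have hmem : ((x0, y0, bo) : Edg) ∉ (↑(boxE D) : Set Edg) := by
          intro hcon
          apply ih1
          rw [Finset.mem_coe] at hcon
          unfold boxE at hcon
          unfold inR
          cases bo
          · simp only [src_mk, tgt_false] at hcase
            rw [mem_RE_false] at hcon
            rcases hcase with ⟨h3, h4⟩ | ⟨h3, h4⟩
            · rw [← h3]; simp only; omega
            · rw [← h4]; simp only; omega
          · simp only [src_mk, tgt_true] at hcase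
            rw [mem_RE_true] at hcon
            rcases hcase with ⟨h3, h4⟩ | ⟨h3, h4⟩
            · rw [← h3]; simp only; omega
            · rw [← h4]; simp only; omega
        have hadj : Adj (G \ ↑(boxE D)) w w' := ⟨_, ⟨heG, hmem⟩, hcase⟩
        have hr := ih2.trans hadj.reach
        by_cases hin : inR (-D) D (-D) D w'
        · exact Or.inl ⟨w', hin, hr⟩
        · exact Or.inr ⟨hin, hr⟩
  rcases key u h with h1 | ⟨h1, -⟩
  · exact h1
  · exact absurd hu h1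

/-- Crossing of an annulus. -/
def AnnC (D M : ℕ) (F : Finset Edg) : Prop :=
  ∃ u v, inR (-D) D (-D) D u ∧ onB M v ∧ Reach (↑F ∩ ↑(boxE M \ boxE D)) u v

theorem AnnC_of_arm {D M : ℕ} {F : Finset Edg} (h : Arm M F) : AnnC D M F := by
  obtain ⟨v, hv, hr⟩ := h
  obtain ⟨w, hw, hr2⟩ := first_hit (D := D) hr.symm (by unfold inR; simp)
  refine ⟨w, v, hw, hv, (hr2.mono ?_).symm⟩
  rintro e ⟨⟨h1, h2⟩, h3⟩
  refine ⟨h1, ?_⟩
  rw [Finset.coe_sdiff]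
  exact ⟨h2, h3⟩

theorem AnnC_local {D M : ℕ} {F S : Finset Edg} (hS : boxE M \ boxE D ⊆ S) :
    AnnC D M F ↔ AnnC D M (F ∩ S) := by
  unfold AnnC
  rw [coe_inter_eq hS]

theorem pr_AnnC {q : ℝ} (h0 : 0 ≤ q) (h1 : q ≤ 1) {D M : ℕ} {S : Finset Edg}
    (hS : boxE M ⊆ S) : Pr (fun _ => q) S (AnnC D M) ≤ barm q D M := by
  rw [← pr_BArm q hS]
  apply Pr_mono (okq h0 h1)
  rintro F _ ⟨u, v, hu, hv, hr⟩
  refine ⟨u, v, hu, hv, hr.mono (Set.inter_subset_inter_right _ ?_)⟩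
  exact_mod_cast Finset.sdiff_subset

/-- Two one-arm events. -/
theorem two_arms {q : ℝ} (h0 : 0 ≤ q) (h1 : q ≤ 1) {s D M : ℕ} {z1 z2 : ℤ}
    (hz : 2 * (s:ℤ) < |z1| ∨ 2 * (s:ℤ) < |z2|) (hD1 : |z1| + s ≤ D) (hD2 : |z2| + s ≤ D)
    (hDM : D ≤ M) {S : Finset Edg} (hS : boxE M ⊆ S) :
    Pr (fun _ => q) S (fun F => Arm M F ∧ Arm M ((trl (-z1) (-z2)).mp F)) ≤
      (arm q s)^2 * barm q D M := by
  have ok := okq h0 h1
  have k1 := abs_le.mp (show |z1| ≤ D - s by omega)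
  have k2 := abs_le.mp (show |z2| ≤ D - s by omega)
  have hsD : (s:ℤ) ≤ D := by have := abs_nonneg z1; omega
  have hsM : s ≤ M := by omega
  have hA : boxE s ⊆ boxE D := boxE_mono (by omega)
  have hB : RE (z1 - s) (z1 + s) (z2 - s) (z2 + s) ⊆ boxE D := by
    unfold boxE
    apply RE_subset <;> omega
  have hDS : boxE D ⊆ S := (boxE_mono hDM).trans hS
  have e1 := t10_indep q hz (hA.trans hDS) (hB.trans hDS)
  have hloc : ∀ F : Finset Edg, F ⊆ S →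
      ((Arm s F ∧ Arm s ((trl (-z1) (-z2)).mp F)) ↔
        (Arm s (F ∩ boxE D) ∧ Arm s ((trl (-z1) (-z2)).mp (F ∩ boxE D)))) := by
    intro F _
    have e3 : (trl (-z1) (-z2)).mp (RE (z1 - s) (z1 + s) (z2 - s) (z2 + s)) = boxE s := by
      rw [trl_RE]; unfold boxE; congr 1 <;> ring
    have hs2 : boxE s ⊆ (trl (-z1) (-z2)).mp (boxE D) := by
      rw [← e3]
      exact LSym.mp_mono _ hB
    rw [LSym.mp_inter, ← Arm_local (F := F) hA, ← Arm_local (F := (trl (-z1) (-z2)).mp F) hs2]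
  have hsub2 : boxE M \ boxE D ⊆ S := Finset.sdiff_subset.trans hS
  have e2 := Pr_indep (p := fun _ => q) hDS hsub2 Finset.disjoint_sdiff
    (A := fun F => Arm s F ∧ Arm s ((trl (-z1) (-z2)).mp F)) (B := AnnC D M) hloc
    (fun F _ => AnnC_local (Finset.Subset.refl _))
  have e4 : Pr (fun _ => q) S (fun F => Arm M F ∧ Arm M ((trl (-z1) (-z2)).mp F)) ≤
      Pr (fun _ => q) S (fun F => (Arm s F ∧ Arm s ((trl (-z1) (-z2)).mp F)) ∧ AnnC D M F) := by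
    apply Pr_mono ok
    rintro F _ ⟨m1, m2⟩
    have hdown : ∀ G : Finset Edg, Arm M G → Arm s G := by
      rintro G ⟨v, hv, hr⟩
      have h' : (s:ℤ) ≤ M := by exact_mod_cast hsM
      obtain ⟨w, l1, l2, l3⟩ := first_exit (G := ↑G ∩ ↑(boxE M)) (a := -(s:ℤ)) (b := s)
        (c := -(s:ℤ)) (d := s) (u := (0, 0)) (v := v) (by unfold inR; simp) hr
        (by unfold onB at hv; omega)
      refine ⟨w, ⟨l1, l2⟩, l3.mono ?_⟩
      rintro e ⟨⟨l4, -⟩, l5⟩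
      exact ⟨l4, l5⟩
    exact ⟨⟨hdown _ m1, hdown _ m2⟩, AnnC_of_arm m1⟩
  rw [e2, e1] at e4
  refine e4.trans ?_
  rw [sq]
  exact mul_le_mul_of_nonneg_left (pr_AnnC h0 h1 hS)
    (mul_nonneg (arm_nonneg h0 h1 _) (arm_nonneg h0 h1 _))

theorem arm_crit' : ∃ C : ℝ, 1 ≤ C ∧ ∀ s : ℕ, arm (1/2) s ≤ C * ((s:ℝ) + 1)^(-(5/48) : ℝ) := by
  obtain ⟨cc, Cc, hcc, hCc, harm⟩ := arm_crit
  refine ⟨max 1 (Cc * (2:ℝ)^(5/48 : ℝ)), le_max_left _ _, ?_⟩
  intro s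
  rcases Nat.eq_zero_or_pos s with h | h
  · subst h
    rw [arm_zero]
    simp
  · have hs : (1:ℝ) ≤ s := by exact_mod_cast h
    have hs0 : (0:ℝ) < s := by linarith
    calc arm (1/2) s ≤ Cc * (s:ℝ)^(-(5/48) : ℝ) := (harm s h).2
      _ ≤ Cc * ((2:ℝ)^(5/48 : ℝ) * ((s:ℝ) + 1)^(-(5/48) : ℝ)) := by
          apply mul_le_mul_of_nonneg_left _ hCc.le
          calc (s:ℝ)^(-(5/48) : ℝ) ≤ (((s:ℝ) + 1) / 2)^(-(5/48) : ℝ) :=
                Real.rpow_le_rpow_of_nonpos (by positivity) (by linarith) (by norm_num)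
            _ = _ := by
                rw [Real.div_rpow (by linarith) (by norm_num),
                  Real.rpow_neg (by norm_num : (0:ℝ) ≤ 2), div_inv_eq_mul, mul_comm]
      _ = (Cc * (2:ℝ)^(5/48 : ℝ)) * ((s:ℝ) + 1)^(-(5/48) : ℝ) := by ring
      _ ≤ _ := mul_le_mul_of_nonneg_right (le_max_right _ _) (by positivity)

/-- The crossing of an annulus. -/
theorem barm_crit : ∃ K : ℝ, 1 ≤ K ∧ ∀ D M : ℕ, 1 ≤ D → D ≤ M →
    barm (1/2) D M ≤ K * ((D:ℝ) / M)^(5/48 : ℝ) := by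
  obtain ⟨cc, Cc, hcc, hCc, harm⟩ := arm_crit
  obtain ⟨K0, hK0⟩ : ∃ K0 : ℝ, K0 = 2^188 * Cc / cc * (3:ℝ)^(5/48 : ℝ) := ⟨_, rfl⟩
  refine ⟨max ((3:ℝ)^(5/48 : ℝ)) K0, le_trans (Real.one_le_rpow (by norm_num) (by norm_num))
    (le_max_left _ _), ?_⟩
  intro D M hD hDM
  have hD0 : (0:ℝ) < D := by exact_mod_cast hD
  have hM0 : (0:ℝ) < M := by
    have : 1 ≤ M := by omega
    exact_mod_cast this
  have hpow : 0 < ((D:ℝ) / M)^(5/48 : ℝ) := by positivity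
  by_cases h3 : 3 * D ≤ M
  · have g := arm_glue (p := 1/2) le_rfl (by norm_num) hD h3
    have h1 := (harm (3 * D) (by omega)).1
    have h2 := (harm M (by omega)).2
    have hb0 : 0 ≤ barm (1/2) D M := barm_nonneg (by norm_num) (by norm_num) _ _
    have h4 : (1/2:ℝ)^188 * (cc * ((3 * D : ℕ) : ℝ)^(-(5/48) : ℝ)) * barm (1/2) D M ≤
        Cc * (M:ℝ)^(-(5/48) : ℝ) := by
      calc (1/2:ℝ)^188 * (cc * ((3 * D : ℕ) : ℝ)^(-(5/48) : ℝ)) * barm (1/2) D M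
          ≤ (1/2:ℝ)^188 * arm (1/2) (3 * D) * barm (1/2) D M :=
            mul_le_mul_of_nonneg_right (mul_le_mul_of_nonneg_left h1 (by positivity)) hb0
        _ = (1/2:ℝ)^188 * (arm (1/2) (3 * D) * barm (1/2) D M) := by ring
        _ ≤ _ := g.trans h2
    have h5 : ((3 * D : ℕ) : ℝ)^(-(5/48) : ℝ) = (3:ℝ)^(-(5/48) : ℝ) * (D:ℝ)^(-(5/48) : ℝ) := by
      push_cast
      rw [Real.mul_rpow (by norm_num) hD0.le]
    rw [h5] at h4
    have hden : 0 < (1/2:ℝ)^188 * (cc * ((3:ℝ)^(-(5/48) : ℝ) * (D:ℝ)^(-(5/48) : ℝ))) := by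
      positivity
    have h6 : barm (1/2) D M ≤ Cc * (M:ℝ)^(-(5/48) : ℝ) /
        ((1/2:ℝ)^188 * (cc * ((3:ℝ)^(-(5/48) : ℝ) * (D:ℝ)^(-(5/48) : ℝ)))) := by
      rw [le_div_iff₀ hden]
      linarith
    refine h6.trans ?_
    have h7 : Cc * (M:ℝ)^(-(5/48) : ℝ) /
        ((1/2:ℝ)^188 * (cc * ((3:ℝ)^(-(5/48) : ℝ) * (D:ℝ)^(-(5/48) : ℝ)))) =
        K0 * ((D:ℝ) / M)^(5/48 : ℝ) := by
      rw [hK0, Real.div_rpow hD0.le hM0.le, Real.rpow_neg hM0.le, Real.rpow_neg hD0.le,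
        Real.rpow_neg (by norm_num : (0:ℝ) ≤ 3)]
      have h8 : (0:ℝ) < (D:ℝ)^(5/48 : ℝ) := by positivity
      have h9 : (0:ℝ) < (M:ℝ)^(5/48 : ℝ) := by positivity
      field_simp
    rw [h7]
    exact mul_le_mul_of_nonneg_right (le_max_right _ _) hpow.le
  · push Not at h3
    have h4 : (1:ℝ) ≤ 3 * (D / M) := by
      rw [← mul_div_assoc, le_div_iff₀ hM0, one_mul]
      have : (M:ℝ) ≤ ((3 * D : ℕ) : ℝ) := by exact_mod_cast h3.le
      push_cast at this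
      exact this
    calc barm (1/2) D M ≤ 1 := barm_le_one (by norm_num) (by norm_num) _ _
      _ ≤ (3 * ((D:ℝ) / M))^(5/48 : ℝ) := Real.one_le_rpow h4 (by norm_num)
      _ = (3:ℝ)^(5/48 : ℝ) * ((D:ℝ) / M)^(5/48 : ℝ) := Real.mul_rpow (by norm_num) (by positivity)
      _ ≤ _ := mul_le_mul_of_nonneg_right (le_max_left _ _) hpow.le

/-- The pair events. -/
theorem pair_bound : ∃ K : ℝ, 0 < K ∧ ∀ (r : ℕ), 1 ≤ r → ∀ (x y : Vtx), x ∈ boxV r → y ∈ boxV r →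
    ∀ S : Finset Edg, boxE (5 * r) ⊆ S →
    Pr (fun _ => (1/2:ℝ)) S (fun F => Arm (4 * r) ((trl (-x.1) (-x.2)).mp F) ∧
      Arm (4 * r) ((trl (-y.1) (-y.2)).mp F)) ≤
      K * ((nrm (y.1 - x.1, y.2 - x.2) : ℝ) + 1)^(-(5/48) : ℝ) * (r:ℝ)^(-(5/48) : ℝ) := by
  obtain ⟨C, hC1, harm⟩ := arm_crit'
  obtain ⟨K, hK1, hbarm⟩ := barm_crit
  obtain ⟨cc, Cc, hcc, hCc, harm0⟩ := arm_crit
  refine ⟨C^2 * (3:ℝ)^(5/24 : ℝ) * K + Cc, by positivity, ?_⟩
  intro r hr x y hx hy S hS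
  have h0 : (0:ℝ) ≤ 1/2 := by norm_num
  have h1 : (1/2:ℝ) ≤ 1 := by norm_num
  have hr0 : (0:ℝ) < r := by exact_mod_cast hr
  have hx' := mem_boxV hx
  have hy' := mem_boxV hy
  unfold inR at hx' hy'
  simp only at hx' hy'
  obtain ⟨z1, hz1⟩ : ∃ z1 : ℤ, z1 = y.1 - x.1 := ⟨_, rfl⟩
  obtain ⟨z2, hz2⟩ : ∃ z2 : ℤ, z2 = y.2 - x.2 := ⟨_, rfl⟩
  rw [← hz1, ← hz2]
  obtain ⟨d, hd⟩ : ∃ d : ℕ, d = nrm (z1, z2) := ⟨_, rfl⟩
  rw [← hd]
  have hd2 : d ≤ 2 * r := by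
    rw [hd]
    unfold nrm
    simp only
    omega
  -- reduction to `x = 0`
  have e1 : Pr (fun _ => (1/2:ℝ)) S (fun F => Arm (4 * r) ((trl (-x.1) (-x.2)).mp F) ∧
      Arm (4 * r) ((trl (-y.1) (-y.2)).mp F)) =
      Pr (fun _ => (1/2:ℝ)) ((trl (-x.1) (-x.2)).mp S) (fun F => Arm (4 * r) F ∧
        Arm (4 * r) ((trl (-z1) (-z2)).mp F)) := by
    rw [LSym.pr]
    apply Pr_congr
    intro F _
    have e2 : (trl (-z1) (-z2)).mp ((trl (-x.1) (-x.2)).mp F) = (trl (-y.1) (-y.2)).mp F := by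
      ext ⟨a, b, c⟩
      simp only [LSym.mem_mp, trl_φs]
      have k1 : a - -z1 - -x.1 = a - -y.1 := by rw [hz1]; ring
      have k2 : b - -z2 - -x.2 = b - -y.2 := by rw [hz2]; ring
      rw [k1, k2]
    rw [e2]
  have hS2 : boxE (4 * r) ⊆ (trl (-x.1) (-x.2)).mp S := by
    have e3 : boxE (4 * r) = (trl (-x.1) (-x.2)).mp (RE (x.1 - ((4 * r : ℕ) : ℤ))
        (x.1 + ((4 * r : ℕ) : ℤ)) (x.2 - ((4 * r : ℕ) : ℤ)) (x.2 + ((4 * r : ℕ) : ℤ))) := by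
      rw [trl_RE]; unfold boxE; congr 1 <;> ring
    rw [e3]
    apply LSym.mp_mono
    refine Finset.Subset.trans ?_ hS
    unfold boxE
    apply RE_subset <;> push_cast <;> omega
  rw [e1]
  have hrp : 0 < (r:ℝ)^(-(5/48) : ℝ) := by positivity
  have hdp : 0 < ((d:ℝ) + 1)^(-(5/48) : ℝ) := by positivity
  rcases Nat.eq_zero_or_pos d with hd0 | hdpos
  · -- `x = y`
    have h2 : Pr (fun _ => (1/2:ℝ)) ((trl (-x.1) (-x.2)).mp S) (fun F => Arm (4 * r) F ∧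
        Arm (4 * r) ((trl (-z1) (-z2)).mp F)) ≤ arm (1/2) (4 * r) := by
      rw [← pr_Arm (1/2) hS2]
      exact Pr_mono (okq h0 h1) (fun F _ hF => hF.1)
    have h3 := (harm0 (4 * r) (by omega)).2
    have h4 : ((4 * r : ℕ) : ℝ)^(-(5/48) : ℝ) ≤ (r:ℝ)^(-(5/48) : ℝ) := by
      apply Real.rpow_le_rpow_of_nonpos hr0 _ (by norm_num)
      push_cast
      linarith
    have h5 : ((d:ℝ) + 1)^(-(5/48) : ℝ) = 1 := by rw [hd0]; simp
    rw [h5, mul_one]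
    calc _ ≤ arm (1/2) (4 * r) := h2
      _ ≤ Cc * ((4 * r : ℕ) : ℝ)^(-(5/48) : ℝ) := h3
      _ ≤ Cc * (r:ℝ)^(-(5/48) : ℝ) := mul_le_mul_of_nonneg_left h4 hCc.le
      _ ≤ _ := by
          apply mul_le_mul_of_nonneg_right _ hrp.le
          have : 0 ≤ C^2 * (3:ℝ)^(5/24 : ℝ) * K := by positivity
          linarith
  · obtain ⟨s, hs⟩ : ∃ s : ℕ, s = (d - 1) / 2 := ⟨_, rfl⟩
    have habs1 : |z1| ≤ d := by
      rw [hd]; unfold nrm; rw [Int.abs_eq_natAbs]; exact_mod_cast le_max_left _ _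
    have habs2 : |z2| ≤ d := by
      rw [hd]; unfold nrm; rw [Int.abs_eq_natAbs]; exact_mod_cast le_max_right _ _
    have hcase : 2 * (s:ℤ) < |z1| ∨ 2 * (s:ℤ) < |z2| := by
      have h2 : 2 * (s:ℤ) < d := by omega
      rcases nrm_cases (z1, z2) with h | h
      · left; rw [← hd] at h; simp only at h; omega
      · right; rw [← hd] at h; simp only at h; omega
    have h2 := two_arms h0 h1 (s := s) (D := 2 * d) (M := 4 * r) (z1 := z1) (z2 := z2) hcase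
      (by push_cast; omega) (by push_cast; omega) (by omega) hS2
    have h3 := hbarm (2 * d) (4 * r) (by omega) (by omega)
    have h4 := harm s
    have hd0 : (0:ℝ) < d := by exact_mod_cast hdpos
    have h5 : (arm (1/2) s)^2 ≤ C^2 * ((3:ℝ)^(5/24 : ℝ) * ((d:ℝ) + 1)^(-(5/24) : ℝ)) := by
      have i1 := pow_le_pow_left₀ (arm_nonneg h0 h1 s) h4 2
      refine i1.trans ?_
      rw [mul_pow]
      apply mul_le_mul_of_nonneg_left _ (by positivity)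
      have i2 : (((s:ℝ) + 1)^(-(5/48) : ℝ))^2 = ((s:ℝ) + 1)^(-(5/24) : ℝ) := by
        rw [← Real.rpow_natCast (((s:ℝ) + 1)^(-(5/48) : ℝ)), ← Real.rpow_mul (by positivity)]
        norm_num
      rw [i2]
      have i3 : ((d:ℝ) + 1) / 3 ≤ (s:ℝ) + 1 := by
        have : d + 1 ≤ 3 * (s + 1) := by omega
        have : ((d:ℝ) + 1) ≤ 3 * ((s:ℝ) + 1) := by exact_mod_cast this
        linarith
      calc ((s:ℝ) + 1)^(-(5/24) : ℝ) ≤ (((d:ℝ) + 1) / 3)^(-(5/24) : ℝ) :=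
            Real.rpow_le_rpow_of_nonpos (by positivity) i3 (by norm_num)
        _ = _ := by
            rw [Real.div_rpow (by linarith) (by norm_num),
              Real.rpow_neg (by norm_num : (0:ℝ) ≤ 3), div_inv_eq_mul, mul_comm]
    have h6 : (((2 * d : ℕ) : ℝ) / ((4 * r : ℕ) : ℝ))^(5/48 : ℝ) ≤
        ((d:ℝ) + 1)^(5/48 : ℝ) * (r:ℝ)^(-(5/48) : ℝ) := by
      rw [Real.rpow_neg hr0.le, ← div_eq_mul_inv, ← Real.div_rpow (by linarith) hr0.le]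
      apply Real.rpow_le_rpow (by positivity) _ (by norm_num)
      push_cast
      rw [div_le_div_iff₀ (by positivity) hr0]
      nlinarith
    have h7 : ((d:ℝ) + 1)^(-(5/24) : ℝ) * ((d:ℝ) + 1)^(5/48 : ℝ) = ((d:ℝ) + 1)^(-(5/48) : ℝ) := by
      rw [← Real.rpow_add (by positivity)]
      norm_num
    calc _ ≤ (arm (1/2) s)^2 * barm (1/2) (2 * d) (4 * r) := h2
      _ ≤ (C^2 * ((3:ℝ)^(5/24 : ℝ) * ((d:ℝ) + 1)^(-(5/24) : ℝ))) *
          (K * (((d:ℝ) + 1)^(5/48 : ℝ) * (r:ℝ)^(-(5/48) : ℝ))) := by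
          apply mul_le_mul h5 _ (barm_nonneg h0 h1 _ _) (by positivity)
          exact h3.trans (mul_le_mul_of_nonneg_left h6 (by linarith))
      _ = (C^2 * (3:ℝ)^(5/24 : ℝ) * K) * (((d:ℝ) + 1)^(-(5/24) : ℝ) * ((d:ℝ) + 1)^(5/48 : ℝ)) *
          (r:ℝ)^(-(5/48) : ℝ) := by ring
      _ = (C^2 * (3:ℝ)^(5/24 : ℝ) * K) * ((d:ℝ) + 1)^(-(5/48) : ℝ) * (r:ℝ)^(-(5/48) : ℝ) := by
          rw [h7]
      _ ≤ _ := by
          apply mul_le_mul_of_nonneg_right _ hrp.le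
          apply mul_le_mul_of_nonneg_right _ hdp.le
          linarith

end Pool.Agent.W424.NC
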