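import Pool.Agent.W424.NC.TwoUp

/-!
Critical bond percolation on the square lattice: upper bound for the volume of the cluster of the
origin.
-/

set_option maxHeartbeats 1000000

namespace Pool.Agent.W424.NC

open H31K H974 Finset MeasureTheory

theorem sum_nrm {f : ℕ → ℝ} (hf : ∀ r, 0 ≤ f r) (R : ℕ) :
    ∑ x ∈ boxV R, f (nrm x) ≤ ∑ r ∈ range (R + 1), 8 * ((r:ℝ) + 1) * f r := by
  classical
  have hmaps : ∀ x ∈ boxV R, nrm x ∈ range (R + 1) := by
    intro x hx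
    have h := mem_boxV hx
    unfold inR at h
    simp only at h
    rw [Finset.mem_range]
    unfold nrm
    omega
  rw [← Finset.sum_fiberwise_of_maps_to hmaps]
  apply Finset.sum_le_sum
  intro r _
  have h1 : ∑ x ∈ boxV R with nrm x = r, f (nrm x) = ∑ x ∈ boxV R with nrm x = r, f r :=
    Finset.sum_congr rfl (fun x hx => by rw [(Finset.mem_filter.mp hx).2])
  rw [h1, Finset.sum_const, nsmul_eq_mul]
  apply mul_le_mul_of_nonneg_right _ (hf r)
  refine le_trans ?_ (t10_T_card r)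
  have h2 : (boxV R).filter (fun x => nrm x = r) ⊆ t10_T r := by
    intro x hx
    have h3 : max x.1.natAbs x.2.natAbs = r := (Finset.mem_filter.mp hx).2
    have h4 := t10_T_mem x
    rw [h3] at h4
    exact h4
  exact_mod_cast Finset.card_le_card h2

theorem sum_nrm_pow {a : ℝ} (ha : a ≤ 1) (R : ℕ) :
    ∑ x ∈ boxV R, ((nrm x : ℝ) + 1)^(-a) ≤ 8 * ((R:ℝ) + 1)^(2 - a) := by
  refine (sum_nrm (f := fun r : ℕ => ((r:ℝ) + 1)^(-a)) (fun r => by positivity) R).trans ?_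
  have hR : (0:ℝ) < (R:ℝ) + 1 := by positivity
  have h1 : ∀ r ∈ range (R + 1), 8 * ((r:ℝ) + 1) * ((r:ℝ) + 1)^(-a) ≤
      8 * ((R:ℝ) + 1)^(1 - a) := by
    intro r hr
    have hr' : (r:ℝ) ≤ R := by
      have := Finset.mem_range.mp hr
      exact_mod_cast (by omega : r ≤ R)
    have hr0 : (0:ℝ) < (r:ℝ) + 1 := by positivity
    have h2 : ((r:ℝ) + 1) * ((r:ℝ) + 1)^(-a) = ((r:ℝ) + 1)^(1 - a) := by
      rw [sub_eq_add_neg, Real.rpow_add hr0, Real.rpow_one]
    rw [mul_assoc, h2]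
    apply mul_le_mul_of_nonneg_left _ (by norm_num)
    exact Real.rpow_le_rpow (by positivity) (by linarith) (by linarith)
  calc _ ≤ ∑ _r ∈ range (R + 1), 8 * ((R:ℝ) + 1)^(1 - a) := Finset.sum_le_sum h1
    _ = ((R:ℝ) + 1) * (8 * ((R:ℝ) + 1)^(1 - a)) := by
        rw [Finset.sum_const, Finset.card_range, nsmul_eq_mul]; push_cast; ring
    _ = 8 * ((R:ℝ) + 1)^(2 - a) := by
        have e : (2 - a) = 1 + (1 - a) := by ring
        rw [e, Real.rpow_add hR, Real.rpow_one]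
        ring

/-- The cluster of the origin has at least `n` vertices. -/
def Vol (n : ℕ) : Set (sqLattice.edgeSet → Bool) := {ω | (n : ℕ∞) ≤ (cluster0 ω).encard}

theorem vol_split (p : unitInterval) {n : ℕ} (hn : 1 ≤ n) (R : ℕ) :
    (bondLaw p).real (Vol n) ≤ arm p R + (∑ x ∈ boxV R, tau p x) / n := by
  classical
  obtain ⟨f, hf⟩ : ∃ f : (sqLattice.edgeSet → Bool) → ENNReal, f = fun ω => ∑ x ∈ boxV R,
      Set.indicator {ω | x ∈ cluster0 ω} (fun _ => (1:ENNReal)) ω := ⟨_, rfl⟩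
  have hmeas : Measurable f := by
    rw [hf]
    exact Finset.measurable_sum _ (fun x _ => measurable_one.indicator (t10_meas x))
  have hint : ∫⁻ ω, f ω ∂(bondLaw p) = ENNReal.ofReal (∑ x ∈ boxV R, tau p x) := by
    rw [hf, lintegral_finset_sum, ENNReal.ofReal_sum_of_nonneg (fun x _ => tau_nonneg p x)]
    · apply Finset.sum_congr rfl
      intro x _
      have h2 : ∫⁻ ω, Set.indicator {ω | x ∈ cluster0 ω} (fun _ => (1 : ENNReal)) ω ∂(bondLaw p) =
          (bondLaw p) {ω | x ∈ cluster0 ω} := lintegral_indicator_one (t10_meas x)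
      rw [h2]
      unfold tau
      rw [measureReal_def, ENNReal.ofReal_toReal (measure_ne_top _ _)]
    · intro x _
      exact measurable_one.indicator (t10_meas x)
  have hM := mul_meas_ge_le_lintegral (μ := bondLaw p) hmeas (n : ENNReal)
  rw [hint] at hM
  have hn0 : (0:ℝ) < n := by exact_mod_cast hn
  have hA : (bondLaw p).real {ω | (n:ENNReal) ≤ f ω} ≤ (∑ x ∈ boxV R, tau p x) / n := by
    have h1 := ENNReal.toReal_mono ENNReal.ofReal_ne_top hM
    rw [ENNReal.toReal_mul, ENNReal.toReal_natCast,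
      ENNReal.toReal_ofReal (Finset.sum_nonneg fun x _ => tau_nonneg p x)] at h1
    rw [le_div_iff₀ hn0, mul_comm]
    exact h1
  have hsub : Vol n ⊆ ArmE R ∪ {ω | (n:ENNReal) ≤ f ω} := by
    intro ω hω
    by_cases h : ω ∈ ArmE R
    · exact Or.inl h
    · right
      have hc : cluster0 ω ⊆ ↑((boxV R).filter (fun x => x ∈ cluster0 ω)) := by
        intro x hx
        rw [Finset.mem_coe, Finset.mem_filter]
        refine ⟨?_, hx⟩
        by_contra hnot
        apply h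
        rw [armE_iff]
        obtain ⟨w, k1, k2, k3⟩ := first_exit (a := -(R:ℤ)) (b := R) (c := -(R:ℤ)) (d := R)
          (by unfold inR; simp) (t10_reach hx) (by
            unfold boxV at hnot
            simp only [Finset.mem_product, Finset.mem_Icc] at hnot
            omega)
        exact ⟨w, ⟨k1, k2⟩, k3⟩
      have h1 : (cluster0 ω).encard ≤
          (((boxV R).filter (fun x => x ∈ cluster0 ω)).card : ℕ∞) := by
        have := Set.encard_le_encard hc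
        rwa [Set.encard_coe_eq_coe_finsetCard] at this
      have h2 : (n:ℕ∞) ≤ (((boxV R).filter (fun x => x ∈ cluster0 ω)).card : ℕ∞) :=
        le_trans hω h1
      have h3 : n ≤ ((boxV R).filter (fun x => x ∈ cluster0 ω)).card := by exact_mod_cast h2
      show (n:ENNReal) ≤ f ω
      have h4 : f ω = (((boxV R).filter (fun x => x ∈ cluster0 ω)).card : ENNReal) := by
        rw [hf, Finset.card_filter]
        push_cast
        apply Finset.sum_congr rfl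
        intro x _
        rw [Set.indicator_apply]
        rfl
      rw [h4]
      exact_mod_cast h3
  calc (bondLaw p).real (Vol n) ≤ (bondLaw p).real (ArmE R ∪ {ω | (n:ENNReal) ≤ f ω}) :=
        measureReal_mono hsub
    _ ≤ (bondLaw p).real (ArmE R) + (bondLaw p).real {ω | (n:ENNReal) ≤ f ω} :=
        measureReal_union_le _ _
    _ ≤ _ := by
        rw [law_armE]
        linarith

/-- Upper bound for the volume of the critical cluster. -/
theorem vol_upper : ∃ C : ℝ, 0 < C ∧ ∀ n : ℕ, 1 ≤ n →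
    (bondLaw hlf).real (Vol n) ≤ C * (n:ℝ)^(-(5/91) : ℝ) := by
  obtain ⟨cc, Cc, hcc, hCc, harm⟩ := arm_crit
  obtain ⟨C1, hC1, htau⟩ := tau_near
  refine ⟨Cc * (2:ℝ)^(5/48 : ℝ) + C1 * (8 * (2:ℝ)^(43/24 : ℝ)), by positivity, ?_⟩
  intro n hn
  have hn1 : (1:ℝ) ≤ n := by exact_mod_cast hn
  have hn0 : (0:ℝ) < n := by linarith
  obtain ⟨y, hy⟩ : ∃ y : ℝ, y = (n:ℝ)^(48/91 : ℝ) := ⟨_, rfl⟩
  have hy1 : 1 ≤ y := by rw [hy]; exact Real.one_le_rpow hn1 (by norm_num)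
  obtain ⟨R, hR⟩ : ∃ R : ℕ, R = ⌊y⌋₊ := ⟨_, rfl⟩
  have hR1 : 1 ≤ R := by rw [hR]; exact Nat.le_floor (by exact_mod_cast hy1)
  have hR1' : (1:ℝ) ≤ R := by exact_mod_cast hR1
  have hRy : (R:ℝ) ≤ y := by rw [hR]; exact Nat.floor_le (by linarith)
  have hyR : y ≤ 2 * R := by
    have h3 : y < R + 1 := by rw [hR]; exact Nat.lt_floor_add_one y
    linarith
  have h1 := vol_split hlf hn R
  have hhlf : ((hlf : unitInterval) : ℝ) = 1/2 := rfl
  have h2 : arm hlf R ≤ Cc * (2:ℝ)^(5/48 : ℝ) * (n:ℝ)^(-(5/91) : ℝ) := by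
    rw [hhlf]
    refine (harm R hR1).2.trans ?_
    rw [mul_assoc]
    apply mul_le_mul_of_nonneg_left _ hCc.le
    calc (R:ℝ)^(-(5/48) : ℝ) ≤ (y/2)^(-(5/48) : ℝ) :=
          Real.rpow_le_rpow_of_nonpos (by positivity) (by linarith) (by norm_num)
      _ = (2:ℝ)^(5/48 : ℝ) * (n:ℝ)^(-(5/91) : ℝ) := by
          rw [Real.div_rpow (by linarith) (by norm_num), hy, ← Real.rpow_mul hn0.le,
            Real.rpow_neg (by norm_num : (0:ℝ) ≤ 2), div_inv_eq_mul, mul_comm]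
          norm_num
  have h3 : (∑ x ∈ boxV R, tau hlf x) / n ≤
      C1 * (8 * (2:ℝ)^(43/24 : ℝ)) * (n:ℝ)^(-(5/91) : ℝ) := by
    rw [div_le_iff₀ hn0]
    have h4 : ∑ x ∈ boxV R, tau hlf x ≤ C1 * (8 * ((R:ℝ) + 1)^(2 - 5/24 : ℝ)) := by
      calc ∑ x ∈ boxV R, tau hlf x ≤ ∑ x ∈ boxV R, C1 * ((nrm x : ℝ) + 1)^(-(5/24) : ℝ) :=
            Finset.sum_le_sum (fun x _ => htau hlf (le_of_eq hhlf) x)
        _ = C1 * ∑ x ∈ boxV R, ((nrm x : ℝ) + 1)^(-(5/24) : ℝ) := by rw [Finset.mul_sum]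
        _ ≤ _ := mul_le_mul_of_nonneg_left (sum_nrm_pow (by norm_num) R) (by linarith)
    have h5 : ((R:ℝ) + 1)^(2 - 5/24 : ℝ) ≤ (2:ℝ)^(43/24 : ℝ) * (n:ℝ)^(86/91 : ℝ) := by
      have e : (2 - 5/24 : ℝ) = 43/24 := by norm_num
      rw [e]
      calc ((R:ℝ) + 1)^(43/24 : ℝ) ≤ (2 * y)^(43/24 : ℝ) :=
            Real.rpow_le_rpow (by positivity) (by linarith) (by norm_num)
        _ = (2:ℝ)^(43/24 : ℝ) * (n:ℝ)^(86/91 : ℝ) := by
            rw [Real.mul_rpow (by norm_num) (by linarith), hy, ← Real.rpow_mul hn0.le]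
            norm_num
    have h6 : (n:ℝ)^(-(5/91) : ℝ) * n = (n:ℝ)^(86/91 : ℝ) := by
      nth_rewrite 2 [← Real.rpow_one (n:ℝ)]
      rw [← Real.rpow_add hn0]
      norm_num
    calc ∑ x ∈ boxV R, tau hlf x ≤ C1 * (8 * ((R:ℝ) + 1)^(2 - 5/24 : ℝ)) := h4
      _ ≤ C1 * (8 * ((2:ℝ)^(43/24 : ℝ) * (n:ℝ)^(86/91 : ℝ))) := by
          apply mul_le_mul_of_nonneg_left _ (by linarith)
          linarith
      _ = C1 * (8 * (2:ℝ)^(43/24 : ℝ)) * (n:ℝ)^(86/91 : ℝ) := by ring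
      _ = C1 * (8 * (2:ℝ)^(43/24 : ℝ)) * ((n:ℝ)^(-(5/91) : ℝ) * n) := by rw [h6]
      _ = _ := by ring
  calc (bondLaw hlf).real (Vol n) ≤ arm hlf R + (∑ x ∈ boxV R, tau hlf x) / n := h1
    _ ≤ Cc * (2:ℝ)^(5/48 : ℝ) * (n:ℝ)^(-(5/91) : ℝ) +
        C1 * (8 * (2:ℝ)^(43/24 : ℝ)) * (n:ℝ)^(-(5/91) : ℝ) := add_le_add h2 h3
    _ = _ := by ring

end Pool.Agent.W424.NC
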