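import Pool.Agent.W424.NC.ArmLow
import Pool.Agent.W424.NC.ArmUp

/-!
Near-critical crossing probabilities of rectangles: `exp (-Θ(w |p - 1/2|^(4/3)))`.
-/

set_option maxHeartbeats 1000000

namespace Pool.Agent.W424.NC

open H31K H974 Finset

/-- Crossing of a long rectangle. -/
theorem longj {p : ℝ} (h0 : 0 ≤ p) (h1 : p ≤ 1) {N : ℕ} (hN : 2 ≤ N) (j : ℕ) :
    1 - hh p (((j:ℤ) + 2) * N) (N - 1) ≤ (2 * (j:ℝ) + 1) * eps p N := by
  have hE : eps p N = 1 - hh p (2 * (N:ℤ)) (N - 1) := rfl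
  induction j with
  | zero =>
    have e1 : (((0:ℕ):ℤ) + 2) * (N:ℤ) = 2 * (N:ℤ) := by push_cast; ring
    rw [e1, hE]
    push_cast
    linarith
  | succ j ih =>
    obtain ⟨n, hn⟩ : ∃ n : ℤ, n = (N:ℤ) := ⟨_, rfl⟩
    have hn2 : 2 ≤ n := by rw [hn]; exact_mod_cast hN
    rw [← hn] at ih hE ⊢
    have hj : (0:ℤ) ≤ j := by positivity
    have hjn : 0 ≤ (j:ℤ) * n := by positivity
    obtain ⟨a, ha⟩ : ∃ a : ℤ, a = ((j:ℤ) + 1) * n := ⟨_, rfl⟩
    have ha1 : a = (j:ℤ) * n + n := by rw [ha]; ring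
    have ha0 : n ≤ a := by omega
    have eA : ((j:ℤ) + 2) * n = a + n := by rw [ha]; ring
    have eB : (((j + 1 : ℕ) : ℤ) + 2) * n = a + 2 * n := by rw [ha]; push_cast; ring
    rw [eA] at ih
    rw [eB]
    have ok := okq h0 h1
    obtain ⟨S, hS⟩ : ∃ S : Finset Edg, S = RE 0 (a + 2 * n) 0 (n - 1) := ⟨_, rfl⟩
    have s1 : LRE 0 (a + n) 0 (n - 1) ⊆ S := by
      rw [hS]; exact LRE_subset_RE.trans (RE_subset le_rfl (by omega) le_rfl le_rfl)
    have s2 : LRE a (a + 2 * n) 0 (n - 1) ⊆ S := by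
      rw [hS]; exact LRE_subset_RE.trans (RE_subset (by omega) le_rfl le_rfl le_rfl)
    have s3 : TBE a (a + n) 0 (n - 1) ⊆ S := by
      rw [hS]; exact TBE_subset_RE.trans (RE_subset (by omega) (by omega) le_rfl le_rfl)
    have s4 : LRE 0 (a + 2 * n) 0 (n - 1) ⊆ S := by
      rw [hS]; exact LRE_subset_RE
    have e1 : Pr (fun _ => p) S (LRc 0 (a + n) 0 (n - 1)) = hh p (a + n) (n - 1) := by
      rw [pr_LRc p s1]; simp
    have e2 : Pr (fun _ => p) S (LRc a (a + 2 * n) 0 (n - 1)) = 1 - eps p N := by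
      rw [pr_LRc p s2, hE]
      have : a + 2 * n - a = 2 * n := by ring
      rw [this, sub_zero]; ring
    have e3 : 1 - eps p N ≤ Pr (fun _ => p) S (TBc a (a + n) 0 (n - 1)) := by
      rw [pr_TBc p s3, hE]
      have : a + n - a = n := by ring
      rw [this, sub_zero]
      have hTB : hh p (2 * n) (n - 1) ≤ hh p (n - 1) n :=
        hh_mono h0 h1 (by omega) (by omega) (by omega)
      linarith
    have e4 : Pr (fun _ => p) S (LRc 0 (a + 2 * n) 0 (n - 1)) = hh p (a + 2 * n) (n - 1) := by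
      rw [pr_LRc p s4]; simp
    have i1 := Pr_and_ge ok S (LRc 0 (a + n) 0 (n - 1)) (LRc a (a + 2 * n) 0 (n - 1))
    have i2 := Pr_and_ge ok S (fun F => LRc 0 (a + n) 0 (n - 1) F ∧ LRc a (a + 2 * n) 0 (n - 1) F)
      (TBc a (a + n) 0 (n - 1))
    have i3 : Pr (fun _ => p) S (fun F => (LRc 0 (a + n) 0 (n - 1) F ∧
        LRc a (a + 2 * n) 0 (n - 1) F) ∧ TBc a (a + n) 0 (n - 1) F) ≤
        Pr (fun _ => p) S (LRc 0 (a + 2 * n) 0 (n - 1)) := by
      apply Pr_mono ok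
      rintro F _ ⟨⟨k1, k2⟩, k3⟩
      exact glue (by omega) (by omega) (by omega) (by omega) k1 k2 k3
    have e5 : (2 * ((j + 1 : ℕ) : ℝ) + 1) * eps p N = (2 * (j:ℝ) + 1) * eps p N + 2 * eps p N := by
      push_cast; ring
    rw [e5]
    linarith

/-- Upper bound below the critical point. -/
theorem win_upper (K : ℕ) (hK : 1 ≤ K) : ∃ c C : ℝ, 0 < c ∧ 0 < C ∧ ∀ p : ℝ, 0 ≤ p → p ≤ 1/2 →
    ∀ w h : ℕ, 1 ≤ w → w ≤ K * h → h ≤ K * w →
      hh p w h ≤ C * Real.exp (-(c * (w * (1/2 - p)^(4/3 : ℝ)))) := by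
  obtain ⟨E, hE, hfar⟩ := farN
  refine ⟨1 / (2 * E), 4 * K + 2, by positivity, by positivity, ?_⟩
  intro p hp0 hp w h hw hwh hhw
  have h1 : p ≤ 1 := by linarith
  have hwr : (1:ℝ) ≤ w := by exact_mod_cast hw
  have hKr : (1:ℝ) ≤ K := by exact_mod_cast hK
  have hle1 := hh_le_one hp0 h1 w h
  rcases eq_or_lt_of_le hp with heq | hlt
  · rw [heq] at hle1 ⊢
    have e1 : ((1:ℝ)/2 - 1/2)^(4/3 : ℝ) = 0 := by
      rw [sub_self]
      exact Real.zero_rpow (by norm_num)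
    rw [e1, mul_zero, mul_zero, neg_zero, Real.exp_zero]
    linarith
  obtain ⟨N, hN2, hNE, hN1, heps⟩ := hfar p hp0 hlt
  obtain ⟨H, hH⟩ : ∃ H : ℝ, H = (1/2 - p)^(4/3 : ℝ) := ⟨_, rfl⟩
  have hs0 : 0 < 1/2 - p := by linarith
  have hH0 : 0 < H := by rw [hH]; positivity
  rw [← hH] at hNE hN1 ⊢
  have hE0 : 0 < E := by linarith
  by_cases hwN : w < N
  · have hwN' : (w:ℝ) ≤ N := by exact_mod_cast hwN.le
    have hb : 1 / (2 * E) * (w * H) ≤ 1/2 := by
      have h2 : w * H ≤ N * H := mul_le_mul_of_nonneg_right hwN' hH0.le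
      rw [div_mul_eq_mul_div, one_mul, div_le_iff₀ (by positivity)]
      linarith
    have h3 : (1:ℝ)/2 ≤ Real.exp (-(1 / (2 * E) * (w * H))) := by
      have := Real.add_one_le_exp (-(1 / (2 * E) * (w * H)))
      linarith
    nlinarith
  · push Not at hwN
    obtain ⟨j, hj1, hj2⟩ : ∃ j : ℕ, 2^j * N ≤ w ∧ w < 2^(j+1) * N := by
      have hN0 : 0 < N := by omega
      have hd : w / N ≠ 0 := by
        have := Nat.div_pos hwN hN0
        omega
      refine ⟨Nat.log 2 (w / N), ?_, ?_⟩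
      · have := Nat.pow_log_le_self 2 hd
        calc 2 ^ Nat.log 2 (w / N) * N ≤ (w / N) * N := Nat.mul_le_mul_right _ this
          _ ≤ w := Nat.div_mul_le_self _ _
      · have := Nat.lt_pow_succ_log_self (b := 2) (by norm_num) (w / N)
        have h2 : w / N + 1 ≤ 2 ^ (Nat.log 2 (w / N) + 1) := this
        have h3 : w < (w / N + 1) * N := by
          have := Nat.lt_div_mul_add (a := w) hN0
          rw [add_mul, one_mul]
          exact this
        exact lt_of_lt_of_le h3 (Nat.mul_le_mul_right _ h2)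
    obtain ⟨M, hM⟩ : ∃ M : ℕ, M = 2^j * N := ⟨_, rfl⟩
    have hM2 : 2 ≤ M := by
      rw [hM]
      calc 2 ≤ N := hN2
        _ ≤ 2^j * N := Nat.le_mul_of_pos_left _ (by positivity)
    have hMw : M ≤ w := by rw [hM]; exact hj1
    have hw2M : w < 2 * M := by
      rw [hM]
      calc w < 2^(j+1) * N := hj2
        _ = 2 * (2^j * N) := by ring
    have hq0 : 0 ≤ 1 - p := by linarith
    have hq1 : 1 - p ≤ 1 := by linarith
    have hdual := hh_dual (q := p) (w := (w:ℤ)) (h := (h:ℤ)) (by exact_mod_cast hw) (by positivity)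
    have hep := eps_pow2 hq0 hq1 hN2 heps j
    rw [← hM] at hep
    have hepn : 0 ≤ eps (1 - p) M := by
      have h2 : eps (1 - p) M = 1 - hh (1 - p) (2 * (M:ℤ)) (M - 1) := rfl
      have := hh_le_one hq0 hq1 (2 * (M:ℤ)) (M - 1)
      linarith
    obtain ⟨J, hJ⟩ : ∃ J : ℕ, K = J + 1 := ⟨K - 1, by omega⟩
    have hlong := longj hq0 hq1 hM2 (2 * J + 1)
    have hmono : hh (1 - p) ((((2 * J + 1 : ℕ):ℤ) + 2) * M) (M - 1) ≤
        hh (1 - p) ((h:ℤ) + 1) ((w:ℤ) - 1) := by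
      apply hh_mono hq0 hq1
      · positivity
      · have h2 : h + 1 ≤ (2 * J + 3) * M := by
          have h3 : h ≤ (J + 1) * w := by rw [← hJ]; exact hhw
          have h4 : (J + 1) * w ≤ (J + 1) * (2 * M) := Nat.mul_le_mul_left _ hw2M.le
          have h5 : (2 * J + 3) * M = (J + 1) * (2 * M) + M := by ring
          omega
        have h3 : ((h + 1 : ℕ) : ℤ) ≤ (((2 * J + 3) * M : ℕ) : ℤ) := by exact_mod_cast h2
        push_cast at h3 ⊢
        linarith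
      · have : (M:ℤ) ≤ w := by exact_mod_cast hMw
        linarith
    have hy : (w:ℝ) * H / (2 * E) ≤ (2:ℝ)^j := by
      rw [div_le_iff₀ (by positivity)]
      have h2 : (w:ℝ) ≤ 2 * (2^j * N) := by
        have : w ≤ 2 * (2^j * N) := by rw [← hM]; exact hw2M.le
        exact_mod_cast this
      calc (w:ℝ) * H ≤ (2 * (2^j * N)) * H := mul_le_mul_of_nonneg_right h2 hH0.le
        _ = 2^j * 2 * (N * H) := by ring
        _ ≤ 2^j * 2 * E := mul_le_mul_of_nonneg_left hNE (by positivity)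
        _ = 2^j * (2 * E) := by ring
    have hqp := quarter_pow_le hy
    have e2 : 1 / (2 * E) * (w * H) = w * H / (2 * E) := by ring
    rw [e2]
    have hJr : (K:ℝ) = J + 1 := by rw [hJ]; push_cast; ring
    have h6 : (2 * ((2 * J + 1 : ℕ):ℝ) + 1) * eps (1 - p) M ≤ (4 * K + 2) * eps (1 - p) M := by
      apply mul_le_mul_of_nonneg_right _ hepn
      push_cast
      rw [hJr]
      linarith
    have h7 : eps (1 - p) M ≤ Real.exp (-(w * H / (2 * E))) := by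
      have := Real.exp_pos (-(w * H / (2 * E)))
      linarith
    calc hh p w h = 1 - hh (1 - p) ((h:ℤ) + 1) ((w:ℤ) - 1) := hdual
      _ ≤ (4 * K + 2) * eps (1 - p) M := by linarith
      _ ≤ (4 * K + 2) * Real.exp (-(w * H / (2 * E))) :=
        mul_le_mul_of_nonneg_left h7 (by positivity)

/-- Lower bound below the critical point. -/
theorem win_lower (K : ℕ) (hK : 1 ≤ K) : ∃ c C : ℝ, 0 < c ∧ 0 < C ∧ ∀ p : ℝ, 1/4 ≤ p → p ≤ 1/2 →
    ∀ w h : ℕ, 1 ≤ w → 1 ≤ h → w ≤ K * h → h ≤ K * w →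
      c * Real.exp (-(C * (w * (1/2 - p)^(4/3 : ℝ)))) ≤ hh p w h := by
  obtain ⟨κ, a, C, hκ, ha, hC, hG⟩ := nearG
  obtain ⟨L, hL⟩ : ∃ L : ℝ, L = Real.log (1 / κ) := ⟨_, rfl⟩
  have hκ2 : κ ≤ 1/2 := by
    obtain ⟨m, -, -, hW, -⟩ := hG (1/2) 1 (by norm_num) le_rfl le_rfl
    exact hW.kle
  have hL0 : 0 < L := by
    rw [hL]
    apply Real.log_pos
    rw [lt_div_iff₀ hκ]
    linarith
  refine ⟨κ * Real.exp (-(2 * L * K)), 2 * L * C, by positivity, by positivity, ?_⟩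
  intro p hp hp1 w h hw hh1 hwh hhw
  have h0 : 0 ≤ p := by linarith
  have h1 : p ≤ 1 := by linarith
  have hs0 : 0 ≤ 1/2 - p := by linarith
  obtain ⟨n, hn⟩ : ∃ n : ℕ, n = min w h := ⟨_, rfl⟩
  have hn1 : 1 ≤ n := by rw [hn]; exact le_min hw hh1
  have hnh : n ≤ h := by rw [hn]; exact min_le_right _ _
  have hwn : w ≤ K * n := by
    rw [hn]
    rcases min_choice w h with e | e
    · rw [e]; exact Nat.le_mul_of_pos_left _ hK
    · rw [e]; exact hwh
  obtain ⟨m, hm, hmn, hW, -, hcase⟩ := hG p n hp hp1 hn1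
  obtain ⟨H, hH⟩ : ∃ H : ℝ, H = (1/2 - p)^(4/3 : ℝ) := ⟨_, rfl⟩
  have hH0 : 0 ≤ H := by rw [hH]; positivity
  rw [← hH] at hcase ⊢
  have hm0 : (0:ℝ) < m := by exact_mod_cast hm
  have hw0 : (0:ℝ) < w := by exact_mod_cast hw
  have h2 := hh_exp (hW.anti (show m ≤ 4 * m by omega)) hm hw
  rw [← hL] at h2
  have h3 : hh p w m ≤ hh p w h := by
    apply hh_mono h0 h1
    · exact_mod_cast hw
    · exact le_rfl
    · exact_mod_cast hmn.trans hnh
  refine le_trans ?_ (h2.trans h3)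
  rw [mul_assoc, ← Real.exp_add]
  apply mul_le_mul_of_nonneg_left _ hκ.le
  apply Real.exp_le_exp.mpr
  have h4 : (w:ℝ) / m ≤ K + C * (w * H) := by
    rw [div_le_iff₀ hm0]
    rcases hcase with h5 | h5
    · rw [h5]
      have h6 : (w:ℝ) ≤ K * n := by exact_mod_cast hwn
      have h7 : 0 ≤ C * (w * H) * (n:ℝ) := by positivity
      nlinarith
    · have h7 : (w:ℝ) * 1 ≤ w * (C * (m * H)) := mul_le_mul_of_nonneg_left h5 hw0.le
      have h8 : 0 ≤ (K:ℝ) * m := by positivity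
      nlinarith
  have h5 : 2 * L * ((w:ℝ) / m) ≤ 2 * L * (K + C * (w * H)) :=
    mul_le_mul_of_nonneg_left h4 (by positivity)
  nlinarith

/-- The dual form of the lower bound. -/
theorem win_lower_dual (K : ℕ) (hK : 1 ≤ K) : ∃ c C : ℝ, 0 < c ∧ 0 < C ∧
    ∀ p : ℝ, 1/4 ≤ p → p ≤ 1/2 → ∀ w h : ℕ, 1 ≤ w → 1 ≤ h → w ≤ K * h → h ≤ K * w →
      c * Real.exp (-(C * (w * (1/2 - p)^(4/3 : ℝ)))) ≤ 1 - hh (1 - p) w h := by
  obtain ⟨c, C, hc, hC, hlow⟩ := win_lower (2 * K + 1) (by omega)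
  obtain ⟨δ, hδ⟩ : ∃ δ : ℝ, δ = hh (1/4) ((K:ℤ) + 1) 0 := ⟨_, rfl⟩
  have hδ0 : 0 < δ := by
    rw [hδ]
    refine lt_of_lt_of_le (pow_pos (by norm_num : (0:ℝ) < 1/4) (LRE 0 ((K:ℤ) + 1) 0 0).card)
      (Pr_full (by norm_num) (by norm_num) (LRE 0 ((K:ℤ) + 1) 0 0) ?_)
    refine ⟨0, 0, by omega, by omega, ?_⟩
    have e1 : ((K:ℤ) + 1) = ((K + 1 : ℕ) : ℤ) := by push_cast; ring
    rw [e1]
    apply reach_line
    intro x h2 h3
    have : ((x, (0:ℤ), true) : Edg) ∈ LRE 0 ((K + 1 : ℕ):ℤ) 0 0 := by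
      simp only [mem_LRE_true]; omega
    exact ⟨by exact_mod_cast this, by exact_mod_cast this⟩
  refine ⟨min c δ, 2 * K * C, lt_min hc hδ0, by positivity, ?_⟩
  intro p hp hp1 w h hw hh1 hwh hhw
  have h0 : 0 ≤ p := by linarith
  have h1 : p ≤ 1 := by linarith
  have hs0 : 0 ≤ 1/2 - p := by linarith
  have hdual := hh_dual (q := 1 - p) (w := (w:ℤ)) (h := (h:ℤ)) (by exact_mod_cast hw)
    (by positivity)
  have e1 : 1 - (1 - p) = p := by ring
  rw [e1] at hdual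
  have e2 : 1 - hh (1 - p) w h = hh p ((h:ℤ) + 1) ((w:ℤ) - 1) := by rw [hdual]; ring
  rw [e2]
  obtain ⟨H, hH⟩ : ∃ H : ℝ, H = (1/2 - p)^(4/3 : ℝ) := ⟨_, rfl⟩
  have hH0 : 0 ≤ H := by rw [hH]; positivity
  have hlow' := hlow p hp hp1
  rw [← hH] at hlow' ⊢
  have hw0 : (0:ℝ) < w := by exact_mod_cast hw
  have hK0 : (0:ℝ) < K := by exact_mod_cast hK
  rcases eq_or_lt_of_le hw with hw1 | hw2
  · have h3 : δ ≤ hh p ((h:ℤ) + 1) ((w:ℤ) - 1) := by
      rw [hδ, ← hw1]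
      have e3 : (((1:ℕ):ℤ) - 1) = 0 := by norm_num
      rw [e3]
      refine (hh_mono_param (by norm_num) hp h1 _ _).trans ?_
      apply hh_mono h0 h1
      · positivity
      · have : h ≤ K := by rw [← hw1, mul_one] at hhw; exact hhw
        have : (h:ℤ) ≤ K := by exact_mod_cast this
        linarith
      · exact le_rfl
    have h4 : Real.exp (-(2 * K * C * (w * H))) ≤ 1 := by
      rw [Real.exp_le_one_iff]
      have : 0 ≤ 2 * K * C * (w * H) := by positivity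
      linarith
    calc min c δ * Real.exp (-(2 * K * C * (w * H))) ≤ δ * 1 :=
          mul_le_mul (min_le_right _ _) h4 (Real.exp_pos _).le hδ0.le
      _ ≤ _ := by rw [mul_one]; exact h3
  · obtain ⟨v, hv⟩ : ∃ v : ℕ, w = v + 1 := ⟨w - 1, by omega⟩
    have hv1 : 1 ≤ v := by omega
    have h3 := hlow' (h + 1) v (by omega) hv1 (by
      have h4 : h ≤ K * (v + 1) := by rw [← hv]; exact hhw
      have h5 : K ≤ K * v := Nat.le_mul_of_pos_right _ hv1
      have h6 : (2 * K + 1) * v = K * v + K * v + v := by ring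
      have h7 : K * (v + 1) = K * v + K := by ring
      omega) (by
      have h4 : v + 1 ≤ K * h := by rw [← hv]; exact hwh
      have h6 : (2 * K + 1) * (h + 1) = K * h + K * h + h + 2 * K + 1 := by ring
      omega)
    have e3 : hh p ((h:ℤ) + 1) ((w:ℤ) - 1) = hh p ((h + 1 : ℕ) : ℤ) (v:ℤ) := by
      rw [hv]; push_cast; congr 1; ring
    rw [e3]
    refine le_trans ?_ h3
    apply mul_le_mul (min_le_left _ _) _ (Real.exp_pos _).le hc.le
    apply Real.exp_le_exp.mpr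
    have h4 : ((h + 1 : ℕ) : ℝ) ≤ 2 * K * w := by
      have h5 : h + 1 ≤ 2 * K * w := by
        have h6 : 2 * K * w = K * w + K * w := by ring
        have h7 : 1 ≤ K * w := Nat.mul_pos hK hw
        omega
      exact_mod_cast h5
    have h5 : ((h + 1 : ℕ) : ℝ) * H ≤ 2 * K * w * H := mul_le_mul_of_nonneg_right h4 hH0
    have h6 : C * (((h + 1 : ℕ) : ℝ) * H) ≤ C * (2 * K * w * H) :=
      mul_le_mul_of_nonneg_left h5 hC.le
    have e4 : 2 * K * C * (w * H) = C * (2 * K * w * H) := by ring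
    rw [e4]
    linarith

/-- The dual form of the upper bound. -/
theorem win_upper_dual (K : ℕ) (hK : 1 ≤ K) : ∃ c C : ℝ, 0 < c ∧ 0 < C ∧
    ∀ p : ℝ, 1/4 ≤ p → p ≤ 1/2 → ∀ w h : ℕ, 1 ≤ w → 1 ≤ h → w ≤ K * h → h ≤ K * w →
      1 - hh (1 - p) w h ≤ C * Real.exp (-(c * (w * (1/2 - p)^(4/3 : ℝ)))) := by
  obtain ⟨c, C, hc, hC, hup⟩ := win_upper (2 * K + 1) (by omega)
  have hK0 : (1:ℝ) ≤ K := by exact_mod_cast hK
  refine ⟨min (c / K) 1, max C 3, by positivity, by positivity, ?_⟩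
  intro p hp hp1 w h hw hh1 hwh hhw
  have h0 : 0 ≤ p := by linarith
  have h1 : p ≤ 1 := by linarith
  have hs0 : 0 ≤ 1/2 - p := by linarith
  have hdual := hh_dual (q := 1 - p) (w := (w:ℤ)) (h := (h:ℤ)) (by exact_mod_cast hw)
    (by positivity)
  have e1 : 1 - (1 - p) = p := by ring
  rw [e1] at hdual
  have e2 : 1 - hh (1 - p) w h = hh p ((h:ℤ) + 1) ((w:ℤ) - 1) := by rw [hdual]; ring
  rw [e2]
  obtain ⟨H, hH⟩ : ∃ H : ℝ, H = (1/2 - p)^(4/3 : ℝ) := ⟨_, rfl⟩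
  have hH0 : 0 ≤ H := by rw [hH]; positivity
  have hH1 : H ≤ 1 := by
    rw [hH]
    exact Real.rpow_le_one hs0 (by linarith) (by norm_num)
  have hup' := hup p h0 hp1
  rw [← hH] at hup' ⊢
  have hw0 : (0:ℝ) < w := by exact_mod_cast hw
  rcases eq_or_lt_of_le hw with hw1 | hw2
  · have h3 := hh_le_one h0 h1 ((h:ℤ) + 1) ((w:ℤ) - 1)
    have h4 : Real.exp (-1) ≤ Real.exp (-(min (c / K) 1 * (w * H))) := by
      apply Real.exp_le_exp.mpr
      rw [← hw1, Nat.cast_one, one_mul]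
      have h5 : min (c / K) 1 * H ≤ 1 * 1 :=
        mul_le_mul (min_le_right _ _) hH1 hH0 (by norm_num)
      linarith
    have h5 : (1/3 : ℝ) ≤ Real.exp (-1) := by
      rw [Real.exp_neg, one_div]
      apply inv_anti₀ (Real.exp_pos _)
      have := Real.exp_one_lt_d9
      linarith
    calc hh p ((h:ℤ) + 1) ((w:ℤ) - 1) ≤ 3 * (1/3) := by linarith
      _ ≤ max C 3 * Real.exp (-(min (c / K) 1 * (w * H))) :=
        mul_le_mul (le_max_right _ _) (h5.trans h4) (by norm_num) (by positivity)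
  · obtain ⟨v, hv⟩ : ∃ v : ℕ, w = v + 1 := ⟨w - 1, by omega⟩
    have hv1 : 1 ≤ v := by omega
    have h3 := hup' (h + 1) v (by omega) (by
      have h4 : h ≤ K * (v + 1) := by rw [← hv]; exact hhw
      have h5 : K ≤ K * v := Nat.le_mul_of_pos_right _ hv1
      have h6 : (2 * K + 1) * v = K * v + K * v + v := by ring
      have h7 : K * (v + 1) = K * v + K := by ring
      omega) (by
      have h4 : v + 1 ≤ K * h := by rw [← hv]; exact hwh
      have h6 : (2 * K + 1) * (h + 1) = K * h + K * h + h + 2 * K + 1 := by ring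
      omega)
    have e3 : hh p ((h:ℤ) + 1) ((w:ℤ) - 1) = hh p ((h + 1 : ℕ) : ℤ) (v:ℤ) := by
      rw [hv]; push_cast; congr 1; ring
    rw [e3]
    refine h3.trans ?_
    apply mul_le_mul (le_max_left _ _) _ (Real.exp_pos _).le (by positivity)
    apply Real.exp_le_exp.mpr
    have h4 : (w:ℝ) / K ≤ ((h + 1 : ℕ) : ℝ) := by
      rw [div_le_iff₀ (by positivity)]
      have h5 : w ≤ (h + 1) * K := by
        have h6 : (h + 1) * K = K * h + K := by ring
        omega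
      exact_mod_cast h5
    have h5 : min (c / K) 1 * (w * H) ≤ c / K * (w * H) :=
      mul_le_mul_of_nonneg_right (min_le_left _ _) (by positivity)
    have h6 : c / K * (w * H) = c * ((w:ℝ) / K * H) := by ring
    have h7 : (w:ℝ) / K * H ≤ ((h + 1 : ℕ) : ℝ) * H := mul_le_mul_of_nonneg_right h4 hH0
    have h8 := mul_le_mul_of_nonneg_left h7 hc.le
    linarith

end Pool.Agent.W424.NC
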